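import Pool.Agent.H61.Tu.GamBasic

/-!
# Commutators in the lower central series   [H61 TU GCO]

`⁅gam G i, gam G j⁆ ≤ gam G (i + j + 1)`. Induction on `j` (for all `i`): `j = 0` is the
definition (`gam G 0 = ⊤`). Step: `gam (j+1) = ⁅gam j, ⊤⁆`; three subgroups lemma: Mathlib has
`Subgroup.commutator_commutator_eq_bot_of_rotate` (for `⊥`); apply it in `G ⧸ gam G (i + j + 2)`
to the images, or prove it directly: for normal subgroups `A, B, C, N`: if
`⁅⁅B, C⁆, A⁆ ≤ N` and `⁅⁅C, A⁆, B⁆ ≤ N` then `⁅⁅A, B⁆, C⁆ ≤ N`. Here `⁅gam i, ⁅gam j, ⊤⁆⁆ ≤ N`,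
`N = gam (i+j+2)`, because `⁅⁅gam i, gam j⁆, ⊤⁆ ≤ ⁅gam (i+j+1), ⊤⁆ = N` and
`⁅⁅gam i, ⊤⁆, gam j⁆ = ⁅gam (i+1), gam j⁆ ≤ gam (i + 1 + j + 1) = N`.
-/

namespace Pool.Agent.H61.Tu

open Diagram Relation
open scoped commutatorElement

private theorem gamComm_three {G : Type*} [Group G] (A B C N : Subgroup G) [N.Normal]
    (h1 : ⁅⁅B, C⁆, A⁆ ≤ N) (h2 : ⁅⁅C, A⁆, B⁆ ≤ N) : ⁅⁅A, B⁆, C⁆ ≤ N := by
  have key : ∀ H : Subgroup G, H ≤ N ↔ H.map (QuotientGroup.mk' N) = ⊥ := by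
    intro H
    rw [Subgroup.map_eq_bot_iff, QuotientGroup.ker_mk']
  rw [key, Subgroup.map_commutator, Subgroup.map_commutator] at h1 h2 ⊢
  exact Subgroup.commutator_commutator_eq_bot_of_rotate h1 h2

theorem gam_commutator_le (G : Type*) [Group G] (i j : ℕ) :
    ⁅gam G i, gam G j⁆ ≤ gam G (i + j + 1) := by
  induction j generalizing i with
  | zero => exact le_of_eq rfl
  | succ j ih =>
    have hN : (gam G (i + (j + 1) + 1)).Normal := gam_normal G _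
    have h0 : ⁅gam G i, gam G (j + 1)⁆ = ⁅⁅gam G j, (⊤ : Subgroup G)⁆, gam G i⁆ :=
      Subgroup.commutator_comm _ _
    rw [h0]
    apply gamComm_three
    · rw [Subgroup.commutator_comm (⊤ : Subgroup G) (gam G i)]
      have h1 := ih (i + 1)
      rw [show i + 1 + j + 1 = i + (j + 1) + 1 by omega] at h1
      exact h1
    · have h1 := ih i
      have h2 : ⁅⁅gam G i, gam G j⁆, (⊤ : Subgroup G)⁆ ≤ ⁅gam G (i + j + 1), (⊤ : Subgroup G)⁆ :=
        Subgroup.commutator_mono h1 le_rfl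
      exact h2

theorem commutator_mem_gam' {G : Type*} [Group G] {i j : ℕ} {a b : G} (ha : a ∈ gam G i)
    (hb : b ∈ gam G j) : ⁅a, b⁆ ∈ gam G (i + j + 1) :=
  gam_commutator_le G i j (Subgroup.commutator_mem_commutator ha hb)

end Pool.Agent.H61.Tu
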