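import Pool.Agent.H61.Tu.WD

/-!
# Insertion at the bottom respects the equivalence   [H61 TU ICO]

It is enough to treat one step. Write `F = FreeGroup.map (up S j)`; the words of
`(⟨S, w⟩ : WD n).ins j c` are `map (letterMap ..) c` at `none` and `F (w e)` at `some e`;
`(S.mark (inl j)).src (some e) = up S j (S.src e)` (`mark_src_some`), `src none = inl j`.
* `rename φ`: `WStep.rename` with `φ' = Equiv.optionCongr φ`.
* `mark a`: let `D = ⟨S, w⟩`. `(D.mark a).ins j c` has runs `Option (Option E)` with
  `none` = the new bottom run, `some none` = the mark; and the diagram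
  `(D.ins j c)` marked at `up S j a` has `none` = the mark and `some none` = the bottom run.
  They are related by `WStep.rename` with the equivalence that exchanges `none` and
  `some none`. Check the sources: of the mark: `up S j a`; of a run `e` with `S.src e = a`:
  the arc after the mark; note that `up S j` is injective, that
  `up (S.mark a) j (inr none) = inr (some none)`, and that `up S j b = inr none` iff `b = inl j`.
* `transfer`, `kinkL`, `kinkR`, `slide`, `comm`: the same step at `some e` (and `some f`) with
  the words mapped by `F`. `F (of (S.src e)) = of (src (some e))`,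
  `F (of (inr e)) = of (inr (some e))`, `F (S.rel w f) = rel (some f)`, `F` maps `gam` to `gam`
  (`Subgroup.map_lowerCentralSeries` or `GamBasic.gam_map`), `F` preserves `Unused`
  (`inr e ↦ inr (some e)`; `up S j` is injective) and the word at `none` does not involve
  `inr (some e)`. `insW` of an updated word is the updated `insW` (funext, cases).
-/

namespace Pool.Agent.H61.Tu

open Diagram Relation
open scoped commutatorElement

private theorem insCongr_up_inj {n : ℕ} (S : Sk n) (j : Fin n) :
    Function.Injective (up S j) := by
  intro a b h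
  rcases a with a | a <;> rcases b with b | b
  · by_cases ha : a = j <;> by_cases hb : b = j
    · rw [ha, hb]
    · simp [up, ha, hb] at h
    · simp [up, ha, hb] at h
    · simp only [up, if_neg ha, if_neg hb] at h
      exact congrArg Sum.inl (Sum.inl_injective h)
  · by_cases ha : a = j <;> simp [up, ha] at h
  · by_cases hb : b = j <;> simp [up, hb] at h
  · simp only [up] at h
    exact congrArg Sum.inr (Option.some_injective _ (Sum.inr_injective h))

private theorem insCongr_pos {n : ℕ} (S : Sk n) (a : S.Arc) (e : S.E) (h : S.src e = a) :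
    (S.mark a).src (some e) = Sum.inr none := by
  change markSrc S.src a (some e) = _
  simp only [markSrc]
  rw [if_pos h]

private theorem insCongr_neg {n : ℕ} (S : Sk n) (a : S.Arc) (e : S.E) (h : S.src e ≠ a) :
    (S.mark a).src (some e) = Sum.map id some (S.src e) := by
  change markSrc S.src a (some e) = _
  simp only [markSrc]
  rw [if_neg h]

private theorem insCongr_m1 {A B C : Type} (g : B → C) (f : A → B) (k : A → C)
    (h : ∀ x, g (f x) = k x) (x : FreeGroup A) :
    FreeGroup.map g (FreeGroup.map f x) = FreeGroup.map k x := by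
  rw [FreeGroup.map.comp]
  congr 2
  funext x
  exact h x

private theorem insCongr_m2 {A B B' C : Type} (g : B → C) (f : A → B) (g' : B' → C) (f' : A → B')
    (h : ∀ x, g (f x) = g' (f' x)) (x : FreeGroup A) :
    FreeGroup.map g (FreeGroup.map f x) = FreeGroup.map g' (FreeGroup.map f' x) := by
  rw [FreeGroup.map.comp, FreeGroup.map.comp]
  congr 2
  funext x
  exact h x

private theorem insCongr_m3 {A B C D : Type} (e : C → D) (g : B → C) (f : A → B) (k : A → D)
    (h : ∀ x, e (g (f x)) = k x) (x : FreeGroup A) :
    FreeGroup.map e (FreeGroup.map g (FreeGroup.map f x)) = FreeGroup.map k x := by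
  rw [FreeGroup.map.comp, FreeGroup.map.comp]
  congr 2
  funext x
  exact h x

private theorem insCongr_m4 {A B B' C D : Type} (e : C → D) (g : B → C) (f : A → B)
    (g' : B' → D) (f' : A → B')
    (h : ∀ x, e (g (f x)) = g' (f' x)) (x : FreeGroup A) :
    FreeGroup.map e (FreeGroup.map g (FreeGroup.map f x)) =
      FreeGroup.map g' (FreeGroup.map f' x) := by
  rw [FreeGroup.map.comp, FreeGroup.map.comp, FreeGroup.map.comp]
  congr 2
  funext x
  exact h x

private theorem insCongr_up_ne {n : ℕ} (S : Sk n) (j : Fin n) (a : S.Arc) :
    up S j a ≠ Sum.inl j := by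
  rcases a with a | a
  · by_cases ha : a = j
    · simp [up, ha]
    · simp only [up, if_neg ha]
      exact fun h => ha (Sum.inl_injective h)
  · simp [up]

private noncomputable def insCongrF {n : ℕ} (S : Sk n) (j : Fin n) :
    FreeGroup S.Arc →* FreeGroup (S.mark (Sum.inl j)).Arc := FreeGroup.map (up S j)

private theorem insCongr_upd {n : ℕ} (S : Sk n) (j : Fin n) (c : FreeGroup (Option (Fin n)))
    (w : S.W) (e : S.E) (x : FreeGroup S.Arc) :
    S.insW j c (S.upd w e x) =
      (S.mark (Sum.inl j)).upd (S.insW j c w) (some e) (insCongrF S j x) := by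
  funext o
  rcases o with _ | o
  · have h0 : (none : (S.mark (Sum.inl j)).E) ≠ some e := fun h => by cases h
    rw [Sk.upd_ne _ _ h0]
    rfl
  · by_cases hoe : o = e
    · rw [hoe]
      have h1 : S.insW j c (S.upd w e x) (some e) = FreeGroup.map (up S j) (S.upd w e x e) := rfl
      rw [h1, Sk.upd_same]
      exact (Sk.upd_same (S.mark (Sum.inl j)) (S.insW j c w) (some e) _).symm
    · have h0 : (some o : (S.mark (Sum.inl j)).E) ≠ some e :=
        fun h => hoe (Option.some_injective _ h)
      rw [Sk.upd_ne _ _ h0]
      have h1 : S.insW j c (S.upd w e x) (some o) = FreeGroup.map (up S j) (S.upd w e x o) := rfl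
      rw [h1, Sk.upd_ne S w hoe]
      rfl

private theorem insCongr_unused {n : ℕ} (S : Sk n) (a : S.Arc) {A : Type} (φ : A → S.Arc)
    (P : A → Prop) (h : ∀ x, P x → φ x ≠ a) (c : FreeGroup A)
    (hc : c ∈ Subgroup.closure {g : FreeGroup A | ∃ b, P b ∧ g = FreeGroup.of b}) :
    S.Unused a (FreeGroup.map φ c) := by
  have hle : Subgroup.closure {g : FreeGroup A | ∃ b, P b ∧ g = FreeGroup.of b} ≤
      (Subgroup.closure {g : FreeGroup S.Arc | ∃ b, b ≠ a ∧ g = FreeGroup.of b}).comap
        (FreeGroup.map φ) := by
    rw [Subgroup.closure_le]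
    rintro _ ⟨b, hb, rfl⟩
    rw [Subgroup.coe_comap, Set.mem_preimage, FreeGroup.map.of]
    exact Subgroup.subset_closure ⟨φ b, h b hb, rfl⟩
  exact hle hc

private theorem insCongr_closure {A : Type} (c : FreeGroup A) :
    c ∈ Subgroup.closure {g : FreeGroup A | ∃ b, True ∧ g = FreeGroup.of b} := by
  have h1 : {g : FreeGroup A | ∃ b, True ∧ g = FreeGroup.of b} = Set.range FreeGroup.of := by
    ext g
    constructor
    · rintro ⟨b, _, rfl⟩
      exact ⟨b, rfl⟩
    · rintro ⟨b, rfl⟩
      exact ⟨b, trivial, rfl⟩
  rw [h1, FreeGroup.closure_range_of]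
  exact Subgroup.mem_top c

private theorem insCongr_rename {n m : ℕ} (j : Fin n) (c : FreeGroup (Option (Fin n)))
    (S S' : Sk n) (φ : S.E ≃ S'.E) (h : ∀ e, S'.src (φ e) = Sum.map id φ (S.src e))
    (w : S.W) : Eqv m (WD.ins ⟨S, w⟩ j c) (WD.ins ⟨S', Sk.renW φ w⟩ j c) := by
  let φ' : (S.mark (Sum.inl j)).E ≃ (S'.mark (Sum.inl j)).E := Equiv.optionCongr φ
  have hφn : φ' none = none := rfl
  have hφs : ∀ e, φ' (some e) = some (φ e) := fun _ => rfl
  have hφn' : φ'.symm none = none := rfl
  have hφs' : ∀ e, φ'.symm (some e) = some (φ.symm e) := fun _ => rfl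
  have key : ∀ x : S.Arc, up S' j (Sum.map id φ x) = Sum.map id φ' (up S j x) := by
    intro x
    rcases x with i | e
    · by_cases hi : i = j
      · simp only [Sum.map_inl, id, up, if_pos hi]
        rfl
      · simp only [Sum.map_inl, id, up, if_neg hi]
        rfl
    · rfl
  have hsrc : ∀ e, (S'.mark (Sum.inl j)).src (φ' e) =
      Sum.map id φ' ((S.mark (Sum.inl j)).src e) := by
    intro e
    rcases e with _ | e
    · rfl
    · have h1 : (S'.mark (Sum.inl j)).src (φ' (some e)) = up S' j (S'.src (φ e)) :=
        mark_src_some S' j (φ e)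
      rw [h1, h e, key]
      have h2 : (S.mark (Sum.inl j)).src (some e) = up S j (S.src e) := mark_src_some S j e
      rw [h2]
  have hstep := Eqv.of_step (WStep.rename (m := m) (S.mark (Sum.inl j)) (S'.mark (Sum.inl j))
    φ' hsrc (S.insW j c w))
  have hW : Sk.renW φ' (S.insW j c w) = S'.insW j c (Sk.renW φ w) := by
    funext o
    rcases o with _ | o
    · refine insCongr_m1 (Sum.map id φ') (letterMap (S.mark (Sum.inl j)) none)
        (letterMap (S'.mark (Sum.inl j)) none) ?_ c
      intro o
      rcases o with _ | i <;> rfl
    · exact insCongr_m2 (Sum.map id φ') (up S j) (up S' j) (Sum.map id φ)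
        (fun x => (key x).symm) (w (φ.symm o))
  rw [hW] at hstep
  exact hstep

private theorem insCongr_mark {n m : ℕ} (j : Fin n) (c : FreeGroup (Option (Fin n)))
    (S : Sk n) (w : S.W) (a : S.Arc) :
    Eqv m (WD.ins ⟨S, w⟩ j c) (WD.ins ⟨S.mark a, S.markW a w⟩ j c) := by
  let G1 : Sk n := S.mark (Sum.inl j)
  let a' : G1.Arc := up S j a
  let G2 : Sk n := G1.mark a'
  let G3 : Sk n := (S.mark a).mark (Sum.inl j)
  let φ : G2.E ≃ G3.E :=
    { toFun := fun o => match o with
        | none => some none
        | some none => none
        | some (some e) => some (some e)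
      invFun := fun o => match o with
        | none => some none
        | some none => none
        | some (some e) => some (some e)
      left_inv := by
        intro o
        rcases o with _ | _ | e <;> rfl
      right_inv := by
        intro o
        rcases o with _ | _ | e <;> rfl }
  have key : ∀ x : S.Arc, up (S.mark a) j (Sum.map id some x) =
      Sum.map id φ (Sum.map id some (up S j x)) := by
    intro x
    rcases x with i | e
    · by_cases hi : i = j
      · simp only [Sum.map_inl, id, up, if_pos hi]
        rfl
      · simp only [Sum.map_inl, id, up, if_neg hi]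
        rfl
    · rfl
  have hsrc : ∀ e, G3.src (φ e) = Sum.map id φ (G2.src e) := by
    intro e
    rcases e with _ | _ | e
    · have h1 : G3.src (some none) = up (S.mark a) j ((S.mark a).src none) :=
        mark_src_some (S.mark a) j none
      exact h1.trans (key a)
    · have h1 : G2.src (some none) = Sum.map id some (G1.src none) := by
        refine insCongr_neg G1 a' none ?_
        have h2 : G1.src none = Sum.inl j := mark_src_none S (Sum.inl j)
        rw [h2]
        exact fun h => insCongr_up_ne S j a h.symm
      rw [h1]
      rfl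
    · have h1 : G3.src (some (some e)) = up (S.mark a) j ((S.mark a).src (some e)) :=
        mark_src_some (S.mark a) j (some e)
      have h2 : G1.src (some e) = up S j (S.src e) := mark_src_some S j e
      change G3.src (some (some e)) = _
      rw [h1]
      by_cases he : S.src e = a
      · have h5 : G1.src (some e) = a' := h2.trans (congrArg (up S j) he)
        have h6 := insCongr_pos G1 a' (some e) h5
        have h7 := insCongr_pos S a e he
        rw [h6, h7]
        rfl
      · have h5 : G1.src (some e) ≠ a' := by
          rw [h2]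
          exact fun h => he (insCongr_up_inj S j h)
        have h6 := insCongr_neg G1 a' (some e) h5
        have h7 := insCongr_neg S a e he
        rw [h6, h7, h2]
        exact key _
  have s1 := Eqv.of_step (WStep.mark (m := m) G1 (S.insW j c w) a')
  have s2 := Eqv.of_step (WStep.rename (m := m) G2 G3 φ hsrc (G1.markW a' (S.insW j c w)))
  have hW : Sk.renW φ (G1.markW a' (S.insW j c w)) = (S.mark a).insW j c (S.markW a w) := by
    funext o
    rcases o with _ | _ | e
    · refine insCongr_m3 (Sum.map id φ) (Sum.map id some) (letterMap G1 (none : Option S.E))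
        (letterMap G3 (none : Option (Option S.E))) ?_ c
      intro o
      rcases o with _ | i <;> rfl
    · rfl
    · exact insCongr_m4 (Sum.map id φ) (Sum.map id some) (up S j) (up (S.mark a) j)
        (Sum.map id some) (fun x => (key x).symm) (w e)
  rw [hW] at s2
  exact s1.trans s2

private theorem insCongr_step {n m : ℕ} (j : Fin n) (c : FreeGroup (Option (Fin n)))
    {X X' : WD n} (h : WStep m X X') : Eqv m (X.ins j c) (X'.ins j c) := by
  cases h with
  | rename S S' φ h w => exact insCongr_rename j c S S' φ h w
  | mark S w a => exact insCongr_mark j c S w a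
  | transfer S w e f u hef hw hu =>
    have hsrc : (S.mark (Sum.inl j)).src (some f) = Sum.inr (some e) := by
      have h1 : (S.mark (Sum.inl j)).src (some f) = up S j (S.src f) := mark_src_some S j f
      rw [h1, hef]
      rfl
    have hF : ∀ x, S.Unused (Sum.inr e) x →
        (S.mark (Sum.inl j)).Unused (Sum.inr (some e)) (insCongrF S j x) := by
      intro x hx
      refine insCongr_unused (S.mark (Sum.inl j)) _ (up S j) (fun b => b ≠ Sum.inr e) ?_ x hx
      intro b hb h
      apply hb
      apply insCongr_up_inj S j
      exact h
    have h1 := Eqv.of_step (WStep.transfer (m := m) (S.mark (Sum.inl j)) (S.insW j c w)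
      (some e) (some f) (insCongrF S j u) hsrc (by
        intro o
        rcases o with _ | o
        · refine insCongr_unused (S.mark (Sum.inl j)) _ (letterMap (S.mark (Sum.inl j)) none)
            (fun _ => True) ?_ c (insCongr_closure c)
          intro b _ hb
          rcases b with _ | b
          · cases hb
          · cases hb
        · exact hF _ (hw o)) (hF u hu))
    have h2 : S.insW j c (S.upd (S.upd w e (w e * u)) f (u⁻¹ * w f)) =
        (S.mark (Sum.inl j)).upd ((S.mark (Sum.inl j)).upd (S.insW j c w) (some e)
          (S.insW j c w (some e) * insCongrF S j u)) (some f)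
          ((insCongrF S j u)⁻¹ * S.insW j c w (some f)) := by
      rw [insCongr_upd, insCongr_upd, map_mul, map_mul, map_inv]
      rfl
    rw [← h2] at h1
    exact h1
  | kinkL S w e =>
    have h1 := Eqv.of_step (WStep.kinkL (m := m) (S.mark (Sum.inl j)) (S.insW j c w) (some e))
    have h2 : S.insW j c (S.upd w e (FreeGroup.of (S.src e) * w e)) =
        (S.mark (Sum.inl j)).upd (S.insW j c w) (some e)
          (FreeGroup.of ((S.mark (Sum.inl j)).src (some e)) * S.insW j c w (some e)) := by
      have h3 : (S.mark (Sum.inl j)).src (some e) = up S j (S.src e) := mark_src_some S j e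
      rw [insCongr_upd, h3, map_mul]
      rfl
    rw [← h2] at h1
    exact h1
  | kinkR S w e =>
    have h1 := Eqv.of_step (WStep.kinkR (m := m) (S.mark (Sum.inl j)) (S.insW j c w) (some e))
    have h2 : S.insW j c (S.upd w e (w e * FreeGroup.of (Sum.inr e))) =
        (S.mark (Sum.inl j)).upd (S.insW j c w) (some e)
          (S.insW j c w (some e) * FreeGroup.of (Sum.inr (some e : (S.mark (Sum.inl j)).E))) := by
      rw [insCongr_upd, map_mul]
      rfl
    have h3 := congrArg (WD.mk (S.mark (Sum.inl j))) h2
    have h4 : Eqv m (WD.mk (S.mark (Sum.inl j))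
        (S.insW j c (S.upd w e (w e * FreeGroup.of (Sum.inr e)))))
        (WD.mk (S.mark (Sum.inl j)) ((S.mark (Sum.inl j)).upd (S.insW j c w) (some e)
          (S.insW j c w (some e) *
            FreeGroup.of (Sum.inr (some e : (S.mark (Sum.inl j)).E))))) := by
      rw [h3]
      exact Eqv.refl _
    exact h1.trans h4.symm
  | slide S w e f hfe g =>
    have hne : (some f : (S.mark (Sum.inl j)).E) ≠ some e :=
      fun h => hfe (Option.some_injective _ h)
    have h1 := Eqv.of_step (WStep.slide (m := m) (S.mark (Sum.inl j)) (S.insW j c w) (some e)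
      (some f) hne (insCongrF S j g))
    have h4 : (S.mark (Sum.inl j)).rel (S.insW j c w) (some f) =
        insCongrF S j (S.rel w f) := by
      have h3 : (S.mark (Sum.inl j)).src (some f) = up S j (S.src f) := mark_src_some S j f
      unfold Sk.rel
      rw [h3, map_mul, map_mul, map_mul, map_inv, map_inv]
      rfl
    have h2 : S.insW j c (S.upd w e (w e * (g⁻¹ * S.rel w f * g))) =
        (S.mark (Sum.inl j)).upd (S.insW j c w) (some e)
          (S.insW j c w (some e) * ((insCongrF S j g)⁻¹ *
            (S.mark (Sum.inl j)).rel (S.insW j c w) (some f) * insCongrF S j g)) := by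
      rw [insCongr_upd, h4, map_mul, map_mul, map_mul, map_inv]
      rfl
    rw [← h2] at h1
    exact h1
  | comm S w e d hd =>
    have h1 := Eqv.of_step (WStep.comm (m := m) (S.mark (Sum.inl j)) (S.insW j c w) (some e)
      (insCongrF S j d) (by
        have h0 : insCongrF S j d ∈
            ((⊤ : Subgroup (FreeGroup S.Arc)).lowerCentralSeries m).map
              (insCongrF S j) := Subgroup.mem_map_of_mem _ hd
        rw [Subgroup.map_lowerCentralSeries] at h0
        exact Subgroup.lowerCentralSeries_mono m le_top h0))
    have h2 : S.insW j c (S.upd w e (w e * d)) =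
        (S.mark (Sum.inl j)).upd (S.insW j c w) (some e)
          (S.insW j c w (some e) * insCongrF S j d) := by
      rw [insCongr_upd, map_mul]
      rfl
    rw [← h2] at h1
    exact h1

theorem ins_congr {n m : ℕ} (j : Fin n) (c : FreeGroup (Option (Fin n))) {X X' : WD n}
    (h : Eqv m X X') : Eqv m (X.ins j c) (X'.ins j c) := by
  induction h with
  | rel _ _ h => exact insCongr_step j c h
  | refl _ => exact Eqv.refl _
  | symm _ _ _ ih => exact ih.symm
  | trans _ _ _ _ _ ih1 ih2 => exact ih1.trans ih2

end Pool.Agent.H61.Tu
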