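import Pool.Agent.H61.Tu.Relators

/-!
# Insertion of the trivial word   [H61 TU IONE]

* `ins_congr_word`: `(X.ins j c')` arises from `X.ins j c` by `WStep.comm` at the run `none`
  with `map (letterMap ..) (c⁻¹ * c') ∈ gam` (`gam_map`).
* `ins_one`: `X = ⟨S, w⟩`, `G = S.mark (inl j)`. The words of `X.ins j 1` are `1` at `none` and
  `map (up S j) (w e)` at `some e`. Those of the marked diagram are `1` and
  `map (Sum.map id some) (w e)`. By `eqv_relator` with `g = none` (relator
  `(of (inr none))⁻¹ * 1⁻¹ * of (inl j) * 1`) they are equivalent: the letters `up S j a` and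
  `Sum.map id some a` are equal except for `a = inl j`, where they are `inr none` and `inl j`.
  (The two homs `FreeGroup S.Arc →* FreeGroup G.Arc ⧸ normalClosure {rel none}` agree on the
  letters.) Then `WStep.mark` with `a = inl j`, backwards.
* `ins_of_gam`: for `c ∈ gam _ m`: `ins_congr_word` with `c' = 1`, and `ins_one`.
* `ins_kink`: `X.ins j (yy n)` has the word `of (inr none)` at `none`: `WStep.kinkR` from
  `X.ins j 1`; `X.ins j (xx j)` has the word `of (inl j) = of (src none)`: `WStep.kinkL`.
-/

namespace Pool.Agent.H61.Tu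

open Diagram Relation
open scoped commutatorElement

/-- the new run -/
def insNone {n : ℕ} (S : Sk n) (a : S.Arc) : (S.mark a).E := (none : Option S.E)

/-- the old runs -/
def insSome {n : ℕ} (S : Sk n) (a : S.Arc) (e : S.E) : (S.mark a).E := (some e : Option S.E)

theorem insSome_ne {n : ℕ} (S : Sk n) (a : S.Arc) (e : S.E) : insSome S a e ≠ insNone S a := by
  intro h
  exact Option.some_ne_none e h

theorem ins_ext {n : ℕ} (S : Sk n) (a : S.Arc) (w w' : (S.mark a).W)
    (h0 : w (insNone S a) = w' (insNone S a))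
    (h1 : ∀ e, w (insSome S a e) = w' (insSome S a e)) : w = w' := by
  funext o
  have : ∀ o : Option S.E, w o = w' o := by
    intro o
    rcases o with _ | e
    · exact h0
    · exact h1 e
  exact this o

/-- the old arcs after marking -/
def insOld {n : ℕ} (S : Sk n) (a : S.Arc) : S.Arc → (S.mark a).Arc := Sum.map id some

/-- the old arcs after insertion -/
def insUp {n : ℕ} (S : Sk n) (j : Fin n) : S.Arc → (S.mark (Sum.inl j)).Arc := up S j

theorem ins_congr_word {n m : ℕ} (X : WD n) (j : Fin n) {c c' : FreeGroup (Option (Fin n))}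
    (h : c⁻¹ * c' ∈ gam (FreeGroup (Option (Fin n))) m) :
    Eqv m (X.ins j c) (X.ins j c') := by
  have h1 : X.S.insW j c' X.w = (X.S.mark (Sum.inl j)).upd (X.S.insW j c X.w)
      (insNone X.S (Sum.inl j)) (X.S.insW j c X.w (insNone X.S (Sum.inl j)) *
        FreeGroup.map (letterMap (X.S.mark (Sum.inl j)) (insNone X.S (Sum.inl j)))
          (c⁻¹ * c')) := by
    apply ins_ext
    · rw [Sk.upd_same]
      change FreeGroup.map (letterMap (X.S.mark (Sum.inl j)) (insNone X.S (Sum.inl j))) c' =
        FreeGroup.map (letterMap (X.S.mark (Sum.inl j)) (insNone X.S (Sum.inl j))) c * _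
      rw [← map_mul, mul_inv_cancel_left]
    · intro e
      rw [Sk.upd_ne _ _ (insSome_ne _ _ e)]
      rfl
  have h2 := Eqv.of_step (WStep.comm (m := m) (X.S.mark (Sum.inl j)) (X.S.insW j c X.w)
    (insNone X.S (Sum.inl j))
    (FreeGroup.map (letterMap (X.S.mark (Sum.inl j)) (insNone X.S (Sum.inl j))) (c⁻¹ * c'))
    (gam_map _ m h))
  rw [← h1] at h2
  exact h2

theorem ins_one {n : ℕ} (m : ℕ) (X : WD n) (j : Fin n) : Eqv m (X.ins j 1) X := by
  have h1 : Eqv m ⟨X.S.mark (Sum.inl j), X.S.markW (Sum.inl j) X.w⟩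
      ⟨X.S.mark (Sum.inl j), X.S.insW j 1 X.w⟩ := by
    refine eqv_relator m (X.S.mark (Sum.inl j)) _ _ (insNone X.S (Sum.inl j)) ?_ ?_
    · change FreeGroup.map (letterMap (X.S.mark (Sum.inl j)) (insNone X.S (Sum.inl j))) 1 = 1
      rw [map_one]
    · obtain ⟨N, hN⟩ : ∃ N : Subgroup (FreeGroup (X.S.mark (Sum.inl j)).Arc),
          N = Subgroup.normalClosure
            {(X.S.mark (Sum.inl j)).rel (X.S.markW (Sum.inl j) X.w)
              (insNone X.S (Sum.inl j))} := ⟨_, rfl⟩
      have hNn : N.Normal := by
        rw [hN]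
        infer_instance
      have hrel : (FreeGroup.of (Sum.inl j : (X.S.mark (Sum.inl j)).Arc))⁻¹ *
          FreeGroup.of (Sum.inr (insNone X.S (Sum.inl j))) ∈ N := by
        have h2 : (X.S.mark (Sum.inl j)).rel (X.S.markW (Sum.inl j) X.w)
            (insNone X.S (Sum.inl j)) ∈ N := by
          rw [hN]
          exact Subgroup.subset_normalClosure rfl
        have h3 : (X.S.mark (Sum.inl j)).rel (X.S.markW (Sum.inl j) X.w)
            (insNone X.S (Sum.inl j)) =
            (FreeGroup.of (Sum.inr (insNone X.S (Sum.inl j)) :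
              (X.S.mark (Sum.inl j)).Arc))⁻¹ * FreeGroup.of (Sum.inl j) := by
          have h4 : (X.S.mark (Sum.inl j)).rel (X.S.markW (Sum.inl j) X.w)
            (insNone X.S (Sum.inl j)) =
            (FreeGroup.of (Sum.inr (insNone X.S (Sum.inl j)) :
              (X.S.mark (Sum.inl j)).Arc))⁻¹ * 1⁻¹ *
              FreeGroup.of (Sum.inl j : (X.S.mark (Sum.inl j)).Arc) * 1 := rfl
          rw [h4, inv_one, mul_one, mul_one]
        rw [h3] at h2
        have h4 := N.inv_mem h2
        rw [mul_inv_rev, inv_inv] at h4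
        exact h4
      have hhom : (QuotientGroup.mk' N).comp (FreeGroup.map (insOld X.S (Sum.inl j))) =
          (QuotientGroup.mk' N).comp (FreeGroup.map (insUp X.S j)) := by
        apply FreeGroup.ext_hom
        intro a
        rw [MonoidHom.comp_apply, MonoidHom.comp_apply, FreeGroup.map.of, FreeGroup.map.of]
        rcases a with i | f
        · by_cases hij : i = j
          · subst hij
            have e1 : insUp X.S i (Sum.inl i) = Sum.inr (insNone X.S (Sum.inl i)) := by
              change up X.S i (Sum.inl i) = _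
              rw [up, if_pos rfl]
              rfl
            rw [e1]
            exact QuotientGroup.eq.2 hrel
          · have e1 : insUp X.S j (Sum.inl i) = Sum.inl i := by
              change up X.S j (Sum.inl i) = _
              rw [up, if_neg hij]
              rfl
            rw [e1]
            rfl
        · rfl
      have key : ∀ e, ((X.S.markW (Sum.inl j) X.w) (insSome X.S (Sum.inl j) e))⁻¹ *
          (X.S.insW j 1 X.w) (insSome X.S (Sum.inl j) e) ∈ N := by
        intro e
        have h5 := DFunLike.congr_fun hhom (X.w e)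
        rw [MonoidHom.comp_apply, MonoidHom.comp_apply] at h5
        exact QuotientGroup.eq.1 h5
      intro o ho
      unfold Nrel1
      apply Subgroup.mem_sup_left
      rw [← hN]
      have key2 : ∀ o : Option X.S.E, o ≠ none → ((X.S.markW (Sum.inl j) X.w) o)⁻¹ *
          (X.S.insW j 1 X.w) o ∈ N := by
        intro o ho
        rcases o with _ | e
        · exact absurd rfl ho
        · exact key e
      exact key2 o ho
  exact h1.symm.trans (Eqv.of_step (WStep.mark X.S X.w (Sum.inl j))).symm

theorem ins_of_gam {n m : ℕ} (X : WD n) (j : Fin n) {c : FreeGroup (Option (Fin n))}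
    (hc : c ∈ gam (FreeGroup (Option (Fin n))) m) : Eqv m (X.ins j c) X := by
  refine (ins_congr_word X j (c := c) (c' := 1) ?_).trans (ins_one m X j)
  rw [mul_one]
  exact inv_mem hc

theorem ins_kink {n : ℕ} (m : ℕ) (X : WD n) (j : Fin n) :
    Eqv m (X.ins j (yy n)) X ∧ Eqv m (X.ins j (xx j)) X := by
  have h0 : X.S.insW j 1 X.w (insNone X.S (Sum.inl j)) = 1 := by
    change FreeGroup.map (letterMap (X.S.mark (Sum.inl j)) (insNone X.S (Sum.inl j))) 1 = 1
    rw [map_one]
  constructor
  · have h1 : X.S.insW j (yy n) X.w = (X.S.mark (Sum.inl j)).upd (X.S.insW j 1 X.w)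
        (insNone X.S (Sum.inl j))
        (X.S.insW j 1 X.w (insNone X.S (Sum.inl j)) *
          FreeGroup.of (Sum.inr (insNone X.S (Sum.inl j)))) := by
      apply ins_ext
      · rw [Sk.upd_same, h0, one_mul]
        change FreeGroup.map (letterMap (X.S.mark (Sum.inl j)) (insNone X.S (Sum.inl j)))
          (FreeGroup.of none) = _
        rw [FreeGroup.map.of]
        rfl
      · intro e
        rw [Sk.upd_ne _ _ (insSome_ne _ _ e)]
        rfl
    have h2 := Eqv.of_step (WStep.kinkR (m := m) (X.S.mark (Sum.inl j)) (X.S.insW j 1 X.w)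
      (insNone X.S (Sum.inl j)))
    rw [← h1] at h2
    exact h2.symm.trans (ins_one m X j)
  · have h1 : X.S.insW j (xx j) X.w = (X.S.mark (Sum.inl j)).upd (X.S.insW j 1 X.w)
        (insNone X.S (Sum.inl j))
        (FreeGroup.of ((X.S.mark (Sum.inl j)).src (insNone X.S (Sum.inl j))) *
          X.S.insW j 1 X.w (insNone X.S (Sum.inl j))) := by
      apply ins_ext
      · rw [Sk.upd_same, h0, mul_one]
        change FreeGroup.map (letterMap (X.S.mark (Sum.inl j)) (insNone X.S (Sum.inl j)))
          (FreeGroup.of (some j)) = _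
        rw [FreeGroup.map.of]
        rfl
      · intro e
        rw [Sk.upd_ne _ _ (insSome_ne _ _ e)]
        rfl
    have h2 := Eqv.of_step (WStep.kinkL (m := m) (X.S.mark (Sum.inl j)) (X.S.insW j 1 X.w)
      (insNone X.S (Sum.inl j)))
    rw [← h1] at h2
    exact h2.symm.trans (ins_one m X j)

end Pool.Agent.H61.Tu
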