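import Pool.Agent.H61.Tu.GamBasic

/-!
# Change of words modulo relators   [H61 TU REL]

* `eqv_update_mul`: for `c ∈ Nrel S w e m`: `Eqv m ⟨S, w⟩ ⟨S, S.upd w e (w e * c)⟩`.
  `Nrel` is the join of a normal closure and the normal subgroup `gam`. Let `C` be the set of
  the `c` such that for all `u`: `Eqv m ⟨S, S.upd w e u⟩ ⟨S, S.upd w e (u * c)⟩`. It is a
  subgroup (`S.upd (S.upd w e u) e v = S.upd w e v`). It contains `gam` (`WStep.comm` applied to
  the diagram `⟨S, S.upd w e u⟩`, whose word at `e` is `u`) and all conjugates
  `g⁻¹ * S.rel w f * g`, `f ≠ e` (`WStep.slide`; `S.rel (S.upd w e u) f = S.rel w f` as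
  `f ≠ e`). Hence it contains the normal closure (`Subgroup.normalClosure` is the closure of
  the conjugates: `Subgroup.normalClosure_le_normal` needs normality, so better
  `Subgroup.closure_le` on `Group.conjugatesOfSet`) and `Subgroup.sup`.
* `eqv_update`, `eqv_update_update`: corollaries.
* `eqv_relator`: change the words of the runs one after the other: for a finite set `F` of
  runs not containing `g` (`Finset.induction_on`, `S.finite`), the diagram with the words `w'` on
  `F` and `w` elsewhere is equivalent to `⟨S, w⟩`, because `Nrel1 S w g m ≤ Nrel S w₁ e m` for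
  every `w₁` with `w₁ g = w g` and every `e ≠ g`.
-/

namespace Pool.Agent.H61.Tu

open Diagram Relation
open scoped commutatorElement

private theorem relators_rel_congr {n : ℕ} (S : Sk n) {w w' : S.W} {f : S.E} (h : w' f = w f) :
    S.rel w' f = S.rel w f := by
  unfold Sk.rel
  rw [h]

private theorem relators_core {n : ℕ} (m : ℕ) (S : Sk n) (w : S.W) (e : S.E)
    (c : FreeGroup S.Arc) (hc : c ∈ Nrel S w e m) :
    ∀ u, Eqv m ⟨S, S.upd w e u⟩ ⟨S, S.upd w e (u * c)⟩ := by
  let C : Subgroup (FreeGroup S.Arc) :=
    { carrier := {c | ∀ u, Eqv m ⟨S, S.upd w e u⟩ ⟨S, S.upd w e (u * c)⟩}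
      one_mem' := by
        intro u
        rw [mul_one]
        exact Eqv.refl _
      mul_mem' := by
        intro a b ha hb u
        have h1 := ha u
        have h2 := hb (u * a)
        rw [mul_assoc] at h2
        exact h1.trans h2
      inv_mem' := by
        intro a ha u
        have h1 := ha (u * a⁻¹)
        rw [inv_mul_cancel_right] at h1
        exact h1.symm }
  have hC : Nrel S w e m ≤ C := by
    unfold Nrel
    refine sup_le ?_ ?_
    · rw [Subgroup.normalClosure, Subgroup.closure_le]
      intro x hx
      rw [Group.mem_conjugatesOfSet_iff] at hx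
      obtain ⟨a, ⟨f, hfe, rfl⟩, hconj⟩ := hx
      obtain ⟨g, hg⟩ := isConj_iff.1 hconj
      intro u
      have h := WStep.slide (m := m) S (S.upd w e u) e f hfe g⁻¹
      have h1 : S.rel (S.upd w e u) f = S.rel w f := relators_rel_congr S (S.upd_ne w hfe u)
      rw [Sk.upd_same, Sk.upd_upd, h1, inv_inv, hg] at h
      exact Eqv.of_step h
    · intro c hc u
      have h := WStep.comm (m := m) S (S.upd w e u) e c hc
      rw [Sk.upd_same, Sk.upd_upd] at h
      exact Eqv.of_step h
  exact hC hc

theorem eqv_update {n : ℕ} (m : ℕ) (S : Sk n) (w : S.W) (e : S.E) (u : FreeGroup S.Arc)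
    (h : (w e)⁻¹ * u ∈ Nrel S w e m) : Eqv m ⟨S, w⟩ ⟨S, S.upd w e u⟩ := by
  have h1 := relators_core m S w e _ h (w e)
  rw [Sk.upd_self, mul_inv_cancel_left] at h1
  exact h1

theorem eqv_update_update {n : ℕ} (m : ℕ) (S : Sk n) (w : S.W) (e : S.E)
    (u u' : FreeGroup S.Arc) (h : u⁻¹ * u' ∈ Nrel S w e m) :
    Eqv m ⟨S, S.upd w e u⟩ ⟨S, S.upd w e u'⟩ := by
  have h1 := relators_core m S w e _ h u
  rw [mul_inv_cancel_left] at h1
  exact h1

theorem eqv_relator {n : ℕ} (m : ℕ) (S : Sk n) (w w' : S.W) (g : S.E) (hg : w' g = w g)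
    (h : ∀ e, e ≠ g → (w e)⁻¹ * w' e ∈ Nrel1 S w g m) : Eqv m ⟨S, w⟩ ⟨S, w'⟩ := by
  classical
  have hfin := S.finite
  have hft : Fintype S.E := Fintype.ofFinite S.E
  have key : ∀ F : Finset S.E, Eqv m ⟨S, w⟩ ⟨S, fun e => if e ∈ F then w' e else w e⟩ := by
    intro F
    induction F using Finset.induction_on with
    | empty =>
      have h0 : (fun e => if e ∈ (∅ : Finset S.E) then w' e else w e) = w := by
        funext e
        simp
      rw [h0]
      exact Eqv.refl _
    | insert a F ha ih =>
      have h0 : (fun e => if e ∈ insert a F then w' e else w e) =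
          S.upd (fun e => if e ∈ F then w' e else w e) a (w' a) := by
        funext e
        by_cases hea : e = a
        · subst hea
          simp
        · rw [Sk.upd_ne S _ hea]
          simp [hea]
      rw [h0]
      refine ih.trans ?_
      apply eqv_update
      simp only [if_neg ha]
      by_cases hag : a = g
      · rw [hag, hg, inv_mul_cancel]
        exact one_mem _
      · have h1 := h a hag
        have hrel : S.rel (fun e => if e ∈ F then w' e else w e) g = S.rel w g := by
          apply relators_rel_congr
          by_cases hgF : g ∈ F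
          · simp [hgF, hg]
          · simp [hgF]
        have hle : Nrel1 S w g m ≤ Nrel S (fun e => if e ∈ F then w' e else w e) a m := by
          unfold Nrel1 Nrel
          refine sup_le_sup_right (Subgroup.normalClosure_mono ?_) _
          rintro x rfl
          exact ⟨g, fun hh => hag hh.symm, hrel.symm⟩
        exact hle h1
  have h1 := key Finset.univ
  have h2 : (fun e => if e ∈ (Finset.univ : Finset S.E) then w' e else w e) = w' := by
    funext e
    simp
  rw [h2] at h1
  exact h1

end Pool.Agent.H61.Tu
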