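import Pool.Agent.H61.Tu.HomCongr
import Pool.Agent.H61.Tu.Relators

/-!
# Change of letters in a word of the lower central series   [H61 TU LET]

Let `N` be the normal closure of the relators `S.rel w f`, `f ≠ e`, `G = F ⧸ N`,
`F = FreeGroup S.Arc`, `π : F → G`. Apply `hom_congr` to `φ₁ = π`,
`φ₂ = π ∘ FreeGroup.lift σ` and `A = Set.range FreeGroup.of` (`FreeGroup.closure_range_of`).
The hypothesis: `(of a)⁻¹ * σ a ∈ N ⊔ gam F 1` maps into `gam G 1` (`gam_map`). The conclusion: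
`π (c⁻¹ * lift σ c) ∈ gam G (m+1)`. Since `π` is surjective, `gam G (m+1)` is the image of
`gam F (m+1)` (`Subgroup.map_lowerCentralSeries`), so `c⁻¹ * lift σ c ∈ N ⊔ gam F (m+1)`
(`Subgroup.mem_map`, kernel `N`).
`letter_change_map`: special case in which every letter is replaced by a letter.
-/

namespace Pool.Agent.H61.Tu

open Diagram Relation
open scoped commutatorElement

private theorem letterChange_main {n m : ℕ} (S : Sk n) (w : S.W) (e : S.E) {A : Type}
    (σ τ : A → FreeGroup S.Arc) (hσ : ∀ a, (σ a)⁻¹ * τ a ∈ Nrel S w e 1)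
    (c : FreeGroup A) (hc : c ∈ gam (FreeGroup A) m) :
    (FreeGroup.lift σ c)⁻¹ * FreeGroup.lift τ c ∈ Nrel S w e (m + 1) := by
  let N : Subgroup (FreeGroup S.Arc) :=
    Subgroup.normalClosure {g : FreeGroup S.Arc | ∃ f, f ≠ e ∧ g = S.rel w f}
  have hNn : N.Normal := Subgroup.normalClosure_normal
  let π : FreeGroup S.Arc →* FreeGroup S.Arc ⧸ N := QuotientGroup.mk' N
  have h := hom_congr (Set.range (FreeGroup.of : A → FreeGroup A)) (FreeGroup.closure_range_of A)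
    (π.comp (FreeGroup.lift σ)) (π.comp (FreeGroup.lift τ)) (by
      rintro _ ⟨a, rfl⟩
      have h1 : (π.comp (FreeGroup.lift σ) (FreeGroup.of a))⁻¹ *
          π.comp (FreeGroup.lift τ) (FreeGroup.of a) = π ((σ a)⁻¹ * τ a) := by
        simp [π]
      rw [h1]
      have hσa : (σ a)⁻¹ * τ a ∈ N ⊔ gam (FreeGroup S.Arc) 1 := hσ a
      obtain ⟨x, hx, y, hy, hxy⟩ := Subgroup.mem_sup_of_normal_left.1 hσa
      rw [← hxy, map_mul]
      have h2 : π x = 1 := (QuotientGroup.eq_one_iff _).2 hx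
      rw [h2, one_mul]
      exact gam_map π 1 hy) m c hc
  have h1 : (gam (FreeGroup S.Arc) (m + 1)).map π = gam (FreeGroup S.Arc ⧸ N) (m + 1) := by
    rw [Subgroup.map_lowerCentralSeries,
      Subgroup.map_top_of_surjective _ (QuotientGroup.mk'_surjective _)]
  rw [← h1] at h
  obtain ⟨g, hg, hgx⟩ := h
  have h2 : π g = π ((FreeGroup.lift σ c)⁻¹ * FreeGroup.lift τ c) := by
    rw [hgx]
    simp
  have h3 : g⁻¹ * ((FreeGroup.lift σ c)⁻¹ * FreeGroup.lift τ c) ∈ N := QuotientGroup.eq.1 h2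
  have h4 : (FreeGroup.lift σ c)⁻¹ * FreeGroup.lift τ c =
      g * (g⁻¹ * ((FreeGroup.lift σ c)⁻¹ * FreeGroup.lift τ c)) := by group
  rw [h4]
  unfold Nrel
  exact mul_mem (Subgroup.mem_sup_right hg) (Subgroup.mem_sup_left h3)

theorem letter_change {n m : ℕ} (S : Sk n) (w : S.W) (e : S.E) (σ : S.Arc → FreeGroup S.Arc)
    (hσ : ∀ a, (FreeGroup.of a)⁻¹ * σ a ∈ Nrel S w e 1) (c : FreeGroup S.Arc)
    (hc : c ∈ gam (FreeGroup S.Arc) m) : c⁻¹ * FreeGroup.lift σ c ∈ Nrel S w e (m + 1) := by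
  have h := letterChange_main S w e FreeGroup.of σ hσ c hc
  rwa [FreeGroup.lift_of_apply] at h

/-- version for a word in other letters -/
theorem letter_change_map {n m : ℕ} (S : Sk n) (w : S.W) (e : S.E) {A : Type}
    (σ τ : A → FreeGroup S.Arc) (hσ : ∀ a, (σ a)⁻¹ * τ a ∈ Nrel S w e 1)
    (c : FreeGroup A) (hc : c ∈ gam (FreeGroup A) m) :
    (FreeGroup.lift σ c)⁻¹ * FreeGroup.lift τ c ∈ Nrel S w e (m + 1) :=
  letterChange_main S w e σ τ hσ c hc

end Pool.Agent.H61.Tu
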