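import Pool.Agent.H61.Tu.WD

/-!
# Strands   [H61 TU PATH]

* `path_exists`: `Sk.arc_induction`.
* `path_unique`: induction on `h : S.Path w j a u`, cases on `h'` (for `a = inr e` both come
  from `step e`, apply the induction hypothesis at `src e`).
* `isLong_exists`: `S.acyclic` gives `r : S.E → ℕ`. Let `R (inl i) = 0`, `R (inr e) = r e + 1`.
  The set of the arcs on the strand `j` is finite (`S.finite`) and nonempty (`inl j`); an arc `a`
  with maximal `R a` is not a source: if `src e = a` then `inr e` is on the strand `j` and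
  `R (inr e) > R a` (for `a = inl i`: `r e + 1 > 0`; for `a = inr f`: `r e > r f`).
* `isLong_unique`: both arcs `a`, `a'` are on the strand `j` and are not sources. Show: if
  `S.Path w j a u` and `S.Path w j a' u'` and `a` is not a source and `a'` is not a source then
  `a = a'`. E.g. by the claim: for every path `S.Path w j a u` and every path `S.Path w j a' u'`,
  one of the arcs lies on the path to the other. Convenient: define by `Sk.exists_rec` the set
  `B a ⊆ S.Arc` of the arcs below or equal to `a` (`B (inl i) = {inl i}`,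
  `B (inr e) = insert (inr e) (B (src e))`). Claim: if `a`, `a'` are on the strand `j` then
  `a ∈ B a'` or `a' ∈ B a` (induction on the path to `a`: for `a = inl j` it is in `B a'` by
  induction on the path to `a'`; for `a = inr e` use the claim for `src e`: if `a' ∈ B (src e)`
  done; if `src e ∈ B a'` then either `src e = a'`, done since `a' ∈ B (inr e)`, or some
  `inr f ∈ B a'` has `src f = src e`, so `f = e` by `S.inj`). And if `a ∈ B a'`, `a ≠ a'`, then
  `a = src f` for some `f`. Then `a = a'`, and `path_unique` gives `u = u'`.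
* `path_col`: induction on the path.
-/

namespace Pool.Agent.H61.Tu

open Diagram Relation
open scoped commutatorElement

theorem path_exists {n : ℕ} (S : Sk n) (w : S.W) (a : S.Arc) : ∃ j u, S.Path w j a u := by
  revert a
  refine S.arc_induction ?_ ?_
  · intro i
    exact ⟨i, 1, Sk.Path.base⟩
  · rintro e ⟨j, u, h⟩
    exact ⟨j, u * w e, Sk.Path.step e u h⟩

theorem path_unique {n : ℕ} {S : Sk n} {w : S.W} {j j' : Fin n} {a : S.Arc}
    {u u' : FreeGroup S.Arc} (h : S.Path w j a u) (h' : S.Path w j' a u') : j = j' ∧ u = u' := by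
  obtain ⟨g, hg0, hg1⟩ := S.exists_rec (T := Fin n × FreeGroup S.Arc) (fun i => (i, 1))
    (fun e t => (t.1, t.2 * w e))
  have key : ∀ (k : Fin n) (b : S.Arc) (v : FreeGroup S.Arc), S.Path w k b v →
      g b = (k, v) := by
    intro k b v hb
    induction hb with
    | base => exact hg0 k
    | step e v _ ih => rw [hg1 e, ih]
  have h1 := (key j a u h).symm.trans (key j' a u' h')
  exact ⟨congrArg Prod.fst h1, congrArg Prod.snd h1⟩

theorem isLong_exists {n : ℕ} (S : Sk n) (w : S.W) (j : Fin n) : ∃ u, S.IsLong w j u := by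
  obtain ⟨r, hr⟩ := S.acyclic
  have hfin := S.finite
  have hfA : Finite S.Arc := inferInstance
  obtain ⟨a, ⟨u, ha⟩, hmax⟩ := Set.exists_max_image {a : S.Arc | ∃ u, S.Path w j a u}
    (Sum.elim (fun _ => 0) (fun e => r e + 1)) (Set.toFinite _) ⟨Sum.inl j, 1, Sk.Path.base⟩
  refine ⟨u, a, ha, ?_⟩
  intro e he
  subst he
  have h1 := hmax (Sum.inr e) ⟨u * w e, Sk.Path.step e u ha⟩
  rcases hs : S.src e with i | f
  · rw [hs] at h1
    simp at h1
  · rw [hs] at h1
    have h2 := hr e f hs
    simp only [Sum.elim_inr] at h1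
    omega

private def nxt {n : ℕ} (S : Sk n) (a b : S.Arc) : Prop := ∃ e, S.src e = a ∧ b = Sum.inr e

private theorem path_reach {n : ℕ} {S : Sk n} {w : S.W} {j : Fin n} {a : S.Arc}
    {u : FreeGroup S.Arc} (h : S.Path w j a u) : Relation.ReflTransGen (nxt S) (Sum.inl j) a := by
  induction h with
  | base => exact Relation.ReflTransGen.refl
  | step e v _ ih => exact ih.tail ⟨e, rfl, rfl⟩

private theorem top_eq {n : ℕ} {S : Sk n} {a b : S.Arc} (ha : ∀ e, S.src e ≠ a)
    (h : Relation.ReflTransGen (nxt S) a b) : a = b := by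
  rcases h.cases_head with h1 | ⟨c, ⟨e, he, _⟩, _⟩
  · exact h1
  · exact absurd he (ha e)

theorem isLong_unique {n : ℕ} {S : Sk n} {w : S.W} {j : Fin n} {u u' : FreeGroup S.Arc}
    (h : S.IsLong w j u) (h' : S.IsLong w j u') : u = u' := by
  obtain ⟨a, p, ha⟩ := h
  obtain ⟨a', p', ha'⟩ := h'
  have hU : Relator.RightUnique (nxt S) := by
    rintro x y z ⟨e, he, rfl⟩ ⟨f, hf, rfl⟩
    rw [S.inj (he.trans hf.symm)]
  have haa : a = a' := by
    rcases Relation.ReflTransGen.total_of_right_unique hU (path_reach p) (path_reach p') with h | h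
    · exact top_eq ha h
    · exact (top_eq ha' h).symm
  subst haa
  exact (path_unique p p').2

theorem path_col {n : ℕ} {S : Sk n} {w : S.W} {H : Type*} [Group H] {x : Fin n → H}
    {ρ : S.Arc → H} (hρ : S.IsCol w x ρ) {j : Fin n} {a : S.Arc} {u : FreeGroup S.Arc}
    (h : S.Path w j a u) : ρ a = (FreeGroup.lift ρ u)⁻¹ * x j * FreeGroup.lift ρ u := by
  induction h with
  | base => rw [hρ.1 j, map_one]; simp
  | step e v _ ih =>
    rw [hρ.2 e, ih, map_mul, mul_inv_rev]
    group

end Pool.Agent.H61.Tu
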