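import Pool.Agent.H61.Tu.MoveBlock
import Pool.Agent.H61.Tu.LetterChange
import Pool.Agent.H61.Tu.InsOne
import Pool.Agent.H61.Tu.Paths

/-!
# A block of the lower central series may be put at the bottom   [H61 TU PLA]

Write `ι_e = FreeGroup.map (letterMap S e)` (letters `some i ↦ inl i`, `none ↦ inr e`).
Induction on the path to `inr e` (for all runs on the strand `j`), i.e. on `S.Path w j a u` with
`a = S.src e`.
* Case `S.src e = inl j`. Let `G = S.mark (inl j)`, `v = S.insW j 1 w`. Then
  `S.insW j c w = G.upd v none (v none * map (letterMap G none) c)` (`v none = 1`). By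
  `letter_change_map` (and `eqv_update_update`) the letter `inr none` may be replaced by
  `inr (some e)`: they are conjugate modulo the relator of `some e` (its source is `inr none` by
  `mark_src_some`), so congruent modulo `Nrel G v none 1`. Call the new word `c₁`; it does not
  involve `inr none`. By `move_block` (`none`, `some e`):
  `≡ ⟨G, G.upd v (some e) (v (some e) * c₁)⟩`. On the other hand
  `S.insW j 1 (S.upd w e (w e * ι_e c)) = G.upd v (some e) (v (some e) * map (up S j) (ι_e c))`,
  and `map (up S j) (ι_e c)` differs from `c₁` only in the letter `inr none` instead of `inl j`,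
  which are equal modulo the relator of `none` (word `1`): `letter_change_map` again. Finally
  `ins_one` for `⟨S, S.upd w e (w e * ι_e c)⟩`.
* Case `S.src e = inr f` (so `f` is on the strand `j`, induction hypothesis for `f`):
  `ι_e c` does not involve `inr f`, so by `move_block` (runs `f`, `e`)
  `⟨S, S.upd w e (w e * ι_e c)⟩ ≡ ⟨S, S.upd w f (w f * ι_e c)⟩`, and at the run `f` the letter
  `inr e` may be replaced by `inr f` (relator of `e`, `e ≠ f`), giving `ι_f c`.
-/

namespace Pool.Agent.H61.Tu

open Diagram Relation
open scoped commutatorElement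

private theorem place_rel {n : ℕ} (S : Sk n) (w : S.W) {e g : S.E} (h : e ≠ g) :
    (FreeGroup.of (Sum.inr e) : FreeGroup S.Arc)⁻¹ * FreeGroup.of (S.src e) ∈ Nrel S w g 1 := by
  have h1 : (FreeGroup.of (Sum.inr e) : FreeGroup S.Arc)⁻¹ * FreeGroup.of (S.src e) =
      S.rel w e * ⁅(w e)⁻¹, (FreeGroup.of (S.src e))⁻¹⁆ := by
    unfold Sk.rel
    rw [commutatorElement_def]
    group
  rw [h1]
  unfold Nrel
  refine mul_mem (Subgroup.mem_sup_left (Subgroup.subset_normalClosure ⟨e, h, rfl⟩))
    (Subgroup.mem_sup_right ?_)
  have h0 : (w e)⁻¹ ∈ gam (FreeGroup S.Arc) 0 := Subgroup.mem_top _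
  exact (commutator_mem_gam h0 _).1

private theorem place_rel' {n : ℕ} (S : Sk n) (w : S.W) {e g : S.E} (h : e ≠ g) :
    (FreeGroup.of (S.src e) : FreeGroup S.Arc)⁻¹ * FreeGroup.of (Sum.inr e) ∈ Nrel S w g 1 := by
  have h1 := inv_mem (place_rel S w h)
  rwa [mul_inv_rev, inv_inv] at h1

private theorem place_unused {n : ℕ} (S : Sk n) (a : S.Arc) {A : Type} (φ : A → S.Arc)
    (h : ∀ x, φ x ≠ a) (c : FreeGroup A) : S.Unused a (FreeGroup.map φ c) := by
  unfold Sk.Unused
  induction c using FreeGroup.induction_on with
  | C1 => rw [map_one]; exact one_mem _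
  | of x =>
    rw [FreeGroup.map.of]
    exact Subgroup.subset_closure ⟨φ x, h x, rfl⟩
  | inv_of x _ =>
    rw [map_inv, FreeGroup.map.of]
    exact inv_mem (Subgroup.subset_closure ⟨φ x, h x, rfl⟩)
  | mul x y hx hy =>
    rw [map_mul]
    exact mul_mem hx hy

private theorem place_letter {n m : ℕ} (S : Sk n) (w : S.W) (e : S.E) {A : Type}
    (φ ψ : A → S.Arc)
    (hσ : ∀ a, (FreeGroup.of (φ a) : FreeGroup S.Arc)⁻¹ * FreeGroup.of (ψ a) ∈ Nrel S w e 1)
    (c : FreeGroup A) (hc : c ∈ gam (FreeGroup A) m) (u : FreeGroup S.Arc) :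
    Eqv (m + 1) ⟨S, S.upd w e (u * FreeGroup.map φ c)⟩ ⟨S, S.upd w e (u * FreeGroup.map ψ c)⟩ := by
  apply eqv_update_update
  have h := letter_change_map S w e (fun a => FreeGroup.of (φ a)) (fun a => FreeGroup.of (ψ a))
    hσ c hc
  have h1 : (u * FreeGroup.map φ c)⁻¹ * (u * FreeGroup.map ψ c) =
      (FreeGroup.map φ c)⁻¹ * FreeGroup.map ψ c := by group
  rw [h1, FreeGroup.map_eq_lift, FreeGroup.map_eq_lift]
  exact h

private theorem place_base {n m : ℕ} (S : Sk n) (w : S.W) (j : Fin n) (e : S.E)
    (he : S.src e = Sum.inl j) (c : FreeGroup (Option (Fin n)))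
    (hc : c ∈ gam (FreeGroup (Option (Fin n))) m) :
    Eqv (m + 1) ⟨S, S.upd w e (w e * FreeGroup.map (letterMap S e) c)⟩
      (WD.ins ⟨S, w⟩ j c) := by
  let G : Sk n := S.mark (Sum.inl j)
  let v : G.W := S.insW j 1 w
  let no : G.E := none
  let se : G.E := some e
  have hne : se ≠ no := Option.some_ne_none e
  have hv : v no = 1 := map_one _
  have hsrc : G.src se = Sum.inr no := by
    have h1 : G.src se = up S j (S.src e) := mark_src_some S j e
    rw [h1, he]
    simp only [up, if_true]
    rfl
  have hsrcn : G.src no = Sum.inl j := mark_src_none S (Sum.inl j)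
  have hA : WD.ins ⟨S, w⟩ j c = ⟨G, G.upd v no (1 * FreeGroup.map (letterMap G no) c)⟩ := by
    unfold WD.ins
    congr 1
    funext o
    rcases o with _ | o
    · rw [one_mul]
      exact (G.upd_same v no _).symm
    · have h1 : (some o : G.E) ≠ no := Option.some_ne_none o
      rw [G.upd_ne v h1]
      rfl
  have hB := place_letter G v no (letterMap G no) (letterMap G se) (by
    intro o
    rcases o with _ | i
    · have h1 := place_rel' G v hne
      rw [hsrc] at h1
      exact h1
    · have h1 : (FreeGroup.of (letterMap G no (some i)) : FreeGroup G.Arc)⁻¹ *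
          FreeGroup.of (letterMap G se (some i)) = 1 := inv_mul_cancel _
      rw [h1]
      exact one_mem _) c hc 1
  have hC := move_block G v no se hsrc (FreeGroup.map (letterMap G se) c) (gam_map _ m hc)
    (place_unused G _ _ (by
      intro o
      rcases o with _ | i
      · exact fun h => hne (Sum.inr_injective h)
      · exact fun h => by cases h) c)
  rw [hv] at hC
  let φ₂ : Option (Fin n) → G.Arc := fun o => up S j (letterMap S e o)
  have hD := place_letter G v se (letterMap G se) φ₂ (by
    intro o
    rcases o with _ | i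
    · have h1 : (FreeGroup.of (letterMap G se none) : FreeGroup G.Arc)⁻¹ *
          FreeGroup.of (φ₂ none) = 1 := inv_mul_cancel _
      rw [h1]
      exact one_mem _
    · by_cases hij : i = j
      · have h1 := place_rel' G v hne.symm
        rw [hsrcn] at h1
        have h2 : φ₂ (some i) = Sum.inr no := by
          simp only [φ₂, letterMap, up, if_pos hij]
          rfl
        have h3 : letterMap G se (some i) = Sum.inl j := by
          rw [hij]
          rfl
        rw [h2, h3]
        exact h1
      · have h2 : φ₂ (some i) = letterMap G se (some i) := by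
          simp only [φ₂, letterMap, up, if_neg hij]
          rfl
        rw [h2, inv_mul_cancel]
        exact one_mem _) c hc (v se)
  have hE : WD.ins ⟨S, S.upd w e (w e * FreeGroup.map (letterMap S e) c)⟩ j 1 =
      ⟨G, G.upd v se (v se * FreeGroup.map φ₂ c)⟩ := by
    unfold WD.ins
    congr 1
    funext o
    rcases o with _ | o
    · rw [G.upd_ne v hne.symm]
      rfl
    · by_cases hoe : o = e
      · rw [hoe]
        have h1 : S.insW j 1 (S.upd w e (w e * FreeGroup.map (letterMap S e) c)) (some e) =
            FreeGroup.map (up S j) (S.upd w e (w e * FreeGroup.map (letterMap S e) c) e) := rfl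
        rw [h1, Sk.upd_same, map_mul, FreeGroup.map.comp]
        exact (G.upd_same v se _).symm
      · have h1 : S.insW j 1 (S.upd w e (w e * FreeGroup.map (letterMap S e) c)) (some o) =
            FreeGroup.map (up S j) (S.upd w e (w e * FreeGroup.map (letterMap S e) c) o) := rfl
        have h2 : (some o : G.E) ≠ se := fun h => hoe (Option.some_injective _ h)
        rw [h1, S.upd_ne w hoe, G.upd_ne v h2]
        rfl
  rw [hA]
  have hF := ins_one (m + 1) ⟨S, S.upd w e (w e * FreeGroup.map (letterMap S e) c)⟩ j
  rw [hE] at hF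
  exact hF.symm.trans (hD.symm.trans (hC.symm.trans hB.symm))

private theorem place_path {n m : ℕ} (S : Sk n) (w : S.W) (j : Fin n)
    (c : FreeGroup (Option (Fin n))) (hc : c ∈ gam (FreeGroup (Option (Fin n))) m)
    {a : S.Arc} {u : FreeGroup S.Arc} (h : S.Path w j a u) :
    ∀ e, S.src e = a → Eqv (m + 1) ⟨S, S.upd w e (w e * FreeGroup.map (letterMap S e) c)⟩
      (WD.ins ⟨S, w⟩ j c) := by
  induction h with
  | base => exact fun e he => place_base S w j e he c hc
  | step f u _ ih =>
    intro e he
    have h1 := ih f rfl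
    have hne : e ≠ f := S.ne_of_src he
    have h2 := move_block S w f e he (FreeGroup.map (letterMap S e) c) (gam_map _ m hc)
      (place_unused S _ _ (by
        intro o
        rcases o with _ | i
        · exact fun h => hne (Sum.inr_injective h)
        · exact fun h => by cases h) c)
    have h3 := place_letter S w f (letterMap S e) (letterMap S f) (by
      intro o
      rcases o with _ | i
      · have h1 := place_rel S w hne
        rw [he] at h1
        exact h1
      · have h1 : (FreeGroup.of (letterMap S e (some i)) : FreeGroup S.Arc)⁻¹ *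
            FreeGroup.of (letterMap S f (some i)) = 1 := inv_mul_cancel _
        rw [h1]
        exact one_mem _) c hc (w f)
    exact h2.symm.trans (h3.trans h1)

theorem place {n m : ℕ} (S : Sk n) (w : S.W) (j : Fin n) (e : S.E)
    (hp : ∃ u, S.Path w j (Sum.inr e) u) (c : FreeGroup (Option (Fin n)))
    (hc : c ∈ gam (FreeGroup (Option (Fin n))) m) :
    Eqv (m + 1) ⟨S, S.upd w e (w e * FreeGroup.map (letterMap S e) c)⟩
      (WD.ins ⟨S, w⟩ j c) := by
  obtain ⟨u, hu⟩ := hp
  cases hu with
  | step _ u' h => exact place_path S w j c hc h e rfl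

end Pool.Agent.H61.Tu
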