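import Pool.Agent.H61.Tu.TwoEdge
import Pool.Agent.H61.Tu.Place
import Pool.Agent.H61.Tu.InsCongr

/-!
# The second relation between insertions   [H61 TU TB]

One strand `j`; `z` a list of letters of length `k`. Put `X₁ = X.ins j 1` and
`X₂ = X₁.ins j 1 = ⟨S₂, w₂⟩` (`≡ X`). In `S₂`: `e := none`, `src e = inl j`; `f := some none`,
`src f = up _ j (inl j) = inr none = inr e` (`mark_src_some`); both words are `1`; both runs are
on the strand `j`. Let `ζ : Option (Fin n) → S₂.Arc`: `some l ↦ inl l` for `l ≠ j`,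
`some j ↦ inr none (= inr e = src f)`, `none ↦ inr (some none) (= inr f)`.
`two_edge k S₂ w₂ e f .. (z.map ζ)`:
* left side, at `e`: `⁅of (src f), rn .. (of (inr e))⁆ * ⁅of (src f), rn .. (of (src e))⁆⁻¹` with
  `of (src f) = of (inr e)`, `of (src e) = of (inl j)`; in the letters `ζ z` replace `inr f` by
  `inr e` (equal modulo the relator of `f`, word `1`). This gives `map (letterMap S₂ e) c₁`,
  `c₁ = ⁅yy, rn (ofs z') yy⁆ * ⁅yy, rn (ofs z') (xx j)⁆⁻¹`,
  `z' = z.map fun o => if o = some j then none else o`. By `place` `≡ X₂.ins j c₁`.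
* right side, at `f`: `rn .. ⁅of (inl j), of (inr f)⁆ * (rn .. ⁅of (inl j), of (src f)⁆)⁻¹`;
  replace `src f = inr e` by `inl j` in it (relator of `e`, word `1`), also in the letters `ζ z`:
  this gives `map (letterMap S₂ f) c₂` with
  `c₂ = rn (ofs z) ⁅xx j, yy⁆ * (rn (ofs z) ⁅xx j, xx j⁆)⁻¹ = rn (ofs z) ⁅xx j, yy⁆` (`rn_one`). By
  `place` `≡ X₂.ins j c₂`.
-/

namespace Pool.Agent.H61.Tu

open Diagram Relation
open scoped commutatorElement

private theorem twoB_rn_map {G H : Type*} [Group G] [Group H] (φ : G →* H) (l : List G) (g : G) :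
    φ (rn l g) = rn (l.map φ) (φ g) := by
  induction l with
  | nil => rfl
  | cons z l ih => rw [rn_cons, List.map_cons, rn_cons, ← ih, map_commutatorElement]

private theorem twoB_zero {G : Type*} [Group G] (g : G) : g ∈ gam G 0 := by
  have h : gam G 0 = ⊤ := rfl
  rw [h]
  exact Subgroup.mem_top g

private theorem twoB_normal {n : ℕ} (S : Sk n) (w : S.W) (e : S.E) (m : ℕ) :
    (Nrel S w e m).Normal := by
  have := gam_normal (FreeGroup S.Arc) m
  unfold Nrel
  infer_instance

/-- if the word of the run `f` is trivial then its two arcs are equal modulo its relator -/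
private theorem twoB_mk {n : ℕ} (S : Sk n) (w : S.W) (e f : S.E) (m : ℕ) (hef : f ≠ e)
    (hf : w f = 1) [(Nrel S w e m).Normal] :
    (QuotientGroup.mk' (Nrel S w e m)) (FreeGroup.of (Sum.inr f)) =
      (QuotientGroup.mk' (Nrel S w e m)) (FreeGroup.of (S.src f)) := by
  rw [QuotientGroup.mk'_apply, QuotientGroup.mk'_apply, QuotientGroup.eq]
  have h1 : (FreeGroup.of (Sum.inr f) : FreeGroup S.Arc)⁻¹ * FreeGroup.of (S.src f) =
      S.rel w f := by
    unfold Sk.rel
    rw [hf, inv_one, mul_one, mul_one]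
  rw [h1]
  refine Subgroup.mem_sup_left (Subgroup.subset_normalClosure ⟨f, hef, rfl⟩)

theorem ins_rel_b {n : ℕ} (k : ℕ) (j : Fin n) (z : List (Option (Fin n)))
    (hz : z.length = k) (X : WD n) :
    Eqv (k + 2)
      (X.ins j (⁅yy n, rn (ofs (z.map fun o => if o = some j then none else o)) (yy n)⁆ *
        ⁅yy n, rn (ofs (z.map fun o => if o = some j then none else o)) (xx j)⁆⁻¹))
      (X.ins j (rn (ofs z) ⁅xx j, yy n⁆)) := by
  classical
  obtain ⟨c₁, hc₁⟩ : ∃ c₁, c₁ = ⁅yy n, rn (ofs (z.map fun o => if o = some j then none else o))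
      (yy n)⁆ * ⁅yy n, rn (ofs (z.map fun o => if o = some j then none else o)) (xx j)⁆⁻¹ :=
    ⟨_, rfl⟩
  obtain ⟨c₂, hc₂⟩ : ∃ c₂, c₂ = rn (ofs z) ⁅xx j, yy n⁆ := ⟨_, rfl⟩
  rw [← hc₁, ← hc₂]
  have hc₁m : c₁ ∈ gam (FreeGroup (Option (Fin n))) (k + 1) := by
    have h1 : ∀ g : FreeGroup (Option (Fin n)),
        ⁅yy n, rn (ofs (z.map fun o => if o = some j then none else o)) g⁆ ∈
          gam (FreeGroup (Option (Fin n))) (k + 1) := by
      intro g
      refine (commutator_mem_gam ?_ (yy n)).2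
      have h2 := rn_mem (ofs (z.map fun o => if o = some j then none else o)) (twoB_zero g)
      rw [List.length_map, List.length_map, hz, zero_add] at h2
      exact h2
    rw [hc₁]
    exact mul_mem (h1 _) (inv_mem (h1 _))
  have hc₂m : c₂ ∈ gam (FreeGroup (Option (Fin n))) (k + 1) := by
    have h1 : ⁅xx j, yy n⁆ ∈ gam (FreeGroup (Option (Fin n))) 1 :=
      (commutator_mem_gam (twoB_zero _) _).1
    have h2 := rn_mem (ofs z) h1
    rw [List.length_map, hz, add_comm] at h2
    rw [hc₂]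
    exact h2
  -- the diagram with two more runs
  obtain ⟨X₁, hX₁⟩ : ∃ X₁ : WD n, X₁ = X.ins j 1 := ⟨_, rfl⟩
  have hE : Eqv (k + 2) (X₁.ins j 1) X := by
    refine (ins_one (k + 2) X₁ j).trans ?_
    rw [hX₁]
    exact ins_one (k + 2) X j
  have hw1 : X₁.ins j 1 = ⟨(X.S.mark (Sum.inl j)).mark (Sum.inl j),
      (X.S.mark (Sum.inl j)).insW j 1 (X.S.insW j 1 X.w)⟩ := by
    rw [hX₁]
    rfl
  rw [hw1] at hE
  obtain ⟨S₂, hS₂⟩ : ∃ S₂ : Sk n, S₂ = (X.S.mark (Sum.inl j)).mark (Sum.inl j) := ⟨_, rfl⟩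
  obtain ⟨w₂, e, f, hef, hse, hsf, hwe, hwf, hE⟩ : ∃ (w₂ : S₂.W) (e f : S₂.E), e ≠ f ∧
      S₂.src e = Sum.inl j ∧ S₂.src f = Sum.inr e ∧ w₂ e = 1 ∧ w₂ f = 1 ∧
      Eqv (k + 2) ⟨S₂, w₂⟩ X := by
    subst hS₂
    refine ⟨(X.S.mark (Sum.inl j)).insW j 1 (X.S.insW j 1 X.w), none, some none, ?_, ?_, ?_, ?_,
      ?_, hE⟩
    · exact fun h => Option.some_ne_none _ h.symm
    · rfl
    · refine (mark_src_some (X.S.mark (Sum.inl j)) j (none : Option X.S.E)).trans ?_
      show up (X.S.mark (Sum.inl j)) j (Sum.inl j) = Sum.inr none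
      simp [up]
    · exact map_one _
    · show FreeGroup.map _ (FreeGroup.map _ 1) = 1
      rw [map_one, map_one]
  obtain ⟨ζ, hζ0, hζj, hζ⟩ : ∃ ζ : Option (Fin n) → S₂.Arc, ζ none = Sum.inr f ∧
      ζ (some j) = Sum.inr e ∧ ∀ l, l ≠ j → ζ (some l) = Sum.inl l := by
    refine ⟨fun o => match o with
      | none => Sum.inr f
      | some l => if l = j then Sum.inr e else Sum.inl l, rfl, by simp, fun l hl => by simp [hl]⟩
  have htwo := two_edge k S₂ w₂ e f hef hwe hwf (z.map ζ) (by rw [List.length_map, hz])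
  rw [hse, hsf] at htwo
  have hpe : ∃ u, S₂.Path w₂ j (Sum.inr e) u := by
    refine ⟨1 * w₂ e, Sk.Path.step e 1 ?_⟩
    rw [hse]
    exact Sk.Path.base
  have hpf : ∃ u, S₂.Path w₂ j (Sum.inr f) u := by
    obtain ⟨u, hu⟩ := hpe
    refine ⟨u * w₂ f, Sk.Path.step f u ?_⟩
    rw [hsf]
    exact hu
  have hpl1 := place S₂ w₂ j e hpe c₁ hc₁m
  have hpl2 := place S₂ w₂ j f hpf c₂ hc₂m
  rw [hwe, one_mul] at hpl1
  rw [hwf, one_mul] at hpl2
  have hi1 : Eqv (k + 2) (WD.ins ⟨S₂, w₂⟩ j c₁) (X.ins j c₁) := ins_congr j c₁ hE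
  have hi2 : Eqv (k + 2) (WD.ins ⟨S₂, w₂⟩ j c₂) (X.ins j c₂) := ins_congr j c₂ hE
  refine (hpl1.trans hi1).symm.trans (Eqv.trans ?_ (hpl2.trans hi2))
  refine Eqv.trans (Eqv.symm ?_) (htwo.trans ?_)
  · -- the words at `e`
    refine eqv_update_update (k + 2) S₂ w₂ e _ _ ?_
    have hN := twoB_normal S₂ w₂ e (k + 2)
    rw [← QuotientGroup.eq, ← QuotientGroup.mk'_apply, ← QuotientGroup.mk'_apply]
    have hm := twoB_mk S₂ w₂ e f (k + 2) hef.symm hwf
    rw [hsf] at hm
    obtain ⟨q, hq⟩ : ∃ q, q = QuotientGroup.mk' (Nrel S₂ w₂ e (k + 2)) := ⟨_, rfl⟩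
    rw [← hq] at hm ⊢
    have hl : ((z.map ζ).map FreeGroup.of).map q =
        ((ofs (z.map fun o => if o = some j then none else o)).map
          (FreeGroup.map (letterMap S₂ e))).map q := by
      rw [List.map_map, List.map_map, List.map_map, List.map_map, List.map_map]
      refine List.map_congr_left fun o _ => ?_
      simp only [Function.comp_apply]
      rcases o with _ | l
      · rw [hζ0, hm]
        simp [letterMap]
      · by_cases hlj : l = j
        · subst hlj
          rw [hζj]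
          simp [letterMap]
        · rw [hζ l hlj]
          have h1 : ¬ (some l = some j) := fun h => hlj (Option.some.inj h)
          simp [letterMap, hlj]
    have hy : FreeGroup.map (letterMap S₂ e) (yy n) = FreeGroup.of (Sum.inr e) := by
      rw [FreeGroup.map.of]
      rfl
    have hx : FreeGroup.map (letterMap S₂ e) (xx j) = FreeGroup.of (Sum.inl j) := by
      rw [FreeGroup.map.of]
      rfl
    rw [hc₁, map_mul, map_mul, map_mul, map_inv, map_inv, map_inv, map_commutatorElement,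
      map_commutatorElement, map_commutatorElement, map_commutatorElement,
      map_commutatorElement, map_commutatorElement, twoB_rn_map, twoB_rn_map,
      twoB_rn_map (FreeGroup.map (letterMap S₂ e)), twoB_rn_map (FreeGroup.map (letterMap S₂ e)),
      twoB_rn_map q, twoB_rn_map q, hl, hy, hx]
  · -- the words at `f`
    refine eqv_update_update (k + 2) S₂ w₂ f _ _ ?_
    have hN := twoB_normal S₂ w₂ f (k + 2)
    rw [← QuotientGroup.eq, ← QuotientGroup.mk'_apply, ← QuotientGroup.mk'_apply]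
    have hm := twoB_mk S₂ w₂ f e (k + 2) hef hwe
    rw [hse] at hm
    obtain ⟨q, hq⟩ : ∃ q, q = QuotientGroup.mk' (Nrel S₂ w₂ f (k + 2)) := ⟨_, rfl⟩
    rw [← hq] at hm ⊢
    have hl : ((z.map ζ).map FreeGroup.of).map q =
        ((ofs z).map (FreeGroup.map (letterMap S₂ f))).map q := by
      rw [List.map_map, List.map_map, List.map_map, List.map_map]
      refine List.map_congr_left fun o _ => ?_
      simp only [Function.comp_apply]
      rcases o with _ | l
      · rw [hζ0]
        simp [letterMap]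
      · by_cases hlj : l = j
        · subst hlj
          rw [hζj, hm]
          simp [letterMap]
        · rw [hζ l hlj]
          simp [letterMap]
    have hy : FreeGroup.map (letterMap S₂ f) (yy n) = FreeGroup.of (Sum.inr f) := by
      rw [FreeGroup.map.of]
      rfl
    have hx : FreeGroup.map (letterMap S₂ f) (xx j) = FreeGroup.of (Sum.inl j) := by
      rw [FreeGroup.map.of]
      rfl
    rw [hc₂, map_mul, map_inv, twoB_rn_map q, twoB_rn_map q, map_commutatorElement q,
      map_commutatorElement q, hm, commutatorElement_self, rn_one, inv_one, mul_one,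
      twoB_rn_map (FreeGroup.map (letterMap S₂ f)), twoB_rn_map q, hl, map_commutatorElement,
      map_commutatorElement, hy, hx]

end Pool.Agent.H61.Tu
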