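import Pool.Agent.H61.Tu.TwoA
import Pool.Agent.H61.Tu.TwoB

/-!
# The action satisfies the algebraic relations   [H61 TU ABD]

`b_mul`, `b_gam` are fields of `Act`. `t1`: `m = k + 1`; by `A.faithful` it is enough that both
sides act in the same way on `Quot.mk _ X` (every element of the quotient is of this form):
`A.act_b` (the arguments are in `gam (k+1)`: `rn_mem`, `commutator_mem_gam`, `mul_mem`,
`inv_mem`; letters are in `gam _ 0 = ⊤`), `ins_rel_a`, `Quot.eqvGen_sound`. `t2` the same with
`ins_rel_b`. `kink`: `ins_kink 1`, and `A.act_zero`.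
-/

namespace Pool.Agent.H61.Tu

open Diagram Relation
open scoped commutatorElement

private theorem actBData_eq {n m : ℕ} (A : Act n m) {i j : Fin n}
    {c c' : FreeGroup (Option (Fin n))} (hc : c ∈ gam (FreeGroup (Option (Fin n))) m)
    (hc' : c' ∈ gam (FreeGroup (Option (Fin n))) m)
    (h : ∀ X : WD n, Eqv (m + 1) (X.ins j c) (X.ins i c')) : A.b j c = A.b i c' := by
  apply A.faithful
  intro q
  induction q using Quot.ind with
  | mk X =>
    rw [A.act_b j c hc X, A.act_b i c' hc' X]
    exact Quot.eqvGen_sound (h X)

private theorem actBData_rn {n : ℕ} (l : List (Option (Fin n)))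
    (g : FreeGroup (Option (Fin n))) :
    rn (ofs l) g ∈ gam (FreeGroup (Option (Fin n))) l.length := by
  have h0 : g ∈ gam (FreeGroup (Option (Fin n))) 0 := Subgroup.mem_top g
  have h := rn_mem (ofs l) h0
  rw [zero_add] at h
  have hl : (ofs l).length = l.length := List.length_map _
  rwa [hl] at h

private theorem actBData_rn1 {n : ℕ} (l : List (Option (Fin n)))
    (x y : FreeGroup (Option (Fin n))) :
    rn (ofs l) ⁅x, y⁆ ∈ gam (FreeGroup (Option (Fin n))) (l.length + 1) := by
  have h0 : x ∈ gam (FreeGroup (Option (Fin n))) 0 := Subgroup.mem_top x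
  have h1 := (commutator_mem_gam h0 y).1
  have h := rn_mem (ofs l) h1
  have hl : (ofs l).length = l.length := List.length_map _
  rw [hl, show 0 + 1 + l.length = l.length + 1 by omega] at h
  exact h

theorem act_bdata {n m : ℕ} (A : Act n m) : BData n m A.β A.b := by
  refine ⟨A.b_mul, A.b_gam, ?_, ?_, ?_⟩
  · intro i j hij z hz
    subst hz
    refine actBData_eq A ?_ ?_ (fun X => ins_rel_a z.length i j hij z rfl X)
    · have h1 := actBData_rn (z.map fun o => some (sub i o)) (yy n)
      have h2 := actBData_rn (z.map fun o => some (sub i o)) (xx j)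
      rw [List.length_map] at h1 h2
      exact mul_mem (commutator_mem_gam h1 (xx i)).2 (inv_mem (commutator_mem_gam h2 (xx i)).2)
    · exact mul_mem (actBData_rn1 z _ _) (inv_mem (actBData_rn1 z _ _))
  · intro j z hz
    subst hz
    refine actBData_eq A ?_ ?_ (fun X => ins_rel_b z.length j z rfl X)
    · have h1 := actBData_rn (z.map fun o => if o = some j then none else o) (yy n)
      have h2 := actBData_rn (z.map fun o => if o = some j then none else o) (xx j)
      rw [List.length_map] at h1 h2
      exact mul_mem (commutator_mem_gam h1 (yy n)).2 (inv_mem (commutator_mem_gam h2 (yy n)).2)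
    · exact actBData_rn1 z _ _
  · intro hm j
    subst hm
    constructor
    · apply A.faithful
      intro q
      induction q using Quot.ind with
      | mk X =>
        rw [A.act_b j _ (Subgroup.mem_top _) X, A.act_zero]
        exact Quot.eqvGen_sound (ins_kink 1 X j).1
    · apply A.faithful
      intro q
      induction q using Quot.ind with
      | mk X =>
        rw [A.act_b j _ (Subgroup.mem_top _) X, A.act_zero]
        exact Quot.eqvGen_sound (ins_kink 1 X j).2

end Pool.Agent.H61.Tu
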