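import Pool.Agent.H61.Tu.Place
import Pool.Agent.H61.Tu.InsCongr

/-!
# The group of insertions   [H61 TU ACT]

`Q = Quot (WStep (m+1))`; `Quot.mk _ X = Quot.mk _ Y` iff `Eqv (m+1) X Y`
(`Quot.eqvGen_exact`, `Quot.eqvGen_sound`). For `j` and any `c` let `Ψ j c : Q → Q` be the map
`Quot.mk _ X ↦ Quot.mk _ (X.ins j c)` (`ins_congr`). For `c, c' ∈ gam m`:
* `Ψ j 1 = id` (`ins_one`), `Ψ j c = id` for `c ∈ gam (m+1)` (`ins_of_gam`), and
  `Ψ j c = Ψ j c'` if `c⁻¹ * c' ∈ gam (m+1)` (`ins_congr_word`).
* `Ψ j c (Ψ j c' q) = Ψ j (c' * c) q`: `q` is the class of `X₁ = X.ins j 1`, which has the run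
  `e = none` on the strand `j`. By `place` (applied to `X₁`, then to the changed diagram)
  `X₁.ins j c' ≡ Y`, `Y` = `X₁` with the word at `e` multiplied by `map (letterMap ..) c'`, and
  `Y.ins j c ≡` (`Y` with the word at `e` multiplied by `map .. c`) = (`X₁` with the word at `e`
  multiplied by `map .. (c' * c)`) `≡ X₁.ins j (c' * c)`.
* `Ψ j (c' * c) = Ψ j (c * c')`, as they differ by a commutator, in `gam (m+1)`.
* `Ψ i c` and `Ψ j c'` commute, `i ≠ j`: `q` is the class of `X₂ = (X.ins j 1).ins i 1`, with the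
  runs `f = none` on the strand `i` and `e = some none` on the strand `j`; both products are the
  class of `X₂` with the words at `e` and `f` multiplied (`place` twice, `upd_comm`).
So the bijections `Ψ j c` (inverse `Ψ j c⁻¹`), `c ∈ gam m`, of `Q` commute, and generate a
commutative subgroup `K` of `Equiv.Perm Q` (`Subgroup.closureCommGroupOfComm` or
`Subgroup.isMulCommutative_closure`...). Take `β = Additive K`, `act x q = (x : Perm Q) q`,
`b j c =` the element `Ψ j c` if `c ∈ gam m` and `0` otherwise.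
-/

namespace Pool.Agent.H61.Tu

open Diagram Relation
open scoped commutatorElement

/-- insertion on the classes -/
private noncomputable def actPsi {n m : ℕ} (j : Fin n) (c : FreeGroup (Option (Fin n))) :
    Quot (WStep (n := n) (m + 1)) → Quot (WStep (n := n) (m + 1)) :=
  Quot.lift (fun X => Quot.mk _ (X.ins j c))
    (fun _ _ h => Quot.eqvGen_sound (ins_congr j c (Eqv.of_step h)))

private theorem actPsi_mk {n m : ℕ} (j : Fin n) (c : FreeGroup (Option (Fin n))) (X : WD n) :
    actPsi (m := m) j c (Quot.mk _ X) = Quot.mk _ (X.ins j c) := rfl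

private theorem actPsi_gam {n m : ℕ} (j : Fin n) {c : FreeGroup (Option (Fin n))}
    (hc : c ∈ gam (FreeGroup (Option (Fin n))) (m + 1)) (q : Quot (WStep (n := n) (m + 1))) :
    actPsi j c q = q := by
  induction q using Quot.ind with
  | mk X => exact Quot.eqvGen_sound (ins_of_gam X j hc)

private theorem actPsi_congr {n m : ℕ} (j : Fin n) {c c' : FreeGroup (Option (Fin n))}
    (h : c⁻¹ * c' ∈ gam (FreeGroup (Option (Fin n))) (m + 1))
    (q : Quot (WStep (n := n) (m + 1))) : actPsi j c q = actPsi j c' q := by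
  induction q using Quot.ind with
  | mk X => exact Quot.eqvGen_sound (ins_congr_word X j h)

private theorem actPsi_place {n m : ℕ} (S : Sk n) (w : S.W) (j : Fin n) (e : S.E)
    (he : S.src e = Sum.inl j) (c : FreeGroup (Option (Fin n)))
    (hc : c ∈ gam (FreeGroup (Option (Fin n))) m) :
    actPsi (m := m) j c (Quot.mk _ ⟨S, w⟩) =
      Quot.mk _ ⟨S, S.upd w e (w e * FreeGroup.map (letterMap S e) c)⟩ := by
  have hp : ∃ u, S.Path w j (Sum.inr e) u := by
    refine ⟨_, Sk.Path.step e 1 ?_⟩
    rw [he]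
    exact Sk.Path.base
  rw [actPsi_mk]
  exact (Quot.eqvGen_sound (place S w j e hp c hc)).symm

private theorem actPsi_mul {n m : ℕ} (j : Fin n) {c c' : FreeGroup (Option (Fin n))}
    (hc : c ∈ gam (FreeGroup (Option (Fin n))) m)
    (hc' : c' ∈ gam (FreeGroup (Option (Fin n))) m)
    (q : Quot (WStep (n := n) (m + 1))) : actPsi j c (actPsi j c' q) = actPsi j (c' * c) q := by
  induction q using Quot.ind with
  | mk X =>
    let S : Sk n := X.S.mark (Sum.inl j)
    let w : S.W := X.S.insW j 1 X.w
    have h0 : (Quot.mk _ X : Quot (WStep (n := n) (m + 1))) = Quot.mk _ ⟨S, w⟩ :=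
      (Quot.eqvGen_sound (ins_one (m + 1) X j)).symm
    let e : S.E := none
    have he : S.src e = Sum.inl j := mark_src_none X.S (Sum.inl j)
    rw [h0, actPsi_place S w j e he c' hc', actPsi_place S _ j e he c hc,
      actPsi_place S w j e he (c' * c) (mul_mem hc' hc), Sk.upd_same, Sk.upd_upd, map_mul,
      mul_assoc]

private theorem actPsi_swap {n m : ℕ} (j : Fin n) {c c' : FreeGroup (Option (Fin n))}
    (hc : c ∈ gam (FreeGroup (Option (Fin n))) m)
    (q : Quot (WStep (n := n) (m + 1))) : actPsi j (c' * c) q = actPsi j (c * c') q := by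
  apply actPsi_congr
  have h1 : (c' * c)⁻¹ * (c * c') = ⁅c⁻¹, c'⁻¹⁆ := by
    rw [commutatorElement_def]
    group
  rw [h1]
  exact (commutator_mem_gam (inv_mem hc) _).1

private theorem actPsi_comm {n m : ℕ} (i j : Fin n) {c c' : FreeGroup (Option (Fin n))}
    (hc : c ∈ gam (FreeGroup (Option (Fin n))) m)
    (hc' : c' ∈ gam (FreeGroup (Option (Fin n))) m)
    (q : Quot (WStep (n := n) (m + 1))) :
    actPsi i c (actPsi j c' q) = actPsi j c' (actPsi i c q) := by
  by_cases hij : i = j
  · subst hij
    rw [actPsi_mul i hc hc', actPsi_mul i hc' hc, actPsi_swap i hc]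
  induction q using Quot.ind with
  | mk X =>
    let S₁ : Sk n := X.S.mark (Sum.inl j)
    let w₁ : S₁.W := X.S.insW j 1 X.w
    let S₂ : Sk n := S₁.mark (Sum.inl i)
    let w₂ : S₂.W := S₁.insW i 1 w₁
    have h0 : (Quot.mk _ X : Quot (WStep (n := n) (m + 1))) = Quot.mk _ ⟨S₂, w₂⟩ :=
      (Quot.eqvGen_sound ((ins_one (m + 1) (X.ins j 1) i).trans (ins_one (m + 1) X j))).symm
    let f : S₂.E := none
    let e : S₂.E := some none
    have hef : e ≠ f := fun h => Option.some_ne_none _ h
    have hsf : S₂.src f = Sum.inl i := mark_src_none S₁ (Sum.inl i)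
    have hse : S₂.src e = Sum.inl j := by
      have h1 : S₂.src e = up S₁ i (S₁.src none) := mark_src_some S₁ i none
      have h2 : S₁.src none = Sum.inl j := mark_src_none X.S (Sum.inl j)
      rw [h1, h2]
      simp only [up, if_neg (fun h : j = i => hij h.symm)]
      rfl
    rw [h0, actPsi_place S₂ w₂ j e hse c' hc', actPsi_place S₂ _ i f hsf c hc,
      actPsi_place S₂ w₂ i f hsf c hc, actPsi_place S₂ _ j e hse c' hc',
      Sk.upd_ne S₂ w₂ hef.symm, Sk.upd_ne S₂ w₂ hef, Sk.upd_comm S₂ w₂ hef]

/-- insertion as a permutation of the classes -/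
private noncomputable def actPerm {n m : ℕ} (j : Fin n) (c : FreeGroup (Option (Fin n)))
    (hc : c ∈ gam (FreeGroup (Option (Fin n))) m) :
    Equiv.Perm (Quot (WStep (n := n) (m + 1))) where
  toFun := actPsi j c
  invFun := actPsi j c⁻¹
  left_inv := by
    intro q
    rw [actPsi_mul j (inv_mem hc) hc, mul_inv_cancel]
    exact actPsi_gam j (one_mem _) q
  right_inv := by
    intro q
    rw [actPsi_mul j hc (inv_mem hc), inv_mul_cancel]
    exact actPsi_gam j (one_mem _) q

theorem exists_act (n m : ℕ) : Nonempty (Act n m) := by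
  classical
  let Q := Quot (WStep (n := n) (m + 1))
  let T : Set (Equiv.Perm Q) := {σ | ∃ (j : Fin n) (c : FreeGroup (Option (Fin n)))
    (hc : c ∈ gam (FreeGroup (Option (Fin n))) m), σ = actPerm j c hc}
  have hT : ∀ x ∈ T, ∀ y ∈ T, x * y = y * x := by
    rintro _ ⟨i, c, hc, rfl⟩ _ ⟨j, c', hc', rfl⟩
    ext q
    exact actPsi_comm i j hc hc' q
  let K : Subgroup (Equiv.Perm Q) := Subgroup.closure T
  letI hK : CommGroup K := Subgroup.closureCommGroupOfComm hT
  let b : Fin n → FreeGroup (Option (Fin n)) → Additive K := fun j c =>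
    if hc : c ∈ gam (FreeGroup (Option (Fin n))) m then
      Additive.ofMul ⟨actPerm j c hc, Subgroup.subset_closure ⟨j, c, hc, rfl⟩⟩ else 0
  have hb : ∀ j c, c ∈ gam (FreeGroup (Option (Fin n))) m → ∀ q : Q,
      ((Additive.toMul (b j c) : K) : Equiv.Perm Q) q = actPsi j c q := by
    intro j c hc q
    simp only [b, dif_pos hc]
    rfl
  have hfaith : ∀ x y : Additive K, (∀ q : Q, ((Additive.toMul x : K) : Equiv.Perm Q) q =
      ((Additive.toMul y : K) : Equiv.Perm Q) q) → x = y := by
    intro x y h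
    apply Additive.toMul.injective
    apply Subtype.ext
    ext q
    exact h q
  exact ⟨{
    β := Additive K
    grp := inferInstance
    act := fun x q => ((Additive.toMul x : K) : Equiv.Perm Q) q
    b := b
    act_zero := fun _ => rfl
    act_add := fun _ _ _ => rfl
    faithful := hfaith
    b_mul := by
      intro j c hc c' hc'
      apply hfaith
      intro q
      rw [hb j _ (mul_mem hc hc')]
      have h1 : ((Additive.toMul (b j c + b j c') : K) : Equiv.Perm Q) q =
          ((Additive.toMul (b j c) : K) : Equiv.Perm Q)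
            (((Additive.toMul (b j c') : K) : Equiv.Perm Q) q) := rfl
      rw [h1, hb j c' hc', hb j c hc, actPsi_mul j hc hc', actPsi_swap j hc]
    b_gam := by
      intro j c hc
      apply hfaith
      intro q
      rw [hb j c (gam_anti (Nat.le_succ m) hc), actPsi_gam j hc]
      rfl
    act_b := by
      intro j c hc X
      exact hb j c hc _ }⟩

end Pool.Agent.H61.Tu
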