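import Pool.Agent.H61.Tu.Surgery

/-!
# Equivalence modulo `gam m` is given by the action   [H61 TU AOE]

Induction on `Eqv m X X'` (an `EqvGen`): `rel`: all steps except `comm` are steps of
`WStep (m+1)` as well: `Quot.sound`, `c = 1` (`A.b j 1 = 0` by `b_gam`, `act_zero`). `comm`:
`surgery_eq_ins` gives `j`, `c'`; take `c = Pi.mulSingle j c'` (or `Function.update 1 j c'`),
`A.act_b`. `refl`: `c = 1`. `symm`: `c⁻¹` (`A.b j (c j)⁻¹ = - A.b j (c j)` from `b_mul`,
`act_add`). `trans`: the product (`b_mul`, `Finset.sum_add_distrib`, `act_add`).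
-/

namespace Pool.Agent.H61.Tu

open Diagram Relation
open scoped commutatorElement

private theorem aoe_b_one {n m : ℕ} (A : Act n m) (j : Fin n) : A.b j 1 = 0 :=
  A.b_gam j 1 (Subgroup.one_mem _)

private theorem aoe_of_eq {n m : ℕ} (A : Act n m) {X X' : WD n}
    (h : Quot.mk (WStep (m + 1)) X' = Quot.mk (WStep (m + 1)) X) :
    ∃ c : Fin n → FreeGroup (Option (Fin n)),
      (∀ j, c j ∈ gam (FreeGroup (Option (Fin n))) m) ∧
      Quot.mk _ X' = A.act (∑ j, A.b j (c j)) (Quot.mk _ X) := by
  refine ⟨fun _ => 1, fun _ => Subgroup.one_mem _, ?_⟩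
  have h1 : ∑ j, A.b j ((fun _ => 1 : Fin n → FreeGroup (Option (Fin n))) j) = 0 :=
    Finset.sum_eq_zero fun j _ => aoe_b_one A j
  rw [h1, A.act_zero]
  exact h

theorem act_of_eqv {n m : ℕ} (A : Act n m) {X X' : WD n} (h : Eqv m X X') :
    ∃ c : Fin n → FreeGroup (Option (Fin n)),
      (∀ j, c j ∈ gam (FreeGroup (Option (Fin n))) m) ∧
      Quot.mk _ X' = A.act (∑ j, A.b j (c j)) (Quot.mk _ X) := by
  unfold Eqv at h
  induction h with
  | rel X X' h =>
    cases h with
    | rename S S' φ h w => exact aoe_of_eq A (Quot.sound (WStep.rename S S' φ h w)).symm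
    | mark S w a => exact aoe_of_eq A (Quot.sound (WStep.mark S w a)).symm
    | transfer S w e f u hef hw hu =>
      exact aoe_of_eq A (Quot.sound (WStep.transfer S w e f u hef hw hu)).symm
    | kinkL S w e => exact aoe_of_eq A (Quot.sound (WStep.kinkL S w e)).symm
    | kinkR S w e => exact aoe_of_eq A (Quot.sound (WStep.kinkR S w e)).symm
    | slide S w e f hfe g => exact aoe_of_eq A (Quot.sound (WStep.slide S w e f hfe g)).symm
    | comm S w e c hc =>
      obtain ⟨j, c', hc', h'⟩ := surgery_eq_ins S w e c hc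
      classical
      refine ⟨Pi.mulSingle j c', fun k => ?_, ?_⟩
      · by_cases hk : k = j
        · subst hk
          rw [Pi.mulSingle_eq_same]
          exact hc'
        · rw [Pi.mulSingle_eq_of_ne hk]
          exact Subgroup.one_mem _
      · have h1 : ∑ k, A.b k ((Pi.mulSingle j c' : Fin n → FreeGroup (Option (Fin n))) k) =
            A.b j c' := by
          rw [Finset.sum_eq_single j]
          · rw [Pi.mulSingle_eq_same]
          · intro k _ hk
            rw [Pi.mulSingle_eq_of_ne hk]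
            exact aoe_b_one A k
          · intro hj
            exact absurd (Finset.mem_univ j) hj
        rw [h1, A.act_b j c' hc']
        exact Quot.eqvGen_sound h'
  | refl X => exact aoe_of_eq A rfl
  | symm X X' _ ih =>
    obtain ⟨c, hc, h1⟩ := ih
    refine ⟨fun j => (c j)⁻¹, fun j => Subgroup.inv_mem _ (hc j), ?_⟩
    have h2 : ∀ j, A.b j (c j)⁻¹ = - A.b j (c j) := by
      intro j
      have h3 := A.b_mul j (c j)⁻¹ (Subgroup.inv_mem _ (hc j)) (c j) (hc j)
      rw [inv_mul_cancel, aoe_b_one] at h3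
      exact eq_neg_of_add_eq_zero_left h3.symm
    have h4 : ∑ j, A.b j ((fun j => (c j)⁻¹) j) = - ∑ j, A.b j (c j) := by
      rw [← Finset.sum_neg_distrib]
      exact Finset.sum_congr rfl fun j _ => h2 j
    rw [h4, h1, ← A.act_add, neg_add_cancel, A.act_zero]
  | trans X Y Z _ _ ih1 ih2 =>
    obtain ⟨c, hc, h1⟩ := ih1
    obtain ⟨c', hc', h2⟩ := ih2
    refine ⟨fun j => c' j * c j, fun j => Subgroup.mul_mem _ (hc' j) (hc j), ?_⟩
    have h3 : ∑ j, A.b j ((fun j => c' j * c j) j) = ∑ j, A.b j (c' j) + ∑ j, A.b j (c j) := by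
      rw [← Finset.sum_add_distrib]
      exact Finset.sum_congr rfl fun j _ => A.b_mul j (c' j) (hc' j) (c j) (hc j)
    rw [h3, A.act_add, ← h1, h2]

end Pool.Agent.H61.Tu
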