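import Pool.Agent.H61.Tu.WD

/-!
# The Alexander determinant is a unit   [H61 TU UNIT]

`T = S.alexMap w ρ = 1 - N` with
`N v e = (lift ρ (w e))⁻¹ (v̂ (src e) + (ρ (src e) - 1) foxF (w e) v̂)`. All `ρ a = 1 + t M`, so the
units `lift ρ u` are `1 + t K` (subgroup; see the header of `FoxGam.lean`, `m = 0`; you may prove
it directly by `FreeGroup.induction_on`) and `N = J + t • N'`, `J v e = v̂ (src e)`. `J` is
nilpotent: with `r` from `S.acyclic` and `r e < B` for all `e` (finite), `J^k v e = 0` for all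
`e` with `r e < k` (induction on `k`: `J^(k+1) v e = (J^k v)̂ (src e)` which is `0` if `src e` is a
bottom arc, and `J^k v f` with `r f < r e` otherwise). So `N^B = J^B + t • N'' = t • N''`
(expand: `(J + t • N')^B - J^B = t • (..)`, by induction), and with `t^s = 0` we get
`N^(B*s) = 0`. So `1 - N` is a unit (`IsNilpotent.isUnit_one_sub`) and its determinant is a unit
(`LinearMap.det` is a monoid homomorphism, `IsUnit.map`).
-/

namespace Pool.Agent.H61.Tu

open Diagram Relation
open scoped commutatorElement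

/-- expansion of a power -/
private theorem au_pow {R A : Type*} [CommRing R] [Ring A] [Algebra R A] (t : R) (J N : A) (B : ℕ) :
    ∃ N' : A, (J + t • N) ^ B = J ^ B + t • N' := by
  induction B with
  | zero => exact ⟨0, by simp⟩
  | succ B ih =>
    obtain ⟨N', h⟩ := ih
    refine ⟨J ^ B * N + N' * J + t • (N' * N), ?_⟩
    rw [pow_succ, h, pow_succ]
    simp only [add_mul, mul_add, smul_mul_assoc, mul_smul_comm, smul_add]
    abel

private theorem au_nil {R A : Type*} [CommRing R] [Ring A] [Algebra R A] {t : R}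
    (ht : IsNilpotent t) {J : A} (hJ : IsNilpotent J) (N : A) : IsNilpotent (J + t • N) := by
  obtain ⟨B, hB⟩ := hJ
  obtain ⟨s, hs⟩ := ht
  obtain ⟨N', h⟩ := au_pow t J N B
  refine ⟨B * s, ?_⟩
  rw [pow_mul, h, hB, zero_add, smul_pow, hs, zero_smul]

/-- the values of `lift` -/
private theorem au_lift {R : Type} [CommRing R] {V : Type} [AddCommGroup V] [Module R V] {A : Type}
    (t : R) (ρ : A → (Module.End R V)ˣ)
    (hρ : ∀ a, ∃ M : Module.End R V, (ρ a).val = 1 + t • M) (u : FreeGroup A) :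
    ∃ K : Module.End R V, (FreeGroup.lift ρ u).val = 1 + t • K := by
  have hinv : ∀ U : (Module.End R V)ˣ, (∃ K : Module.End R V, U.val = 1 + t • K) →
      ∃ K : Module.End R V, (U⁻¹).val = 1 + t • K := by
    rintro U ⟨K, hK⟩
    refine ⟨-(K * (U⁻¹).val), ?_⟩
    have h1 : U.val * (U⁻¹).val = 1 := by
      rw [← Units.val_mul, mul_inv_cancel, Units.val_one]
    rw [hK, add_mul, one_mul, smul_mul_assoc] at h1
    rw [smul_neg, ← sub_eq_add_neg]
    exact eq_sub_of_add_eq h1
  induction u using FreeGroup.induction_on with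
  | C1 =>
    refine ⟨0, ?_⟩
    rw [map_one, Units.val_one, smul_zero, add_zero]
  | of a =>
    obtain ⟨M, hM⟩ := hρ a
    exact ⟨M, by rw [FreeGroup.lift_apply_of]; exact hM⟩
  | inv_of a h =>
    rw [map_inv]
    exact hinv _ h
  | mul x y hx hy =>
    obtain ⟨K, hK⟩ := hx
    obtain ⟨K', hK'⟩ := hy
    refine ⟨K + K' + t • (K * K'), ?_⟩
    rw [map_mul, Units.val_mul, hK, hK']
    simp only [add_mul, mul_add, one_mul, mul_one, smul_mul_assoc, mul_smul_comm, smul_add]
    abel

theorem alex_isUnit {n : ℕ} (S : Sk n) (w : S.W) {R : Type} [CommRing R] {V : Type}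
    [AddCommGroup V] [Module R V] (t : R) (ht : IsNilpotent t) (ρ : S.Arc → (Module.End R V)ˣ)
    (hρ : ∀ a, ∃ M : Module.End R V, (ρ a).val = 1 + t • M) : IsUnit (S.alex w ρ) := by
  obtain ⟨J, hJ⟩ : ∃ J : Module.End R (S.E → V), ∀ v e, J v e = extend n S.E R V v (S.src e) :=
    ⟨LinearMap.pi fun e => LinearMap.proj (S.src e) ∘ₗ extend n S.E R V, fun v e => rfl⟩
  -- `J` is nilpotent
  have hJn : IsNilpotent J := by
    obtain ⟨r, hr⟩ := S.acyclic
    have hfin := S.finite
    obtain ⟨B, hB⟩ : ∃ B, ∀ e, r e < B := by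
      obtain ⟨M, hM⟩ := (Set.finite_range r).bddAbove
      exact ⟨M + 1, fun e => Nat.lt_succ_of_le (hM ⟨e, rfl⟩)⟩
    have key : ∀ k : ℕ, ∀ (v : S.E → V) (e : S.E), r e < k → (J ^ k) v e = 0 := by
      intro k
      induction k with
      | zero =>
        intro v e he
        omega
      | succ k ih =>
        intro v e he
        rw [pow_succ', Module.End.mul_apply, hJ]
        rcases hs : S.src e with i | f
        · rfl
        · exact ih v f (by have := hr e f hs; omega)
    refine ⟨B, ?_⟩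
    ext v e
    exact key B v e (hB e)
  -- the remaining part
  have h1 : ∀ e, ∃ K : Module.End R V, ((FreeGroup.lift ρ (w e))⁻¹).val = 1 + t • K := by
    intro e
    rw [← map_inv]
    exact au_lift t ρ hρ _
  choose K hK using h1
  choose M hM using hρ
  obtain ⟨N, hN⟩ : ∃ N : Module.End R (S.E → V), ∀ v e, N v e =
      K e (J v e) + M (S.src e) (foxF ρ (w e) (extend n S.E R V v)) +
        t • K e (M (S.src e) (foxF ρ (w e) (extend n S.E R V v))) :=
    ⟨LinearMap.pi fun e => (K e) ∘ₗ (LinearMap.proj e) ∘ₗ J +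
      (M (S.src e)) ∘ₗ (foxF ρ (w e)) ∘ₗ extend n S.E R V +
      t • ((K e) ∘ₗ (M (S.src e)) ∘ₗ (foxF ρ (w e)) ∘ₗ extend n S.E R V), fun v e => rfl⟩
  have hT : S.alexMap w ρ = (1 : Module.End R (S.E → V)) - (J + t • N) := by
    apply LinearMap.ext
    intro v
    funext e
    rw [Sk.alexMap_apply, hK, hM]
    change _ = v e - (J v e + t • N v e)
    rw [hN, hJ]
    simp only [LinearMap.add_apply, LinearMap.smul_apply, Module.End.one_apply, map_add,
      map_smul, smul_add, add_sub_cancel_left]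
    abel
  unfold Sk.alex
  rw [hT]
  exact ((au_nil ht hJn N).isUnit_one_sub).map (LinearMap.det : Module.End R (S.E → V) →* R)

end Pool.Agent.H61.Tu
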