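import Pool.Agent.H61.Tu.FsBasic

/-!
# Traces separate cyclic words   [H61 TU TRC]

Let `𝓔 : List (Fin n) → ℤ` be the coefficient function of the words of length `m + 1`:
`𝓔 u = ∑ j, ∑ over p ∈ E j with j :: p.2 = u of p.1` (a finite support; e.g. use
`Finsupp` or sums over lists). For `u = [i_0, .., i_m]` let `r = m + 1` and `M i` the matrix with
entries `1` at `(s, s+1 mod r)` if `i_s = i` and `0` otherwise. For a word `v` of length `m + 1` the
product `M_{v_0} ... M_{v_m}` has the trace `#{s : v_t = i_{s+t} for all t}` (number of the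
rotations `s` with `u.rotate s = v`). So the hypothesis says: for every `u` of length `m + 1`
`∑_{s < m+1} 𝓔 (u.rotate s) = 0` (*). Let `w (j :: v) = W j v`. The rotation hypothesis says
`w (u.rotate 1) = w u`, hence `w (u.rotate s) = w u`:
`W j (i :: v) = W i (v ++ [j])` is `w (j :: i :: v) = w (i :: v ++ [j])`. The claim is
`∑_u 𝓔 u • w u = 0` (sum over the words of length `m + 1`). Group the sum by rotation classes
(`List.IsRotated`, `Cycle`): it is enough that for every `u` the sum of `𝓔` over the DISTINCT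
rotations of `u` is `0`. Every rotation `v` of `u` has the same number `q ≥ 1` of `s < m + 1` with
`u.rotate s = v` (the order of the stabiliser), so (*) is `q` times this sum; `ℤ` has no torsion.
An alternative to counting: for words of length `N = m + 1` let `d` be the smallest positive
integer with `u.rotate d = u`; then `d ∣ N`, the rotations `u.rotate s`, `s < d`, are the distinct
ones and `∑_{s < N} = (N / d) ∑_{s < d}`.
-/

namespace Pool.Agent.H61.Tu

open Diagram Relation
open scoped commutatorElement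

section TraceComb

open Finset
open scoped Fin.CommRing Fin.NatCast

/-- the cancellation lemma for a finite group acting on a finite set -/
private theorem cancel {G X β : Type*} [AddGroup G] [Fintype G] [Fintype X] [AddCommGroup β]
    (rot : G → X → X) (h0 : ∀ x, rot 0 x = x) (hadd : ∀ g h x, rot (g + h) x = rot g (rot h x))
    (c : X → ℤ) (hc : ∀ x, ∑ g, c (rot g x) = 0) (w : X → β) (hw : ∀ g x, w (rot g x) = w x) :
    ∑ x, c x • w x = 0 := by
  classical
  let R : Setoid X :=
    { r := fun y x => ∃ g, rot g x = y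
      iseqv :=
        { refl := fun x => ⟨0, h0 x⟩
          symm := by
            rintro y x ⟨g, rfl⟩
            exact ⟨-g, by rw [← hadd, neg_add_cancel, h0]⟩
          trans := by
            rintro z y x ⟨g, rfl⟩ ⟨h, rfl⟩
            exact ⟨g + h, hadd _ _ _⟩ } }
  refine Finset.sum_cancels_of_partition_cancels R fun x _ => ?_
  have h1 : ∀ a ∈ univ.filter (fun a => R a x), c a • w a = c a • w x := by
    intro a ha
    obtain ⟨g, rfl⟩ := (mem_filter.mp ha).2
    rw [hw]
  rw [sum_congr rfl h1, ← sum_smul]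
  have h2 : univ.filter (fun a => R a x) = univ.image (fun g => rot g x) := by
    ext a
    simp only [mem_filter, mem_univ, true_and, mem_image]
    exact Iff.rfl
  have h3 := hc x
  rw [sum_comp c (fun g => rot g x)] at h3
  have h4 : ∀ y ∈ univ.image (fun g => rot g x),
      #{a ∈ (univ : Finset G) | rot a x = y} • c y =
        (#{a ∈ (univ : Finset G) | rot a x = x} : ℤ) * c y := by
    intro y hy
    obtain ⟨g₀, -, rfl⟩ := mem_image.mp hy
    have h5 : #{a ∈ (univ : Finset G) | rot a x = rot g₀ x} =
        #{a ∈ (univ : Finset G) | rot a x = x} := by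
      refine card_bij (fun a _ => -g₀ + a) (fun a ha => ?_) (fun a _ b _ hab => ?_)
        (fun b hb => ⟨g₀ + b, ?_, ?_⟩)
      · rw [mem_filter] at ha ⊢
        refine ⟨mem_univ _, ?_⟩
        rw [hadd, ha.2, ← hadd, neg_add_cancel, h0]
      · exact add_left_cancel hab
      · rw [mem_filter] at hb ⊢
        refine ⟨mem_univ _, ?_⟩
        rw [hadd, hb.2]
      · rw [neg_add_cancel_left]
    rw [h5, nsmul_eq_mul]
  rw [sum_congr rfl h4, ← mul_sum] at h3
  have h6 : (#{a ∈ (univ : Finset G) | rot a x = x} : ℤ) ≠ 0 := by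
    have : 0 < #{a ∈ (univ : Finset G) | rot a x = x} :=
      card_pos.mpr ⟨0, mem_filter.mpr ⟨mem_univ _, h0 x⟩⟩
    omega
  rw [h2, (mul_eq_zero.mp h3).resolve_left h6, zero_smul]

variable {n m : ℕ}

/-- the word of length `l` read from `u` at `s` -/
private def wd (u : Fin (m + 1) → Fin n) : Fin (m + 1) → ℕ → List (Fin n)
  | _, 0 => []
  | s, l + 1 => u s :: wd u (s + 1) l

private theorem wd_length (u : Fin (m + 1) → Fin n) (l : ℕ) : ∀ s, (wd u s l).length = l := by
  induction l with
  | zero => intro s; rfl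
  | succ l ih => intro s; rw [wd, List.length_cons, ih]

private theorem wd_snoc (u : Fin (m + 1) → Fin n) (l : ℕ) :
    ∀ s, wd u s (l + 1) = wd u s l ++ [u (s + (l : Fin (m + 1)))] := by
  induction l with
  | zero => intro s; simp [wd]
  | succ l ih =>
    intro s
    rw [wd, ih, wd, List.cons_append, Nat.cast_succ]
    congr 4
    ring

private theorem wd_eq_iff (u u' : Fin (m + 1) → Fin n) (l : ℕ) : ∀ s s',
    wd u s l = wd u' s' l ↔ ∀ k < l, u (s + (k : Fin (m + 1))) = u' (s' + (k : Fin (m + 1))) := by
  induction l with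
  | zero => intro s s'; simp [wd]
  | succ l ih =>
    intro s s'
    rw [wd, wd, List.cons.injEq, ih]
    constructor
    · rintro ⟨h1, h2⟩ k hk
      cases k with
      | zero => simpa using h1
      | succ k =>
        have := h2 k (by omega)
        rw [Nat.cast_succ]
        rwa [add_assoc, add_assoc, add_comm (1 : Fin (m + 1))] at this
    · intro h
      refine ⟨by simpa using h 0 (by omega), fun k hk => ?_⟩
      have := h (k + 1) (by omega)
      rw [Nat.cast_succ] at this
      rwa [add_assoc, add_assoc, add_comm (1 : Fin (m + 1))]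

/-- the rotations -/
private def rt (s : Fin (m + 1)) (u : Fin (m + 1) → Fin n) : Fin (m + 1) → Fin n :=
  fun k => u (s + k)

private theorem wd_rt (u : Fin (m + 1) → Fin n) (s : Fin (m + 1)) (l : ℕ) :
    wd (rt s u) 0 l = wd u s l := by
  rw [wd_eq_iff]
  intro k _
  rw [rt, zero_add]

private theorem wd_inj {u u' : Fin (m + 1) → Fin n} (h : wd u 0 (m + 1) = wd u' 0 (m + 1)) :
    u = u' := by
  rw [wd_eq_iff] at h
  funext k
  have := h k.val k.isLt
  simpa using this

private theorem exists_wd (v : List (Fin n)) (hv : v.length = m + 1) :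
    ∃ u : Fin (m + 1) → Fin n, v = wd u 0 (m + 1) := by
  have key : ∀ (l : ℕ) (v : List (Fin n)) (s : ℕ), v.length = l → s + l ≤ m + 1 →
      ∀ u : Fin (m + 1) → Fin n, (∀ (k : ℕ) (hk : k < v.length),
        u ((s + k : ℕ) : Fin (m + 1)) = v[k]) → v = wd u (s : Fin (m + 1)) l := by
    intro l
    induction l with
    | zero => intro v s hv _ u _; rw [List.length_eq_zero_iff.mp hv]; rfl
    | succ l ih =>
      intro v s hv hs u hu
      cases v with
      | nil => simp at hv
      | cons a v =>
        rw [wd]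
        have h1 := hu 0 (by simp)
        simp only [add_zero, List.getElem_cons_zero] at h1
        have h2 := ih v (s + 1) (by simpa using hv) (by omega) u (fun k hk => by
          have := hu (k + 1) (by simpa using hk)
          simp only [List.getElem_cons_succ] at this
          rw [← this]
          congr 2
          omega)
        rw [Nat.cast_succ] at h2
        rw [h1, ← h2]
  refine ⟨fun k => v[k.val]'(by rw [hv]; exact k.isLt), ?_⟩
  have := key (m + 1) v 0 hv (by omega) (fun k => v[k.val]'(by rw [hv]; exact k.isLt))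
    (fun k hk => by
      have h1 : ((0 + k : ℕ) : Fin (m + 1)).val = k := by
        rw [zero_add, Fin.val_natCast, Nat.mod_eq_of_lt (by omega)]
      simp only [h1])
  simpa using this

/-- the matrices of a cyclic word -/
private def Mx (u : Fin (m + 1) → Fin n) (i : Fin n) : Matrix (Fin (m + 1)) (Fin (m + 1)) ℤ :=
  fun s t => if t = s + 1 ∧ u s = i then 1 else 0

private theorem prod_Mx (u : Fin (m + 1) → Fin n) (v : List (Fin n)) : ∀ s t,
    (v.map (Mx u)).prod s t =
      if v = wd u s v.length ∧ t = s + (v.length : Fin (m + 1)) then 1 else 0 := by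
  induction v with
  | nil =>
    intro s t
    simp only [List.map_nil, List.prod_nil, List.length_nil, wd, true_and, Nat.cast_zero,
      add_zero, Matrix.one_apply]
    by_cases h : s = t
    · rw [if_pos h, if_pos h.symm]
    · rw [if_neg h, if_neg (fun h' => h h'.symm)]
  | cons a v ih =>
    intro s t
    rw [List.map_cons, List.prod_cons, Matrix.mul_apply, Finset.sum_eq_single (s + 1)]
    · rw [ih, List.length_cons, wd, Nat.cast_succ]
      have e : s + 1 + (v.length : Fin (m + 1)) = s + ((v.length : Fin (m + 1)) + 1) := by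
        rw [add_assoc, add_comm (1 : Fin (m + 1))]
      rw [e]
      simp only [Mx, true_and, List.cons.injEq, mul_ite, mul_one, mul_zero]
      by_cases h1 : u s = a
      · subst h1; simp
      · have h2 : ¬ a = u s := fun h => h1 h.symm
        simp [h1, h2]
    · intro r _ hr
      simp only [Mx]
      rw [if_neg (fun h => hr h.1), zero_mul]
    · intro h; exact absurd (Finset.mem_univ _) h

private theorem trace_Mx (u : Fin (m + 1) → Fin n) (v : List (Fin n)) (hv : v.length = m + 1) :
    Matrix.trace (v.map (Mx u)).prod = ∑ s, if v = wd u s (m + 1) then (1 : ℤ) else 0 := by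
  rw [Matrix.trace]
  refine Finset.sum_congr rfl fun s _ => ?_
  rw [Matrix.diag_apply, prod_Mx, hv]
  have e : ((m + 1 : ℕ) : Fin (m + 1)) = 0 := by simp
  rw [e, add_zero]
  simp

/-- a formal sum of words of length `m + 1` as a sum over all words -/
private theorem ev_eq_sum {A : Type*} [AddCommGroup A] (F : List (Fin n) → A) (E : Fs n)
    (hE : ∀ p ∈ E, p.2.length = m + 1) :
    Fs.ev F E = ∑ u : Fin (m + 1) → Fin n,
      Fs.ev (fun v => if v = wd u 0 (m + 1) then (1 : ℤ) else 0) E • F (wd u 0 (m + 1)) := by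
  induction E with
  | nil => simp
  | cons p E ih =>
    simp only [Fs.ev_cons, add_smul]
    rw [Finset.sum_add_distrib, ← ih (fun q hq => hE q (by simp [hq]))]
    congr 1
    obtain ⟨u, hu⟩ := exists_wd p.2 (hE p (by simp))
    rw [Finset.sum_eq_single u]
    · rw [if_pos hu, ← hu, smul_eq_mul, mul_one]
    · intro u' _ hne
      rw [if_neg (fun h => hne (wd_inj (h.symm.trans hu))), smul_zero, zero_smul]
    · intro h; exact absurd (Finset.mem_univ _) h

private theorem ev_sum {ι : Type*} (s : Finset ι) (f : ι → List (Fin n) → ℤ) (E : Fs n) :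
    Fs.ev (fun v => ∑ i ∈ s, f i v) E = ∑ i ∈ s, Fs.ev (f i) E := by
  induction E with
  | nil => simp
  | cons p E ih =>
    simp only [Fs.ev_cons, ih, Finset.smul_sum, Finset.sum_add_distrib]

private theorem key {β : Type*} [AddCommGroup β] (w : List (Fin n) → β)
    (hw : ∀ (u : Fin (m + 1) → Fin n) s, w (wd u s (m + 1)) = w (wd u 0 (m + 1)))
    (E : Fs n) (hE : ∀ p ∈ E, p.2.length = m + 1)
    (h : ∀ u : Fin (m + 1) → Fin n,
      Fs.ev (fun v => ∑ s, if v = wd u s (m + 1) then (1 : ℤ) else 0) E = 0) :
    Fs.ev w E = 0 := by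
  rw [ev_eq_sum w E hE]
  refine cancel (G := Fin (m + 1)) (rot := rt) (fun u => ?_) (fun g h' u => ?_)
    (fun u => Fs.ev (fun v => if v = wd u 0 (m + 1) then (1 : ℤ) else 0) E) (fun u => ?_)
    (fun u => w (wd u 0 (m + 1))) (fun g u => ?_)
  · funext k; rw [rt, zero_add]
  · funext k
    simp only [rt]
    rw [add_comm g h', add_assoc]
  · have := h u
    rw [ev_sum] at this
    simp only [wd_rt]
    exact this
  · rw [wd_rt, hw]

private theorem ev_flat {A : Type*} [AddCommGroup A] (E : Fin n → Fs n) (F : List (Fin n) → A) :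
    Fs.ev F ((List.finRange n).flatMap (fun j => (E j).map (fun p => (p.1, j :: p.2)))) =
      ∑ j, Fs.ev (fun v => F (j :: v)) (E j) := by
  have h1 : ∀ l : List (Fin n), Fs.ev F (l.flatMap (fun j => (E j).map
      (fun p => (p.1, j :: p.2)))) = (l.map (fun j => Fs.ev (fun v => F (j :: v)) (E j))).sum := by
    intro l
    induction l with
    | nil => simp
    | cons j l ih =>
      rw [List.flatMap_cons, Fs.ev_append, ih, List.map_cons, List.sum_cons,
        Fs.ev_map F (fun v => j :: v)]
  rw [h1, ← List.ofFn_eq_map, List.sum_ofFn]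

private theorem rot_step {β : Type*} (w : List (Fin n) → β) (hm : 1 ≤ m)
    (hw : ∀ (i j : Fin n) (v : List (Fin n)), v.length + 1 = m →
      w (j :: i :: v) = w (i :: (v ++ [j]))) (u : Fin (m + 1) → Fin n) (s : Fin (m + 1)) :
    w (wd u s (m + 1)) = w (wd u 0 (m + 1)) := by
  have step : ∀ s, w (wd u s (m + 1)) = w (wd u (s + 1) (m + 1)) := by
    intro s
    obtain ⟨m', rfl⟩ : ∃ m', m = m' + 1 := ⟨m - 1, by omega⟩
    have e0 : s + 1 + ((m' + 1 : ℕ) : Fin (m' + 1 + 1)) = s := by
      have h1 : (1 : Fin (m' + 1 + 1)) + ((m' + 1 : ℕ) : Fin (m' + 1 + 1)) = 0 := by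
        rw [add_comm (1 : Fin (m' + 1 + 1)), ← Nat.cast_succ]
        simp
      rw [add_assoc s 1, h1, add_zero]
    have e1 : wd u (s + 1) (m' + 1 + 1) = wd u (s + 1) (m' + 1) ++ [u s] := by
      rw [wd_snoc, e0]
    have e2 : wd u s (m' + 1 + 1) = u s :: wd u (s + 1) (m' + 1) := rfl
    have e3 : wd u (s + 1) (m' + 1) = u (s + 1) :: wd u (s + 1 + 1) m' := rfl
    rw [e1, e2, e3, List.cons_append]
    exact hw _ _ _ (by rw [wd_length])
  have step' : ∀ k : ℕ, w (wd u ((k : ℕ) : Fin (m + 1)) (m + 1)) = w (wd u 0 (m + 1)) := by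
    intro k
    induction k with
    | zero => simp
    | succ k ih => rw [Nat.cast_succ, ← step, ih]
  have := step' s.val
  simpa using this

private theorem aux (hm : 1 ≤ m) {β : Type*} [AddCommGroup β]
    (w : List (Fin n) → β)
    (hrot : ∀ (i j : Fin n) (v : List (Fin n)), v.length + 1 = m →
      w (j :: i :: v) = w (i :: (v ++ [j])))
    (E : Fin n → Fs n) (hE : ∀ j, ∀ p ∈ E j, p.2.length = m)
    (h : ∀ (r : ℕ) (M : Fin n → Matrix (Fin r) (Fin r) ℤ),
      ∑ j, Matrix.trace (M j * Fs.ev (fun v => (v.map M).prod) (E j)) = 0) :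
    ∑ j, Fs.ev (fun v => w (j :: v)) (E j) = 0 := by
  rw [← ev_flat E w]
  refine key (m := m) w (rot_step w hm hrot) _ (fun p hp => ?_) (fun u => ?_)
  · simp only [List.mem_flatMap, List.mem_map] at hp
    obtain ⟨j, -, q, hq, rfl⟩ := hp
    rw [List.length_cons, hE j q hq]
  · rw [ev_flat]
    refine Eq.trans ?_ (h (m + 1) (Mx u))
    refine Finset.sum_congr rfl fun j _ => ?_
    let φ : Matrix (Fin (m + 1)) (Fin (m + 1)) ℤ →+ ℤ :=
      (Matrix.traceAddMonoidHom (Fin (m + 1)) ℤ).comp (AddMonoidHom.mulLeft (Mx u j))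
    have h2 : Matrix.trace (Mx u j * Fs.ev (fun v => (v.map (Mx u)).prod) (E j)) =
        φ (Fs.ev (fun v => (v.map (Mx u)).prod) (E j)) := rfl
    rw [h2, Fs.ev_hom]
    refine Fs.ev_congr fun p hp => ?_
    have h3 := trace_Mx u (j :: p.2) (by rw [List.length_cons, hE j p hp])
    rw [List.map_cons, List.prod_cons] at h3
    exact h3.symm

end TraceComb

theorem trace_comb {n m : ℕ} (hm : 1 ≤ m) {β : Type*} [AddCommGroup β]
    (W : Fin n → List (Fin n) → β)
    (hrot : ∀ (i j : Fin n) (v : List (Fin n)), v.length + 1 = m → W j (i :: v) = W i (v ++ [j]))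
    (E : Fin n → Fs n) (hE : ∀ j, ∀ p ∈ E j, p.2.length = m)
    (h : ∀ (r : ℕ) (M : Fin n → Matrix (Fin r) (Fin r) ℤ),
      ∑ j, Matrix.trace (M j * Fs.ev (fun v => (v.map M).prod) (E j)) = 0) :
    ∑ j, Fs.ev (W j) (E j) = 0 :=
  aux hm (fun l => match l with
    | [] => 0
    | j :: v => W j v) hrot E hE h

end Pool.Agent.H61.Tu
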