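import Pool.Agent.H61.Tu.BRn

/-!
# Trivial trees   [H61 TU TRZ]

Let `c̄ = FreeGroup.map (sub j) c ∈ gam (FreeGroup (Fin n)) m` (`gam_map`). `tree (m+1) j c` is the
class of `c̄`, so `h` says `c̄⁻¹ * (of j)^a ∈ gam (FreeGroup (Fin n)) (m+1)` (`QuotientGroup.eq`).
`FreeGroup.map (fun o => some (sub j o)) c = FreeGroup.map some c̄`.
* `m ≥ 1`: `c̄` and `c̄⁻¹ * (of j)^a` are in `gam 1`, so `(of j)^a ∈ gam 1`; the homomorphism
  `FreeGroup (Fin n) → Multiplicative ℤ` with `of j ↦ ofAdd 1` and the other generators `↦ 1`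
  kills `gam 1` (`gam_map`, and `gam H 1 = ⊥` for commutative `H`), so `a = 0` and
  `c̄ ∈ gam (m+1)`, so `FreeGroup.map some c̄ ∈ gam (m+1)` and `b_gam`.
* `m = 0`: `(FreeGroup.map some c̄)⁻¹ * (xx j)^a ∈ gam 1`; `b_congr` and
  `b j ((xx j)^a) = a • b j (xx j) = 0` (`b_mul`, `hb.kink`).
-/

namespace Pool.Agent.H61.Tu

open Diagram Relation
open scoped commutatorElement

private theorem trz_gam_zero {G : Type*} [Group G] (g : G) : g ∈ gam G 0 := Subgroup.mem_top g

private theorem trz_gam_one {G : Type*} [CommGroup G] {g : G} (h : g ∈ gam G 1) : g = 1 := by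
  have h1 : gam G 1 = ⁅(⊤ : Subgroup G), (⊤ : Subgroup G)⁆ := rfl
  rw [h1] at h
  have h2 : ⁅(⊤ : Subgroup G), (⊤ : Subgroup G)⁆ = ⊥ := by
    rw [Subgroup.commutator_eq_bot_iff_le_centralizer]
    intro x _
    rw [Subgroup.mem_centralizer_iff]
    intro y _
    exact mul_comm _ _
  rw [h2, Subgroup.mem_bot] at h
  exact h

private theorem trz_exp {n : ℕ} (j : Fin n) (a : ℤ)
    (h : (FreeGroup.of j : FreeGroup (Fin n)) ^ a ∈ gam (FreeGroup (Fin n)) 1) : a = 0 := by
  have h1 := gam_map (FreeGroup.lift fun i : Fin n =>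
    if i = j then Multiplicative.ofAdd (1 : ℤ) else 1) 1 h
  have h2 := trz_gam_one h1
  rw [map_zpow, FreeGroup.lift_apply_of, if_pos rfl, ← ofAdd_zsmul] at h2
  have h3 := Multiplicative.ofAdd.injective (h2.trans ofAdd_zero.symm)
  simpa using h3

theorem tree_zero {n m : ℕ} {β : Type*} [AddCommGroup β]
    {b : Fin n → FreeGroup (Option (Fin n)) → β} (hb : BData n m β b) (j : Fin n)
    (c : FreeGroup (Option (Fin n))) (hc : c ∈ gam (FreeGroup (Option (Fin n))) m) (a : ℤ)
    (h : tree (m + 1) j c = xg n (m + 1) j ^ a) :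
    b j (FreeGroup.map (fun o => some (sub j o)) c) = 0 := by
  have h1 : tree (m + 1) j c = QuotientGroup.mk (FreeGroup.map (sub j) c) := by
    have e : tree (m + 1) j = (QuotientGroup.mk' (gam (FreeGroup (Fin n)) (m + 1))).comp
        (FreeGroup.map (sub j)) := by
      apply FreeGroup.ext_hom
      intro o
      rw [MonoidHom.comp_apply, FreeGroup.map.of]
      exact FreeGroup.lift_apply_of
    rw [e]
    rfl
  have h2 : xg n (m + 1) j ^ a =
      QuotientGroup.mk ((FreeGroup.of j : FreeGroup (Fin n)) ^ a) := rfl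
  rw [h1, h2, QuotientGroup.eq] at h
  have h3 : FreeGroup.map (fun o => some (sub j o)) c =
      FreeGroup.map some (FreeGroup.map (sub j) c) := by
    rw [FreeGroup.map.comp]
    rfl
  rw [h3]
  have hcb := gam_map (FreeGroup.map (sub j)) m hc
  rcases Nat.eq_zero_or_pos m with hm | hm
  · subst hm
    have h4 := gam_map (FreeGroup.map (some : Fin n → Option (Fin n))) _ h
    rw [map_mul, map_inv, map_zpow, FreeGroup.map.of] at h4
    rw [b_congr hb j (trz_gam_zero _) h4]
    have hk := (hb.kink rfl j).2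
    have hk' : b j (xx j)⁻¹ = 0 := by rw [b_inv hb j (trz_gam_zero _), hk, neg_zero]
    have key : ∀ a : ℤ, b j ((xx j : FreeGroup (Option (Fin n))) ^ a) = 0 := by
      intro a
      induction a using Int.induction_on with
      | zero => rw [zpow_zero, b_one hb]
      | succ k ih =>
        rw [zpow_add_one, hb.b_mul j _ (trz_gam_zero _) _ (trz_gam_zero _), ih, hk, add_zero]
      | pred k ih =>
        rw [zpow_sub_one, hb.b_mul j _ (trz_gam_zero _) _ (trz_gam_zero _), ih, hk', add_zero]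
    exact key a
  · have h4 : (FreeGroup.of j : FreeGroup (Fin n)) ^ a ∈ gam (FreeGroup (Fin n)) 1 := by
      have h5 := gam_anti (G := FreeGroup (Fin n)) (m := 1) hm hcb
      have h6 := gam_anti (G := FreeGroup (Fin n)) (m := 1) (k := m + 1) (by omega) h
      have h7 := (gam (FreeGroup (Fin n)) 1).mul_mem h5 h6
      rwa [mul_inv_cancel_left] at h7
    have ha := trz_exp j a h4
    rw [ha, zpow_zero, mul_one] at h
    have h5 := (gam (FreeGroup (Fin n)) (m + 1)).inv_mem h
    rw [inv_inv] at h5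
    exact hb.b_gam j _ (gam_map (FreeGroup.map some) _ h5)

end Pool.Agent.H61.Tu
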