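import Pool.Agent.H61.Tu.FsBasic

/-!
# Integer traces   [H61 TU WIN]

`R = ℤ[X] ⧸ (X^(m+2))` (`Polynomial`, `Ideal.Quotient.mk (Ideal.span {X^(m+2)})`), `t` = class of
`X`, `t^(m+2) = 0`. For integer matrices `M i` let `M' i = Matrix.toLin' ((M i).map (Int.cast))`
in `Module.End R (Fin r → R)` (the map `Matrix (Fin r) (Fin r) ℤ → Module.End R (Fin r → R)` is a
ring homomorphism: `Matrix.toLinAlgEquiv'` composed with `RingHom.mapMatrix (Int.castRingHom R)`),
`ρ i` the unit `1 + t • M' i` (`t • M'` is nilpotent: `IsNilpotent.isUnit_one_add`). The trace of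
`t^(m+1) • (M' j * Fs.ev (..))` is `t^(m+1) * (k : R)`, `k` the integer trace
(`Fs.ev_hom`, `map_list_prod`, `LinearMap.trace_toLin'`-like lemma `Matrix.trace_toLin'_eq`).
So `t^(m+1) * (K : R) = 0` for the integer `K` of the claim: `X^(m+2) ∣ C K * X^(m+1)`, so
`K = 0` (coefficient of `X^(m+1)`).
-/

namespace Pool.Agent.H61.Tu

open Diagram Relation
open scoped commutatorElement

/-- the ring homomorphism from integer matrices to endomorphisms -/
noncomputable def WheelInt_hom (R : Type) [CommRing R] (r : ℕ) :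
    Matrix (Fin r) (Fin r) ℤ →+* Module.End R (Fin r → R) :=
  (Matrix.toLinAlgEquiv' : Matrix (Fin r) (Fin r) R ≃ₐ[R] ((Fin r → R) →ₗ[R] (Fin r → R))).toRingEquiv.toRingHom.comp
    (RingHom.mapMatrix (Int.castRingHom R))

theorem WheelInt_trace (R : Type) [CommRing R] (r : ℕ) (A : Matrix (Fin r) (Fin r) ℤ) :
    LinearMap.trace R (Fin r → R) (WheelInt_hom R r A) = ((Matrix.trace A : ℤ) : R) := by
  have h1 : WheelInt_hom R r A = Matrix.toLin' (A.map (Int.cast : ℤ → R)) := rfl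
  rw [h1, Matrix.trace_toLin'_eq]
  simp [Matrix.trace]

theorem WheelInt_general {n m : ℕ} (E : Fin n → Fs n)
    (h : ∀ (R : Type) [CommRing R] (t : R), t ^ (m + 2) = 0 → ∀ (r : ℕ)
      (M : Fin n → Module.End R (Fin r → R)) (ρ : Fin n → (Module.End R (Fin r → R))ˣ),
      (∀ i, (ρ i).val = 1 + t • M i) →
      ∑ j, LinearMap.trace R (Fin r → R)
        (t ^ (m + 1) • (M j * Fs.ev (fun v => (v.map M).prod) (E j))) = 0)
    (r : ℕ) (M : Fin n → Matrix (Fin r) (Fin r) ℤ) (R : Type) [CommRing R] (t : R)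
    (ht : t ^ (m + 2) = 0) :
    t ^ (m + 1) * ((∑ j, Matrix.trace (M j * Fs.ev (fun v => (v.map M).prod) (E j)) : ℤ) : R) = 0 := by
  obtain ⟨φ, hφ⟩ : ∃ φ : Matrix (Fin r) (Fin r) ℤ →+* Module.End R (Fin r → R),
      φ = WheelInt_hom R r := ⟨_, rfl⟩
  have hu : ∀ i, IsUnit (1 + t • φ (M i) : Module.End R (Fin r → R)) := by
    intro i
    refine IsNilpotent.isUnit_one_add ⟨m + 2, ?_⟩
    rw [smul_pow, ht, zero_smul]
  choose ρ hρ using hu
  have h1 := h R t ht r (fun i => φ (M i)) ρ hρ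
  have h2 : ∀ j, φ (M j) * Fs.ev (fun v => (v.map fun i => φ (M i)).prod) (E j) =
      φ (M j * Fs.ev (fun v => (v.map M).prod) (E j)) := by
    intro j
    rw [map_mul]
    congr 1
    have h3 := Fs.ev_hom φ.toAddMonoidHom (fun v => (v.map M).prod) (E j)
    have h4 : ∀ v : List (Fin n), φ.toAddMonoidHom ((v.map M).prod) =
        (v.map fun i => φ (M i)).prod := by
      intro v
      change φ ((v.map M).prod) = _
      rw [map_list_prod, List.map_map]
      rfl
    simp only [h4] at h3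
    exact h3.symm
  have h5 : ∀ j, LinearMap.trace R (Fin r → R)
      (t ^ (m + 1) • (φ (M j) * Fs.ev (fun v => (v.map fun i => φ (M i)).prod) (E j))) =
      t ^ (m + 1) * ((Matrix.trace (M j * Fs.ev (fun v => (v.map M).prod) (E j)) : ℤ) : R) := by
    intro j
    rw [h2 j, map_smul, hφ, WheelInt_trace, smul_eq_mul]
  simp only [h5] at h1
  rw [← Finset.mul_sum, ← Int.cast_sum] at h1
  exact h1

theorem wheel_int {n m : ℕ} (E : Fin n → Fs n)
    (h : ∀ (R : Type) [CommRing R] (t : R), t ^ (m + 2) = 0 → ∀ (r : ℕ)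
      (M : Fin n → Module.End R (Fin r → R)) (ρ : Fin n → (Module.End R (Fin r → R))ˣ),
      (∀ i, (ρ i).val = 1 + t • M i) →
      ∑ j, LinearMap.trace R (Fin r → R)
        (t ^ (m + 1) • (M j * Fs.ev (fun v => (v.map M).prod) (E j))) = 0)
    (r : ℕ) (M : Fin n → Matrix (Fin r) (Fin r) ℤ) :
    ∑ j, Matrix.trace (M j * Fs.ev (fun v => (v.map M).prod) (E j)) = 0 := by
  let I : Ideal (Polynomial ℤ) := Ideal.span {(Polynomial.X : Polynomial ℤ) ^ (m + 2)}
  have ht : (Ideal.Quotient.mk I Polynomial.X) ^ (m + 2) = 0 := by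
    rw [← map_pow, Ideal.Quotient.eq_zero_iff_mem]
    exact Ideal.mem_span_singleton_self _
  have h1 := WheelInt_general E h r M (Polynomial ℤ ⧸ I) (Ideal.Quotient.mk I Polynomial.X) ht
  obtain ⟨K, hK⟩ : ∃ K, K = ∑ j, Matrix.trace (M j * Fs.ev (fun v => (v.map M).prod) (E j)) := ⟨_, rfl⟩
  rw [← hK] at h1 ⊢
  have h6 : Ideal.Quotient.mk I (Polynomial.X ^ (m + 1) * (K : Polynomial ℤ)) = 0 := by
    rw [map_mul, map_pow, map_intCast]
    exact h1
  rw [Ideal.Quotient.eq_zero_iff_mem, Ideal.mem_span_singleton, Polynomial.X_pow_dvd_iff] at h6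
  have h8 := h6 (m + 1) (by omega)
  rw [← Polynomial.C_eq_intCast, Polynomial.coeff_mul_C, Polynomial.coeff_X_pow, if_pos rfl, one_mul] at h8
  exact h8

end Pool.Agent.H61.Tu
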