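import Pool.Agent.H61.Tu.ExpExists
import Pool.Agent.H61.Tu.TraceComb
import Pool.Agent.H61.Tu.WheelInt
import Pool.Agent.H61.Tu.TreeZero

/-!
# The algebraic theorem   [H61 TU ALG]

Choose `E j` for `c j` by `exists_expansion`. Then
`∑ j, b j (c j) = ∑ j, b j (FreeGroup.map .. (c j)) + ∑ j, Fs.ev (W j) (E j)` with
`W j v = wf b j (v.map some)`; the first sum is `0` by `tree_zero`. If `m = 0` all words of `E j`
are empty and `W j [] = 0` (`wf_nil`). If `1 ≤ m`: `trace_comb` with `hrot` from `wf_rotate` and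
the hypothesis `h` from `wheel_int`, whose hypothesis is `hwheel` rewritten with the formula for
`kap` in `exists_expansion`.
-/

namespace Pool.Agent.H61.Tu

open Diagram Relation
open scoped commutatorElement

theorem alg_final {n m : ℕ} {β : Type*} [AddCommGroup β]
    {b : Fin n → FreeGroup (Option (Fin n)) → β} (hb : BData n m β b)
    (c : Fin n → FreeGroup (Option (Fin n)))
    (hc : ∀ j, c j ∈ gam (FreeGroup (Option (Fin n))) m)
    (htree : ∀ j, ∃ a : ℤ, tree (m + 1) j (c j) = xg n (m + 1) j ^ a)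
    (hwheel : 1 ≤ m → ∀ (R : Type) [CommRing R] (t : R), t ^ (m + 2) = 0 → ∀ (r : ℕ)
      (M : Fin n → Module.End R (Fin r → R)) (ρ : Fin n → (Module.End R (Fin r → R))ˣ),
      (∀ i, (ρ i).val = 1 + t • M i) →
      ∑ j, LinearMap.trace R (Fin r → R) (kap j ρ (c j)) = 0) :
    ∑ j, b j (c j) = 0 := by
  choose E hE1 hE2 hE3 using fun j => exists_expansion hb j (c j) (hc j)
  choose a ha using htree
  have h1 : ∀ j, b j (c j) = Fs.ev (fun v => wf b j (v.map some)) (E j) := by
    intro j
    rw [hE2 j, tree_zero hb j (c j) (hc j) (a j) (ha j), zero_add]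
  rw [Finset.sum_congr rfl fun j _ => h1 j]
  rcases Nat.eq_zero_or_pos m with hm | hm
  · refine Finset.sum_eq_zero fun j _ => ?_
    have h2 : Fs.ev (fun v => wf b j (v.map some)) (E j) = Fs.ev (fun _ => (0 : β)) (E j) := by
      refine Fs.ev_congr fun p hp => ?_
      have h3 : p.2 = [] := List.length_eq_zero_iff.1 ((hE1 j p hp).trans hm)
      rw [h3]
      exact wf_nil hb hm j
    rw [h2]
    have h4 : ∀ F : Fs n, Fs.ev (fun _ => (0 : β)) F = 0 := by
      intro F
      induction F with
      | nil => rw [Fs.ev_nil]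
      | cons p F ih => rw [Fs.ev_cons, ih, smul_zero, add_zero]
    exact h4 _
  · refine trace_comb hm (fun j v => wf b j (v.map some)) ?_ E hE1 ?_
    · intro i j v hv
      have h2 := wf_rotate hb i j v hv
      rw [List.map_append]
      exact h2
    · intro r M
      refine wheel_int (m := m) E ?_ r M
      intro R _ t ht r M ρ hρ
      have h2 := hwheel hm R t ht r M ρ hρ
      rw [Finset.sum_congr rfl fun j _ => by rw [hE3 j R t ht (Fin r → R) M ρ hρ]] at h2
      exact h2

end Pool.Agent.H61.Tu
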