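import Pool.Agent.H61.Tu.Rn

/-!
# The insertion elements of commutators   [H61 TU BRN]

`P = FreeGroup (Option (Fin n))`. From `hb : BData n m β b`:
* `b_one`: `b_gam` (or `b_mul` with `1 * 1`). `b_inv`: `b_mul` with `c * c⁻¹`.
* `b_congr`: `c' = c * (c⁻¹ * c')`, `b_mul`, `b_gam` (`gam (m+1) ≤ gam m`).
* `b_rn_mul`: `rn l (g * h) = rn l g * rn l h * ε` with `ε ∈ gam (m+1)` (`rn_mul`), `rn_mem`.
* `b_rn_inv`: `b_rn_mul` with `g * g⁻¹ = 1`, `rn_one`.
* `b_rn_swap`: `⁅g, h⁆ = ⁅h, g⁆⁻¹`, `b_rn_inv`.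
* `b_rn_jacobi`: by `jacobi_mod` `⁅z, ⁅u, g⁆⁆` and `⁅⁅z, u⁆, g⁆ * ⁅u, ⁅z, g⁆⁆` (both in
  `gam (s+r+2)`) are congruent modulo `gam (s+r+3)`; `rn_congr`, `b_congr`, `b_rn_mul`.
-/

namespace Pool.Agent.H61.Tu

open Diagram Relation
open scoped commutatorElement

variable {n m : ℕ} {β : Type*} [AddCommGroup β] {b : Fin n → FreeGroup (Option (Fin n)) → β}

theorem b_one (hb : BData n m β b) (j : Fin n) : b j 1 = 0 :=
  hb.b_gam j 1 (one_mem _)

theorem b_inv (hb : BData n m β b) (j : Fin n) {c : FreeGroup (Option (Fin n))}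
    (hc : c ∈ gam (FreeGroup (Option (Fin n))) m) : b j c⁻¹ = - b j c := by
  have h1 := hb.b_mul j c hc c⁻¹ (inv_mem hc)
  rw [mul_inv_cancel, b_one hb] at h1
  exact (neg_eq_of_add_eq_zero_right h1.symm).symm

theorem b_congr (hb : BData n m β b) (j : Fin n) {c c' : FreeGroup (Option (Fin n))}
    (hc : c ∈ gam (FreeGroup (Option (Fin n))) m)
    (h : c⁻¹ * c' ∈ gam (FreeGroup (Option (Fin n))) (m + 1)) : b j c = b j c' := by
  have h1 := hb.b_mul j c hc _ (gam_anti (Nat.le_succ m) h)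
  rw [mul_inv_cancel_left, hb.b_gam j _ h, add_zero] at h1
  exact h1.symm

theorem b_rn_mul (hb : BData n m β b) (j : Fin n) (l : List (FreeGroup (Option (Fin n))))
    {s : ℕ} {g h : FreeGroup (Option (Fin n))} (hg : g ∈ gam (FreeGroup (Option (Fin n))) s)
    (hh : h ∈ gam (FreeGroup (Option (Fin n))) s) (hs : s + l.length = m) :
    b j (rn l (g * h)) = b j (rn l g) + b j (rn l h) := by
  have h1 := rn_mem l hg
  have h2 := rn_mem l hh
  have h3 := rn_mul l g hh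
  rw [hs] at h1 h2 h3
  rw [← hb.b_mul j _ h1 _ h2]
  exact (b_congr hb j (mul_mem h1 h2) h3).symm

theorem b_rn_inv (hb : BData n m β b) (j : Fin n) (l : List (FreeGroup (Option (Fin n))))
    {s : ℕ} {g : FreeGroup (Option (Fin n))} (hg : g ∈ gam (FreeGroup (Option (Fin n))) s)
    (hs : s + l.length = m) : b j (rn l g⁻¹) = - b j (rn l g) := by
  have h1 := b_rn_mul hb j l hg (inv_mem hg) hs
  rw [mul_inv_cancel, rn_one, b_one hb] at h1
  exact (neg_eq_of_add_eq_zero_right h1.symm).symm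

theorem b_rn_swap (hb : BData n m β b) (j : Fin n) (l : List (FreeGroup (Option (Fin n))))
    {s : ℕ} {g h : FreeGroup (Option (Fin n))}
    (hgh : ⁅g, h⁆ ∈ gam (FreeGroup (Option (Fin n))) s) (hs : s + l.length = m) :
    b j (rn l ⁅h, g⁆) = - b j (rn l ⁅g, h⁆) := by
  rw [← commutatorElement_inv, b_rn_inv hb j l hgh hs]

theorem b_rn_jacobi (hb : BData n m β b) (j : Fin n) (l : List (FreeGroup (Option (Fin n))))
    (z : FreeGroup (Option (Fin n))) {s r : ℕ} {u g : FreeGroup (Option (Fin n))}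
    (hu : u ∈ gam (FreeGroup (Option (Fin n))) s) (hg : g ∈ gam (FreeGroup (Option (Fin n))) r)
    (h : s + r + 2 + l.length = m) :
    b j (rn l ⁅⁅z, u⁆, g⁆) = b j (rn l ⁅z, ⁅u, g⁆⁆) - b j (rn l ⁅u, ⁅z, g⁆⁆) := by
  have h1 : ⁅⁅z, u⁆, g⁆ ∈ gam (FreeGroup (Option (Fin n))) (s + r + 2) :=
    gam_anti (by omega) (commutator_mem_gam' (commutator_mem_gam hu z).2 hg)
  have h2 : ⁅u, ⁅z, g⁆⁆ ∈ gam (FreeGroup (Option (Fin n))) (s + r + 2) :=
    gam_anti (by omega) (commutator_mem_gam' hu (commutator_mem_gam hg z).2)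
  have h3 := rn_congr l (jacobi_mod z hu hg)
  have h4 : rn l (⁅⁅z, u⁆, g⁆ * ⁅u, ⁅z, g⁆⁆) ∈ gam (FreeGroup (Option (Fin n))) m := by
    rw [← h]
    exact rn_mem l (mul_mem h1 h2)
  have h5 : s + r + 3 + l.length = m + 1 := by omega
  rw [h5] at h3
  rw [← b_congr hb j h4 h3, b_rn_mul hb j l h1 h2 h, add_sub_cancel_right]

end Pool.Agent.H61.Tu
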