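import Pool.Agent.H61.Tu.WD

/-!
# Level zero: all diagrams are equivalent   [H61 TU BZE]

`gam _ 0 = ⊤`. Induction on the number of runs (`Nat.card X.S.E`, `S.finite`): every `X` is
equivalent to `⟨S₀, w₀⟩` for the diagram without runs. Step: by `WStep.comm` for each run
(`Finset` induction) all words become `1`. Choose a run `e` (any). Let `S'` be the skeleton with the
runs `{f // f ≠ e}` and `src' f = S.src e'`..: `src' f` is `S.src f`, except that `inr e` is
replaced by `S.src e` (note `S.src e ≠ inr e`). Then `⟨S, 1⟩` is `⟨S', 1⟩` marked at `S.src e` (as an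
arc of `S'`) up to `WStep.rename` (the equivalence `S.E ≃ Option {f // f ≠ e}`,
`Equiv.optionSubtypeNe`). `S'` is acyclic with the same rank function and injective.
-/

namespace Pool.Agent.H61.Tu

open Diagram Relation
open scoped commutatorElement

private theorem baseZero_words {n : ℕ} (S : Sk n) (w w' : S.W) :
    Eqv 0 ⟨S, w⟩ ⟨S, w'⟩ := by
  classical
  have hfin := S.finite
  have hft : Fintype S.E := Fintype.ofFinite S.E
  have key : ∀ F : Finset S.E, Eqv 0 ⟨S, w⟩ ⟨S, fun e => if e ∈ F then w' e else w e⟩ := by
    intro F
    induction F using Finset.induction_on with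
    | empty =>
      have h0 : (fun e => if e ∈ (∅ : Finset S.E) then w' e else w e) = w := by
        funext e
        simp
      rw [h0]
      exact Eqv.refl _
    | insert a F ha ih =>
      have h0 : (fun e => if e ∈ insert a F then w' e else w e) =
          S.upd (fun e => if e ∈ F then w' e else w e) a (w a * ((w a)⁻¹ * w' a)) := by
        funext e
        by_cases hea : e = a
        · subst hea
          simp
        · rw [Sk.upd_ne S _ hea]
          simp [hea]
      rw [h0]
      refine ih.trans ?_
      have h1 := WStep.comm (m := 0) S (fun e => if e ∈ F then w' e else w e) a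
        ((w a)⁻¹ * w' a) (Subgroup.mem_top _)
      simp only [if_neg ha] at h1
      exact Eqv.of_step h1
  have h1 := key Finset.univ
  have h2 : (fun e => if e ∈ (Finset.univ : Finset S.E) then w' e else w e) = w' := by
    funext e
    simp
  rw [h2] at h1
  exact h1

/-- the skeleton without runs -/
private def baseZeroSk (n : ℕ) : Sk n where
  E := Empty
  finite := inferInstance
  src := fun e => e.elim
  inj := fun e => e.elim
  acyclic := ⟨fun e => e.elim, fun e => e.elim⟩

private theorem baseZero_neg {n : ℕ} (S : Sk n) (a : S.Arc) (e : S.E) (h : S.src e ≠ a) :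
    (S.mark a).src (some e) = Sum.map id some (S.src e) := by
  change markSrc S.src a (some e) = _
  simp only [markSrc]
  rw [if_neg h]

private theorem baseZero_main {n : ℕ} : ∀ (k : ℕ) (S : Sk n) (w : S.W), Nat.card S.E = k →
    Eqv 0 ⟨S, w⟩ ⟨baseZeroSk n, fun e => e.elim⟩ := by
  classical
  intro k
  induction k with
  | zero =>
    intro S w hk
    have hfin := S.finite
    have hE : IsEmpty S.E := Finite.card_eq_zero_iff.1 hk
    have h1 := Eqv.of_step (WStep.rename (m := 0) S (baseZeroSk n)
      (Equiv.equivOfIsEmpty S.E Empty) (fun e => (hE.false e).elim) w)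
    refine h1.trans ?_
    exact baseZero_words _ _ _
  | succ k ih =>
    intro S w hk
    have hfin := S.finite
    have hne : Nonempty S.E := by
      by_contra h
      rw [not_nonempty_iff] at h
      rw [Finite.card_eq_zero_iff.2 h] at hk
      omega
    obtain ⟨r, hr⟩ := S.acyclic
    obtain ⟨e, he⟩ := Finite.exists_max r
    have htop : ∀ f, S.src f ≠ Sum.inr e := by
      intro f hf
      have h1 := hr f e hf
      have h2 := he f
      omega
    let back : Fin n ⊕ {f : S.E // f ≠ e} → S.Arc := Sum.map id Subtype.val
    have hback : ∀ x : S.Arc, x ≠ Sum.inr e → ∃ y, back y = x := by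
      intro x hx
      rcases x with i | f
      · exact ⟨Sum.inl i, rfl⟩
      · exact ⟨Sum.inr ⟨f, fun h => hx (by rw [h])⟩, rfl⟩
    have hbackinj : Function.Injective back :=
      Function.Injective.sumMap Function.injective_id Subtype.val_injective
    choose src' hsrc' using fun f : {f : S.E // f ≠ e} => hback (S.src f.1) (htop f.1)
    obtain ⟨a, ha⟩ := hback (S.src e) (S.src_ne e)
    let S' : Sk n :=
      { E := {f : S.E // f ≠ e}
        finite := inferInstance
        src := src'
        inj := by
          intro f g h
          apply Subtype.ext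
          apply S.inj
          rw [← hsrc' f, ← hsrc' g, h]
        acyclic := by
          refine ⟨fun f => r f.1, fun f g h => hr f.1 g.1 ?_⟩
          rw [← hsrc' f, h]
          rfl }
    have hcard : Nat.card S'.E = k := by
      have h1 : Nat.card S.E = Nat.card (Option {f : S.E // f ≠ e}) :=
        Nat.card_congr (Equiv.optionSubtypeNe e).symm
      rw [Finite.card_option, hk] at h1
      have h2 : Nat.card S'.E = Nat.card {f : S.E // f ≠ e} := rfl
      omega
    let φ : (S'.mark a).E ≃ S.E := Equiv.optionSubtypeNe e
    have hφn : φ none = e := Equiv.optionSubtypeNe_none e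
    have hφs : ∀ f : {f : S.E // f ≠ e}, φ (some f) = f.1 := fun f =>
      Equiv.optionSubtypeNe_some e f
    have hmap : ∀ y : S'.Arc, Sum.map id φ (Sum.map id some y) = back y := by
      intro y
      rcases y with i | f
      · rfl
      · exact congrArg Sum.inr (hφs f)
    have hren : ∀ o, S.src (φ o) = Sum.map id φ ((S'.mark a).src o) := by
      intro o
      rcases o with _ | f
      · have h1 : (S'.mark a).src none = Sum.map id some a := mark_src_none S' a
        rw [h1]
        exact (congrArg S.src hφn).trans (ha.symm.trans (hmap a).symm)
      · have h1 : (S'.mark a).src (some f) = Sum.map id some (S'.src f) := by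
          apply baseZero_neg
          intro h2
          apply f.2
          apply S.inj
          rw [← hsrc' f, ← ha]
          exact congrArg back h2
        rw [h1]
        exact (congrArg S.src (hφs f)).trans ((hsrc' f).symm.trans (hmap (S'.src f)).symm)
    have h0 := ih S' (fun _ => 1) hcard
    have h1 := Eqv.of_step (WStep.mark (m := 0) S' (fun _ => 1) a)
    have h2 := Eqv.of_step (WStep.rename (m := 0) (S'.mark a) S φ hren
      (S'.markW a (fun _ => 1)))
    have h3 := baseZero_words S (Sk.renW φ (S'.markW a (fun _ => 1))) w
    exact h3.symm.trans (h2.symm.trans (h1.symm.trans h0))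

theorem eqv_zero {n : ℕ} (X X' : WD n) : Eqv 0 X X' := by
  exact (baseZero_main _ X.S X.w rfl).trans (baseZero_main _ X'.S X'.w rfl).symm

end Pool.Agent.H61.Tu
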