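import Pool.Agent.H61.Tu.WD

/-!
# Diagrams and word diagrams (architect)

`D.sk` is the skeleton of a diagram, `D.toWD` its word diagram, `S.dg L` the diagram with the
skeleton `S` and the lists `L`.
-/

namespace Pool.Agent.H61.Tu

open Diagram Relation

/-- skeleton of a diagram -/
abbrev Diagram.sk {n : ℕ} (D : Diagram n) : Sk n := ⟨D.E, D.finite, D.src, D.inj, D.acyclic⟩

/-- words of a diagram as elements of the free group -/
def Diagram.fw {n : ℕ} (D : Diagram n) : D.sk.W := fun e => FreeGroup.mk (D.word e)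

/-- word diagram of a diagram -/
abbrev Diagram.toWD {n : ℕ} (D : Diagram n) : WD n := ⟨D.sk, D.fw⟩

theorem Diagram.fw_apply {n : ℕ} (D : Diagram n) (e : D.E) : D.fw e = FreeGroup.mk (D.word e) :=
  rfl

/-- the diagram with skeleton `S` and lists `L` -/
abbrev Sk.dg {n : ℕ} (S : Sk n) (L : S.E → List (S.Arc × Bool)) : Diagram n :=
  ⟨S.E, S.finite, S.src, L, S.inj, S.acyclic⟩

theorem dg_sk {n : ℕ} (D : Diagram n) : D.sk.dg D.word = D := rfl

/-- a list that spells the element `u` -/
noncomputable def lst {A : Type} (u : FreeGroup A) : List (A × Bool) := Quot.out u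

@[simp] theorem mk_lst {A : Type} (u : FreeGroup A) : FreeGroup.mk (lst u) = u := Quot.out_eq u

/-- a diagram for a word diagram -/
noncomputable def WD.toDg {n : ℕ} (X : WD n) : Diagram n := X.S.dg fun e => lst (X.w e)

theorem Diagram.WEquiv.refl {n m : ℕ} (D : Diagram n) : WEquiv m D D := EqvGen.refl D

theorem Diagram.WEquiv.symm {n m : ℕ} {D D' : Diagram n} (h : WEquiv m D D') : WEquiv m D' D :=
  EqvGen.symm _ _ h

theorem Diagram.WEquiv.trans {n m : ℕ} {D D' D'' : Diagram n} (h : WEquiv m D D')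
    (h' : WEquiv m D' D'') : WEquiv m D D'' := EqvGen.trans _ _ _ h h'

theorem Diagram.WEquiv.of_move {n m : ℕ} {D D' : Diagram n} (h : Move D D') : WEquiv m D D' :=
  EqvGen.rel _ _ (Or.inl h)

theorem Diagram.WEquiv.of_surgery {n m : ℕ} {D D' : Diagram n} (h : Surgery m D D') : WEquiv m D D' :=
  EqvGen.rel _ _ (Or.inr h)

@[simp] theorem setWord_word_same {n : ℕ} (D : Diagram n) (e : D.E)
    (L : List (D.Arc × Bool)) : (D.setWord e L).word e = L := by
  simp [Diagram.setWord]

theorem setWord_word_ne {n : ℕ} (D : Diagram n) {e f : D.E} (h : f ≠ e)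
    (L : List (D.Arc × Bool)) : (D.setWord e L).word f = D.word f := by
  simp [Diagram.setWord, h]

theorem fw_setWord {n : ℕ} (D : Diagram n) (e : D.E) (L : List (D.Arc × Bool)) :
    (D.setWord e L).fw = D.sk.upd D.fw e (FreeGroup.mk L) := by
  funext f
  change FreeGroup.mk ((D.setWord e L).word f) = _
  by_cases h : f = e
  · rw [h, setWord_word_same, Sk.upd_same]
    rfl
  · rw [setWord_word_ne D h, Sk.upd_ne D.sk D.fw h]
    rfl

theorem toWD_setWord {n : ℕ} (D : Diagram n) (e : D.E) (L : List (D.Arc × Bool)) :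
    (D.setWord e L).toWD = ⟨D.sk, D.sk.upd D.fw e (FreeGroup.mk L)⟩ := by
  rw [← fw_setWord]
  rfl

theorem mk_map {A B : Type} (g : A → B) (L : List (A × Bool)) :
    FreeGroup.mk (L.map (Prod.map g id)) = FreeGroup.map g (FreeGroup.mk L) := by
  rw [FreeGroup.map.mk]
  rfl

theorem toWD_mark {n : ℕ} (D : Diagram n) (a : D.Arc) :
    (D.mark a).toWD = ⟨D.sk.mark a, D.sk.markW a D.fw⟩ := by
  have h : (D.mark a).fw = D.sk.markW a D.fw := by
    funext o
    rcases o with _ | e
    · rfl
    · exact mk_map (Sum.map id some) (D.word e)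
  change (⟨(D.mark a).sk, (D.mark a).fw⟩ : WD n) = _
  rw [h]
  rfl

end Pool.Agent.H61.Tu
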