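import Pool.Agent.H61.Tu.Bridge

/-!
# Longitudes, spelling, Alexander determinant   [H61 TU BL]

* `lift_mer`: the homs `FreeGroup.lift (fun a => ψ (D.mer a))` and `ψ ∘ PresentedGroup.mk _` agree
  on the letters (`FreeGroup.ext_hom`); `D.spell L = PresentedGroup.mk _ (FreeGroup.mk L)`.
* `isLong_of_isLongitude`: induction on the path (`FreeGroup.mul_mk`, `D.fw e = mk (D.word e)`).
* `exists_isLongitude`: if `D.sk.Path D.fw j a u` then there is `L` with `D.Path j a L` and
  `mk L = u` (induction on the path).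
* `isCol_mer`: the Wirtinger relators are `1` in the group
  (`PresentedGroup.one_of_mem` or `QuotientGroup.eq_one_iff` with `Subgroup.subset_normalClosure`),
  so for every homomorphism `ψ` from the group `ψ ∘ mer` is a colouring.
* `hom_of_isCol`: `PresentedGroup.toGroup`: the relators go to `1` by `IsCol`.
* `alexander_eq`: unfold; `foxF_mk`, `lift_mer`.
-/

namespace Pool.Agent.H61.Tu

open Diagram Relation
open scoped commutatorElement

theorem lift_mer {n : ℕ} (D : Diagram n) {H : Type*} [Group H] (ψ : D.Pi →* H)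
    (L : List (D.Arc × Bool)) :
    FreeGroup.lift (fun a => ψ (D.mer a)) (FreeGroup.mk L) = ψ (D.spell L) := by
  have h : FreeGroup.lift (fun a => ψ (D.mer a)) =
      ψ.comp (PresentedGroup.mk (Set.range D.rel)) := by
    apply FreeGroup.ext_hom
    intro a
    rw [FreeGroup.lift_apply_of]
    rfl
  rw [h]
  rfl

private theorem path_of_path {n : ℕ} {D : Diagram n} {j : Fin n} {a : D.Arc}
    {L : List (D.Arc × Bool)} (h : D.Path j a L) : D.sk.Path D.fw j a (FreeGroup.mk L) := by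
  induction h with
  | base => exact Sk.Path.base
  | step e L _ ih =>
    rw [← FreeGroup.mul_mk]
    exact Sk.Path.step (S := D.sk) (w := D.fw) e _ ih

private theorem path_exists_lst {n : ℕ} {D : Diagram n} {j : Fin n} {a : D.sk.Arc}
    {u : FreeGroup D.sk.Arc} (h : D.sk.Path D.fw j a u) :
    ∃ L : List (D.Arc × Bool), D.Path j a L ∧ FreeGroup.mk L = u := by
  induction h with
  | base => exact ⟨[], Diagram.Path.base, rfl⟩
  | step e u _ ih =>
    obtain ⟨L, hL, hu⟩ := ih
    refine ⟨L ++ D.word e, Diagram.Path.step e L hL, ?_⟩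
    rw [← FreeGroup.mul_mk, hu]
    rfl

theorem isLong_of_isLongitude {n : ℕ} {D : Diagram n} {j : Fin n} {L : List (D.Arc × Bool)}
    (h : D.IsLongitude j L) : D.sk.IsLong D.fw j (FreeGroup.mk L) := by
  obtain ⟨a, ha, ha'⟩ := h
  exact ⟨a, path_of_path ha, ha'⟩

theorem exists_isLongitude {n : ℕ} {D : Diagram n} {j : Fin n} {u : FreeGroup D.Arc}
    (h : D.sk.IsLong D.fw j u) : ∃ L, D.IsLongitude j L ∧ FreeGroup.mk L = u := by
  obtain ⟨a, ha, ha'⟩ := h
  obtain ⟨L, hL, hu⟩ := path_exists_lst ha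
  exact ⟨L, ⟨a, hL, ha'⟩, hu⟩

theorem isCol_mer {n : ℕ} (D : Diagram n) {H : Type*} [Group H] (ψ : D.Pi →* H) :
    D.sk.IsCol D.fw (fun i => ψ (D.mer (Sum.inl i))) (fun a => ψ (D.mer a)) := by
  refine ⟨fun i => rfl, fun e => ?_⟩
  have h1 : PresentedGroup.mk (Set.range D.rel) (D.rel e) = 1 :=
    PresentedGroup.one_of_mem (Set.mem_range_self e)
  have h0 : FreeGroup.lift (fun a => ψ (D.mer a)) =
      ψ.comp (PresentedGroup.mk (Set.range D.rel)) := by
    apply FreeGroup.ext_hom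
    intro a
    rw [FreeGroup.lift_apply_of]
    rfl
  have h3 : FreeGroup.lift (fun a => ψ (D.mer a)) (D.rel e) = 1 := by
    rw [h0, MonoidHom.comp_apply, h1, map_one]
  have h2 : (ψ (D.mer (Sum.inr e)))⁻¹ * (FreeGroup.lift (fun a => ψ (D.mer a)) (D.fw e))⁻¹ *
      ψ (D.mer (D.src e)) * FreeGroup.lift (fun a => ψ (D.mer a)) (D.fw e) = 1 := by
    rw [← h3, Diagram.rel, map_mul, map_mul, map_mul, map_inv, map_inv, FreeGroup.lift_apply_of,
      FreeGroup.lift_apply_of]
    rfl
  have h4 : ψ (D.mer (Sum.inr e)) = (FreeGroup.lift (fun a => ψ (D.mer a)) (D.fw e))⁻¹ *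
      ψ (D.mer (D.src e)) * FreeGroup.lift (fun a => ψ (D.mer a)) (D.fw e) := by
    have h5 : (ψ (D.mer (Sum.inr e)))⁻¹ *
      ((FreeGroup.lift (fun a => ψ (D.mer a)) (D.fw e))⁻¹ *
      ψ (D.mer (D.src e)) * FreeGroup.lift (fun a => ψ (D.mer a)) (D.fw e)) = 1 := by
      rw [← mul_assoc, ← mul_assoc]
      exact h2
    exact inv_mul_eq_one.1 h5
  exact h4

theorem hom_of_isCol {n : ℕ} (D : Diagram n) {H : Type*} [Group H] {x : Fin n → H}
    {η : D.Arc → H} (hη : D.sk.IsCol D.fw x η) : ∃ ψ : D.Pi →* H, ∀ a, ψ (D.mer a) = η a := by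
  have h : ∀ r ∈ Set.range D.rel, FreeGroup.lift η r = 1 := by
    rintro _ ⟨e, rfl⟩
    unfold Diagram.rel
    rw [map_mul, map_mul, map_mul, map_inv, map_inv, FreeGroup.lift_apply_of,
      FreeGroup.lift_apply_of]
    have h1 := hη.2 e
    change η (Sum.inr e) = (FreeGroup.lift η (FreeGroup.mk (D.word e)))⁻¹ * η (D.src e) *
      FreeGroup.lift η (FreeGroup.mk (D.word e)) at h1
    rw [h1]
    group
  exact ⟨PresentedGroup.toGroup h, fun a => PresentedGroup.toGroup.of h⟩

theorem alexander_eq {n : ℕ} (D : Diagram n) {R : Type} [CommRing R] {V : Type}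
    [AddCommGroup V] [Module R V] (ψ : D.Pi →* (Module.End R V)ˣ) :
    D.alexander ψ = D.sk.alex D.fw (fun a => ψ (D.mer a)) := by
  unfold Diagram.alexander Sk.alex
  congr 1
  unfold Diagram.alexanderMap Sk.alexMap
  congr 1
  funext e
  unfold Diagram.alexanderRow
  rw [← lift_mer D ψ (D.word e)]
  rfl

end Pool.Agent.H61.Tu
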