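import Pool.Agent.H61.Tu.GamBasic

/-!
# Existence of colourings in a nilpotent group   [H61 TU COLE]

Define `ρ s : S.Arc → H` by recursion on `s`: `ρ 0` arbitrary (e.g. `fun _ => 1`), and `ρ (s+1)`
from `Sk.exists_rec` with bottom values `x i` and
`ρ (s+1) (inr e) = (lift (ρ s) (w e))⁻¹ * ρ (s+1) (src e) * lift (ρ s) (w e)`.
Claim: `(ρ s a)⁻¹ * ρ (s+1) a ∈ gam H s` for all arcs `a`. Induction on `s`; `s = 0` trivial.
Step: words evaluated by `ρ s` and `ρ (s+1)` differ by elements of `gam H s`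
(two homs to `H ⧸ gam H s`). Then by `Sk.arc_induction` `ρ (s+1) a` and `ρ (s+2) a` differ by
an element of `gam H (s+1)` (equal at the bottom; at `inr e` conjugate by words that differ by
`z ∈ gam H s`, which is central modulo `gam H (s+1)`). For `s = m`: `gam H m = ⊥`, so
`ρ m = ρ (m+1)`, and `ρ := ρ (m+1)` is a colouring.
-/

namespace Pool.Agent.H61.Tu

open Diagram Relation
open scoped commutatorElement

private theorem ColExist_lift {A H : Type*} [Group H] {ρ ρ' : A → H} {s : ℕ}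
    (h : ∀ a, (ρ a)⁻¹ * ρ' a ∈ gam H s) (u : FreeGroup A) :
    (FreeGroup.lift ρ u)⁻¹ * FreeGroup.lift ρ' u ∈ gam H s := by
  have h1 : (QuotientGroup.mk' (gam H s)).comp (FreeGroup.lift ρ) =
      (QuotientGroup.mk' (gam H s)).comp (FreeGroup.lift ρ') := by
    apply FreeGroup.ext_hom
    intro a
    change (QuotientGroup.mk (FreeGroup.lift ρ (FreeGroup.of a)) : H ⧸ gam H s) =
      QuotientGroup.mk (FreeGroup.lift ρ' (FreeGroup.of a))
    rw [FreeGroup.lift_apply_of, FreeGroup.lift_apply_of]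
    exact QuotientGroup.eq.2 (h a)
  exact QuotientGroup.eq.1 (DFunLike.congr_fun h1 u)

private theorem ColExist_conj {H : Type*} [Group H] {s : ℕ} {a a' U U' : H}
    (ha : a⁻¹ * a' ∈ gam H (s + 1)) (hU : U⁻¹ * U' ∈ gam H s) :
    (U⁻¹ * a * U)⁻¹ * (U'⁻¹ * a' * U') ∈ gam H (s + 1) := by
  obtain ⟨z, hz, rfl⟩ : ∃ z ∈ gam H s, U' = U * z := ⟨_, hU, by group⟩
  have h2 : (QuotientGroup.mk (U⁻¹ * a * U) : H ⧸ gam H (s + 1)) =
      QuotientGroup.mk ((U * z)⁻¹ * a * (U * z)) := by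
    rw [QuotientGroup.eq]
    have e : (U⁻¹ * a * U)⁻¹ * ((U * z)⁻¹ * a * (U * z)) =
        ⁅(U⁻¹ * a * U)⁻¹, z⁻¹⁆ := by
      rw [commutatorElement_def]; group
    rw [e]
    exact (commutator_mem_gam (inv_mem hz) _).2
  have h3 : (QuotientGroup.mk a : H ⧸ gam H (s + 1)) = QuotientGroup.mk a' :=
    QuotientGroup.eq.2 ha
  rw [← QuotientGroup.eq, h2]
  change (QuotientGroup.mk (U * z)⁻¹ : H ⧸ gam H (s + 1)) * QuotientGroup.mk a *
    QuotientGroup.mk (U * z) = QuotientGroup.mk (U * z)⁻¹ * QuotientGroup.mk a' *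
    QuotientGroup.mk (U * z)
  rw [h3]

theorem col_exists {n m : ℕ} (S : Sk n) (w : S.W) {H : Type*} [Group H] (hH : gam H m = ⊥)
    (x : Fin n → H) : ∃ ρ : S.Arc → H, S.IsCol w x ρ := by
  have hstep : ∀ σ : S.Arc → H, ∃ τ : S.Arc → H, (∀ i, τ (Sum.inl i) = x i) ∧
      ∀ e, τ (Sum.inr e) = (FreeGroup.lift σ (w e))⁻¹ * τ (S.src e) * FreeGroup.lift σ (w e) :=
    fun σ => S.exists_rec x
      (fun e y => (FreeGroup.lift σ (w e))⁻¹ * y * FreeGroup.lift σ (w e))
  choose T hT0 hT1 using hstep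
  have key : ∀ s, ∀ a, (T^[s] (fun _ => 1) a)⁻¹ * T^[s + 1] (fun _ => 1) a ∈ gam H s := by
    intro s
    induction s with
    | zero => exact fun a => Subgroup.mem_top _
    | succ s ih =>
      refine S.arc_induction (fun i => ?_) fun e he => ?_
      · rw [Function.iterate_succ_apply', Function.iterate_succ_apply', hT0, hT0, inv_mul_cancel]
        exact one_mem _
      · rw [Function.iterate_succ_apply' T s, Function.iterate_succ_apply' T (s + 1), hT1, hT1]
        refine ColExist_conj ?_ (ColExist_lift ih (w e))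
        rw [Function.iterate_succ_apply' T s, Function.iterate_succ_apply' T (s + 1)] at he
        exact he
  have h1 : T^[m] (fun _ => 1) = T (T^[m] (fun _ => 1)) := by
    funext a
    have h2 := key m a
    rw [hH, Subgroup.mem_bot, Function.iterate_succ_apply'] at h2
    exact (inv_mul_eq_one.1 h2)
  refine ⟨T (T^[m] (fun _ => 1)), hT0 _, fun e => ?_⟩
  have h3 := hT1 (T^[m] (fun _ => 1)) e
  rw [h3]
  rw [← h1]

end Pool.Agent.H61.Tu
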