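import Pool.Agent.H61.Tu.GamBasic

/-!
# Uniqueness of colourings in a nilpotent group   [H61 TU COLU]

Claim: for all `s` and all arcs `a`: `(ρ a)⁻¹ * ρ' a ∈ gam H s`. Induction on `s`; `s = 0` is
trivial. If it holds for `s`, then for every word `u`: `U⁻¹ * U' ∈ gam H s`, where
`U = lift ρ u`, `U' = lift ρ' u` (the two homs to `H ⧸ gam H s` agree on the letters:
`FreeGroup.ext_hom`). For `s + 1` use `Sk.arc_induction`: at the bottom the colours are equal;
at a run `e` with word `u`, `ρ (inr e) = U⁻¹ * a * U`, `ρ' (inr e) = U'⁻¹ * a' * U'` with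
`U' = U * z`, `z ∈ gam H s`, `a⁻¹ * a' ∈ gam H (s+1)`. Modulo the normal subgroup
`gam H (s+1)` the element `z` is central (`commutator_mem_gam`), so the two are equal there.
Finally `gam H m = ⊥`.
-/

namespace Pool.Agent.H61.Tu

open Diagram Relation
open scoped commutatorElement

private theorem ColUnique_lift {A H : Type*} [Group H] {ρ ρ' : A → H} {s : ℕ}
    (h : ∀ a, (ρ a)⁻¹ * ρ' a ∈ gam H s) (u : FreeGroup A) :
    (FreeGroup.lift ρ u)⁻¹ * FreeGroup.lift ρ' u ∈ gam H s := by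
  have h1 : (QuotientGroup.mk' (gam H s)).comp (FreeGroup.lift ρ) =
      (QuotientGroup.mk' (gam H s)).comp (FreeGroup.lift ρ') := by
    apply FreeGroup.ext_hom
    intro a
    change (QuotientGroup.mk (FreeGroup.lift ρ (FreeGroup.of a)) : H ⧸ gam H s) =
      QuotientGroup.mk (FreeGroup.lift ρ' (FreeGroup.of a))
    rw [FreeGroup.lift_apply_of, FreeGroup.lift_apply_of]
    exact QuotientGroup.eq.2 (h a)
  exact QuotientGroup.eq.1 (DFunLike.congr_fun h1 u)

private theorem ColUnique_conj {H : Type*} [Group H] {s : ℕ} {a a' U U' : H}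
    (ha : a⁻¹ * a' ∈ gam H (s + 1)) (hU : U⁻¹ * U' ∈ gam H s) :
    (U⁻¹ * a * U)⁻¹ * (U'⁻¹ * a' * U') ∈ gam H (s + 1) := by
  obtain ⟨z, hz, rfl⟩ : ∃ z ∈ gam H s, U' = U * z := ⟨_, hU, by group⟩
  have h2 : (QuotientGroup.mk (U⁻¹ * a * U) : H ⧸ gam H (s + 1)) =
      QuotientGroup.mk ((U * z)⁻¹ * a * (U * z)) := by
    rw [QuotientGroup.eq]
    have e : (U⁻¹ * a * U)⁻¹ * ((U * z)⁻¹ * a * (U * z)) =
        ⁅(U⁻¹ * a * U)⁻¹, z⁻¹⁆ := by
      rw [commutatorElement_def]; group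
    rw [e]
    exact (commutator_mem_gam (inv_mem hz) _).2
  have h3 : (QuotientGroup.mk a : H ⧸ gam H (s + 1)) = QuotientGroup.mk a' :=
    QuotientGroup.eq.2 ha
  rw [← QuotientGroup.eq, h2]
  change (QuotientGroup.mk (U * z)⁻¹ : H ⧸ gam H (s + 1)) * QuotientGroup.mk a *
    QuotientGroup.mk (U * z) = QuotientGroup.mk (U * z)⁻¹ * QuotientGroup.mk a' *
    QuotientGroup.mk (U * z)
  rw [h3]

theorem col_unique {n m : ℕ} (S : Sk n) (w : S.W) {H : Type*} [Group H] (hH : gam H m = ⊥)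
    (x : Fin n → H) {ρ ρ' : S.Arc → H} (h : S.IsCol w x ρ) (h' : S.IsCol w x ρ') : ρ = ρ' := by
  have key : ∀ s, ∀ a, (ρ a)⁻¹ * ρ' a ∈ gam H s := by
    intro s
    induction s with
    | zero => exact fun a => Subgroup.mem_top _
    | succ s ih =>
      refine S.arc_induction (fun i => ?_) fun e he => ?_
      · rw [h.1 i, h'.1 i, inv_mul_cancel]
        exact one_mem _
      · rw [h.2 e, h'.2 e]
        exact ColUnique_conj he (ColUnique_lift ih (w e))
  funext a
  have h1 := key m a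
  rw [hH, Subgroup.mem_bot] at h1
  exact (inv_mul_eq_one.1 h1)

end Pool.Agent.H61.Tu
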