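import Mathlib

/-!
# Welded string links, w_k-equivalence, peripheral system, twisted Alexander determinant

Definitions used in the statement of the hand-in `MP_663250_gt.WkEquivalence`.

A virtual string link diagram on `n` strands, up to planar isotopy and the virtual and mixed
moves, is a Gauss diagram. Up to the welded move OC (overcrossings commute) the only things
that matter are, for each undercrossing met along a strand, its sign and the arc that passes
over. So a diagram is coded as follows. The strands are cut into *arcs* by *runs*: a run `e`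
is a (possibly empty) sequence of consecutive undercrossings without overcrossings in between.
The arcs are the bottom arcs `Sum.inl i` (`i`-th strand) and, for each run `e`, the arc
`Sum.inr e` that begins where the run ends; `src e` is the arc that ends where the run begins.
`word e` lists the undercrossings of the run in order: `(a, true)` or `(a, false)` means an
undercrossing below the arc `a`, positive or negative.
-/

namespace Pool.Agent.H61.Tu

open Relation

/-- the lower central subgroup `γ_(m+1)` of a group: `γ_1 = G`, `γ_(i+1) = [γ_i, G]` -/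
abbrev gam (G : Type*) [Group G] (m : ℕ) : Subgroup G := (⊤ : Subgroup G).lowerCentralSeries m

section Mark

variable {n : ℕ} {E : Type}

open Classical in
/-- Insertion of an empty run `none` at the upper end of the arc `a`: it begins at `a`, and the
run that began at `a` now begins at the new arc `Sum.inr none`. -/
noncomputable def markSrc (src : E → Fin n ⊕ E) (a : Fin n ⊕ E) : Option E → Fin n ⊕ Option E
  | none => Sum.map id some a
  | some e => if src e = a then Sum.inr none else Sum.map id some (src e)

theorem markSrc_injective (src : E → Fin n ⊕ E) (a : Fin n ⊕ E)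
    (hs : Function.Injective src) : Function.Injective (markSrc src a) := by
  have hinj : Function.Injective (Sum.map (id : Fin n → Fin n) (some : E → Option E)) :=
    Function.Injective.sumMap Function.injective_id (Option.some_injective _)
  have hne : ∀ x : Fin n ⊕ E, Sum.map (id : Fin n → Fin n) (some : E → Option E) x
      ≠ Sum.inr none := by
    intro x
    rcases x with x | x <;> simp
  intro o o' h
  rcases o with _ | e <;> rcases o' with _ | e'
  · rfl
  · simp only [markSrc] at h
    split_ifs at h with h1
    · exact absurd h (hne _)
    · exact absurd (hinj h).symm h1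
  · simp only [markSrc] at h
    split_ifs at h with h1
    · exact absurd h.symm (hne _)
    · exact absurd (hinj h) h1
  · simp only [markSrc] at h
    split_ifs at h with h1 h2 h2
    · rw [hs (h1.trans h2.symm)]
    · exact absurd h.symm (hne _)
    · exact absurd h (hne _)
    · rw [hs (hinj h)]

theorem markSrc_acyclic (src : E → Fin n ⊕ E) (a : Fin n ⊕ E)
    (hs : ∃ r : E → ℕ, ∀ e f, src e = Sum.inr f → r f < r e) :
    ∃ r : Option E → ℕ, ∀ e f, markSrc src a e = Sum.inr f → r f < r e := by
  obtain ⟨r, hr⟩ := hs
  refine ⟨fun o => match o with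
    | none => match a with
      | Sum.inl _ => 0
      | Sum.inr g => 2 * r g + 3
    | some e => 2 * r e + 2, ?_⟩
  intro o o' h
  rcases o with _ | e <;> rcases o' with _ | e'
  · rcases a with a | a <;> simp [markSrc] at h
  · rcases a with a | a
    · simp [markSrc] at h
    · simp only [markSrc, Sum.map_inr, Sum.inr.injEq, Option.some.injEq] at h
      subst h
      simp
  · simp only [markSrc] at h
    split_ifs at h with h1
    · rcases a with a | a
      · simp
      · have := hr e a h1
        simp only
        omega
    · rcases hs : src e with i | g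
      · rw [hs] at h; simp at h
      · rw [hs] at h; simp at h
  · simp only [markSrc] at h
    split_ifs at h with h1
    · simp at h
    · rcases hs : src e with i | g
      · rw [hs] at h; simp at h
      · rw [hs] at h
        simp only [Sum.map_inr, Sum.inr.injEq, Option.some.injEq] at h
        subst h
        have := hr e g hs
        simp only
        omega

end Mark

/-- Virtual string link diagrams on `n` strands up to planar isotopy, virtual and mixed moves,
and OC. -/
structure Diagram (n : ℕ) where
  /-- the runs of undercrossings -/
  E : Type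
  finite : Finite E
  /-- the arc that ends where the run begins -/
  src : E → Fin n ⊕ E
  /-- the undercrossings of the run -/
  word : E → List ((Fin n ⊕ E) × Bool)
  inj : Function.Injective src
  /-- no closed components: every run is reached from the bottom of a strand -/
  acyclic : ∃ r : E → ℕ, ∀ e f, src e = Sum.inr f → r f < r e

namespace Diagram

variable {n : ℕ}

/-- the arcs of a diagram -/
abbrev Arc (D : Diagram n) : Type := Fin n ⊕ D.E

open Classical in
/-- the same diagram with another list of undercrossings in the run `e` -/
noncomputable def setWord (D : Diagram n) (e : D.E) (L : List (D.Arc × Bool)) : Diagram n :=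
  { D with word := Function.update D.word e L }

/-- Cut the arc `a` into two arcs by an empty run `none` at its upper end: the lower part
is still called `a` and keeps all overcrossings, the upper part is `Sum.inr none`. -/
noncomputable def mark (D : Diagram n) (a : D.Arc) : Diagram n where
  E := Option D.E
  finite := by
    have := D.finite
    infer_instance
  src := markSrc D.src a
  word := fun o => match o with
    | none => []
    | some e => (D.word e).map (Prod.map (Sum.map id some) id)
  inj := markSrc_injective D.src a D.inj
  acyclic := markSrc_acyclic D.src a D.acyclic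

/-- One move between diagrams. `rename` to `shift` do not change the virtual string link
diagram up to OC: renaming of the runs; cutting an arc; an overcrossing passes a cut (`pass`);
if there is no overcrossing on the arc between the run `e` and the next run `f`, the first
undercrossing of `f` may be counted to `e` (`shift`). `r1_left` and `r1_right` are
Reidemeister I, `r2` is Reidemeister II, `r3` is Reidemeister III. -/
inductive Move : Diagram n → Diagram n → Prop
  | rename (D D' : Diagram n) (φ : D.E ≃ D'.E)
      (hsrc : ∀ e, D'.src (φ e) = Sum.map id φ (D.src e))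
      (hword : ∀ e, D'.word (φ e) = (D.word e).map (Prod.map (Sum.map id φ) id)) : Move D D'
  | mark (D : Diagram n) (a : D.Arc) : Move D (D.mark a)
  | pass (D : Diagram n) (e f : D.E) (b : Bool) (L₁ L₂ : List (D.Arc × Bool))
      (hf : D.word f = []) (he : D.word e = L₁ ++ (Sum.inr f, b) :: L₂) :
      Move D (D.setWord e (L₁ ++ (D.src f, b) :: L₂))
  | shift (D : Diagram n) (e f : D.E) (x : D.Arc × Bool) (L : List (D.Arc × Bool))
      (hef : D.src f = Sum.inr e) (hno : ∀ g, ∀ y ∈ D.word g, y.1 ≠ Sum.inr e)
      (hf : D.word f = x :: L) :
      Move D ((D.setWord e (D.word e ++ [x])).setWord f L)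
  | r1_left (D : Diagram n) (e : D.E) (b : Bool) (L : List (D.Arc × Bool))
      (he : D.word e = (D.src e, b) :: L) : Move D (D.setWord e L)
  | r1_right (D : Diagram n) (e : D.E) (b : Bool) (L : List (D.Arc × Bool))
      (he : D.word e = L ++ [(Sum.inr e, b)]) : Move D (D.setWord e L)
  | r2 (D : Diagram n) (e : D.E) (a : D.Arc) (b : Bool) (L₁ L₂ : List (D.Arc × Bool))
      (he : D.word e = L₁ ++ (a, b) :: (a, !b) :: L₂) : Move D (D.setWord e (L₁ ++ L₂))
  | r3 (D : Diagram n) (e f : D.E) (hef : f ≠ e) (c : D.Arc) (b d : Bool)
      (L₁ L₂ : List (D.Arc × Bool)) (hf : D.word f = [(c, d)])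
      (he : D.word e = L₁ ++ (D.src f, b) :: (c, d) :: L₂) :
      Move D (D.setWord e (L₁ ++ (c, d) :: (Sum.inr f, b) :: L₂))

/-- Surgery on arrow trees with at least `m + 1` tails: a block of undercrossings that spells
an element of the lower central subgroup `γ_(m+1)` (`gam _ m`) of the free group
on the arcs is inserted in a run. -/
def Surgery (m : ℕ) (D D' : Diagram n) : Prop :=
  ∃ (e : D.E) (L₁ B L₂ : List (D.Arc × Bool)), D.word e = L₁ ++ L₂ ∧
    FreeGroup.mk B ∈ gam (FreeGroup D.Arc) m ∧
    D' = D.setWord e (L₁ ++ B ++ L₂)

/-- `w_(m+1)`-equivalence of welded string links: generated by the welded moves and surgery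
on arrow trees with at least `m + 1` tails -/
def WEquiv (m : ℕ) : Diagram n → Diagram n → Prop :=
  EqvGen (fun D D' => Move D D' ∨ Surgery m D D')

/-- Wirtinger relator of a run: `(Sum.inr e)⁻¹ * w⁻¹ * src e * w`, `w` the word of the run -/
def rel (D : Diagram n) (e : D.E) : FreeGroup D.Arc :=
  (FreeGroup.of (Sum.inr e))⁻¹ * (FreeGroup.mk (D.word e))⁻¹ * FreeGroup.of (D.src e) *
    FreeGroup.mk (D.word e)

/-- the group of the diagram (Wirtinger presentation) -/
abbrev Pi (D : Diagram n) : Type := PresentedGroup (Set.range D.rel)

/-- the element of the group spelled by a list of signed arcs -/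
def spell (D : Diagram n) (L : List (D.Arc × Bool)) : D.Pi :=
  PresentedGroup.mk (Set.range D.rel) (FreeGroup.mk L)

/-- the meridian of an arc -/
def mer (D : Diagram n) (a : D.Arc) : D.Pi := PresentedGroup.of a

/-- `Path j a L`: walking up the strand `j` from the bottom to the arc `a` one meets the
undercrossings `L` -/
inductive Path (D : Diagram n) (j : Fin n) : D.Arc → List (D.Arc × Bool) → Prop
  | base : Path D j (Sum.inl j) []
  | step (e : D.E) (L : List (D.Arc × Bool)) (h : Path D j (D.src e) L) :
      Path D j (Sum.inr e) (L ++ D.word e)

/-- `L` spells the longitude of the strand `j`: all its undercrossings, from bottom to top -/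
def IsLongitude (D : Diagram n) (j : Fin n) (L : List (D.Arc × Bool)) : Prop :=
  ∃ a, Path D j a L ∧ ∀ e, D.src e ≠ a

/-- the quotient of the group of the diagram by `γ_(m+1)` -/
def NQ (D : Diagram n) (m : ℕ) : Type := D.Pi ⧸ gam D.Pi m

instance instGroupNQ (D : Diagram n) (m : ℕ) : Group (D.NQ m) :=
  QuotientGroup.Quotient.group (gam D.Pi m)

/-- the class of an element of the group -/
def cls (D : Diagram n) (m : ℕ) (g : D.Pi) : D.NQ m := (QuotientGroup.mk g : D.Pi ⧸ gam D.Pi m)

/-- The peripheral systems (group, bottom meridians, longitudes up to powers of the bottom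
meridian) are isomorphic modulo `γ_(m+1)`. -/
def PeripheralIso (m : ℕ) (D D' : Diagram n) : Prop :=
  ∃ f : D.NQ m ≃* D'.NQ m,
    (∀ i, f (D.cls m (D.mer (Sum.inl i))) = D'.cls m (D'.mer (Sum.inl i))) ∧
    ∀ j, ∃ a : ℤ, ∀ L L', D.IsLongitude j L → D'.IsLongitude j L' →
      f (D.cls m (D.spell L)) =
        D'.cls m (D'.mer (Sum.inl j)) ^ a * D'.cls m (D'.spell L')

section Alexander

variable {R : Type} [CommRing R] {V : Type} [AddCommGroup V] [Module R V]

/-- Fox derivative of a word, evaluated at a representation `ρ` of the letters; it is applied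
to a vector for each letter: `D(uv) = D(u) + ρ(u) D(v)`, `D(a) = v a`,
`D(a⁻¹) = - ρ(a)⁻¹ (v a)`. -/
def fox {A : Type} (ρ : A → (Module.End R V)ˣ) : List (A × Bool) → ((A → V) →ₗ[R] V)
  | [] => 0
  | (a, true) :: L => LinearMap.proj a + (ρ a : Module.End R V) ∘ₗ fox ρ L
  | (a, false) :: L => ((ρ a)⁻¹ : (Module.End R V)ˣ).val ∘ₗ (fox ρ L - LinearMap.proj a)

/-- vectors on all arcs from vectors on the arcs `Sum.inr e`, with value `0` at the bottom -/
def extend (n : ℕ) (E R V : Type) [CommRing R] [AddCommGroup V] [Module R V] :
    (E → V) →ₗ[R] (Fin n ⊕ E → V) where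
  toFun v := Sum.elim (fun _ => 0) v
  map_add' v v' := by
    funext a
    rcases a with a | a <;> simp
  map_smul' c v := by
    funext a
    rcases a with a | a <;> simp

/-- `v(src e) + (ψ(src e) - 1) D(w)`, `w` the word of the run `e` -/
def foxRow (D : Diagram n) (ψ : D.Pi →* (Module.End R V)ˣ) (e : D.E) : (D.Arc → V) →ₗ[R] V :=
  LinearMap.proj (D.src e) +
    ((ψ (D.mer (D.src e)) : Module.End R V) - 1) ∘ₗ fox (fun a => ψ (D.mer a)) (D.word e)

/-- row `e` of the Alexander matrix: `v(e) - ψ(w)⁻¹ (v(src e) + (ψ(src e) - 1) D(w))` -/
def alexanderRow (D : Diagram n) (ψ : D.Pi →* (Module.End R V)ˣ) (e : D.E) :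
    (D.E → V) →ₗ[R] V :=
  LinearMap.proj e - ((ψ (D.spell (D.word e)))⁻¹ : (Module.End R V)ˣ).val ∘ₗ
    D.foxRow ψ e ∘ₗ extend n D.E R V

/-- The Alexander (Fox) matrix of the Wirtinger presentation with the bottom meridians
deleted, evaluated at the representation `ψ`, as a linear map: its value at the run `e` is
`v(e) - ψ(w)⁻¹ (v(src e) + (ψ(src e) - 1) D(w))`, `w` the word of the run. -/
def alexanderMap (D : Diagram n) (ψ : D.Pi →* (Module.End R V)ˣ) :
    (D.E → V) →ₗ[R] (D.E → V) :=
  LinearMap.pi fun e => D.alexanderRow ψ e

/-- the twisted Alexander determinant -/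
noncomputable def alexander (D : Diagram n) (ψ : D.Pi →* (Module.End R V)ˣ) : R :=
  LinearMap.det (D.alexanderMap ψ)

end Alexander

end Diagram

/-- determinant of automorphisms -/
noncomputable def detU (R V : Type) [CommRing R] [AddCommGroup V] [Module R V] :
    (Module.End R V)ˣ →* Rˣ :=
  Units.map (LinearMap.det : Module.End R V →* R)

/-- the automorphism `u` is of the form `1 + t M` -/
def OneAdd {R V : Type} [CommRing R] [AddCommGroup V] [Module R V] (t : R)
    (u : (Module.End R V)ˣ) : Prop :=
  ∃ M : Module.End R V, (u : Module.End R V) = 1 + t • M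

namespace Diagram

variable {n : ℕ}

/-- `∏ i, det (ψ (x i)) ^ a i`, `x i` the bottom meridians -/
noncomputable def detFactor {R V : Type} [CommRing R] [AddCommGroup V] [Module R V]
    (D : Diagram n) (a : Fin n → ℤ) (ψ : D.Pi →* (Module.End R V)ˣ) : Rˣ :=
  ∏ i, detU R V (ψ (D.mer (Sum.inl i))) ^ a i

/-- For all representations of the two groups in `V` that agree on the bottom meridians and send
them to automorphisms `1 + t M_i`, the twisted Alexander determinants agree up to the factor
`∏ i, det (ψ (x i)) ^ a i`. -/
def AlexanderAgree (R V : Type) [CommRing R] [AddCommGroup V] [Module R V] (t : R)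
    (a : Fin n → ℤ) (D D' : Diagram n) : Prop :=
  ∀ (ψ : D.Pi →* (Module.End R V)ˣ) (ψ' : D'.Pi →* (Module.End R V)ˣ),
    (∀ i, ψ (D.mer (Sum.inl i)) = ψ' (D'.mer (Sum.inl i)) ∧
      OneAdd t (ψ (D.mer (Sum.inl i)))) →
    D'.alexander ψ' = (D.detFactor a ψ : R) * D.alexander ψ

/-- The twisted Alexander determinants of `D` and `D'` agree, up to a fixed product of powers
of the determinants of the bottom meridians, for all representations by `r × r` matrices over
commutative rings that send the bottom meridian `i` of both to the same `1 + t M_i`, where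
`t ^ (m + 1) = 0`. -/
def SameAlexander (m : ℕ) (D D' : Diagram n) : Prop :=
  ∃ a : Fin n → ℤ, ∀ (R : Type) [CommRing R] (t : R), t ^ (m + 1) = 0 → ∀ r : ℕ,
    AlexanderAgree R (Fin r → R) t a D D'

end Diagram

end Pool.Agent.H61.Tu
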