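import Pool.Agent.H61.Tu.WD

/-!
# Determinants of linear maps   [H61 TU DET]

* `det_one_add_comp_comm`: choose bases (`Module.Free.chooseBasis`), `LinearMap.det_toMatrix`,
  `LinearMap.toMatrix_comp`, and Mathlib's `Matrix.det_one_add_mul_comm`.
* `det_lower`: the map `(z, v) ↦ (z, v + G z)` is `1 + inr ∘ (G ∘ fst)`, and
  `(G ∘ fst) ∘ inr = 0`; use the first lemma.
* `det_upper`: the same for `(z, v) ↦ (z + G v, v)`.
* `det_block`: `(z, v) ↦ (A z, B v + G z)` is the composition of `(z, v) ↦ (z, B v)`,
  `(z, u) ↦ (z, u + G z)`, `(z, u) ↦ (A z, u)`; `LinearMap.det_comp`, `LinearMap.det_prodMap`.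
* `det_one_sub_of_sq`: over a commutative ring with `s * s = 0` the determinant of `1 - s • K`
  is `1 - s * trace K`: choose a basis; `Matrix.det_one_add_smul` (or
  `Matrix.det_one_add_X_smul`) gives `det (1 + r • M) = 1 + trace M * r + (..) * r ^ 2`.
-/

namespace Pool.Agent.H61.Tu

open Diagram Relation
open scoped commutatorElement

theorem det_one_add_comp_comm {R : Type} [CommRing R] {U W : Type} [AddCommGroup U] [Module R U]
    [Module.Free R U] [Module.Finite R U] [AddCommGroup W] [Module R W] [Module.Free R W]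
    [Module.Finite R W] (A : U →ₗ[R] W) (B : W →ₗ[R] U) :
    LinearMap.det (1 + A ∘ₗ B : Module.End R W) = LinearMap.det (1 + B ∘ₗ A : Module.End R U) := by
  classical
  cases subsingleton_or_nontrivial R
  · exact Subsingleton.elim _ _
  let bU := Module.Free.chooseBasis R U
  let bW := Module.Free.chooseBasis R W
  rw [← LinearMap.det_toMatrix bW, ← LinearMap.det_toMatrix bU, map_add, map_add,
    LinearMap.toMatrix_one, LinearMap.toMatrix_one, LinearMap.toMatrix_comp bW bU bW,
    LinearMap.toMatrix_comp bU bW bU, Matrix.det_one_add_mul_comm]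

theorem DetLemmas_of_sq {R : Type} [CommRing R] {U W : Type} [AddCommGroup U] [Module R U]
    [Module.Free R U] [Module.Finite R U] [AddCommGroup W] [Module R W] [Module.Free R W]
    [Module.Finite R W] (A : U →ₗ[R] W) (B : W →ₗ[R] U) (h : B ∘ₗ A = 0) :
    LinearMap.det (1 + A ∘ₗ B : Module.End R W) = 1 := by
  rw [det_one_add_comp_comm, h, add_zero, map_one]

theorem DetLemmas_lower {R : Type} [CommRing R] {U W : Type} [AddCommGroup U] [Module R U]
    [Module.Free R U] [Module.Finite R U] [AddCommGroup W] [Module R W] [Module.Free R W]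
    [Module.Finite R W] (G : U →ₗ[R] W) :
    LinearMap.det (LinearMap.prod (LinearMap.fst R U W)
      (LinearMap.snd R U W + G ∘ₗ LinearMap.fst R U W) : Module.End R (U × W)) = 1 := by
  have h1 : (LinearMap.prod (LinearMap.fst R U W)
      (LinearMap.snd R U W + G ∘ₗ LinearMap.fst R U W) : Module.End R (U × W)) =
      1 + (LinearMap.inr R U W) ∘ₗ (G ∘ₗ LinearMap.fst R U W) := by
    apply LinearMap.ext
    rintro ⟨z, v⟩
    simp
  rw [h1]
  apply DetLemmas_of_sq
  apply LinearMap.ext
  intro v
  simp

theorem det_upper {R : Type} [CommRing R] {U W : Type} [AddCommGroup U] [Module R U]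
    [Module.Free R U] [Module.Finite R U] [AddCommGroup W] [Module R W] [Module.Free R W]
    [Module.Finite R W] (G : W →ₗ[R] U) :
    LinearMap.det (LinearMap.prod (LinearMap.fst R U W + G ∘ₗ LinearMap.snd R U W)
      (LinearMap.snd R U W) : Module.End R (U × W)) = 1 := by
  have h1 : (LinearMap.prod (LinearMap.fst R U W + G ∘ₗ LinearMap.snd R U W)
      (LinearMap.snd R U W) : Module.End R (U × W)) =
      1 + (LinearMap.inl R U W) ∘ₗ (G ∘ₗ LinearMap.snd R U W) := by
    apply LinearMap.ext
    rintro ⟨z, v⟩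
    simp
  rw [h1]
  apply DetLemmas_of_sq
  apply LinearMap.ext
  intro v
  simp

theorem det_block {R : Type} [CommRing R] {U W : Type} [AddCommGroup U] [Module R U]
    [Module.Free R U] [Module.Finite R U] [AddCommGroup W] [Module R W] [Module.Free R W]
    [Module.Finite R W] (A : Module.End R U) (B : Module.End R W) (G : U →ₗ[R] W) :
    LinearMap.det (LinearMap.prod (A ∘ₗ LinearMap.fst R U W)
      (B ∘ₗ LinearMap.snd R U W + G ∘ₗ LinearMap.fst R U W) : Module.End R (U × W)) =
      LinearMap.det A * LinearMap.det B := by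
  have h1 : (LinearMap.prod (A ∘ₗ LinearMap.fst R U W)
      (B ∘ₗ LinearMap.snd R U W + G ∘ₗ LinearMap.fst R U W) : Module.End R (U × W)) =
      (LinearMap.prodMap A LinearMap.id) ∘ₗ ((LinearMap.prod (LinearMap.fst R U W)
      (LinearMap.snd R U W + G ∘ₗ LinearMap.fst R U W)) ∘ₗ (LinearMap.prodMap LinearMap.id B)) := by
    apply LinearMap.ext
    rintro ⟨z, v⟩
    simp
  rw [h1, LinearMap.det_comp, LinearMap.det_comp, DetLemmas_lower, LinearMap.det_prodMap,
    LinearMap.det_prodMap, LinearMap.det_id, LinearMap.det_id]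
  ring

theorem det_one_sub_of_sq {R : Type} [CommRing R] {U : Type} [AddCommGroup U] [Module R U]
    [Module.Free R U] [Module.Finite R U] (s : R) (hs : s * s = 0) (K : Module.End R U) :
    LinearMap.det (1 - s • K : Module.End R U) = 1 - s * LinearMap.trace R U K := by
  classical
  cases subsingleton_or_nontrivial R
  · exact Subsingleton.elim _ _
  let b := Module.Free.chooseBasis R U
  have h1 : (1 - s • K : Module.End R U) = 1 + (-s) • K := by
    rw [neg_smul, sub_eq_add_neg]
  rw [h1, ← LinearMap.det_toMatrix b, map_add, LinearMap.toMatrix_one, map_smul,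
    Matrix.det_one_add_smul, LinearMap.trace_eq_matrix_trace R b]
  have h2 : (-s) ^ 2 = 0 := by rw [neg_sq, sq, hs]
  rw [h2, mul_zero]
  ring

end Pool.Agent.H61.Tu
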