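import Pool.Agent.H61.Tu.WD

/-!
# Formal sums of words
-/

namespace Pool.Agent.H61.Tu

open Diagram Relation
open scoped commutatorElement

namespace Fs

variable {n : ℕ} {A : Type*} [AddCommGroup A]

@[simp] theorem ev_nil (f : List (Fin n) → A) : Fs.ev f ([] : Fs n) = 0 := by
  simp [Fs.ev]

@[simp] theorem ev_cons (f : List (Fin n) → A) (p : ℤ × List (Fin n)) (E : Fs n) :
    Fs.ev f (p :: E) = p.1 • f p.2 + Fs.ev f E := by
  simp [Fs.ev]

theorem ev_append (f : List (Fin n) → A) (E E' : Fs n) :
    Fs.ev f (E ++ E') = Fs.ev f E + Fs.ev f E' := by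
  simp [Fs.ev]

theorem ev_map (f : List (Fin n) → A) (g : List (Fin n) → List (Fin n)) (E : Fs n) :
    Fs.ev f (E.map fun p => (p.1, g p.2)) = Fs.ev (fun v => f (g v)) E := by
  induction E with
  | nil => simp
  | cons p E ih => rw [List.map_cons, ev_cons, ev_cons, ih]

theorem ev_neg_map (f : List (Fin n) → A) (g : List (Fin n) → List (Fin n)) (E : Fs n) :
    Fs.ev f (E.map fun p => (-p.1, g p.2)) = - Fs.ev (fun v => f (g v)) E := by
  induction E with
  | nil => simp
  | cons p E ih => rw [List.map_cons, ev_cons, ev_cons, ih, neg_add, neg_smul]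

theorem ev_congr {f f' : List (Fin n) → A} {E : Fs n} (h : ∀ p ∈ E, f p.2 = f' p.2) :
    Fs.ev f E = Fs.ev f' E := by
  induction E with
  | nil => simp
  | cons p E ih =>
    rw [ev_cons, ev_cons, h p (by simp), ih fun q hq => h q (by simp [hq])]

theorem ev_add (f f' : List (Fin n) → A) (E : Fs n) :
    Fs.ev (fun v => f v + f' v) E = Fs.ev f E + Fs.ev f' E := by
  induction E with
  | nil => simp
  | cons p E ih => rw [ev_cons, ev_cons, ev_cons, ih, smul_add]; abel

theorem ev_sub (f f' : List (Fin n) → A) (E : Fs n) :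
    Fs.ev (fun v => f v - f' v) E = Fs.ev f E - Fs.ev f' E := by
  induction E with
  | nil => simp
  | cons p E ih => rw [ev_cons, ev_cons, ev_cons, ih, smul_sub]; abel

theorem ev_hom {B : Type*} [AddCommGroup B] (φ : A →+ B) (f : List (Fin n) → A) (E : Fs n) :
    φ (Fs.ev f E) = Fs.ev (fun v => φ (f v)) E := by
  induction E with
  | nil => simp
  | cons p E ih => rw [ev_cons, ev_cons, map_add, ih, map_zsmul]

end Fs

theorem ellF_length {n : ℕ} (z : Fin n) (l : List (Fin n)) :
    ∀ p ∈ ellF z l, p.2.length = l.length + 1 := by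
  induction l with
  | nil => intro p hp; simp [ellF] at hp; subst hp; rfl
  | cons i l ih =>
    intro p hp
    simp only [ellF, List.mem_append, List.mem_map] at hp
    rcases hp with ⟨q, hq, rfl⟩ | ⟨q, hq, rfl⟩
    · simp [ih q hq]
    · simp [ih q hq]

theorem Ee_length {n : ℕ} (j : Fin n) (z : Option (Fin n)) (l : List (Option (Fin n))) :
    ∀ p ∈ Ee j z l, p.2.length = l.length := by
  induction l with
  | nil =>
    intro p hp
    simp only [Ee] at hp
    split_ifs at hp
    · simp at hp; subst hp; rfl
    · simp at hp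
  | cons o l ih =>
    intro p hp
    simp only [Ee, List.mem_append, List.mem_map] at hp
    rcases hp with ⟨q, hq, rfl⟩ | hp
    · simp [ih q hq]
    · split_ifs at hp
      · simp only [List.mem_map] at hp
        obtain ⟨q, hq, rfl⟩ := hp
        have := ellF_length (sub j z) (l.map (sub j)) q hq
        simpa using this
      · simp at hp

end Pool.Agent.H61.Tu
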