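import Pool.Agent.H61.Tu.BRn
import Pool.Agent.H61.Tu.FsBasic

/-!
# Expansion of a commutator in the first argument   [H61 TU DYN]

Induction on `l`, for all `p`, `g`, `r`. `l = []`: both sides are
`b j (rn p ⁅xx z, g⁆) = b j (rn (p ++ [xx z]) g)` (`rn_append`). Step `i :: l`: let
`u = rn (l.map xx) (xx z) ∈ gam l.length` (`rn_mem`). `b_rn_jacobi` with `z = xx i`:
`b j (rn p ⁅⁅xx i, u⁆, g⁆) = b j (rn p ⁅xx i, ⁅u, g⁆⁆) - b j (rn p ⁅u, ⁅xx i, g⁆⁆)`. The first term is
`b j (rn (p ++ [xx i]) ⁅u, g⁆)`, the induction hypothesis for `p ++ [xx i]` gives the words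
`i :: v`; the second is the induction hypothesis for `⁅xx i, g⁆ ∈ gam (r+1)`:
`rn (p ++ v) ⁅xx i, g⁆ = rn (p ++ v ++ [xx i]) g`, the words `v ++ [i]` with the opposite
sign. `Fs.ev_append`, `Fs.ev_map`, `Fs.ev_neg_map`, definition of `ellF`.
-/

namespace Pool.Agent.H61.Tu

open Diagram Relation
open scoped commutatorElement

theorem dynkin {n m : ℕ} {β : Type*} [AddCommGroup β] {b : Fin n → FreeGroup (Option (Fin n)) → β}
    (hb : BData n m β b) (j : Fin n) (z : Fin n) (l : List (Fin n))
    (p : List (FreeGroup (Option (Fin n)))) {g : FreeGroup (Option (Fin n))} {r : ℕ}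
    (hg : g ∈ gam (FreeGroup (Option (Fin n))) r) (h : p.length + l.length + r + 1 = m) :
    b j (rn p ⁅rn (l.map fun i => xx i) (xx z), g⁆) =
      Fs.ev (fun v => b j (rn (p ++ v.map fun i => xx i) g)) (ellF z l) := by
  induction l generalizing p g r with
  | nil =>
    rw [ellF, Fs.ev_cons, Fs.ev_nil, one_smul, add_zero, rn_append]
    rfl
  | cons i l ih =>
    rw [List.length_cons] at h
    have hu : rn (l.map fun i => xx i) (xx z) ∈ gam (FreeGroup (Option (Fin n))) l.length := by
      have h1 := rn_mem (l.map fun i => (xx i : FreeGroup (Option (Fin n)))) (s := 0)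
        (Subgroup.mem_top (xx z))
      rw [zero_add, List.length_map] at h1
      exact h1
    have h1 := ih (p ++ [xx i]) hg (by rw [List.length_append, List.length_singleton]; omega)
    have h2 := ih p (commutator_mem_gam hg (xx i)).2 (by omega)
    have h3 := b_rn_jacobi hb j p (xx i) hu hg (by omega)
    rw [List.map_cons, rn_cons, h3, h2, ellF, Fs.ev_append, Fs.ev_map,
      Fs.ev_neg_map _ (fun v => v ++ [i]), sub_eq_add_neg]
    rw [rn_append] at h1
    have h4 : rn p ⁅xx i, ⁅rn (l.map fun i => xx i) (xx z), g⁆⁆ =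
        rn p (rn [xx i] ⁅rn (l.map fun i => xx i) (xx z), g⁆) := rfl
    rw [h4, h1]
    congr 1
    · refine Fs.ev_congr fun q _ => ?_
      rw [List.append_assoc]
      rfl
    · congr 1
      refine Fs.ev_congr fun q _ => ?_
      rw [List.map_append, ← List.append_assoc, rn_append (p ++ _)]
      rfl

end Pool.Agent.H61.Tu
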