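import Pool.Agent.H61.Tu.GamComm

/-!
# Right-normed commutators   [H61 TU RN]

`rn (z :: l) g = ⁅z, rn l g⁆`, `rn [] g = g`.
* `rn_mem`: induction on `l`, `commutator_mem_gam`.
* `rn_mul`: induction on `l`. `l = []`: the element is `1`. Step: `A = rn l (g * d)`,
  `P = rn l g ∈ gam l.length` (`rn_mem` with `s = 0`), `Q = rn l d ∈ gam (s + l.length)`,
  `A = P * Q * ε`, `ε ∈ gam (s + l.length + 1)`. Work modulo `N = gam (s + l.length + 2)`: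
  `⁅z, P * Q'⁆ = ⁅z, P⁆ * (P * ⁅z, Q'⁆ * P⁻¹)` with `Q' = Q * ε`;
  `⁅z, Q'⁆ ∈ gam (s + l.length + 1)` is central modulo `N`, and
  `⁅z, Q * ε⁆ = ⁅z, Q⁆ * (Q * ⁅z, ε⁆ * Q⁻¹)` with `⁅z, ε⁆ ∈ N`.
* `rn_congr`: `h = g * (g⁻¹ * h)`, `rn_mul` and `rn_mem`.
* `jacobi_mod`: modulo `N = gam (s + r + 3)`. Hall-Witt identity or direct: put
  `A = ⁅z, u⁆ ∈ gam (s+1)`, `B = ⁅z, g⁆ ∈ gam (r+1)`, `C = ⁅u, g⁆ ∈ gam (s+r+1)`. Modulo `N`:
  `z * u * z⁻¹ = A * u`, `z * g * z⁻¹ = B * g`, so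
  `z * C * z⁻¹ = ⁅A * u, B * g⁆` and `⁅z, C⁆ = ⁅A * u, B * g⁆ * C⁻¹`. Expand with
  `⁅A*u, y⁆ = (A * ⁅u, y⁆ * A⁻¹) * ⁅A, y⁆` and `⁅u, B*g⁆ = ⁅u, B⁆ * (B * ⁅u, g⁆ * B⁻¹)`. Modulo `N`
  (`commutator_mem_gam'`): `⁅A, B⁆ ∈ gam (s+r+3) = N`, `⁅u, B⁆`, `⁅A, g⁆ ∈ gam (s+r+2)` are
  central, `A`, `B` commute with `C`. So `⁅A*u, B*g⁆ = ⁅u, B⁆ * C * ⁅A, g⁆` and
  `⁅z, C⁆ = ⁅A, g⁆ * ⁅u, B⁆`.
-/

namespace Pool.Agent.H61.Tu

open Diagram Relation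
open scoped commutatorElement

theorem rn_nil {G : Type*} [Group G] (g : G) : rn [] g = g := rfl

theorem rn_cons {G : Type*} [Group G] (z : G) (l : List G) (g : G) :
    rn (z :: l) g = ⁅z, rn l g⁆ := rfl

theorem rn_append {G : Type*} [Group G] (l l' : List G) (g : G) :
    rn (l ++ l') g = rn l (rn l' g) := by
  simp [rn, List.foldr_append]

theorem rn_one {G : Type*} [Group G] (l : List G) : rn l (1 : G) = 1 := by
  induction l with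
  | nil => rfl
  | cons z l ih => rw [rn_cons, ih, commutatorElement_one_right]

private theorem Rn_comm {G : Type*} [Group G] {i j t : ℕ} {a b : G} (ha : a ∈ gam G i)
    (hb : b ∈ gam G j) (ht : t ≤ i + j + 1) :
    (QuotientGroup.mk a : G ⧸ gam G t) * QuotientGroup.mk b =
      QuotientGroup.mk b * QuotientGroup.mk a := by
  have h1 : ⁅a, b⁆ ∈ gam G t := gam_anti ht (commutator_mem_gam' ha hb)
  have h2 : ((⁅a, b⁆ : G) : G ⧸ gam G t) = 1 := (QuotientGroup.eq_one_iff _).2 h1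
  have h3 : ⁅(a : G ⧸ gam G t), (b : G ⧸ gam G t)⁆ = 1 := h2
  exact commutatorElement_eq_one_iff_mul_comm.1 h3

private theorem Rn_mulQ {Q : Type*} [Group Q] (z p q e : Q) (h1 : e * z = z * e)
    (h2 : ⁅z, q⁆ * p = p * ⁅z, q⁆) : ⁅z, p * q * e⁆ = ⁅z, p⁆ * ⁅z, q⁆ := by
  have h3 : e * z⁻¹ * e⁻¹ = z⁻¹ := by
    rw [mul_inv_eq_iff_eq_mul, ← mul_right_inj z, mul_inv_cancel_left, ← mul_assoc, ← h1,
      mul_inv_cancel_right]
  calc ⁅z, p * q * e⁆ = z * p * q * (e * z⁻¹ * e⁻¹) * q⁻¹ * p⁻¹ := by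
        rw [commutatorElement_def]; group
    _ = ⁅z, p⁆ * (p * ⁅z, q⁆) * p⁻¹ := by
        rw [h3, commutatorElement_def, commutatorElement_def]; group
    _ = ⁅z, p⁆ * ⁅z, q⁆ := by
        rw [← h2]; group

private theorem Rn_jacQ {Q : Type*} [Group Q] (z u g : Q) (h1 : ⁅z, u⁆ * ⁅z, g⁆ = ⁅z, g⁆ * ⁅z, u⁆)
    (h2 : ⁅z, u⁆ * ⁅u, g⁆ = ⁅u, g⁆ * ⁅z, u⁆) (h3 : ⁅z, g⁆ * ⁅u, g⁆ = ⁅u, g⁆ * ⁅z, g⁆)
    (hD : ∀ x, ⁅u, ⁅z, g⁆⁆ * x = x * ⁅u, ⁅z, g⁆⁆) (hE : ∀ x, ⁅⁅z, u⁆, g⁆ * x = x * ⁅⁅z, u⁆, g⁆) :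
    ⁅z, ⁅u, g⁆⁆ = ⁅⁅z, u⁆, g⁆ * ⁅u, ⁅z, g⁆⁆ := by
  have e0 : ⁅z, ⁅u, g⁆⁆ = ⁅z, u⁆ * u * ⁅z, g⁆ * g * u⁻¹ * ⁅z, u⁆⁻¹ * g⁻¹ * ⁅z, g⁆⁻¹ * ⁅u, g⁆⁻¹ := by
    simp only [commutatorElement_def]
    group
  have eC : u * g * u⁻¹ = ⁅u, g⁆ * g := by
    rw [commutatorElement_def]; group
  rw [e0]
  generalize ⁅z, u⁆ = A at *
  generalize ⁅z, g⁆ = B at *
  generalize ⁅u, g⁆ = C at *
  have eD : u * B = ⁅u, B⁆ * B * u := by
    rw [commutatorElement_def]; group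
  have eE : g * A⁻¹ * g⁻¹ = A⁻¹ * ⁅A, g⁆ := by
    rw [commutatorElement_def]; group
  generalize ⁅u, B⁆ = D at *
  generalize ⁅A, g⁆ = E at *
  calc A * u * B * g * u⁻¹ * A⁻¹ * g⁻¹ * B⁻¹ * C⁻¹
      = A * (u * B) * g * u⁻¹ * A⁻¹ * g⁻¹ * B⁻¹ * C⁻¹ := by group
    _ = A * D * B * (u * g * u⁻¹) * A⁻¹ * g⁻¹ * B⁻¹ * C⁻¹ := by rw [eD]; group
    _ = D * (A * B * C) * (g * A⁻¹ * g⁻¹) * B⁻¹ * C⁻¹ := by rw [eC, ← hD A]; group
    _ = D * (A * B * C * A⁻¹) * (E * (B⁻¹ * C⁻¹)) := by rw [eE]; group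
    _ = D * (A * B * C * A⁻¹ * B⁻¹ * C⁻¹) * E := by rw [hE]; group
    _ = D * E := by
        rw [h1, mul_assoc B A C, h2, show B * (C * A) * A⁻¹ = B * C by group, h3]
        group
    _ = E * D := (hE D).symm

theorem rn_mem {G : Type*} [Group G] (l : List G) {s : ℕ} {g : G} (hg : g ∈ gam G s) :
    rn l g ∈ gam G (s + l.length) := by
  induction l with
  | nil => exact hg
  | cons z l ih => exact (commutator_mem_gam ih z).2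

theorem rn_mul {G : Type*} [Group G] (l : List G) (g : G) {s : ℕ} {d : G} (hd : d ∈ gam G s) :
    (rn l g * rn l d)⁻¹ * rn l (g * d) ∈ gam G (s + l.length + 1) := by
  induction l with
  | nil =>
    rw [rn_nil, rn_nil, rn_nil, inv_mul_cancel]
    exact one_mem _
  | cons z l ih =>
    rw [rn_cons, rn_cons, rn_cons, ← QuotientGroup.eq]
    obtain ⟨e, he, hA⟩ : ∃ e ∈ gam G (s + l.length + 1), rn l (g * d) = rn l g * rn l d * e :=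
      ⟨_, ih, by group⟩
    rw [hA]
    symm
    refine Rn_mulQ (Q := G ⧸ gam G (s + (z :: l).length + 1)) (QuotientGroup.mk z)
      (QuotientGroup.mk (rn l g)) (QuotientGroup.mk (rn l d)) (QuotientGroup.mk e) ?_ ?_
    · exact Rn_comm (i := s + l.length + 1) (j := 0) he (Subgroup.mem_top z)
        (by rw [List.length_cons]; omega)
    · exact Rn_comm (i := s + l.length + 1) (j := 0) (commutator_mem_gam (rn_mem l hd) z).2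
        (Subgroup.mem_top (rn l g)) (by rw [List.length_cons]; omega)

theorem rn_congr {G : Type*} [Group G] (l : List G) {s : ℕ} {g h : G}
    (hgh : g⁻¹ * h ∈ gam G s) : (rn l g)⁻¹ * rn l h ∈ gam G (s + l.length) := by
  have h1 := rn_mul l g hgh
  rw [mul_inv_cancel_left] at h1
  have h2 : (rn l g)⁻¹ * rn l h =
      rn l (g⁻¹ * h) * ((rn l g * rn l (g⁻¹ * h))⁻¹ * rn l h) := by group
  rw [h2]
  exact mul_mem (rn_mem l hgh) (gam_anti (Nat.le_succ _) h1)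

theorem jacobi_mod {G : Type*} [Group G] {s r : ℕ} (z : G) {u g : G} (hu : u ∈ gam G s)
    (hg : g ∈ gam G r) :
    (⁅⁅z, u⁆, g⁆ * ⁅u, ⁅z, g⁆⁆)⁻¹ * ⁅z, ⁅u, g⁆⁆ ∈ gam G (s + r + 3) := by
  have hA := (commutator_mem_gam hu z).2
  have hB := (commutator_mem_gam hg z).2
  have hC := commutator_mem_gam' hu hg
  have hD := commutator_mem_gam' hu hB
  have hE := commutator_mem_gam' hA hg
  rw [← QuotientGroup.eq]
  symm
  refine Rn_jacQ (Q := G ⧸ gam G (s + r + 3)) (QuotientGroup.mk z) (QuotientGroup.mk u)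
    (QuotientGroup.mk g) ?_ ?_ ?_ ?_ ?_
  · exact Rn_comm hA hB (by omega)
  · exact Rn_comm hA hC (by omega)
  · exact Rn_comm hB hC (by omega)
  · intro x
    obtain ⟨x, rfl⟩ := QuotientGroup.mk_surjective x
    exact Rn_comm (j := 0) hD (Subgroup.mem_top x) (by omega)
  · intro x
    obtain ⟨x, rfl⟩ := QuotientGroup.mk_surjective x
    exact Rn_comm (j := 0) hE (Subgroup.mem_top x) (by omega)

end Pool.Agent.H61.Tu
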