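import Pool.Agent.H61.Tu.FoxGam
import Pool.Agent.H61.Tu.FsBasic
import Pool.Agent.H61.Tu.Rn

/-!
# Leading terms for right-normed commutators   [H61 TU FRN]

Write `ρ' o = ρ (sub j o)`, `u = rn (ofs l) (of z)`, `s = l.length`,
`L = Fs.ev (words ↦ products of M) (ellF (sub j z) (l.map (sub j)))`,
`N = Fs.ev (..) (Ee j z l)`. Claim: `ρ'(u) = 1 + t^(s+1) • L + t^(s+2) • K` and
`F u := foxF ρ' u ∘ single none = t^s • N + t^(s+1) • K'`. Induction on `l`.
`l = []`: `ρ'(of z) = 1 + t • M (sub j z)`; `foxF (of z) ∘ single none` is `1` if `z = none` and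
`0` otherwise. Step `o :: l`, `a = of o`, `⁅a, u⁆ = a * u * a⁻¹ * u⁻¹`:
`ρ'(⁅a,u⁆) - 1 = (ρ' a ρ' u - ρ' u ρ' a) (ρ' u ρ' a)⁻¹` and
`ρ' a ρ' u - ρ' u ρ' a = t^(s+2) • (M' L - L M') + t^(s+3) • ..` with `M' = M (sub j o)`, and
`(ρ' u ρ' a)⁻¹ = 1 + t • ..`. So the new `L` is `M' * L - L * M'`: `ellF`.
`F ⁅a, u⁆ = (1 - ρ'(a u a⁻¹)) (F a) + (ρ' a - ρ' ⁅a, u⁆) (F u)`
(`foxF_mul_apply`, `foxF_inv_apply`), where `F a = 1` if `o = none`, else `0`;
`1 - ρ'(a u a⁻¹) = - t^(s+1) • L + t^(s+2) • ..` and `ρ' a - ρ' ⁅a, u⁆ = t • M' + t^(s+2) • ..`. So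
the new `N` is `M' * N - (if o = none then L else 0)`: `Ee`. (`Fs.ev_append`, `Fs.ev_map`,
`Fs.ev_neg_map`, `Fs.ev_hom` with left or right multiplication as additive homomorphism.)
-/

namespace Pool.Agent.H61.Tu

open Diagram Relation
open scoped commutatorElement

section Alg

variable {R : Type} [CommRing R] {E : Type} [Ring E] [Algebra R E]

private theorem fr_inv (s : R) {u u' K : E} (h1 : u * u' = 1) (h : u = 1 + s • K) :
    ∃ K' : E, u' = 1 + s • K' := by
  refine ⟨-(K * u'), ?_⟩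
  rw [h, add_mul, one_mul, smul_mul_assoc] at h1
  rw [smul_neg]
  exact eq_add_neg_of_add_eq h1

private theorem fr_comm (t : R) (s : ℕ) {A U M L K : E} (hA : A = 1 + t • M)
    (hU : U = 1 + t ^ (s + 1) • L + t ^ (s + 2) • K) :
    A * U = U * A + (t ^ (s + 2) • (M * L - L * M) + t ^ (s + 3) • (M * K - K * M)) := by
  rw [hA, hU]
  simp only [add_mul, mul_add, one_mul, mul_one, smul_mul_smul_comm, smul_sub]
  have e1 : t * t ^ (s + 1) = t ^ (s + 2) := by ring
  have e2 : t * t ^ (s + 2) = t ^ (s + 3) := by ring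
  have e3 : t ^ (s + 1) * t = t ^ (s + 2) := by ring
  have e4 : t ^ (s + 2) * t = t ^ (s + 3) := by ring
  rw [e1, e2, e3, e4]
  abel

private theorem fr_conj (t : R) (s : ℕ) {A A' U M L K : E} (hA : A = 1 + t • M)
    (hAA : A * A' = 1) (hU : U = 1 + t ^ (s + 1) • L + t ^ (s + 2) • K) :
    ∃ Y : E, A * U * A' = 1 + t ^ (s + 1) • L + t ^ (s + 2) • Y := by
  refine ⟨K + ((M * L - L * M) + t • (M * K - K * M)) * A', ?_⟩
  rw [fr_comm t s hA hU, add_mul, mul_assoc U, hAA, mul_one, hU]
  simp only [add_mul, smul_add, smul_mul_assoc, smul_smul]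
  have e1 : t ^ (s + 2) * t = t ^ (s + 3) := by ring
  rw [e1]
  abel

private theorem fr_cc (t : R) (s : ℕ) {A A' U U' M L K : E} (hA : A = 1 + t • M)
    (hAA : A * A' = 1) (hUU : U * U' = 1) (hU : U = 1 + t ^ (s + 1) • L + t ^ (s + 2) • K) :
    ∃ Z : E, A * U * A' * U' = 1 + t ^ (s + 2) • (M * L - L * M) + t ^ (s + 3) • Z := by
  obtain ⟨X, hX⟩ := fr_inv t hAA hA
  have hU2 : U = 1 + t • (t ^ s • L + t ^ (s + 1) • K) := by
    rw [hU, smul_add, smul_smul, smul_smul]
    have e1 : t * t ^ s = t ^ (s + 1) := by ring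
    have e2 : t * t ^ (s + 1) = t ^ (s + 2) := by ring
    rw [e1, e2, add_assoc]
  obtain ⟨X', hX'⟩ := fr_inv t hUU hU2
  refine ⟨(M * L - L * M) * (X + X' + t • (X * X')) + (M * K - K * M) * (A' * U'), ?_⟩
  have h1 : A * U * A' * U' = (A * U) * (A' * U') := by rw [mul_assoc (A * U)]
  have h2 : U * A * (A' * U') = 1 := by
    rw [mul_assoc U, ← mul_assoc A, hAA, one_mul, hUU]
  have h3 : A' * U' = 1 + t • (X + X' + t • (X * X')) := by
    rw [hX, hX']
    simp only [add_mul, mul_add, one_mul, mul_one, smul_mul_smul_comm, smul_add, smul_smul]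
    abel
  rw [h1, fr_comm t s hA hU, add_mul, h2, add_mul, smul_mul_assoc, smul_mul_assoc]
  have h4 : (M * L - L * M) * (A' * U') = (M * L - L * M) +
      t • ((M * L - L * M) * (X + X' + t • (X * X'))) := by
    rw [h3, mul_add, mul_one, mul_smul_comm]
  rw [h4, smul_add, smul_smul, smul_add]
  have e1 : t ^ (s + 2) * t = t ^ (s + 3) := by ring
  rw [e1]
  abel

private theorem fr_fox (t : R) (s : ℕ) {A C Q G M L N K' Y Z : E} (hA : A = 1 + t • M)
    (hQ : Q = 1 + t ^ (s + 1) • L + t ^ (s + 2) • Y)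
    (hC : C = 1 + t ^ (s + 2) • (M * L - L * M) + t ^ (s + 3) • Z) :
    ∃ W : E, (G - Q * G) + (A * (t ^ s • N + t ^ (s + 1) • K') - C * (t ^ s • N +
      t ^ (s + 1) • K')) = t ^ (s + 1) • (M * N - L * G) + t ^ (s + 2) • W := by
  refine ⟨-(Y * G) + M * K' - ((M * L - L * M) + t • Z) * (t ^ s • N + t ^ (s + 1) • K'), ?_⟩
  have hC' : C = 1 + t ^ (s + 2) • ((M * L - L * M) + t • Z) := by
    rw [hC, smul_add, smul_smul]
    have e1 : t ^ (s + 2) * t = t ^ (s + 3) := by ring
    rw [e1, add_assoc]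
  obtain ⟨P, hP⟩ : ∃ P, P = t ^ s • N + t ^ (s + 1) • K' := ⟨_, rfl⟩
  have h1 : t • (M * P) = t ^ (s + 1) • (M * N) + t ^ (s + 2) • (M * K') := by
    rw [hP]
    simp only [mul_add, mul_smul_comm, smul_add, smul_smul]
    have e1 : t * t ^ s = t ^ (s + 1) := by ring
    have e2 : t * t ^ (s + 1) = t ^ (s + 2) := by ring
    rw [e1, e2]
  rw [← hP, hA, hQ, hC']
  generalize M * L - L * M + t • Z = T
  simp only [add_mul, one_mul, smul_mul_assoc, smul_add, smul_sub, h1, smul_neg]
  abel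

end Alg

/-- the component of the Fox derivative at the letter `none` -/
private def fg {n : ℕ} {R : Type} [CommRing R] {V : Type} [AddCommGroup V] [Module R V]
    (ρ : Option (Fin n) → (Module.End R V)ˣ) (c : FreeGroup (Option (Fin n))) :
    Module.End R V :=
  foxF ρ c ∘ₗ LinearMap.single R (fun _ : Option (Fin n) => V) none

private theorem fg_mul {n : ℕ} {R : Type} [CommRing R] {V : Type} [AddCommGroup V] [Module R V]
    (ρ : Option (Fin n) → (Module.End R V)ˣ) (c c' : FreeGroup (Option (Fin n))) :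
    fg ρ (c * c') = fg ρ c + (FreeGroup.lift ρ c).val * fg ρ c' := by
  ext v
  simp only [fg, LinearMap.comp_apply, foxF_mul_apply, LinearMap.add_apply,
    Module.End.mul_apply]

private theorem fg_inv {n : ℕ} {R : Type} [CommRing R] {V : Type} [AddCommGroup V] [Module R V]
    (ρ : Option (Fin n) → (Module.End R V)ˣ) (c : FreeGroup (Option (Fin n))) :
    fg ρ c⁻¹ = -(((FreeGroup.lift ρ c)⁻¹ : (Module.End R V)ˣ).val * fg ρ c) := by
  ext v
  simp only [fg, LinearMap.comp_apply, foxF_inv_apply, LinearMap.neg_apply,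
    Module.End.mul_apply]

private theorem fg_of {n : ℕ} {R : Type} [CommRing R] {V : Type} [AddCommGroup V] [Module R V]
    (ρ : Option (Fin n) → (Module.End R V)ˣ) (o : Option (Fin n)) :
    fg ρ (FreeGroup.of o) = if o = none then 1 else 0 := by
  ext v
  simp only [fg, LinearMap.comp_apply, foxF_of, LinearMap.single_apply]
  split_ifs with h
  · rw [h, Pi.single_eq_same]
    rfl
  · rw [Pi.single_eq_of_ne h]
    rfl

private theorem fg_comm {n : ℕ} {R : Type} [CommRing R] {V : Type} [AddCommGroup V] [Module R V]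
    (ρ : Option (Fin n) → (Module.End R V)ˣ) (a u : FreeGroup (Option (Fin n))) :
    fg ρ ⁅a, u⁆ = (fg ρ a - ((FreeGroup.lift ρ a).val * (FreeGroup.lift ρ u).val *
        ((FreeGroup.lift ρ a)⁻¹ : (Module.End R V)ˣ).val) * fg ρ a) +
      ((FreeGroup.lift ρ a).val * fg ρ u - ((FreeGroup.lift ρ a).val *
        (FreeGroup.lift ρ u).val * ((FreeGroup.lift ρ a)⁻¹ : (Module.End R V)ˣ).val *
        ((FreeGroup.lift ρ u)⁻¹ : (Module.End R V)ˣ).val) * fg ρ u) := by
  rw [commutatorElement_def, fg_mul, fg_mul, fg_mul, fg_inv, fg_inv]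
  simp only [map_mul, map_inv, Units.val_mul, mul_neg, mul_assoc]
  abel

theorem fox_rn {n : ℕ} {R : Type} [CommRing R] {V : Type} [AddCommGroup V] [Module R V] (t : R)
    (M : Fin n → Module.End R V) (ρ : Fin n → (Module.End R V)ˣ)
    (hρ : ∀ i, (ρ i).val = 1 + t • M i) (j : Fin n) (z : Option (Fin n))
    (l : List (Option (Fin n))) :
    (∃ K : Module.End R V,
      (FreeGroup.lift (fun o => ρ (sub j o)) (rn (ofs l) (FreeGroup.of z))).val =
        1 + t ^ (l.length + 1) •
          Fs.ev (fun v => (v.map M).prod) (ellF (sub j z) (l.map (sub j))) +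
        t ^ (l.length + 2) • K) ∧
    ∃ K : Module.End R V,
      foxF (fun o => ρ (sub j o)) (rn (ofs l) (FreeGroup.of z)) ∘ₗ
        LinearMap.single R (fun _ : Option (Fin n) => V) none =
      t ^ l.length • Fs.ev (fun v => (v.map M).prod) (Ee j z l) + t ^ (l.length + 1) • K := by
  induction l with
  | nil =>
    refine ⟨⟨0, ?_⟩, ⟨0, ?_⟩⟩
    · simp [ofs, rn, ellF, hρ]
    · have h := fg_of (fun o => ρ (sub j o)) z
      change fg (fun o => ρ (sub j o)) (FreeGroup.of z) = _
      rw [h]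
      simp only [Ee]
      split_ifs with h1 <;> simp
  | cons o l ih =>
    obtain ⟨⟨K, hK⟩, K', hK'⟩ := ih
    change fg (fun o => ρ (sub j o)) (rn (ofs l) (FreeGroup.of z)) = _ at hK'
    have hcons : rn (ofs (o :: l)) (FreeGroup.of z) =
        ⁅FreeGroup.of o, rn (ofs l) (FreeGroup.of z)⁆ := rfl
    have hA : (FreeGroup.lift (fun o => ρ (sub j o)) (FreeGroup.of o)).val =
        1 + t • M (sub j o) := by
      rw [FreeGroup.lift_apply_of, hρ]
    have hAA := (FreeGroup.lift (fun o => ρ (sub j o)) (FreeGroup.of o)).mul_inv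
    have hUU := (FreeGroup.lift (fun o => ρ (sub j o)) (rn (ofs l) (FreeGroup.of z))).mul_inv
    have hell : Fs.ev (fun v => (v.map M).prod) (ellF (sub j z) ((o :: l).map (sub j))) =
        M (sub j o) * Fs.ev (fun v => (v.map M).prod) (ellF (sub j z) (l.map (sub j))) -
          Fs.ev (fun v => (v.map M).prod) (ellF (sub j z) (l.map (sub j))) * M (sub j o) := by
      rw [List.map_cons, ellF, Fs.ev_append, Fs.ev_map,
        Fs.ev_neg_map _ (fun v => v ++ [sub j o]), sub_eq_add_neg]
      congr 1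
      · have := Fs.ev_hom (AddMonoidHom.mulLeft (M (sub j o))) (fun v => (v.map M).prod)
          (ellF (sub j z) (l.map (sub j)))
        rw [AddMonoidHom.coe_mulLeft] at this
        rw [this]
        apply Fs.ev_congr
        intro p _
        simp
      · congr 1
        have := Fs.ev_hom (AddMonoidHom.mulRight (M (sub j o))) (fun v => (v.map M).prod)
          (ellF (sub j z) (l.map (sub j)))
        rw [AddMonoidHom.mulRight_apply] at this
        rw [this]
        apply Fs.ev_congr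
        intro p _
        simp
    have hEe : Fs.ev (fun v => (v.map M).prod) (Ee j z (o :: l)) =
        M (sub j o) * Fs.ev (fun v => (v.map M).prod) (Ee j z l) -
          Fs.ev (fun v => (v.map M).prod) (ellF (sub j z) (l.map (sub j))) *
            (if o = none then 1 else 0) := by
      rw [Ee, Fs.ev_append, Fs.ev_map, sub_eq_add_neg]
      congr 1
      · have := Fs.ev_hom (AddMonoidHom.mulLeft (M (sub j o))) (fun v => (v.map M).prod)
          (Ee j z l)
        rw [AddMonoidHom.coe_mulLeft] at this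
        rw [this]
        apply Fs.ev_congr
        intro p _
        simp
      · split_ifs with h1
        · rw [mul_one]
          exact Fs.ev_neg_map (fun v => (v.map M).prod) id _
        · simp
    rw [hcons, List.length_cons]
    constructor
    · obtain ⟨Z, hZ⟩ := fr_cc t l.length hA hAA hUU hK
      refine ⟨Z, ?_⟩
      rw [hell]
      have h1 : (FreeGroup.lift (fun o => ρ (sub j o))
          ⁅FreeGroup.of o, rn (ofs l) (FreeGroup.of z)⁆).val =
          (FreeGroup.lift (fun o => ρ (sub j o)) (FreeGroup.of o)).val *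
          (FreeGroup.lift (fun o => ρ (sub j o)) (rn (ofs l) (FreeGroup.of z))).val *
          ((FreeGroup.lift (fun o => ρ (sub j o)) (FreeGroup.of o))⁻¹ :
            (Module.End R V)ˣ).val *
          ((FreeGroup.lift (fun o => ρ (sub j o)) (rn (ofs l) (FreeGroup.of z)))⁻¹ :
            (Module.End R V)ˣ).val := by
        rw [commutatorElement_def, map_mul, map_mul, map_mul, map_inv, map_inv, Units.val_mul,
          Units.val_mul, Units.val_mul]
      rw [h1]
      exact hZ
    · obtain ⟨Z, hZ⟩ := fr_cc t l.length hA hAA hUU hK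
      obtain ⟨Y, hY⟩ := fr_conj t l.length hA hAA hK
      change ∃ K : Module.End R V, fg (fun o => ρ (sub j o))
        ⁅FreeGroup.of o, rn (ofs l) (FreeGroup.of z)⁆ = _
      rw [hEe, fg_comm, hK', fg_of]
      exact fr_fox t l.length hA hY hZ

end Pool.Agent.H61.Tu
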