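import Pool.Agent.H61.Tu.Rn

/-!
# Generators of the lower central series   [H61 TU GEN]

Induction on `m`. `m = 0`: `gam G 0 = ⊤ = closure A`, `rn [] a = a`. Step: let `K` be the right
side for `m + 1`; it contains `gam G (m+2)`, which is normal. `gam G (m+1) = ⁅gam G m, ⊤⁆` is
generated by the `⁅c, g⁆` with `c ∈ gam G m` (`Subgroup.commutator_le`). Modulo `gam G (m+2)` the
map `(c, g) ↦ ⁅c, g⁆` is multiplicative in both arguments (`commutator_mem_gam`), so the `c`
with `⁅c, g⁆ ∈ K` for all `g ∈ A` form a subgroup containing `gam G (m+1)`, and it is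
enough to treat `c = rn l a` (induction hypothesis) and `g = x ∈ A` (the `g` with
`⁅c, g⁆ ∈ K` form a subgroup for given `c ∈ gam G m`): `⁅rn l a, x⁆ = ⁅x, rn l a⁆⁻¹ =
(rn (x :: l) a)⁻¹ ∈ K`.
-/

namespace Pool.Agent.H61.Tu

open Diagram Relation
open scoped commutatorElement

theorem gam_le_closure_rn {G : Type*} [Group G] (A : Set G) (hA : Subgroup.closure A = ⊤)
    (m : ℕ) : gam G m ≤ Subgroup.closure
      {g : G | ∃ (l : List G) (a : G), l.length = m ∧ (∀ x ∈ l, x ∈ A) ∧ a ∈ A ∧ g = rn l a} ⊔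
      gam G (m + 1) := by
  induction m with
  | zero =>
    refine le_trans ?_ le_sup_left
    have h1 : A ⊆ {g : G | ∃ (l : List G) (a : G), l.length = 0 ∧ (∀ x ∈ l, x ∈ A) ∧ a ∈ A ∧
        g = rn l a} := fun a ha => ⟨[], a, rfl, fun x hx => absurd hx List.not_mem_nil, ha, rfl⟩
    have h2 := Subgroup.closure_mono h1
    rw [hA] at h2
    exact le_trans le_top h2
  | succ m ih =>
    set K : Subgroup G := Subgroup.closure
      {g : G | ∃ (l : List G) (a : G), l.length = m + 1 ∧ (∀ x ∈ l, x ∈ A) ∧ a ∈ A ∧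
        g = rn l a} ⊔ gam G (m + 1 + 1) with hK
    have hN : gam G (m + 1 + 1) ≤ K := le_sup_right
    -- both arguments
    have hr : ∀ c ∈ gam G m, (∀ x ∈ A, ⁅c, x⁆ ∈ K) → ∀ g, ⁅c, g⁆ ∈ K := by
      intro c hc hx g
      have hg : g ∈ Subgroup.closure A := by rw [hA]; exact Subgroup.mem_top g
      induction hg using Subgroup.closure_induction with
      | mem x h => exact hx x h
      | one =>
        rw [commutatorElement_one_right]
        exact one_mem _
      | mul g g' _ _ h h' =>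
        have e : ⁅c, g * g'⁆ = ⁅c, g⁆ * ⁅g, ⁅c, g'⁆⁆ * ⁅c, g'⁆ := by
          simp only [commutatorElement_def]; group
        rw [e]
        exact mul_mem (mul_mem h (hN (commutator_mem_gam (commutator_mem_gam hc g').1 g).2)) h'
      | inv g _ h =>
        have e : ⁅c, g⁻¹⁆ = ⁅g⁻¹, ⁅c, g⁆⁻¹⁆ * ⁅c, g⁆⁻¹ := by
          simp only [commutatorElement_def]; group
        rw [e]
        exact mul_mem (hN (commutator_mem_gam (inv_mem (commutator_mem_gam hc g).1) g⁻¹).2)
          (inv_mem h)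
    have hl : ∀ g, ∀ c ∈ gam G m, ∀ c' ∈ gam G m, ⁅c, g⁆ ∈ K → ⁅c', g⁆ ∈ K →
        ⁅c * c', g⁆ ∈ K := by
      intro g c hc c' hc' h h'
      have e : ⁅c * c', g⁆ = ⁅c, ⁅c', g⁆⁆ * ⁅c', g⁆ * ⁅c, g⁆ := by
        simp only [commutatorElement_def]; group
      rw [e]
      exact mul_mem (mul_mem (hN (commutator_mem_gam (commutator_mem_gam hc' g).1 c).2) h') h
    have hli : ∀ g, ∀ c ∈ gam G m, ⁅c, g⁆ ∈ K → ⁅c⁻¹, g⁆ ∈ K := by
      intro g c hc h
      have e : ⁅c⁻¹, g⁆ = ⁅c⁻¹, ⁅c, g⁆⁻¹⁆ * ⁅c, g⁆⁻¹ := by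
        simp only [commutatorElement_def]; group
      rw [e]
      exact mul_mem (hN (commutator_mem_gam (inv_mem (commutator_mem_gam hc g).1) c⁻¹).2)
        (inv_mem h)
    let L : Subgroup G :=
      { carrier := {c | c ∈ gam G m ∧ ∀ g, ⁅c, g⁆ ∈ K}
        mul_mem' := fun {c c'} hc hc' =>
          ⟨mul_mem hc.1 hc'.1, fun g => hl g c hc.1 c' hc'.1 (hc.2 g) (hc'.2 g)⟩
        one_mem' := ⟨one_mem _, fun g => by
          rw [commutatorElement_one_left]
          exact one_mem _⟩
        inv_mem' := fun {c} hc => ⟨inv_mem hc.1, fun g => hli g c hc.1 (hc.2 g)⟩ }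
    have hL : gam G m ≤ L := by
      refine ih.trans (sup_le ?_ ?_)
      · rw [Subgroup.closure_le]
        rintro c ⟨l, a, h1, h2, h3, rfl⟩
        have h4 : rn l a ∈ gam G m := by
          have h5 := rn_mem l (s := 0) (Subgroup.mem_top a)
          rw [zero_add, h1] at h5
          exact h5
        refine ⟨h4, hr _ h4 fun x hx => ?_⟩
        have h6 : rn (x :: l) a ∈ K := by
          refine Subgroup.mem_sup_left (Subgroup.subset_closure ⟨x :: l, a, ?_, ?_, h3, rfl⟩)
          · rw [List.length_cons, h1]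
          · intro y hy
            rcases List.mem_cons.1 hy with rfl | hy
            · exact hx
            · exact h2 y hy
        have h7 := inv_mem h6
        rw [rn_cons, commutatorElement_inv] at h7
        exact h7
      · intro c hc
        exact ⟨gam_anti (Nat.le_succ m) hc, fun g => hN (commutator_mem_gam hc g).1⟩
    have h8 : ⁅gam G m, (⊤ : Subgroup G)⁆ ≤ K :=
      Subgroup.commutator_le.2 fun c hc g _ => (hL hc).2 g
    exact h8

end Pool.Agent.H61.Tu
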