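import Pool.Agent.H61.Tu.FoxGam

/-!
# The endomorphisms `kap`   [H61 TU KAP]

`kap j ρ c = ((ρ j).val - 1) ∘ foxF ρ' c ∘ single none`, `ρ' o = ρ (sub j o)`,
`(ρ j).val - 1 = t • M j`. By `fox_gam` (for the letters `Option (Fin n)`, `ρ' o = 1 + t • ..`):
for `c ∈ gam m`: `lift ρ' c = 1 + t^(m+1) • K`, `foxF ρ' c = t^m • K'`.
* `kap_mul`: `foxF (c c') = foxF c + (lift ρ' c) foxF c'` and
  `(t • M j) ∘ (t^(m+1) • K) = 0` as `t^(m+2) = 0`.
* `kap_inv`: from `kap_mul` with `c * c⁻¹ = 1`, `kap j ρ 1 = 0`.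
* `kap_gam`: `c ∈ gam (m+1)`: `t * t^(m+1) = 0`.
* `kap_eq_smul`: `c ∈ gam m`: `t • M j ∘ t^m • K' ∘ single none`.
-/

namespace Pool.Agent.H61.Tu

open Diagram Relation
open scoped commutatorElement

variable {n m : ℕ} {R : Type} [CommRing R] {V : Type} [AddCommGroup V] [Module R V] {t : R}
  {M : Fin n → Module.End R V} {ρ : Fin n → (Module.End R V)ˣ}

private theorem kap_apply (hρ : ∀ i, (ρ i).val = 1 + t • M i) (j : Fin n)
    (c : FreeGroup (Option (Fin n))) (v : V) :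
    kap j ρ c v = t • M j (foxF (fun o => ρ (sub j o)) c
      (LinearMap.single R (fun _ : Option (Fin n) => V) none v)) := by
  rw [kap, LinearMap.comp_apply, LinearMap.comp_apply, hρ j, add_sub_cancel_left,
    LinearMap.smul_apply]

private theorem kap_form (hρ : ∀ i, (ρ i).val = 1 + t • M i) (j : Fin n) (m : ℕ)
    {c : FreeGroup (Option (Fin n))} (hc : c ∈ gam (FreeGroup (Option (Fin n))) m) :
    (∃ K : Module.End R V,
      (FreeGroup.lift (fun o => ρ (sub j o)) c).val = 1 + t ^ (m + 1) • K) ∧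
      ∃ K : (Option (Fin n) → V) →ₗ[R] V, foxF (fun o => ρ (sub j o)) c = t ^ m • K :=
  fox_gam t (fun o => ρ (sub j o)) (fun o => ⟨M (sub j o), hρ _⟩) m c hc

theorem kap_mul (ht : t ^ (m + 2) = 0) (hρ : ∀ i, (ρ i).val = 1 + t • M i) (j : Fin n)
    {c c' : FreeGroup (Option (Fin n))} (hc : c ∈ gam (FreeGroup (Option (Fin n))) m) :
    kap j ρ (c * c') = kap j ρ c + kap j ρ c' := by
  obtain ⟨⟨K, hK⟩, _⟩ := kap_form hρ j m hc
  ext v
  rw [LinearMap.add_apply, kap_apply hρ, kap_apply hρ, kap_apply hρ, foxF_mul_apply, hK,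
    LinearMap.add_apply, Module.End.one_apply, LinearMap.smul_apply, map_add, map_add, map_smul,
    smul_add, smul_add, smul_smul, ← pow_succ', ht, zero_smul, add_zero]

theorem kap_inv (ht : t ^ (m + 2) = 0) (hρ : ∀ i, (ρ i).val = 1 + t • M i) (j : Fin n)
    {c : FreeGroup (Option (Fin n))} (hc : c ∈ gam (FreeGroup (Option (Fin n))) m) :
    kap j ρ c⁻¹ = - kap j ρ c := by
  have h1 := kap_mul ht hρ j (c' := c⁻¹) hc
  have h2 : kap j ρ (1 : FreeGroup (Option (Fin n))) = 0 := by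
    ext v
    rw [kap_apply hρ, foxF_one]
    simp
  rw [mul_inv_cancel, h2] at h1
  exact eq_neg_of_add_eq_zero_right h1.symm

theorem kap_gam (ht : t ^ (m + 2) = 0) (hρ : ∀ i, (ρ i).val = 1 + t • M i) (j : Fin n)
    {c : FreeGroup (Option (Fin n))} (hc : c ∈ gam (FreeGroup (Option (Fin n))) (m + 1)) :
    kap j ρ c = 0 := by
  obtain ⟨_, K, hK⟩ := kap_form hρ j (m + 1) hc
  ext v
  rw [kap_apply hρ, hK, LinearMap.smul_apply, map_smul, smul_smul, ← pow_succ', ht, zero_smul,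
    LinearMap.zero_apply]

theorem kap_eq_smul (hρ : ∀ i, (ρ i).val = 1 + t • M i) (j : Fin n)
    {c : FreeGroup (Option (Fin n))} (hc : c ∈ gam (FreeGroup (Option (Fin n))) m) :
    ∃ K : Module.End R V, kap j ρ c = t ^ (m + 1) • K := by
  obtain ⟨_, K, hK⟩ := kap_form hρ j m hc
  refine ⟨M j ∘ₗ K ∘ₗ LinearMap.single R (fun _ : Option (Fin n) => V) none, ?_⟩
  ext v
  rw [kap_apply hρ, hK, LinearMap.smul_apply, map_smul, smul_smul, ← pow_succ',
    LinearMap.smul_apply, LinearMap.comp_apply, LinearMap.comp_apply]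

end Pool.Agent.H61.Tu
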