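import Pool.Agent.H61.Tu.Expansion
import Pool.Agent.H61.Tu.GamGen
import Pool.Agent.H61.Tu.FoxRn
import Pool.Agent.H61.Tu.Kap

/-!
# Expansion of all elements   [H61 TU EXE]

Let `C` be the set of the `c ∈ gam m` for which such an `E` exists. It is closed under products
(concatenate the `E`s; `hb.b_mul`, `kap_mul`, `Fs.ev_append`), inverses (negate the
coefficients; `b_inv`, `kap_inv`), contains `gam (m+1)` (`E = []`, `b_gam`, `kap_gam`; the image
under `FreeGroup.map` is in `gam (m+1)` by `gam_map`) and the elements `rn (ofs l) (of z)` with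
`l.length = m`: `E = Ee j z l` by `expansion` with `p = []` and `fox_rn`
(`kap = (t • M j) * (t^m • N + t^(m+1) • K)`; note `FreeGroup.map σ (rn (ofs l) (of z)) =
rn (..) (..)`, as `rn` commutes with homomorphisms). By `gam_le_closure_rn` with
`A = Set.range FreeGroup.of` these generate `gam m` (a list with all entries in
`Set.range of` is `l'.map of`).
-/

namespace Pool.Agent.H61.Tu

open Diagram Relation
open scoped commutatorElement

private theorem ExpExists_rn_hom {G H : Type*} [Group G] [Group H] (f : G →* H) (l : List G)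
    (g : G) : f (rn l g) = rn (l.map f) (f g) := by
  induction l with
  | nil => rfl
  | cons z l ih => rw [rn_cons, map_commutatorElement, ih, List.map_cons, rn_cons]

private theorem ExpExists_list {A : Type*} (l : List (FreeGroup A))
    (h : ∀ x ∈ l, x ∈ Set.range (FreeGroup.of : A → FreeGroup A)) :
    ∃ l' : List A, l = l'.map FreeGroup.of := by
  induction l with
  | nil => exact ⟨[], rfl⟩
  | cons x l ih =>
    obtain ⟨l', hl'⟩ := ih fun y hy => h y (List.mem_cons_of_mem x hy)
    obtain ⟨a, ha⟩ := h x List.mem_cons_self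
    exact ⟨a :: l', by rw [List.map_cons, ha, hl']⟩

theorem exists_expansion {n m : ℕ} {β : Type*} [AddCommGroup β]
    {b : Fin n → FreeGroup (Option (Fin n)) → β} (hb : BData n m β b) (j : Fin n)
    (c : FreeGroup (Option (Fin n))) (hc : c ∈ gam (FreeGroup (Option (Fin n))) m) :
    ∃ E : Fs n, (∀ p ∈ E, p.2.length = m) ∧
      b j c = b j (FreeGroup.map (fun o => some (sub j o)) c) +
        Fs.ev (fun v => wf b j (v.map some)) E ∧
      ∀ (R : Type) [CommRing R] (t : R), t ^ (m + 2) = 0 → ∀ (V : Type) [AddCommGroup V]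
        [Module R V] (M : Fin n → Module.End R V) (ρ : Fin n → (Module.End R V)ˣ),
        (∀ i, (ρ i).val = 1 + t • M i) →
        kap j ρ c = t ^ (m + 1) • (M j * Fs.ev (fun v => (v.map M).prod) E) := by
  have hmap : ∀ {k : ℕ} {c : FreeGroup (Option (Fin n))},
      c ∈ gam (FreeGroup (Option (Fin n))) k →
      FreeGroup.map (fun o => some (sub j o)) c ∈ gam (FreeGroup (Option (Fin n))) k :=
    fun {k} {c} hc => gam_map (FreeGroup.map fun o => some (sub j o)) k hc
  let L : Subgroup (FreeGroup (Option (Fin n))) :=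
    { carrier := {c | c ∈ gam (FreeGroup (Option (Fin n))) m ∧
        ∃ E : Fs n, (∀ p ∈ E, p.2.length = m) ∧
        b j c = b j (FreeGroup.map (fun o => some (sub j o)) c) +
          Fs.ev (fun v => wf b j (v.map some)) E ∧
        ∀ (R : Type) [CommRing R] (t : R), t ^ (m + 2) = 0 → ∀ (V : Type) [AddCommGroup V]
          [Module R V] (M : Fin n → Module.End R V) (ρ : Fin n → (Module.End R V)ˣ),
          (∀ i, (ρ i).val = 1 + t • M i) →
          kap j ρ c = t ^ (m + 1) • (M j * Fs.ev (fun v => (v.map M).prod) E)}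
      mul_mem' := ?_
      one_mem' := ?_
      inv_mem' := ?_ }
  · have hL : gam (FreeGroup (Option (Fin n))) m ≤ L := by
      refine (gam_le_closure_rn (Set.range FreeGroup.of)
        (FreeGroup.closure_range_of (Option (Fin n))) m).trans (sup_le ?_ ?_)
      · rw [Subgroup.closure_le]
        rintro c ⟨l, a, h1, h2, ⟨z, rfl⟩, rfl⟩
        obtain ⟨l', rfl⟩ := ExpExists_list l h2
        rw [List.length_map] at h1
        have h3 : rn (ofs l') (FreeGroup.of z) ∈ gam (FreeGroup (Option (Fin n))) m := by
          have h4 := rn_mem (ofs l') (s := 0) (Subgroup.mem_top (FreeGroup.of z))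
          rw [zero_add, List.length_map, h1] at h4
          exact h4
        refine ⟨h3, Ee j z l', fun p hp => by rw [Ee_length j z l' p hp, h1], ?_, ?_⟩
        · have h5 := expansion hb j z l' [] (by rw [List.length_nil, zero_add, h1])
          have h6 : FreeGroup.map (fun o => some (sub j o)) (rn (ofs l') (FreeGroup.of z)) =
              rn (l'.map fun o => xx (sub j o)) (xx (sub j z)) := by
            rw [ExpExists_rn_hom, FreeGroup.map.of, ofs, List.map_map]
            congr 1
          rw [h6]
          exact h5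
        · intro R _ t ht V _ _ M ρ hρ
          obtain ⟨K, hK⟩ := (fox_rn t M ρ hρ j z l').2
          have h7 : (ρ j).val - 1 = t • M j := by rw [hρ, add_sub_cancel_left]
          have h8 : t * t ^ (m + 1) = 0 := by rw [← pow_succ', ht]
          rw [kap, hK, h7, h1]
          change (t • M j) * (t ^ m • Fs.ev (fun v => (v.map M).prod) (Ee j z l') +
            t ^ (m + 1) • K) = _
          rw [mul_add, smul_mul_smul_comm, smul_mul_smul_comm, h8, zero_smul, add_zero,
            ← pow_succ']
      · intro c hc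
        refine ⟨gam_anti (Nat.le_succ m) hc, [], fun p hp => absurd hp List.not_mem_nil, ?_, ?_⟩
        · rw [hb.b_gam j c hc, hb.b_gam j _ (hmap hc), Fs.ev_nil, add_zero]
        · intro R _ t ht V _ _ M ρ hρ
          rw [kap_gam ht hρ j hc, Fs.ev_nil, mul_zero, smul_zero]
    exact (hL hc).2
  · rintro c c' ⟨hc, E, h1, h2, h3⟩ ⟨hc', E', h1', h2', h3'⟩
    refine ⟨mul_mem hc hc', E ++ E', fun p hp => ?_, ?_, ?_⟩
    · rcases List.mem_append.1 hp with hp | hp
      · exact h1 p hp
      · exact h1' p hp
    · rw [map_mul, hb.b_mul j c hc c' hc', hb.b_mul j _ (hmap hc) _ (hmap hc'), h2, h2',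
        Fs.ev_append]
      abel
    · intro R _ t ht V _ _ M ρ hρ
      rw [kap_mul ht hρ j hc, h3 R t ht V M ρ hρ, h3' R t ht V M ρ hρ, Fs.ev_append, mul_add,
        smul_add]
  · refine ⟨one_mem _, [], fun p hp => absurd hp List.not_mem_nil, ?_, ?_⟩
    · rw [map_one, Fs.ev_nil, add_zero]
    · intro R _ t ht V _ _ M ρ hρ
      rw [kap_gam ht hρ j (one_mem _), Fs.ev_nil, mul_zero, smul_zero]
  · rintro c ⟨hc, E, h1, h2, h3⟩
    refine ⟨inv_mem hc, E.map fun p => (-p.1, p.2), fun p hp => ?_, ?_, ?_⟩
    · rw [List.mem_map] at hp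
      obtain ⟨q, hq, rfl⟩ := hp
      exact h1 q hq
    · rw [map_inv, b_inv hb j hc, b_inv hb j (hmap hc), h2, Fs.ev_neg_map _ (fun v => v)]
      abel
    · intro R _ t ht V _ _ M ρ hρ
      rw [kap_inv ht hρ j hc, h3 R t ht V M ρ hρ, Fs.ev_neg_map _ (fun v => v), mul_neg, smul_neg]

end Pool.Agent.H61.Tu
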