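import Pool.Agent.H61.Tu.BRn

/-!
# The wheels depend only on cyclic words   [H61 TU WFU]

`wf b j v = b j (rn (ofs v) yy) - b j (rn (ofs v) (xx j))`, `sub j none = j`,
`sub j (some i) = i`.
* `wf_rot_a`: `b j (A * B⁻¹) = b j A - b j B` for `A, B ∈ gam m` (`b_mul`, `b_inv`), `rn_cons`,
  `hb.t1`, `rn_append` (`rn (ofs (z ++ [some j])) g = rn (ofs z) ⁅xx j, g⁆`).
* `wf_rot_b`: the same with `hb.t2`; `⁅xx j, xx j⁆ = 1`, `rn_one`, `b_one`.
* `wf_last`: `wf b j (z ++ [none]) = b j (rn (ofs z) 1) - b j (rn (ofs z) ⁅yy, xx j⁆)` and
  `wf b j (z ++ [some j]) = b j (rn (ofs z) ⁅xx j, yy⁆) - b j (rn (ofs z) 1)`; `b_rn_swap`.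
* `wf_pattern`: `v = []` trivial. `v = z ++ [a]`. If `a = none` or `a = some j`: by `wf_last` and
  `wf_rot_b` the value is `wf b j (none :: z.map fun o => if o = some j then none else o)`,
  and the list is the same for `z` and `z.map fun o => some (sub j o)`. If `a = some i`, `i ≠ j`:
  by `wf_rot_a` (with the roles of `i` and `j` exchanged) it is
  `wf b i (some j :: z.map fun o => some (sub j o))`, the same for `z` and
  `z.map fun o => some (sub j o)`.
* `wf_rotate`: `i ≠ j`: `wf_rot_a` with `z = v.map some`. `i = j`: `wf_rot_b` with
  `z = v.map some`, and `wf_pattern` on both sides of the equation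
  `wf b j (some j :: v.map some) = wf b j (none :: (v.map some).map ..)` (the same pattern).
* `wf_nil`: `m = 0`, `hb.kink`.
-/

namespace Pool.Agent.H61.Tu

open Diagram Relation
open scoped commutatorElement

variable {n m : ℕ} {β : Type*} [AddCommGroup β] {b : Fin n → FreeGroup (Option (Fin n)) → β}

private theorem WFun_sub (hb : BData n m β b) (j : Fin n) {A B : FreeGroup (Option (Fin n))}
    (hA : A ∈ gam (FreeGroup (Option (Fin n))) m) (hB : B ∈ gam (FreeGroup (Option (Fin n))) m) :
    b j (A * B⁻¹) = b j A - b j B := by
  rw [hb.b_mul j A hA _ (inv_mem hB), b_inv hb j hB, sub_eq_add_neg]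

private theorem WFun_mem (w : List (Option (Fin n))) (hw : w.length = m)
    (g : FreeGroup (Option (Fin n))) : rn (ofs w) g ∈ gam (FreeGroup (Option (Fin n))) m := by
  have h1 := rn_mem (ofs w) (s := 0) (Subgroup.mem_top g)
  rw [zero_add, List.length_map, hw] at h1
  exact h1

private theorem WFun_app (z : List (Option (Fin n))) (o : Option (Fin n))
    (g : FreeGroup (Option (Fin n))) :
    rn (ofs (z ++ [o])) g = rn (ofs z) ⁅FreeGroup.of o, g⁆ := by
  rw [ofs, List.map_append, rn_append]
  rfl

theorem wf_rot_a (hb : BData n m β b) {i j : Fin n} (hij : i ≠ j) (z : List (Option (Fin n)))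
    (hz : z.length + 1 = m) :
    wf b j (some i :: z.map fun o => some (sub i o)) = wf b i (z ++ [some j]) := by
  have h1 := hb.t1 i j hij z hz
  have hl : ((some i : Option (Fin n)) :: z.map fun o => some (sub i o)).length = m := by
    rw [List.length_cons, List.length_map, hz]
  have hl' : (z ++ [some j]).length = m := by
    rw [List.length_append, List.length_singleton, hz]
  have e1 := WFun_sub hb j (WFun_mem _ hl (yy n)) (WFun_mem _ hl (xx j))
  have e2 := WFun_sub hb i (WFun_mem _ hl' (yy n)) (WFun_mem _ hl' (xx i))
  rw [wf, wf, ← e1, ← e2, WFun_app, WFun_app]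
  exact h1

theorem wf_rot_b (hb : BData n m β b) (j : Fin n) (z : List (Option (Fin n)))
    (hz : z.length + 1 = m) :
    wf b j (none :: z.map fun o => if o = some j then none else o) = wf b j (z ++ [some j]) := by
  have h1 := hb.t2 j z hz
  have hl : ((none : Option (Fin n)) :: z.map fun o => if o = some j then none else o).length =
      m := by
    rw [List.length_cons, List.length_map, hz]
  have e1 := WFun_sub hb j (WFun_mem _ hl (yy n)) (WFun_mem _ hl (xx j))
  rw [wf, wf, ← e1, WFun_app, WFun_app, commutatorElement_self, rn_one, b_one hb, sub_zero]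
  exact h1

theorem wf_last (hb : BData n m β b) (j : Fin n) (z : List (Option (Fin n)))
    (hz : z.length + 1 = m) : wf b j (z ++ [none]) = wf b j (z ++ [some j]) := by
  have h1 := b_rn_swap hb j (ofs z) (s := 1) (g := xx j) (h := yy n)
    (commutator_mem_gam (m := 0) (Subgroup.mem_top (xx j)) (yy n)).1
    (by rw [List.length_map]; omega)
  rw [wf, wf, WFun_app, WFun_app, WFun_app, WFun_app, commutatorElement_self,
    commutatorElement_self, rn_one, b_one hb, sub_zero, zero_sub, h1, neg_neg]

theorem wf_pattern (hb : BData n m β b) (j : Fin n) (v : List (Option (Fin n)))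
    (hv : v.length = m) : wf b j v = wf b j (v.map fun o => some (sub j o)) := by
  rcases List.eq_nil_or_concat v with rfl | ⟨z, a, rfl⟩
  · rfl
  · rw [List.concat_eq_append] at hv ⊢
    rw [List.length_append, List.length_singleton] at hv
    have hz' : (z.map fun o => (some (sub j o) : Option (Fin n))).length + 1 = m := by
      rw [List.length_map, hv]
    rw [List.map_append, List.map_singleton]
    have hj : wf b j (z ++ [some j]) =
        wf b j ((z.map fun o => (some (sub j o) : Option (Fin n))) ++ [some j]) := by
      rw [← wf_rot_b hb j z hv, ← wf_rot_b hb j _ hz', List.map_map]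
      congr 2
      refine List.map_congr_left fun o _ => ?_
      rcases o with _ | i
      · change (if (none : Option (Fin n)) = some j then none else none) =
          (if (some j : Option (Fin n)) = some j then none else some j)
        simp
      · rfl
    rcases a with _ | i
    · rw [wf_last hb j z hv]
      exact hj
    · change wf b j (z ++ [some i]) =
        wf b j ((z.map fun o => (some (sub j o) : Option (Fin n))) ++ [some i])
      by_cases hij : j = i
      · subst hij
        exact hj
      · rw [← wf_rot_a hb hij z hv, ← wf_rot_a hb hij _ hz', List.map_map]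
        rfl

theorem wf_rotate (hb : BData n m β b) (i j : Fin n) (v : List (Fin n))
    (hv : v.length + 1 = m) :
    wf b j (some i :: v.map some) = wf b i (v.map some ++ [some j]) := by
  have hv' : (v.map (some : Fin n → Option (Fin n))).length + 1 = m := by
    rw [List.length_map, hv]
  by_cases hij : i = j
  · subst hij
    rw [← wf_rot_b hb i _ hv', wf_pattern hb i (some i :: v.map some)
      (by rw [List.length_cons, hv']), wf_pattern hb i (none :: _)
      (by rw [List.length_cons, List.length_map, hv']), List.map_cons, List.map_cons,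
      List.map_map, List.map_map, List.map_map]
    congr 2
    refine List.map_congr_left fun k _ => ?_
    change (some (sub i (some k)) : Option (Fin n)) =
      some (sub i (if (some k : Option (Fin n)) = some i then none else some k))
    by_cases hk : k = i
    · subst hk
      rw [if_pos rfl]
      rfl
    · rw [if_neg fun h => hk (Option.some.inj h)]
  · rw [← wf_rot_a hb hij _ hv', List.map_map]
    rfl

theorem wf_nil (hb : BData n m β b) (hm : m = 0) (j : Fin n) : wf b j [] = 0 := by
  have h1 := hb.kink hm j
  change b j (yy n) - b j (xx j) = 0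
  rw [h1.1, h1.2, sub_zero]

end Pool.Agent.H61.Tu
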