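import Pool.Agent.H61.Tu.Dynkin
import Pool.Agent.H61.Tu.WFun

/-!
# Expansion of the insertion elements   [H61 TU EXP]

Induction on `l`, for all `p`. `l = []`: if `z = some i` both sides are equal (`Ee = []`,
`sub j (some i) = i`). If `z = none`: `Ee = [(1, [])]` and
`b j (rn (ofs p) yy) = b j (rn (ofs p) (xx j)) + wf b j p`, `wf_pattern` (`p.length = m`).
Step `o :: l`: the induction hypothesis for `p ++ [o]`. If `o = some i` this is the claim
(`ofs (p ++ [o]) ++ l' = ofs p ++ xx i :: l'`; `Ee j z (o :: l)` is `Ee j z l` with `i` put in
front of each word). If `o = none`: with `u = rn (l.map fun o => xx (sub j o)) (xx (sub j z))` the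
difference between the main term of the induction hypothesis and the wanted one is
`b j (rn (ofs p) ⁅yy, u⁆) - b j (rn (ofs p) ⁅xx j, u⁆)
 = - (b j (rn (ofs p) ⁅u, yy⁆) - b j (rn (ofs p) ⁅u, xx j⁆))` (`b_rn_swap`), and by `dynkin`
(`r = 0`, `g = yy`, `xx j`) this is `- Fs.ev (fun v => wf b j (p ++ v.map some)) (ellF ..)`;
`wf_pattern` (`ellF_length`: the words have length `l.length + 1`) replaces `p` by
`p.map (sub j)`; this is the second part of `Ee j z (none :: l)`.
-/

namespace Pool.Agent.H61.Tu

open Diagram Relation
open scoped commutatorElement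

theorem expansion {n m : ℕ} {β : Type*} [AddCommGroup β]
    {b : Fin n → FreeGroup (Option (Fin n)) → β}
    (hb : BData n m β b) (j : Fin n) (z : Option (Fin n)) (l p : List (Option (Fin n)))
    (h : p.length + l.length = m) :
    b j (rn (ofs (p ++ l)) (FreeGroup.of z)) =
      b j (rn (ofs p ++ l.map fun o => xx (sub j o)) (xx (sub j z))) +
      Fs.ev (fun v => wf b j ((p.map (sub j) ++ v).map some)) (Ee j z l) := by
  induction l generalizing p with
  | nil =>
    rw [List.append_nil, List.map_nil, List.append_nil]
    rw [List.length_nil, add_zero] at h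
    rcases z with _ | i
    · have h1 := wf_pattern hb j p h
      have h2 : (Ee j none [] : Fs n) = [(1, [])] := rfl
      rw [h2, Fs.ev_cons, Fs.ev_nil, one_smul, add_zero, List.append_nil, List.map_map]
      have h3 : wf b j (p.map ((some : Fin n → Option (Fin n)) ∘ sub j)) = wf b j p := h1.symm
      rw [h3, wf]
      change _ = b j (rn (ofs p) (xx j)) + _
      abel
    · have h2 : (Ee j (some i) [] : Fs n) = [] := rfl
      rw [h2, Fs.ev_nil, add_zero]
      rfl
  | cons o l ih =>
    rw [List.length_cons] at h
    have h1 := ih (p ++ [o]) (by rw [List.length_append, List.length_singleton]; omega)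
    have e1 : p ++ [o] ++ l = p ++ o :: l := by
      rw [List.append_assoc]; rfl
    rw [e1] at h1
    have e2 : Fs.ev (fun v => wf b j (((p ++ [o]).map (sub j) ++ v).map some)) (Ee j z l) =
        Fs.ev (fun v => wf b j ((p.map (sub j) ++ v).map some))
          ((Ee j z l).map fun q => (q.1, sub j o :: q.2)) := by
      rw [Fs.ev_map _ (fun v => sub j o :: v)]
      refine Fs.ev_congr fun q _ => ?_
      have e : (p ++ [o]).map (sub j) ++ q.2 = p.map (sub j) ++ sub j o :: q.2 := by
        rw [List.map_append, List.append_assoc]
        rfl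
      rw [e]
    rw [h1, e2, Ee, Fs.ev_append, add_left_comm, add_comm]
    congr 1
    have e3 : (ofs (p ++ [o]) ++ l.map fun o => xx (sub j o)) =
        ofs p ++ ([FreeGroup.of o] ++ l.map fun o => xx (sub j o)) := by
      rw [ofs, List.map_append, List.append_assoc]
      rfl
    have e4 : (ofs p ++ (o :: l).map fun o => (xx (sub j o) : FreeGroup (Option (Fin n)))) =
        ofs p ++ ([xx (sub j o)] ++ l.map fun o => xx (sub j o)) := rfl
    rw [e3, e4]
    rcases o with _ | i
    · rw [if_pos rfl, rn_append (ofs p), rn_append (ofs p), rn_append, rn_append]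
      set u : FreeGroup (Option (Fin n)) := rn (l.map fun o => xx (sub j o)) (xx (sub j z)) with hu
      have hum : u ∈ gam (FreeGroup (Option (Fin n))) l.length := by
        have h2 := rn_mem (l.map fun o => (xx (sub j o) : FreeGroup (Option (Fin n)))) (s := 0)
          (Subgroup.mem_top (xx (sub j z)))
        rw [zero_add, List.length_map] at h2
        exact h2
      have hlen : l.length + 1 + (ofs p).length = m := by
        rw [List.length_map]; omega
      have s1 := b_rn_swap hb j (ofs p) (commutator_mem_gam hum (yy n)).1 hlen
      have s2 := b_rn_swap hb j (ofs p) (commutator_mem_gam hum (xx j)).1 hlen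
      have hmu : rn ((l.map (sub j)).map fun i => xx i) (xx (sub j z)) = u := by
        rw [List.map_map]
        rfl
      have d1 := dynkin hb j (sub j z) (l.map (sub j)) (ofs p) (g := yy n) (r := 0)
        (Subgroup.mem_top _) (by rw [List.length_map, List.length_map]; omega)
      have d2 := dynkin hb j (sub j z) (l.map (sub j)) (ofs p) (g := xx j) (r := 0)
        (Subgroup.mem_top _) (by rw [List.length_map, List.length_map]; omega)
      rw [hmu] at d1 d2
      have e5 : Fs.ev (fun v => wf b j ((p.map (sub j) ++ v).map some))
          ((ellF (sub j z) (l.map (sub j))).map fun q => (-q.1, q.2)) =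
          - (b j (rn (ofs p) ⁅u, yy n⁆) - b j (rn (ofs p) ⁅u, xx j⁆)) := by
        rw [Fs.ev_neg_map _ (fun v => v), d1, d2, ← Fs.ev_sub]
        congr 1
        refine Fs.ev_congr fun q hq => ?_
        have h3 := ellF_length _ _ q hq
        rw [List.length_map] at h3
        have h4 := wf_pattern hb j (p ++ q.2.map some)
          (by rw [List.length_append, List.length_map, h3]; omega)
        have h5 : (p ++ q.2.map some).map (fun o => (some (sub j o) : Option (Fin n))) =
            (p.map (sub j) ++ q.2).map some := by
          rw [List.map_append, List.map_append, List.map_map, List.map_map]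
          rfl
        rw [h5] at h4
        rw [← h4, wf, ofs, List.map_append, List.map_map]
        rfl
      rw [e5]
      change b j (rn (ofs p) ⁅yy n, u⁆) = b j (rn (ofs p) ⁅xx j, u⁆) + _
      rw [s1, s2]
      abel
    · rw [if_neg (Option.some_ne_none i), Fs.ev_nil, add_zero]
      rfl

end Pool.Agent.H61.Tu
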