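import Pool.Agent.H61.Tu.ColUnique
import Pool.Agent.H61.Tu.ColExist
import Pool.Agent.H61.Tu.Paths

/-!
# `SameW` is an equivalence relation   [H61 TU SAME]

Existence and uniqueness of the colouring in `Ga n m`: `col_exists`, `col_unique` with
`gam_Ga n m`.
* refl: `η = η'`, `isLong_unique`, exponents `0`.
* symm: exchange `η`, `η'`; exponents `-a` (the factor is a unit: `Units.inv_mul_cancel`...).
* trans: `(η, η')` for `X, X'` and `(ζ, ζ')` for `X', X''`; `η' = ζ` by `col_unique`. For the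
  longitudes take any longitude of `X'` (`isLong_exists`) and add the exponents. For the
  determinants multiply the factors (`zpow_add`, `Finset.prod_mul_distrib`).
* `sameW_of_stepOK`: by `col_exists`.
-/

namespace Pool.Agent.H61.Tu

open Diagram Relation
open scoped commutatorElement

theorem sameW_of_stepOK {n m : ℕ} {X X' : WD n} (h : StepOK m X X') : SameW m X X' := by
  obtain ⟨η, hη⟩ := col_exists X.S X.w (gam_Ga n m) (xg n m)
  obtain ⟨η', h1, h2, h3⟩ := h η hη
  exact ⟨η, η', hη, h1, h2, h3⟩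

theorem sameW_refl {n : ℕ} (m : ℕ) (X : WD n) : SameW m X X := by
  obtain ⟨η, hη⟩ := col_exists X.S X.w (gam_Ga n m) (xg n m)
  refine ⟨η, η, hη, hη, ?_, 0, ?_⟩
  · intro j
    refine ⟨0, ?_⟩
    intro u u' hu hu'
    rw [isLong_unique hu hu', zpow_zero, one_mul]
  · intro R _ t _ r ψ _
    simp

theorem sameW_symm {n m : ℕ} {X X' : WD n} (h : SameW m X X') : SameW m X' X := by
  obtain ⟨η, η', hη, hη', hl, a, ha⟩ := h
  refine ⟨η', η, hη', hη, ?_, fun i => - a i, ?_⟩
  · intro j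
    obtain ⟨b, hb⟩ := hl j
    refine ⟨-b, ?_⟩
    intro u u' hu hu'
    rw [hb u' u hu' hu, ← mul_assoc, ← zpow_add, neg_add_cancel, zpow_zero, one_mul]
  · intro R _ t ht r ψ hψ
    rw [ha R t ht r ψ hψ, ← mul_assoc, ← Units.val_mul, ← Finset.prod_mul_distrib]
    have h1 : ∀ i ∈ (Finset.univ : Finset (Fin n)),
        detU R (Fin r → R) (ψ (xg n m i)) ^ (-a i) * detU R (Fin r → R) (ψ (xg n m i)) ^ a i =
          1 := by
      intro i _
      rw [← zpow_add, neg_add_cancel, zpow_zero]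
    rw [Finset.prod_congr rfl h1, Finset.prod_const_one, Units.val_one, one_mul]

theorem sameW_trans {n m : ℕ} {X X' X'' : WD n} (h : SameW m X X') (h' : SameW m X' X'') :
    SameW m X X'' := by
  obtain ⟨η, η', hη, hη', hl, a, ha⟩ := h
  obtain ⟨ζ, ζ', hζ, hζ', hl', a', ha'⟩ := h'
  have he : ζ = η' := col_unique X'.S X'.w (gam_Ga n m) (xg n m) hζ hη'
  subst he
  refine ⟨η, ζ', hη, hζ', ?_, fun i => a' i + a i, ?_⟩
  · intro j
    obtain ⟨b, hb⟩ := hl j
    obtain ⟨b', hb'⟩ := hl' j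
    obtain ⟨v, hv⟩ := isLong_exists X'.S X'.w j
    refine ⟨b' + b, ?_⟩
    intro u u' hu hu'
    rw [hb' v u' hv hu', hb u v hu hv, ← mul_assoc, ← zpow_add]
  · intro R _ t ht r ψ hψ
    rw [ha' R t ht r ψ hψ, ha R t ht r ψ hψ, ← mul_assoc, ← Units.val_mul,
      ← Finset.prod_mul_distrib]
    have h1 : ∀ i ∈ (Finset.univ : Finset (Fin n)),
        detU R (Fin r → R) (ψ (xg n m i)) ^ (a' i) * detU R (Fin r → R) (ψ (xg n m i)) ^ a i =
          detU R (Fin r → R) (ψ (xg n m i)) ^ (a' i + a i) := by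
      intro i _
      rw [← zpow_add]
    rw [Finset.prod_congr rfl h1]

end Pool.Agent.H61.Tu
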