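import Pool.Agent.H61.Tu.InsAll
import Pool.Agent.H61.Tu.AlexUnit
import Pool.Agent.H61.Tu.SameEquiv

/-!
# From the equality of the invariants   [H61 TU EXT]

`h` gives colourings `η` of `X`, `η'` of `X₁ = insL c (List.finRange n) X` and exponents. By
`col_unique` (`gam_Ga`) the colouring `η'` is the one of `insL_data` for `η`.
`(List.finRange n).count j = 1`.
* `extract_tree`: take longitudes `u`, `u'` (`isLong_exists`):
  `tree * lift η u = xg^a * lift η u`.
* `extract_det`: given `R, t, r, M, ρ`: by `fox_gam` `FreeGroup.lift ρ` kills `gam (m+1)`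
  (`1 + t^(m+2) • K = 1`, `Units.ext`), so it factors through `ψ : Ga n (m+1) →* ..`
  (`QuotientGroup.lift`), `ψ (xg i) = ρ i`. The two formulas for the determinant of `X₁`
  give `∏ det (1 - kap j ρ (c j)) * alex X = (∏ ..) * alex X`, and `alex X` is a unit:
  `alex_isUnit` with `col_one_add` and `t` nilpotent. `List.prod_map` over `List.finRange`
  (`List.prod_ofFn`, `Finset.prod_univ`...).
-/

namespace Pool.Agent.H61.Tu

open Diagram Relation
open scoped commutatorElement

theorem extract_tree {n m : ℕ} (c : Fin n → FreeGroup (Option (Fin n)))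
    (hc : ∀ j, c j ∈ gam (FreeGroup (Option (Fin n))) m) (X : WD n)
    (h : SameW (m + 1) X (insL c (List.finRange n) X)) (j : Fin n) :
    ∃ a : ℤ, tree (m + 1) j (c j) = xg n (m + 1) j ^ a := by
  obtain ⟨η, η', hη, hη', hl, _⟩ := h
  obtain ⟨η'', hη'', hlong, _⟩ := insL_data c hc (List.finRange n) X η hη
  have he : η' = η'' := col_unique _ _ (gam_Ga n (m + 1)) (xg n (m + 1)) hη' hη''
  obtain ⟨a, ha⟩ := hl j
  refine ⟨a, ?_⟩
  obtain ⟨u, hu⟩ := isLong_exists X.S X.w j
  obtain ⟨u', hu'⟩ := isLong_exists (insL c (List.finRange n) X).S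
    (insL c (List.finRange n) X).w j
  have h1 := ha u u' hu hu'
  have h2 := hlong j u u' hu hu'
  have h3 : (List.finRange n).count j = 1 :=
    List.count_eq_one_of_mem (List.nodup_finRange n) (List.mem_finRange j)
  rw [h3, pow_one] at h2
  rw [he, h2] at h1
  exact mul_right_cancel h1

theorem extract_det {n m : ℕ} (c : Fin n → FreeGroup (Option (Fin n)))
    (hc : ∀ j, c j ∈ gam (FreeGroup (Option (Fin n))) m) (X : WD n)
    (h : SameW (m + 1) X (insL c (List.finRange n) X)) :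
    ∃ a : Fin n → ℤ, ∀ (R : Type) [CommRing R] (t : R), t ^ (m + 2) = 0 → ∀ (r : ℕ)
      (M : Fin n → Module.End R (Fin r → R)) (ρ : Fin n → (Module.End R (Fin r → R))ˣ),
      (∀ i, (ρ i).val = 1 + t • M i) →
      ∏ j, LinearMap.det (1 - kap j ρ (c j) : Module.End R (Fin r → R)) =
        ((∏ i, detU R (Fin r → R) (ρ i) ^ a i : Rˣ) : R) := by
  obtain ⟨η, η', hη, hη', _, a, ha⟩ := h
  obtain ⟨η'', hη'', _, halex⟩ := insL_data c hc (List.finRange n) X η hη
  have he : η' = η'' := col_unique _ _ (gam_Ga n (m + 1)) (xg n (m + 1)) hη' hη''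
  refine ⟨a, ?_⟩
  intro R _ t ht r M ρ hρ
  have hρ' : ∀ i, ∃ M : Module.End R (Fin r → R), (ρ i).val = 1 + t • M := fun i => ⟨M i, hρ i⟩
  have hker : ∀ x ∈ gam (FreeGroup (Fin n)) (m + 1), FreeGroup.lift ρ x = 1 := by
    intro x hx
    obtain ⟨⟨K, hK⟩, _⟩ := fox_gam t ρ hρ' (m + 1) x hx
    apply Units.ext
    rw [hK, show m + 1 + 1 = m + 2 from rfl, ht, zero_smul, add_zero]
    rfl
  let ψ : Ga n (m + 1) →* (Module.End R (Fin r → R))ˣ :=
    QuotientGroup.lift (gam (FreeGroup (Fin n)) (m + 1)) (FreeGroup.lift ρ) hker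
  have hψx : ∀ i, ψ (xg n (m + 1) i) = ρ i := by
    intro i
    have h1 : ψ (xg n (m + 1) i) = FreeGroup.lift ρ (FreeGroup.of i) := rfl
    rw [h1, FreeGroup.lift_apply_of]
  have hψ : ∀ i, ∃ M : Module.End R (Fin r → R), (ψ (xg n (m + 1) i)).val = 1 + t • M := by
    intro i
    rw [hψx]
    exact hρ' i
  have h1 := halex R t ht r ψ hψ
  have h2 := ha R t ht r ψ hψ
  have hunit : IsUnit (X.S.alex X.w (fun a => ψ (η a))) :=
    alex_isUnit X.S X.w t ⟨m + 2, ht⟩ _ (fun a => col_one_add hη t ψ hψ a)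
  rw [he, h1] at h2
  have h3 := hunit.mul_right_cancel h2
  have h4 : (fun i => ψ (xg n (m + 1) i)) = ρ := funext hψx
  rw [h4] at h3
  rw [Fin.prod_univ_def, h3]
  have h5 : ∀ i, ψ (xg n (m + 1) i) = ρ i := hψx
  simp only [h5]

end Pool.Agent.H61.Tu
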