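import Pool.Agent.H61.Tu.Kap
import Pool.Agent.H61.Tu.DetLemmas

/-!
# The wheels vanish   [H61 TU EXW]

`1 ≤ m`. `kap j ρ (c j) = t^(m+1) • K j` (`kap_eq_smul`), `s = t^(m+1)`, `s * s = 0`
(`2m + 2 ≥ m + 2`), so `det (1 - kap) = 1 - s * trace (K j) = 1 - trace (kap)`
(`det_one_sub_of_sq`).
1. `a i = 0`: `R = DualNumber ℤ` (`ε * ε = 0`), `t = ε`, `r = 1`, `M i' = 1` for `i' = i` and `0`
   otherwise, `ρ` the units `1 + ε • M i'`. Here `s = ε^(m+1) = 0` because `m + 1 ≥ 2`, so the left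
   side is `1` (`kap = 0`). The right side is `(1 + ε)^(a i)`, which has the second
   component `a i` (`TrivSqZeroExt`; `detU` of `1 + ε • 1` on `Fin 1 → R` is `1 + ε`;
   the homomorphism from `ℤ` ... or by induction on `a i`; or use the derivation
   `snd (u * v) = snd u + snd v` for units with first component `1`). So `a i = 0`.
2. Then `∏ j, (1 - s * trace (K j)) = 1` for all `R, t, ..`, and
   `∏ j, (1 - s * x j) = 1 - s * ∑ j, x j` because `s * s = 0` (`Finset.induction_on`). So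
   `s * ∑ trace (K j) = 0`, i.e. `∑ trace (kap) = 0`.
-/

namespace Pool.Agent.H61.Tu

open Diagram Relation
open scoped commutatorElement

private theorem exw_pow {S : Type} [CommRing S] (e : S) (he : e * e = 0) (k : ℕ) :
    (1 + e) ^ k = 1 + k • e := by
  induction k with
  | zero => simp
  | succ k ih =>
    rw [pow_succ, ih, succ_nsmul]
    have : (1 + k • e) * (1 + e) = 1 + (k • e + e) + k • (e * e) := by
      rw [nsmul_eq_mul, nsmul_eq_mul]
      ring
    rw [this, he, smul_zero, add_zero]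

private theorem exw_inv {S V : Type} [CommRing S] [AddCommGroup V] [Module S V] (e : S)
    (he : e * e = 0) (N : Module.End S V) :
    (1 + e • N) * (1 - e • N) = 1 ∧ (1 - e • N) * (1 + e • N) = 1 := by
  have h1 : (e • N) * (e • N) = 0 := by
    rw [smul_mul_smul_comm, he, zero_smul]
  constructor
  · rw [mul_sub, mul_one, add_mul, h1, one_mul]
    abel
  · rw [mul_add, mul_one, sub_mul, h1, one_mul]
    abel

private theorem exw_prod {ι S : Type} [CommRing S] (s : S) (hs : s * s = 0) (F : Finset ι)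
    (x : ι → S) : ∏ j ∈ F, (1 - s * x j) = 1 - s * ∑ j ∈ F, x j := by
  classical
  induction F using Finset.induction_on with
  | empty => simp
  | insert j F hj ih =>
    rw [Finset.prod_insert hj, Finset.sum_insert hj, ih]
    linear_combination (x j * ∑ j ∈ F, x j) * hs

private theorem exw_a {n m : ℕ} (hm : 1 ≤ m) (c : Fin n → FreeGroup (Option (Fin n)))
    (hc : ∀ j, c j ∈ gam (FreeGroup (Option (Fin n))) m) (a : Fin n → ℤ)
    (h : ∀ (R : Type) [CommRing R] (t : R), t ^ (m + 2) = 0 → ∀ (r : ℕ)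
      (M : Fin n → Module.End R (Fin r → R)) (ρ : Fin n → (Module.End R (Fin r → R))ˣ),
      (∀ i, (ρ i).val = 1 + t • M i) →
      ∏ j, LinearMap.det (1 - kap j ρ (c j) : Module.End R (Fin r → R)) =
        ((∏ i, detU R (Fin r → R) (ρ i) ^ a i : Rˣ) : R)) (i : Fin n) : a i = 0 := by
  classical
  let e : DualNumber ℤ := DualNumber.eps
  have he : e * e = 0 := DualNumber.eps_mul_eps
  have hp : ∀ k : ℕ, e ^ (k + 2) = 0 := by
    intro k
    rw [pow_add, pow_two, he, mul_zero]
  let M : Fin n → Module.End (DualNumber ℤ) (Fin 1 → DualNumber ℤ) :=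
    fun i' => if i' = i then 1 else 0
  let ρ : Fin n → (Module.End (DualNumber ℤ) (Fin 1 → DualNumber ℤ))ˣ :=
    fun i' => ⟨1 + e • M i', 1 - e • M i', (exw_inv e he _).1, (exw_inv e he _).2⟩
  have hρ : ∀ i', (ρ i').val = 1 + e • M i' := fun i' => rfl
  have h1 := h (DualNumber ℤ) e (hp m) 1 M ρ hρ
  have hL : ∏ j, LinearMap.det (1 - kap j ρ (c j) :
      Module.End (DualNumber ℤ) (Fin 1 → DualNumber ℤ)) = 1 := by
    refine Finset.prod_eq_one fun j _ => ?_
    obtain ⟨K, hK⟩ := kap_eq_smul (t := e) (M := M) hρ j (hc j)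
    have h2 : e ^ (m + 1) = 0 := by
      have := hp (m - 1)
      rwa [show m - 1 + 2 = m + 1 by omega] at this
    rw [hK, h2, zero_smul, sub_zero, map_one]
  rw [hL] at h1
  have h2 : (∏ i', detU (DualNumber ℤ) (Fin 1 → DualNumber ℤ) (ρ i') ^ a i') = 1 :=
    Units.ext h1.symm
  have h3 : ∀ i' ∈ Finset.univ, i' ≠ i →
      detU (DualNumber ℤ) (Fin 1 → DualNumber ℤ) (ρ i') ^ a i' = 1 := by
    intro i' _ hi'
    have h4 : ρ i' = 1 := by
      apply Units.ext
      rw [hρ]
      simp only [M, if_neg hi', smul_zero, add_zero]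
      rfl
    rw [h4, map_one, one_zpow]
  rw [Finset.prod_eq_single i h3 (fun h => absurd (Finset.mem_univ _) h)] at h2
  rw [← pow_natAbs_eq_one] at h2
  have h5 := congrArg Units.val h2
  rw [Units.val_pow_eq_pow_val, Units.val_one] at h5
  have h6 : (detU (DualNumber ℤ) (Fin 1 → DualNumber ℤ) (ρ i)).val = 1 + e := by
    show LinearMap.det (ρ i).val = 1 + e
    have h7 : (ρ i).val = (1 + e) • (1 : Module.End (DualNumber ℤ) (Fin 1 → DualNumber ℤ)) := by
      rw [hρ, add_smul, one_smul]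
      simp only [M, if_true]
    rw [h7, LinearMap.det_smul, map_one, mul_one]
    simp
  rw [h6, exw_pow e he] at h5
  have h7 := congrArg TrivSqZeroExt.snd h5
  simp [e] at h7
  exact h7

theorem extract_wheel {n m : ℕ} (hm : 1 ≤ m) (c : Fin n → FreeGroup (Option (Fin n)))
    (hc : ∀ j, c j ∈ gam (FreeGroup (Option (Fin n))) m) (a : Fin n → ℤ)
    (h : ∀ (R : Type) [CommRing R] (t : R), t ^ (m + 2) = 0 → ∀ (r : ℕ)
      (M : Fin n → Module.End R (Fin r → R)) (ρ : Fin n → (Module.End R (Fin r → R))ˣ),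
      (∀ i, (ρ i).val = 1 + t • M i) →
      ∏ j, LinearMap.det (1 - kap j ρ (c j) : Module.End R (Fin r → R)) =
        ((∏ i, detU R (Fin r → R) (ρ i) ^ a i : Rˣ) : R))
    (R : Type) [CommRing R] (t : R) (ht : t ^ (m + 2) = 0) (r : ℕ)
    (M : Fin n → Module.End R (Fin r → R)) (ρ : Fin n → (Module.End R (Fin r → R))ˣ)
    (hρ : ∀ i, (ρ i).val = 1 + t • M i) :
    ∑ j, LinearMap.trace R (Fin r → R) (kap j ρ (c j)) = 0 := by
  have ha : ∀ i, a i = 0 := exw_a hm c hc a h
  have h1 := h R t ht r M ρ hρ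
  choose K hK using fun j => kap_eq_smul (M := M) hρ j (hc j)
  have hs : t ^ (m + 1) * t ^ (m + 1) = 0 := by
    have h2 : t ^ (m + 1) * t ^ (m + 1) = t ^ (m + 2) * t ^ m := by ring
    rw [h2, ht, zero_mul]
  have h2 : ∏ j, LinearMap.det (1 - kap j ρ (c j) : Module.End R (Fin r → R)) =
      ∏ j, (1 - t ^ (m + 1) * LinearMap.trace R (Fin r → R) (K j)) := by
    refine Finset.prod_congr rfl fun j _ => ?_
    rw [hK j, det_one_sub_of_sq _ hs]
  have h3 : (∏ i, detU R (Fin r → R) (ρ i) ^ a i) = 1 := by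
    refine Finset.prod_eq_one fun i _ => ?_
    rw [ha i, zpow_zero]
  rw [h2, exw_prod _ hs, h3, Units.val_one] at h1
  have h4 : t ^ (m + 1) * ∑ j, LinearMap.trace R (Fin r → R) (K j) = 0 := by
    linear_combination -h1
  rw [← h4, Finset.mul_sum]
  refine Finset.sum_congr rfl fun j _ => ?_
  rw [hK j, map_smul, smul_eq_mul]

end Pool.Agent.H61.Tu
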