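import Pool.Agent.H61.Tu.ColUnique
import Pool.Agent.H61.Tu.ColExist

/-!
# Monotonicity in `m`   [H61 TU MON]

* `eqv_mono`: every step of `WStep (m+1)` is a step of `WStep m` (`gam (m+1) ≤ gam m`).
* `sameW_mono`: let `π : Ga n (m+1) →* Ga n m` be the projection
  (`QuotientGroup.map` or `QuotientGroup.lift`, from `gam (m+1) ≤ gam m`),
  `π (xg n (m+1) i) = xg n m i`. Take `π ∘ η`, `π ∘ η'`, the same exponents. A colouring composed
  with a homomorphism is a colouring; `lift (π ∘ η) = π ∘ lift η`. For the determinants: if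
  `t^(m+1) = 0` then `t^(m+2) = 0`; apply the hypothesis to `ψ.comp π`.
-/

namespace Pool.Agent.H61.Tu

open Diagram Relation
open scoped commutatorElement

theorem eqv_mono {n m : ℕ} {X X' : WD n} (h : Eqv (m + 1) X X') : Eqv m X X' := by
  induction h with
  | rel Y Y' hY =>
    refine Eqv.of_step ?_
    cases hY with
    | rename S S' φ h w => exact WStep.rename S S' φ h w
    | mark S w a => exact WStep.mark S w a
    | transfer S w e f u hef hw hu => exact WStep.transfer S w e f u hef hw hu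
    | kinkL S w e => exact WStep.kinkL S w e
    | kinkR S w e => exact WStep.kinkR S w e
    | slide S w e f hfe g => exact WStep.slide S w e f hfe g
    | comm S w e c hc => exact WStep.comm S w e c (gam_anti (Nat.le_succ m) hc)
  | refl Y => exact Eqv.refl Y
  | symm Y Y' _ ih => exact ih.symm
  | trans Y Y' Y'' _ _ ih ih' => exact ih.trans ih'

theorem sameW_mono {n m : ℕ} {X X' : WD n} (h : SameW (m + 1) X X') : SameW m X X' := by
  obtain ⟨η, η', h1, h2, h3, a, h4⟩ := h
  let π : Ga n (m + 1) →* Ga n m := QuotientGroup.map (gam (FreeGroup (Fin n)) (m + 1))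
    (gam (FreeGroup (Fin n)) m) (MonoidHom.id _) (gam_anti (Nat.le_succ m))
  have hπ : ∀ i, π (xg n (m + 1) i) = xg n m i := fun i => rfl
  have hlift : ∀ (A : Type) (ρ : A → Ga n (m + 1)) (u : FreeGroup A),
      FreeGroup.lift (fun a => π (ρ a)) u = π (FreeGroup.lift ρ u) := by
    intro A ρ u
    have e : FreeGroup.lift (fun a => π (ρ a)) = π.comp (FreeGroup.lift ρ) := by
      apply FreeGroup.ext_hom
      intro a
      rw [MonoidHom.comp_apply, FreeGroup.lift_apply_of, FreeGroup.lift_apply_of]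
    rw [e]
    rfl
  have hcol : ∀ (S : Sk n) (w : S.W) (ρ : S.Arc → Ga n (m + 1)),
      S.IsCol w (xg n (m + 1)) ρ → S.IsCol w (xg n m) (fun a => π (ρ a)) := by
    intro S w ρ h
    refine ⟨fun i => ?_, fun e => ?_⟩
    · change π (ρ (Sum.inl i)) = xg n m i
      rw [h.1 i, hπ]
    · change π (ρ (Sum.inr e)) = _
      rw [h.2 e, hlift, map_mul, map_mul, map_inv]
  refine ⟨fun a => π (η a), fun a => π (η' a), hcol _ _ _ h1, hcol _ _ _ h2, fun j => ?_, a, ?_⟩
  · obtain ⟨a, ha⟩ := h3 j
    refine ⟨a, fun u u' hu hu' => ?_⟩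
    rw [hlift, hlift, ha u u' hu hu', map_mul, map_zpow, hπ]
  · intro R _ t ht r ψ hψ
    exact h4 R t (by rw [pow_succ, ht, zero_mul]) r (ψ.comp π) hψ

end Pool.Agent.H61.Tu
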