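import Pool.Agent.H61.Tu.Low
import Pool.Agent.H61.Tu.ActOfEqv
import Pool.Agent.H61.Tu.ActExists
import Pool.Agent.H61.Tu.ActBData
import Pool.Agent.H61.Tu.AlgFinal
import Pool.Agent.H61.Tu.Extract
import Pool.Agent.H61.Tu.ExtractW
import Pool.Agent.H61.Tu.Mono
import Pool.Agent.H61.Tu.BaseZero

/-!
# The classification for word diagrams (architect)
-/

namespace Pool.Agent.H61.Tu

open Diagram Relation
open scoped commutatorElement

theorem main_W {n : ℕ} (m : ℕ) : ∀ X X' : WD n, SameW m X X' → Eqv m X X' := by
  induction m with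
  | zero => intro X X' _; exact eqv_zero X X'
  | succ m ih =>
    intro X X' h
    have h1 : Eqv m X X' := ih X X' (sameW_mono h)
    obtain ⟨A⟩ := exists_act n m
    obtain ⟨c, hc, hX'⟩ := act_of_eqv A h1
    have hins := act_insL A c hc (List.finRange n) X
    have hsum : ((List.finRange n).map fun j => A.b j (c j)).sum = ∑ j, A.b j (c j) := by
      rw [← List.ofFn_eq_map, List.sum_ofFn]
    rw [hsum, ← hX'] at hins
    have hE : Eqv (m + 1) (insL c (List.finRange n) X) X' := Quot.eqvGen_exact hins
    have hS : SameW (m + 1) X (insL c (List.finRange n) X) :=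
      sameW_trans h (sameW_symm (low hE))
    have htree := extract_tree c hc X hS
    obtain ⟨a, ha⟩ := extract_det c hc X hS
    have hz := alg_final (act_bdata A) c hc htree
      (fun hm R _ t ht r M ρ hρ => extract_wheel hm c hc a ha R t ht r M ρ hρ)
    rw [hz, A.act_zero] at hX'
    exact Quot.eqvGen_exact hX'.symm

end Pool.Agent.H61.Tu
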