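import Pool.Agent.H61.Tu.WD

/-!
# Expanded forms of the definitions (architect)
-/

namespace Pool.Agent.H61.Tu

open Diagram Relation

/-- expanded form of `PeripheralIso` -/
def Diagram.PeripheralIso0 {n : ℕ} (m : ℕ) (D D' : Diagram n) : Prop :=
  ∃ f : D.Pi ⧸ gam D.Pi m ≃* D'.Pi ⧸ gam D'.Pi m,
    (∀ i, f (QuotientGroup.mk (D.mer (Sum.inl i))) = QuotientGroup.mk (D'.mer (Sum.inl i))) ∧
    ∀ j, ∃ a : ℤ, ∀ L L', D.IsLongitude j L → D'.IsLongitude j L' →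
      f (QuotientGroup.mk (D.spell L)) =
        QuotientGroup.mk (D'.mer (Sum.inl j) ^ a * D'.spell L')

/-- expanded form of `SameAlexander` -/
def Diagram.SameAlexander0 {n : ℕ} (m : ℕ) (D D' : Diagram n) : Prop :=
  ∃ a : Fin n → ℤ, ∀ (R : Type) [CommRing R] (t : R), t ^ (m + 1) = 0 → ∀ (r : ℕ)
    (ψ : D.Pi →* (Module.End R (Fin r → R))ˣ) (ψ' : D'.Pi →* (Module.End R (Fin r → R))ˣ),
    (∀ i, ψ (D.mer (Sum.inl i)) = ψ' (D'.mer (Sum.inl i)) ∧
      ∃ M : Module.End R (Fin r → R), (ψ (D.mer (Sum.inl i)) : Module.End R (Fin r → R))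
        = 1 + t • M) →
    D'.alexander ψ' =
      ((∏ i, Units.map (LinearMap.det : Module.End R (Fin r → R) →* R)
        (ψ (D.mer (Sum.inl i))) ^ a i : Rˣ) : R) * D.alexander ψ

theorem peripheralIso_iff {n m : ℕ} (D D' : Diagram n) :
    D.PeripheralIso m D' ↔ D.PeripheralIso0 m D' := Iff.rfl

theorem sameAlexander_iff {n m : ℕ} (D D' : Diagram n) :
    D.SameAlexander m D' ↔ D.SameAlexander0 m D' := Iff.rfl

end Pool.Agent.H61.Tu
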