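import Pool.Agent.H61.Tu.HomFactor
import Pool.Agent.H61.Tu.SameEquiv
import Pool.Agent.H61.Tu.Old

/-!
# The invariants of diagrams and of word diagrams   [H61 TU SI]

Colourings `η`, `η'` of `D.toWD`, `D'.toWD` in `Ga n m` exist (`col_exists`) and are unique
(`col_unique`, `gam_Ga`); `θ`, `θ'` from `theta_exists`. `θ (mk (spell L)) = lift η (mk L)`
(`lift_mer` for `ψ = θ ∘ mk`).
* `peripheral_of_sameW`: `f = θ.trans θ'.symm`. Longitudes: `isLong_of_isLongitude`; `SameW` gives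
  `lift η' u' = xg j ^ a * lift η u`, so take `-a`: `lift η u = xg j ^ (-a) * lift η' u'`.
* `long_of_peripheral`: `θ' ∘ f ∘ θ⁻¹` is the identity of `Ga n m` (`Ga_hom_ext`), so
  `θ' (f x) = θ x`. For `u`, `u'` take lists (`exists_isLongitude`). Again the exponent `-a`.
* `alexander_of_sameW`: given `R t r ψ ψ'`: `hom_factor` gives `χ`, `χ'` with `χ ∘ η = ψ ∘ mer`,
  `χ' ∘ η' = ψ' ∘ mer`; `χ = χ'` by `Ga_hom_ext` (`η (inl i) = xg i = η' (inl i)`); `alexander_eq`.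
* `sameW_alex_of_alexander`: given `χ : Ga n m →* ..` take the homs `ψ`, `ψ'` with
  `ψ (mer a) = χ (η a)`, `ψ' (mer a) = χ (η' a)` (`χ ∘ θ ∘ mk`, or `hom_of_isCol` and `χ`).
-/

namespace Pool.Agent.H61.Tu

open Diagram Relation
open scoped commutatorElement

private theorem theta_spell {n m : ℕ} (D : Diagram n) {η : D.Arc → Ga n m}
    (θ : D.Pi ⧸ gam D.Pi m ≃* Ga n m) (hθ : ∀ a, θ (QuotientGroup.mk (D.mer a)) = η a)
    (L : List (D.Arc × Bool)) :
    θ (QuotientGroup.mk (D.spell L)) = FreeGroup.lift η (FreeGroup.mk L) := by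
  have h1 := lift_mer D (θ.toMonoidHom.comp (QuotientGroup.mk' (gam D.Pi m))) L
  have h2 : (fun a => (θ.toMonoidHom.comp (QuotientGroup.mk' (gam D.Pi m))) (D.mer a)) = η := by
    funext a
    exact hθ a
  rw [h2] at h1
  exact h1.symm

private theorem theta_hom {n m : ℕ} (D : Diagram n) {η : D.Arc → Ga n m}
    (θ : D.Pi ⧸ gam D.Pi m ≃* Ga n m) (hθ : ∀ a, θ (QuotientGroup.mk (D.mer a)) = η a)
    {H : Type*} [Group H] (χ : Ga n m →* H) :
    ∃ ψ : D.Pi →* H, ∀ a, ψ (D.mer a) = χ (η a) := by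
  refine ⟨χ.comp (θ.toMonoidHom.comp (QuotientGroup.mk' (gam D.Pi m))), ?_⟩
  intro a
  exact congrArg χ (hθ a)

theorem peripheral_of_sameW {n m : ℕ} {D D' : Diagram n} (h : SameW m D.toWD D'.toWD) :
    D.PeripheralIso0 m D' := by
  obtain ⟨η, η', hη, hη', hl, -⟩ := h
  obtain ⟨θ, hθ⟩ := theta_exists D η hη
  obtain ⟨θ', hθ'⟩ := theta_exists D' η' hη'
  refine ⟨θ.trans θ'.symm, ?_, ?_⟩
  · intro i
    rw [MulEquiv.trans_apply, MulEquiv.symm_apply_eq, hθ, hθ', hη.1, hη'.1]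
  · intro j
    obtain ⟨a, ha⟩ := hl j
    refine ⟨-a, ?_⟩
    intro L L' hL hL'
    have h1 := ha _ _ (isLong_of_isLongitude hL) (isLong_of_isLongitude hL')
    have h2 : θ' (QuotientGroup.mk (D'.mer (Sum.inl j) ^ (-a) * D'.spell L')) =
        xg n m j ^ (-a) * FreeGroup.lift η' (FreeGroup.mk L') := by
      rw [← theta_spell D' θ' hθ' L', ← hη'.1 j, ← hθ' (Sum.inl j), ← map_zpow, ← map_mul]
      rfl
    rw [MulEquiv.trans_apply, MulEquiv.symm_apply_eq, h2, theta_spell D θ hθ L]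
    rw [h1, ← mul_assoc, ← zpow_add, neg_add_cancel, zpow_zero, one_mul]

theorem alexander_of_sameW {n m : ℕ} {D D' : Diagram n} (h : SameW m D.toWD D'.toWD) :
    D.SameAlexander0 m D' := by
  obtain ⟨η, η', hη, hη', -, a, ha⟩ := h
  refine ⟨a, ?_⟩
  intro R _ t ht r ψ ψ' hψ
  obtain ⟨χ, hχ⟩ := hom_factor D η hη t ht ψ fun i => (hψ i).2
  obtain ⟨χ', hχ'⟩ := hom_factor D' η' hη' t ht ψ' fun i => by
    rw [← (hψ i).1]
    exact (hψ i).2
  have h1 : ∀ i, χ (xg n m i) = ψ (D.mer (Sum.inl i)) := by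
    intro i
    rw [← hχ, hη.1]
  have h1' : ∀ i, χ' (xg n m i) = ψ' (D'.mer (Sum.inl i)) := by
    intro i
    rw [← hχ', hη'.1]
  have he : χ' = χ := by
    apply Ga_hom_ext
    intro i
    rw [h1', h1, (hψ i).1]
  subst he
  have h2 := ha R t ht r χ' fun i => by
    rw [h1]
    exact (hψ i).2
  have e1 : (fun b => χ' (η b)) = fun b => ψ (D.mer b) := funext hχ
  have e2 : (fun b => χ' (η' b)) = fun b => ψ' (D'.mer b) := funext hχ'
  rw [e1, e2] at h2
  rw [alexander_eq, alexander_eq]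
  refine h2.trans ?_
  have e3 : ∀ i ∈ (Finset.univ : Finset (Fin n)),
      detU R (Fin r → R) (χ' (xg n m i)) ^ a i =
      Units.map (LinearMap.det : Module.End R (Fin r → R) →* R)
        (ψ (D.mer (Sum.inl i))) ^ a i := by
    intro i _
    rw [h1]
    rfl
  rw [Finset.prod_congr rfl e3]

theorem sameW_of_same {n m : ℕ} {D D' : Diagram n} (h : D.PeripheralIso0 m D')
    (h' : D.SameAlexander0 m D') : SameW m D.toWD D'.toWD := by
  obtain ⟨η, hη⟩ := col_exists D.sk D.fw (gam_Ga n m) (xg n m)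
  obtain ⟨η', hη'⟩ := col_exists D'.sk D'.fw (gam_Ga n m) (xg n m)
  obtain ⟨θ, hθ⟩ := theta_exists D η hη
  obtain ⟨θ', hθ'⟩ := theta_exists D' η' hη'
  obtain ⟨f, hf1, hf2⟩ := h
  obtain ⟨a, ha⟩ := h'
  have hid : (θ'.toMonoidHom.comp (f.toMonoidHom.comp θ.symm.toMonoidHom)) =
      MonoidHom.id (Ga n m) := by
    apply Ga_hom_ext
    intro i
    have e1 : θ.symm (xg n m i) = QuotientGroup.mk (D.mer (Sum.inl i)) := by
      rw [MulEquiv.symm_apply_eq, hθ, hη.1]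
    change θ' (f (θ.symm (xg n m i))) = xg n m i
    rw [e1, hf1, hθ', hη'.1]
  have hid' : ∀ x, θ' (f x) = θ x := by
    intro x
    have e1 := DFunLike.congr_fun hid (θ x)
    change θ' (f (θ.symm (θ x))) = θ x at e1
    rwa [MulEquiv.symm_apply_apply] at e1
  refine ⟨η, η', hη, hη', ?_, a, ?_⟩
  · intro j
    obtain ⟨b, hb⟩ := hf2 j
    refine ⟨-b, ?_⟩
    intro u u' hu hu'
    obtain ⟨L, hL, rfl⟩ := exists_isLongitude hu
    obtain ⟨L', hL', rfl⟩ := exists_isLongitude hu'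
    have h1 := congrArg θ' (hb L L' hL hL')
    have h2 : θ' (QuotientGroup.mk (D'.mer (Sum.inl j) ^ b * D'.spell L')) =
        xg n m j ^ b * FreeGroup.lift η' (FreeGroup.mk L') := by
      rw [← theta_spell D' θ' hθ' L', ← hη'.1 j, ← hθ' (Sum.inl j), ← map_zpow, ← map_mul]
      rfl
    rw [hid', theta_spell D θ hθ L, h2] at h1
    rw [h1, ← mul_assoc, ← zpow_add, neg_add_cancel, zpow_zero, one_mul]
  · intro R _ t ht r χ hχ
    obtain ⟨ψ, hψ⟩ := theta_hom D θ hθ χ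
    obtain ⟨ψ', hψ'⟩ := theta_hom D' θ' hθ' χ
    have h1 : ∀ i, ψ (D.mer (Sum.inl i)) = χ (xg n m i) := by
      intro i
      rw [hψ, hη.1]
    have h1' : ∀ i, ψ' (D'.mer (Sum.inl i)) = χ (xg n m i) := by
      intro i
      rw [hψ', hη'.1]
    have h2 := ha R t ht r ψ ψ' fun i => ⟨by rw [h1, h1'], by rw [h1]; exact hχ i⟩
    rw [alexander_eq, alexander_eq] at h2
    have e1 : (fun b => χ (η b)) = fun b => ψ (D.mer b) := funext fun b => (hψ b).symm
    have e2 : (fun b => χ (η' b)) = fun b => ψ' (D'.mer b) := funext fun b => (hψ' b).symm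
    rw [e1, e2]
    refine h2.trans ?_
    have e3 : ∀ i ∈ (Finset.univ : Finset (Fin n)),
        Units.map (LinearMap.det : Module.End R (Fin r → R) →* R)
          (ψ (D.mer (Sum.inl i))) ^ a i =
        detU R (Fin r → R) (χ (xg n m i)) ^ a i := by
      intro i _
      rw [h1]
      rfl
    rw [Finset.prod_congr rfl e3]

end Pool.Agent.H61.Tu
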