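import Pool.Agent.H61.Tu.ListWords

/-!
# A run may be replaced by its Wirtinger relation   [H61 TU SL]

Induction on the length of `D.word f`, for all diagrams.
* `word f = []`: the move `pass` (`FreeGroup.invRev [] = []`).
* `word f = (c, d) :: K`: let `D₁ = D.mark (D.src f)`: the new run `none` has the empty word and
  `src none = Sum.map id some (D.src f)`, and `src (some f) = inr none` (`markSrc`). The words of
  the old runs are the old ones with the letters renamed by `ι = Sum.map id some`; write `L'` for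
  `L.map (Prod.map ι id)`. No letter of `D₁` is `inr none`.
  1. `D ~ D₁` (`mark`).
  2. `D₁ ~ D₂`: `shift` with `e := none`, `f := some f`: `word none = [(ι c, d)]`,
     `word (some f) = K'`.
  3. Induction hypothesis for `D₂` and the runs `some e`, `some f`: the letter
     `(inr (some f), b)` in `word (some e) = L₁' ++ (inr (some f), b) :: L₂'` is replaced by
     `invRev K' ++ (inr none, b) :: K'`.
  4. `r2` backwards: put `(ι c, !d) :: (ι c, d)` in front of `(inr none, b)`; then `r3` backwards
     (run `none`, `word none = [(ι c, d)]`): `(ι c, d) :: (inr none, b)` is replaced by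
     `(src none, b) :: (ι c, d)`. Now the word of `some e` is
     `L₁' ++ invRev K' ++ (ι c, !d) :: (src none, b) :: (ι c, d) :: K' ++ L₂'`, which is
     `(L₁ ++ (invRev ((c, d) :: K) ++ (D.src f, b) :: (c, d) :: K) ++ L₂)'`.
  5. `shift` backwards: `word none = []`, `word (some f) = (ι c, d) :: K'`. The result is
     `(D.setWord e (..)).mark (D.src f)`, so `mark` backwards.
  To compare diagrams: same `E`, `src`; compare `word` run by run (`funext`, cases `none`,
  `some g`, `g = e`, `g = f`; `setWord_word_same`, `setWord_word_ne`).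
-/

namespace Pool.Agent.H61.Tu

open Diagram Relation
open scoped commutatorElement

/-- the claim for runs of length `k` -/
private def SlideK (n m k : ℕ) : Prop := ∀ (S : Sk n) (L : S.E → List (S.Arc × Bool))
    (e f : S.E) (_ : f ≠ e) (b : Bool) (L₁ L₂ : List (S.Arc × Bool)), (L f).length = k →
    L e = L₁ ++ (Sum.inr f, b) :: L₂ →
    WEquiv m (S.dg L) (S.dg (S.updL L e
      (L₁ ++ (FreeGroup.invRev (L f) ++ (S.src f, b) :: L f) ++ L₂)))

private theorem mem_invRev {A : Type} {P : A → Prop} {K : List (A × Bool)}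
    (h : ∀ y ∈ K, P y.1) : ∀ y ∈ FreeGroup.invRev K, P y.1 := by
  intro z hz
  unfold FreeGroup.invRev at hz
  rw [List.mem_reverse, List.mem_map] at hz
  obtain ⟨y, hy, rfl⟩ := hz
  exact h y hy

private theorem slide_step {n m k : ℕ} (ih : SlideK n m k) (S : Sk n)
    (W : S.E → List (S.Arc × Bool)) (o e f : S.E) (hoe : o ≠ e) (hof : o ≠ f) (hfe : f ≠ e)
    (hsf : S.src f = Sum.inr o) (x : S.Arc × Bool) (K A B : List (S.Arc × Bool)) (b : Bool)
    (hWo : W o = []) (hWf : W f = x :: K) (hWe : W e = A ++ (Sum.inr f, b) :: B)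
    (hno : ∀ g, ∀ y ∈ W g, y.1 ≠ Sum.inr o) (hk : K.length = k) :
    WEquiv m (S.dg W) (S.dg (S.updL W e
      (A ++ (FreeGroup.invRev (x :: K) ++ (S.src o, b) :: x :: K) ++ B))) := by
  have h2 : WEquiv m (S.dg W) (S.dg (S.updL (S.updL W o [x]) f K)) := by
    have := WEquiv.of_move (m := m) (Move.shift (S.dg W) o f x K hsf hno hWf)
    change WEquiv m _ (S.dg (S.updL (S.updL W o (W o ++ [x])) f K)) at this
    rw [hWo, List.nil_append] at this
    exact this
  obtain ⟨W₂, hW₂⟩ : ∃ W₂, W₂ = S.updL (S.updL W o [x]) f K := ⟨_, rfl⟩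
  rw [← hW₂] at h2
  have hW2f : W₂ f = K := by rw [hW₂, S.updL_same]
  have hW2e : W₂ e = A ++ (Sum.inr f, b) :: B := by
    rw [← hWe, hW₂, S.updL_ne _ hfe.symm, S.updL_ne _ hoe.symm]
  have hW2o : W₂ o = [x] := by
    rw [hW₂, S.updL_ne _ hof, S.updL_same]
  have h3 := ih S W₂ e f hfe b A B (by rw [hW2f, hk]) hW2e
  rw [hW2f, hsf] at h3
  have h4 : WEquiv m (S.dg (S.updL W₂ e
      ((A ++ FreeGroup.invRev K) ++ (x.1, !x.2) :: (x.1, x.2) :: ((Sum.inr o, b) :: (K ++ B)))))
      (S.dg (S.updL W₂ e ((A ++ FreeGroup.invRev K) ++ ((Sum.inr o, b) :: (K ++ B))))) :=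
    wEquiv_red (S.dg W₂) e _ _ FreeGroup.Red.Step.not_rev
  have h5 : WEquiv m (S.dg (S.updL W₂ e
      ((A ++ FreeGroup.invRev K ++ [(x.1, !x.2)]) ++ (S.src o, b) :: (x.1, x.2) :: (K ++ B))))
      (S.dg (S.updL W₂ e
      ((A ++ FreeGroup.invRev K ++ [(x.1, !x.2)]) ++ (x.1, x.2) :: (Sum.inr o, b) ::
        (K ++ B)))) := by
    have h := Move.r3 (S.dg (S.updL W₂ e
      ((A ++ FreeGroup.invRev K ++ [(x.1, !x.2)]) ++ (S.src o, b) :: (x.1, x.2) :: (K ++ B))))
      e o hoe x.1 b x.2 (A ++ FreeGroup.invRev K ++ [(x.1, !x.2)]) (K ++ B)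
        (by
          change S.updL W₂ e _ o = _
          rw [S.updL_ne _ hoe, hW2o]) (S.updL_same _ _ _)
    have h' := WEquiv.of_move (m := m) h
    change WEquiv m _ (S.dg (S.updL (S.updL W₂ e _) e _)) at h'
    rw [S.updL_updL] at h'
    exact h'
  have hF : A ++ (FreeGroup.invRev (x :: K) ++ (S.src o, b) :: x :: K) ++ B =
      (A ++ FreeGroup.invRev K ++ [(x.1, !x.2)]) ++ (S.src o, b) :: (x.1, x.2) :: (K ++ B) := by
    simp [FreeGroup.invRev]
  obtain ⟨F, hFd⟩ : ∃ F, F = A ++ (FreeGroup.invRev (x :: K) ++ (S.src o, b) :: x :: K) ++ B :=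
    ⟨_, rfl⟩
  have hnoK : ∀ y ∈ x :: K, y.1 ≠ Sum.inr o := by
    rw [← hWf]
    exact hno f
  have hnoE : ∀ y ∈ A ++ (Sum.inr f, b) :: B, y.1 ≠ Sum.inr o := by
    rw [← hWe]
    exact hno e
  have hnoF : ∀ y ∈ F, y.1 ≠ Sum.inr o := by
    intro y hy
    rw [hFd] at hy
    rcases List.mem_append.1 hy with hy | hy
    · rcases List.mem_append.1 hy with hy | hy
      · exact hnoE y (List.mem_append_left _ hy)
      · rcases List.mem_append.1 hy with hy | hy
        · exact mem_invRev (P := fun z => z ≠ Sum.inr o) hnoK y hy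
        · rcases List.mem_cons.1 hy with hy | hy
          · rw [hy]
            exact S.src_ne o
          · exact hnoK y hy
    · exact hnoE y (List.mem_append_right _ (List.mem_cons_of_mem _ hy))
  have h6 : WEquiv m (S.dg (S.updL W e F)) (S.dg (S.updL W₂ e F)) := by
    have hwf : S.updL W e F f = x :: K := by
      rw [S.updL_ne _ hfe, hWf]
    have hwo : S.updL W e F o = [] := by
      rw [S.updL_ne _ hoe, hWo]
    have hno' : ∀ g, ∀ y ∈ S.updL W e F g, y.1 ≠ Sum.inr o := by
      intro g
      by_cases hg : g = e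
      · rw [hg, S.updL_same]
        exact hnoF
      · rw [S.updL_ne _ hg]
        exact hno g
    have h' := WEquiv.of_move (m := m) (Move.shift (S.dg (S.updL W e F)) o f x K hsf hno' hwf)
    change WEquiv m _ (S.dg (S.updL (S.updL (S.updL W e F) o (S.updL W e F o ++ [x])) f K)) at h'
    rw [hwo, List.nil_append, S.updL_comm W hoe.symm, S.updL_comm _ hfe.symm, ← hW₂] at h'
    exact h'
  rw [← hFd]
  refine h2.trans (h3.trans ?_)
  refine WEquiv.trans ?_ h6.symm
  rw [hFd, hF]
  refine WEquiv.trans ?_ h5.symm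
  have e1 : A ++ (FreeGroup.invRev K ++ (Sum.inr o, b) :: K) ++ B =
      (A ++ FreeGroup.invRev K) ++ ((Sum.inr o, b) :: (K ++ B)) := by simp
  have e2 : (A ++ FreeGroup.invRev K ++ [(x.1, !x.2)]) ++ (x.1, x.2) ::
        (Sum.inr o, b) :: (K ++ B) =
      (A ++ FreeGroup.invRev K) ++ (x.1, !x.2) :: (x.1, x.2) ::
        ((Sum.inr o, b) :: (K ++ B)) := by simp
  rw [e2]
  refine WEquiv.trans ?_ h4.symm
  rw [e1]
  exact WEquiv.refl _

/-- renaming of the letters of a list after the insertion of a run -/
private def ren {n : ℕ} (D : Diagram n) (a : D.Arc) (L : List (D.Arc × Bool)) :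
    List ((D.mark a).Arc × Bool) :=
  L.map (Prod.map (Sum.map id some) id)

private theorem ren_append {n : ℕ} (D : Diagram n) (a : D.Arc) (L L' : List (D.Arc × Bool)) :
    ren D a (L ++ L') = ren D a L ++ ren D a L' := List.map_append

private theorem ren_cons {n : ℕ} (D : Diagram n) (a : D.Arc) (x : D.Arc × Bool)
    (L : List (D.Arc × Bool)) :
    ren D a (x :: L) = ((Sum.map id some x.1, x.2) : (D.mark a).Arc × Bool) :: ren D a L := rfl

private theorem ren_invRev {n : ℕ} (D : Diagram n) (a : D.Arc) (L : List (D.Arc × Bool)) :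
    ren D a (FreeGroup.invRev L) = FreeGroup.invRev (ren D a L) := by
  unfold FreeGroup.invRev ren
  rw [List.map_reverse, List.map_map, List.map_map]
  rfl

private theorem ren_ne {n : ℕ} (D : Diagram n) (a : D.Arc) (L : List (D.Arc × Bool)) :
    ∀ y ∈ ren D a L, y.1 ≠ (Sum.inr (none : Option D.E) : (D.mark a).Arc) := by
  intro y hy
  unfold ren at hy
  rw [List.mem_map] at hy
  obtain ⟨x, _, rfl⟩ := hy
  obtain ⟨x, b⟩ := x
  intro h
  rcases x with i | e
  · exact absurd h (by intro h; cases h)
  · exact absurd h (by intro h; cases h)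

private theorem slide_all {n m : ℕ} (k : ℕ) : SlideK n m k := by
  induction k with
  | zero =>
    intro S L e f hfe b L₁ L₂ hk he
    have hf : L f = [] := List.length_eq_zero_iff.1 hk
    have h := Move.pass (S.dg L) e f b L₁ L₂ hf he
    rw [hf]
    have h2 : L₁ ++ (FreeGroup.invRev ([] : List (S.Arc × Bool)) ++ [(S.src f, b)]) ++ L₂ =
        L₁ ++ (S.src f, b) :: L₂ := by simp
    rw [h2]
    exact WEquiv.of_move h
  | succ k ih =>
    intro S L e f hfe b L₁ L₂ hk he
    obtain ⟨x, K, hf⟩ : ∃ x K, L f = x :: K := by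
      rcases hL : L f with _ | ⟨x, K⟩
      · rw [hL] at hk
        simp at hk
      · exact ⟨x, K, rfl⟩
    let D : Diagram n := S.dg L
    let a : D.Arc := S.src f
    let F : List (S.Arc × Bool) := L₁ ++ (FreeGroup.invRev (L f) ++ (S.src f, b) :: L f) ++ L₂
    let D' : Diagram n := S.dg (S.updL L e F)
    let S' : Sk n := (D.mark a).sk
    let W : S'.E → List (S'.Arc × Bool) := (D.mark a).word
    let o : S'.E := (none : Option D.E)
    let e' : S'.E := (some e : Option D.E)
    let f' : S'.E := (some f : Option D.E)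
    have hoe : o ≠ e' := fun h => Option.some_ne_none e h.symm
    have hof : o ≠ f' := fun h => Option.some_ne_none f h.symm
    have hfe' : f' ≠ e' := fun h => hfe (Option.some_injective _ h)
    have hsf : S'.src f' = Sum.inr o := by
      change markSrc S.src (S.src f) (some f) = Sum.inr none
      simp only [markSrc, if_true]
    have hWe : W e' = ren D a L₁ ++ (Sum.inr f', b) :: ren D a L₂ := by
      change ren D a (L e) = _
      rw [he]
      exact ren_append D a L₁ _
    have hWf : W f' = ((Sum.map id some x.1, x.2) : (D.mark a).Arc × Bool) :: ren D a K := by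
      change ren D a (L f) = _
      rw [hf]
      rfl
    have hno : ∀ g, ∀ y ∈ W g, y.1 ≠ Sum.inr o := by
      intro g
      rcases g with _ | g
      · intro y hy
        exact absurd hy List.not_mem_nil
      · exact ren_ne D a (L g)
    have hkK : (ren D a K).length = k := by
      have : (ren D a K).length = K.length := List.length_map _
      rw [this]
      rw [hf, List.length_cons] at hk
      omega
    have h1 : WEquiv m (S.dg L) (S'.dg W) := WEquiv.of_move (Move.mark D a)
    have h2 := slide_step ih S' W o e' f' hoe hof hfe' hsf _ _ _ _ b rfl hWf hWe hno hkK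
    have h3 : WEquiv m (S.dg (S.updL L e F)) (D'.mark a) := WEquiv.of_move (Move.mark D' a)
    refine h1.trans (h2.trans ?_)
    refine WEquiv.trans ?_ h3.symm
    have hF : ren D a F = ren D a L₁ ++ (FreeGroup.invRev (((Sum.map id some x.1, x.2) :
        (D.mark a).Arc × Bool) :: ren D a K) ++ (S'.src o, b) :: ((Sum.map id some x.1, x.2) :
        (D.mark a).Arc × Bool) :: ren D a K) ++ ren D a L₂ := by
      change ren D a (L₁ ++ (FreeGroup.invRev (L f) ++ (S.src f, b) :: L f) ++ L₂) = _
      rw [hf]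
      have := ren_append D a (L₁ ++ (FreeGroup.invRev (x :: K) ++ (S.src f, b) :: x :: K)) L₂
      rw [this, ren_append D a L₁ _, ren_append D a (FreeGroup.invRev (x :: K)) _, ren_invRev]
      rfl
    rw [← hF]
    have hW : (D'.mark a).word = S'.updL W e' (ren D a F) := by
      funext g
      rcases g with _ | g
      · exact (S'.updL_ne W hoe (ren D a F)).symm
      · by_cases hg : g = e
        · rw [hg]
          have h4 := S'.updL_same W e' (ren D a F)
          refine Eq.trans ?_ h4.symm
          change ren D a (S.updL L e F e) = _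
          rw [S.updL_same]
        · have hg' : ((some g : Option D.E) : S'.E) ≠ e' := fun h => hg (Option.some_injective _ h)
          have h4 := S'.updL_ne W hg' (ren D a F)
          refine Eq.trans ?_ h4.symm
          change ren D a (S.updL L e F g) = ren D a (L g)
          rw [S.updL_ne _ hg]
    rw [← hW]
    exact WEquiv.refl _

theorem wEquiv_slide {n m : ℕ} (D : Diagram n) (e f : D.E) (hef : f ≠ e) (b : Bool)
    (L₁ L₂ : List (D.Arc × Bool)) (he : D.word e = L₁ ++ (Sum.inr f, b) :: L₂) :
    WEquiv m D (D.setWord e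
      (L₁ ++ (FreeGroup.invRev (D.word f) ++ (D.src f, b) :: D.word f) ++ L₂)) :=
  slide_all _ D.sk D.word e f hef b L₁ L₂ rfl he

end Pool.Agent.H61.Tu
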