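import Pool.Agent.H61.Tu.TransList
import Pool.Agent.H61.Tu.SlideList

/-!
# Moves of word diagrams are moves of diagrams   [H61 TU S2M]

`X.toDg = X.S.dg (fun e => lst (X.w e))`, `mk_lst`. By `wEquiv_words` the lists may be replaced by
any others that spell the same elements.
* `wEquiv_toDg`: `wEquiv_words` for `D = D.sk.dg D.word` (by `rfl`).
* `rename`: move `rename` from `S.dg (lst ∘ w)` to `S'.dg (fun e' => (lst (w (φ.symm e'))).map ..)`,
  then `wEquiv_words` (`mk_map`).
* `mark`: the same with the move `mark` (`lst 1` and `[]` both spell `1`).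
* `transfer`: choose lists without the letter `inr e` for all words (`exists_lst_unused`) and for
  `u`; replace the list of `f` by `U ++ (invRev U ++ L f)`; `wEquiv_shift`.
* `kinkL`: the new list may be taken `(src e, true) :: L`; move `r1_left` backwards. `kinkR` too.
* `slide`: `g⁻¹ * rel f * g`: take for `e` the list
  `L e ++ invRev G ++ (inr f, false) :: (inr f, true) :: G` (`G` spells `g`), which spells `w e`;
  `wEquiv_slide` for the letter `(inr f, true)` gives a list that spells `w e * g⁻¹ * (inr f)⁻¹ *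
  (w f)⁻¹ * src f * w f * g = w e * (g⁻¹ * rel f * g)`.
* `comm`: surgery with `L₁ = lst (w e)`, `B = lst c`, `L₂ = []`.
-/

namespace Pool.Agent.H61.Tu

open Diagram Relation
open scoped commutatorElement

theorem wEquiv_toDg {n m : ℕ} (D : Diagram n) : WEquiv m D D.toWD.toDg := by
  have h := wEquiv_words (m := m) D.sk D.word (fun e => lst (D.fw e)) (fun e => by
    rw [mk_lst]
    rfl)
  exact h

theorem s2m_toWD_toDg {n : ℕ} (X : WD n) : X.toDg.toWD = X := by
  have h : (fun e => FreeGroup.mk (lst (X.w e))) = X.w := by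
    funext e
    exact mk_lst _
  change (⟨X.S, fun e => FreeGroup.mk (lst (X.w e))⟩ : WD n) = X
  rw [h]

theorem s2m_lists {n m : ℕ} (S : Sk n) (w : S.W) (L : S.E → List (S.Arc × Bool))
    (h : ∀ e, FreeGroup.mk (L e) = w e) : WEquiv m (WD.toDg ⟨S, w⟩) (S.dg L) :=
  wEquiv_words S (fun e => lst (w e)) L (fun e => by rw [mk_lst, h])

theorem s2m_setWord {n m : ℕ} (S : Sk n) (w : S.W) (e : S.E) (L : List (S.Arc × Bool)) :
    WEquiv m ((WD.toDg ⟨S, w⟩).setWord e L) (WD.toDg ⟨S, S.upd w e (FreeGroup.mk L)⟩) := by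
  refine (s2m_lists S (S.upd w e (FreeGroup.mk L))
    (((WD.toDg ⟨S, w⟩ : Diagram n).setWord e L).word) ?_).symm
  intro g
  by_cases h : g = e
  · subst h
    have h1 := setWord_word_same (WD.toDg ⟨S, w⟩) g L
    rw [Sk.upd_same]
    exact congrArg FreeGroup.mk h1
  · rw [Sk.upd_ne S w h]
    have h1 := setWord_word_ne (WD.toDg ⟨S, w⟩) (e := e) (f := g) h L
    refine (congrArg FreeGroup.mk h1).trans ?_
    exact mk_lst (w g)

theorem s2m_mk_cons {A : Type} (a : A) (L : List (A × Bool)) :
    FreeGroup.mk ((a, true) :: L) = FreeGroup.of a * FreeGroup.mk L := rfl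

theorem s2m_mk_cons' {A : Type} (a : A) (L : List (A × Bool)) :
    FreeGroup.mk ((a, false) :: L) = (FreeGroup.of a)⁻¹ * FreeGroup.mk L := rfl

theorem s2m_invRev_mem {A : Type} {L : List (A × Bool)} {a : A}
    (h : ∀ y ∈ L, y.1 ≠ a) : ∀ y ∈ FreeGroup.invRev L, y.1 ≠ a := by
  intro y hy
  unfold FreeGroup.invRev at hy
  rw [List.mem_reverse, List.mem_map] at hy
  obtain ⟨z, hz, rfl⟩ := hy
  exact h z hz

theorem s2m_kinkL {n m : ℕ} (D : Diagram n) (e : D.E) :
    WEquiv m D (D.setWord e ((D.src e, true) :: D.word e)) := by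
  have hm : Move (D.setWord e ((D.src e, true) :: D.word e))
      ((D.setWord e ((D.src e, true) :: D.word e)).setWord e (D.word e)) :=
    Move.r1_left (D.setWord e ((D.src e, true) :: D.word e)) e true (D.word e)
      (setWord_word_same D e _)
  rw [setWord_setWord, setWord_self] at hm
  exact (WEquiv.of_move hm).symm

theorem s2m_kinkR {n m : ℕ} (D : Diagram n) (e : D.E) :
    WEquiv m D (D.setWord e (D.word e ++ [(Sum.inr e, true)])) := by
  have hm : Move (D.setWord e (D.word e ++ [(Sum.inr e, true)]))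
      ((D.setWord e (D.word e ++ [(Sum.inr e, true)])).setWord e (D.word e)) :=
    Move.r1_right (D.setWord e (D.word e ++ [(Sum.inr e, true)])) e true (D.word e)
      (setWord_word_same D e _)
  rw [setWord_setWord, setWord_self] at hm
  exact (WEquiv.of_move hm).symm

theorem s2m_slide {n m : ℕ} (D : Diagram n) (e f : D.E) (hfe : f ≠ e)
    (G : List (D.Arc × Bool)) :
    WEquiv m D (D.setWord e (D.word e ++ FreeGroup.invRev G ++ [(Sum.inr f, false)] ++
      (FreeGroup.invRev (D.word f) ++ (D.src f, true) :: D.word f) ++ G)) := by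
  have h1 : WEquiv m D (D.setWord e ((D.word e ++ FreeGroup.invRev G ++ [(Sum.inr f, false)]) ++
      (Sum.inr f, true) :: G)) := by
    refine wEquiv_setWord D e _ ?_
    rw [← FreeGroup.mul_mk, ← FreeGroup.mul_mk, ← FreeGroup.mul_mk, s2m_mk_cons,
      ← FreeGroup.inv_mk, s2m_mk_cons']
    have h0 : (FreeGroup.mk [] : FreeGroup D.Arc) = 1 := rfl
    rw [h0]
    group
  have h2 := wEquiv_slide (m := m) (D.setWord e ((D.word e ++ FreeGroup.invRev G ++
      [(Sum.inr f, false)]) ++ (Sum.inr f, true) :: G)) e f hfe true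
    (D.word e ++ FreeGroup.invRev G ++ [(Sum.inr f, false)]) G (setWord_word_same D e _)
  have key : ∀ W : List (D.Arc × Bool), W = D.word f →
      WEquiv m (D.setWord e ((D.word e ++ FreeGroup.invRev G ++ [(Sum.inr f, false)]) ++
        (Sum.inr f, true) :: G)) (D.setWord e (D.word e ++ FreeGroup.invRev G ++
          [(Sum.inr f, false)] ++ (FreeGroup.invRev W ++ (D.src f, true) :: W) ++ G)) →
      WEquiv m D (D.setWord e (D.word e ++ FreeGroup.invRev G ++ [(Sum.inr f, false)] ++
        (FreeGroup.invRev (D.word f) ++ (D.src f, true) :: D.word f) ++ G)) := by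
    intro W hW h
    subst hW
    exact h1.trans h
  exact key _ (setWord_word_ne D hfe _) (Eq.mp (congrArg
    (fun Z => WEquiv m (D.setWord e ((D.word e ++ FreeGroup.invRev G ++ [(Sum.inr f, false)]) ++
        (Sum.inr f, true) :: G)) Z) (setWord_setWord D e _ _)) h2)

theorem s2m_comm {n m : ℕ} (D : Diagram n) (e : D.E) (B : List (D.Arc × Bool))
    (hB : FreeGroup.mk B ∈ gam (FreeGroup D.Arc) m) :
    WEquiv m D (D.setWord e (D.word e ++ B)) := by
  refine WEquiv.of_surgery ⟨e, D.word e, B, [], ?_, hB, ?_⟩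
  · rw [List.append_nil]
  · rw [List.append_nil]

theorem wEquiv_of_step {n m : ℕ} {X X' : WD n} (h : WStep m X X') :
    WEquiv m X.toDg X'.toDg := by
  cases h with
  | rename S S' φ h w =>
    set L' : S'.E → List (S'.Arc × Bool) :=
      fun e' => (lst (w (φ.symm e'))).map (Prod.map (Sum.map id φ) id) with hL'
    have hmove : Move (S.dg fun e => lst (w e)) (S'.dg L') := by
      refine Move.rename (S.dg fun e => lst (w e)) (S'.dg L') φ h ?_
      intro e
      show L' (φ e) = _
      rw [hL']
      simp only [Equiv.symm_apply_apply]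
    have h1 : WEquiv m (WD.toDg ⟨S, w⟩) (S'.dg L') := WEquiv.of_move hmove
    refine h1.trans (s2m_lists S' (Sk.renW φ w) L' ?_).symm
    intro e'
    rw [hL']
    simp only
    rw [mk_map, mk_lst]
    rfl
  | mark S w a =>
    have h1 : WEquiv m (WD.toDg ⟨S, w⟩) ((WD.toDg ⟨S, w⟩).mark a) :=
      WEquiv.of_move (Move.mark (WD.toDg ⟨S, w⟩) a)
    refine h1.trans (s2m_lists (S.mark a) (S.markW a w)
      (((WD.toDg ⟨S, w⟩ : Diagram n).mark a).word) ?_).symm
    intro o
    rcases o with _ | e
    · rfl
    · have h2 := mk_map (Sum.map id some : S.Arc → Fin n ⊕ Option S.E) (lst (w e))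
      rw [mk_lst] at h2
      exact h2
  | transfer S w e f u hef hw hu =>
    classical
    have hfe : f ≠ e := S.ne_of_src hef
    choose L hL1 hL2 using fun g => exists_lst_unused S (Sum.inr e) (w g) (hw g)
    obtain ⟨U, hU1, hU2⟩ := exists_lst_unused S (Sum.inr e) u hu
    set K : List (S.Arc × Bool) := FreeGroup.invRev U ++ L f with hK
    have hmkK : FreeGroup.mk K = u⁻¹ * w f := by
      rw [hK, ← FreeGroup.mul_mk, ← FreeGroup.inv_mk, hU1, hL1]
    have hK2 : ∀ y ∈ K, y.1 ≠ Sum.inr e := by
      intro y hy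
      rw [hK, List.mem_append] at hy
      rcases hy with hy | hy
      · exact s2m_invRev_mem hU2 y hy
      · exact hL2 f y hy
    set L2 : S.E → List (S.Arc × Bool) := Function.update L f (U ++ K) with hL2d
    have hL2f : L2 f = U ++ K := by rw [hL2d, Function.update_self]
    have hL2g : ∀ g, g ≠ f → L2 g = L g := by
      intro g hg
      rw [hL2d, Function.update_of_ne hg]
    have hmk2 : ∀ g, FreeGroup.mk (L2 g) = w g := by
      intro g
      by_cases hg : g = f
      · rw [hg, hL2f, ← FreeGroup.mul_mk, hU1, hmkK, mul_inv_cancel_left]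
      · rw [hL2g g hg, hL1]
    have hno : ∀ g, ∀ y ∈ L2 g, y.1 ≠ Sum.inr e := by
      intro g y hy
      by_cases hg : g = f
      · rw [hg, hL2f, List.mem_append] at hy
        rcases hy with hy | hy
        · exact hU2 y hy
        · exact hK2 y hy
      · rw [hL2g g hg] at hy
        exact hL2 g y hy
    have h1 := s2m_lists (m := m) S w L2 hmk2
    have h2 := wEquiv_shift (m := m) (S.dg L2) e f U K hef hno hL2f
    refine (h1.trans h2).trans (s2m_lists S _
      ((((S.dg L2 : Diagram n).setWord e ((S.dg L2 : Diagram n).word e ++ U)).setWord f K).word)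
      ?_).symm
    intro g
    by_cases hg : g = f
    · subst hg
      have h3 := setWord_word_same
        ((S.dg L2 : Diagram n).setWord e ((S.dg L2 : Diagram n).word e ++ U)) g K
      rw [Sk.upd_same]
      exact (congrArg FreeGroup.mk h3).trans hmkK
    · rw [Sk.upd_ne S _ hg]
      have h3 := setWord_word_ne
        ((S.dg L2 : Diagram n).setWord e ((S.dg L2 : Diagram n).word e ++ U)) (e := f) (f := g) hg K
      refine (congrArg FreeGroup.mk h3).trans ?_
      by_cases hge : g = e
      · subst hge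
        have h4 := setWord_word_same (S.dg L2 : Diagram n) g ((S.dg L2 : Diagram n).word g ++ U)
        rw [Sk.upd_same]
        refine (congrArg FreeGroup.mk h4).trans ?_
        show FreeGroup.mk (L2 g ++ U) = w g * u
        rw [← FreeGroup.mul_mk, hmk2, hU1]
      · rw [Sk.upd_ne S _ hge]
        have h4 := setWord_word_ne (S.dg L2 : Diagram n) (e := e) (f := g) hge
          ((S.dg L2 : Diagram n).word e ++ U)
        exact (congrArg FreeGroup.mk h4).trans (hmk2 g)
  | kinkL S w e =>
    have h1 := s2m_kinkL (m := m) (WD.toDg ⟨S, w⟩) e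
    have h2 := s2m_setWord (m := m) S w e ((S.src e, true) :: lst (w e))
    rw [s2m_mk_cons, mk_lst] at h2
    exact h1.trans h2
  | kinkR S w e =>
    have h1 := s2m_kinkR (m := m) (WD.toDg ⟨S, w⟩) e
    have h2 := s2m_setWord (m := m) S w e (lst (w e) ++ [(Sum.inr e, true)])
    rw [← FreeGroup.mul_mk, mk_lst] at h2
    exact h1.trans h2
  | slide S w e f hfe g =>
    have h2 := s2m_slide (m := m) (WD.toDg ⟨S, w⟩) e f hfe (lst g)
    have h3 := s2m_setWord (m := m) S w e
      (lst (w e) ++ FreeGroup.invRev (lst g) ++ [(Sum.inr f, false)] ++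
        (FreeGroup.invRev (lst (w f)) ++ (S.src f, true) :: lst (w f)) ++ lst g)
    have hmk : FreeGroup.mk (lst (w e) ++ FreeGroup.invRev (lst g) ++ [(Sum.inr f, false)] ++
        (FreeGroup.invRev (lst (w f)) ++ (S.src f, true) :: lst (w f)) ++ lst g) =
        w e * (g⁻¹ * S.rel w f * g) := by
      rw [← FreeGroup.mul_mk, ← FreeGroup.mul_mk, ← FreeGroup.mul_mk, ← FreeGroup.mul_mk,
        ← FreeGroup.mul_mk, s2m_mk_cons, s2m_mk_cons', ← FreeGroup.inv_mk, ← FreeGroup.inv_mk,
        mk_lst, mk_lst, mk_lst]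
      have h0 : (FreeGroup.mk [] : FreeGroup S.Arc) = 1 := rfl
      rw [h0]
      unfold Sk.rel
      group
    rw [hmk] at h3
    exact h2.trans h3
  | comm S w e c hc =>
    have hB : FreeGroup.mk (lst c) ∈ gam (FreeGroup S.Arc) m := by
      rw [mk_lst]
      exact hc
    have h1 := s2m_comm (m := m) (WD.toDg ⟨S, w⟩) e (lst c) hB
    have h2 := s2m_setWord (m := m) S w e (lst (w e) ++ lst c)
    rw [← FreeGroup.mul_mk, mk_lst, mk_lst] at h2
    exact h1.trans h2

theorem wEquiv_of_eqv {n m : ℕ} {D D' : Diagram n} (h : Eqv m D.toWD D'.toWD) :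
    WEquiv m D D' := by
  have key : ∀ X X' : WD n, Eqv m X X' → WEquiv m X.toDg X'.toDg := by
    intro X X' h
    induction h with
    | rel X X' h => exact wEquiv_of_step h
    | refl X => exact WEquiv.refl _
    | symm X X' _ ih => exact ih.symm
    | trans X X' X'' _ _ ih ih' => exact ih.trans ih'
  exact (wEquiv_toDg D).trans ((key _ _ h).trans (wEquiv_toDg D').symm)

end Pool.Agent.H61.Tu
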