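import Pool.Agent.H61.Tu.MoveToStep
import Pool.Agent.H61.Tu.StepToMove
import Pool.Agent.H61.Tu.SameIff
import Pool.Agent.H61.Tu.MainW

/-!
# The classification (architect)
-/

namespace Pool.Agent.H61.Tu

open Diagram Relation

theorem final {n : ℕ} (m : ℕ) (D D' : Diagram n) :
    WEquiv m D D' ↔ D.PeripheralIso m D' ∧ D.SameAlexander m D' := by
  constructor
  · intro h
    have h' : SameW m D.toWD D'.toWD := low (eqv_of_wEquiv h)
    exact ⟨(peripheralIso_iff D D').2 (peripheral_of_sameW h'),
      (sameAlexander_iff D D').2 (alexander_of_sameW h')⟩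
  · rintro ⟨h, h'⟩
    exact wEquiv_of_eqv (main_W m _ _ (sameW_of_same ((peripheralIso_iff D D').1 h)
      ((sameAlexander_iff D D').1 h')))

end Pool.Agent.H61.Tu
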