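import Pool.Agent.H61.Tu.Defs

/-!
# Fox derivative on the free group
-/

namespace Pool.Agent.H61.Tu

open Diagram

variable {R : Type} [CommRing R] {V : Type} [AddCommGroup V] [Module R V] {A : Type}

theorem lift_mk_cons_true (ρ : A → (Module.End R V)ˣ) (a : A) (L : List (A × Bool)) :
    FreeGroup.lift ρ (FreeGroup.mk ((a, true) :: L)) = ρ a * FreeGroup.lift ρ (FreeGroup.mk L) := by
  simp [FreeGroup.lift_mk]

theorem lift_mk_cons_false (ρ : A → (Module.End R V)ˣ) (a : A) (L : List (A × Bool)) :
    FreeGroup.lift ρ (FreeGroup.mk ((a, false) :: L)) =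
      (ρ a)⁻¹ * FreeGroup.lift ρ (FreeGroup.mk L) := by
  simp [FreeGroup.lift_mk]

theorem fox_append (ρ : A → (Module.End R V)ˣ) (L₁ L₂ : List (A × Bool)) :
    fox ρ (L₁ ++ L₂) = fox ρ L₁ +
      (FreeGroup.lift ρ (FreeGroup.mk L₁)).val ∘ₗ fox ρ L₂ := by
  induction L₁ with
  | nil =>
    ext v
    simp [fox, ← FreeGroup.one_eq_mk]
  | cons x L₁ ih =>
    obtain ⟨a, b⟩ := x
    cases b
    · rw [List.cons_append, fox, ih, fox, lift_mk_cons_false]
      ext v
      simp only [LinearMap.coe_comp, Function.comp_apply, LinearMap.sub_apply,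
        LinearMap.add_apply, Units.val_mul, Module.End.mul_apply, LinearMap.coe_proj,
        Function.eval, map_sub, map_add]
      abel
    · rw [List.cons_append, fox, ih, fox, lift_mk_cons_true]
      ext v
      simp only [LinearMap.coe_comp, Function.comp_apply,
        LinearMap.add_apply, Units.val_mul, Module.End.mul_apply, LinearMap.coe_proj,
        Function.eval, map_add]
      abel

theorem fox_step (ρ : A → (Module.End R V)ˣ) (L L' : List (A × Bool))
    (h : FreeGroup.Red.Step L L') : fox ρ L = fox ρ L' := by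
  cases h with
  | @not L₁ L₂ x b =>
    rw [fox_append, fox_append]
    congr 2
    cases b
    · ext v
      simp only [fox, Bool.not_false, LinearMap.coe_comp, Function.comp_apply,
        LinearMap.sub_apply, LinearMap.add_apply, LinearMap.coe_proj, Function.eval]
      rw [add_sub_cancel_left, ← Module.End.mul_apply, ← Units.val_mul]
      simp
    · ext v
      simp only [fox, Bool.not_true, LinearMap.coe_comp, Function.comp_apply,
        LinearMap.sub_apply, LinearMap.add_apply, LinearMap.coe_proj, Function.eval]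
      rw [← Module.End.mul_apply, ← Units.val_mul]
      simp

/-- Fox derivative on the free group -/
def foxF (ρ : A → (Module.End R V)ˣ) : FreeGroup A → ((A → V) →ₗ[R] V) :=
  Quot.lift (fox ρ) (fox_step ρ)

theorem foxF_mk (ρ : A → (Module.End R V)ˣ) (L : List (A × Bool)) :
    foxF ρ (FreeGroup.mk L) = fox ρ L := rfl

@[simp] theorem foxF_one (ρ : A → (Module.End R V)ˣ) : foxF ρ 1 = 0 := rfl

@[simp] theorem foxF_of (ρ : A → (Module.End R V)ˣ) (a : A) (v : A → V) :
    foxF ρ (FreeGroup.of a) v = v a := by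
  rw [FreeGroup.of, foxF_mk]
  simp [fox]

theorem foxF_mul (ρ : A → (Module.End R V)ˣ) (u w : FreeGroup A) :
    foxF ρ (u * w) = foxF ρ u + (FreeGroup.lift ρ u).val ∘ₗ foxF ρ w := by
  induction u using Quot.inductionOn with
  | h L₁ =>
    induction w using Quot.inductionOn with
    | h L₂ =>
      change foxF ρ (FreeGroup.mk L₁ * FreeGroup.mk L₂) = foxF ρ (FreeGroup.mk L₁) +
        (FreeGroup.lift ρ (FreeGroup.mk L₁)).val ∘ₗ foxF ρ (FreeGroup.mk L₂)
      rw [FreeGroup.mul_mk, foxF_mk, foxF_mk, foxF_mk, fox_append]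

theorem foxF_mul_apply (ρ : A → (Module.End R V)ˣ) (u w : FreeGroup A) (v : A → V) :
    foxF ρ (u * w) v = foxF ρ u v + (FreeGroup.lift ρ u).val (foxF ρ w v) := by
  rw [foxF_mul]
  simp

theorem foxF_inv_apply (ρ : A → (Module.End R V)ˣ) (u : FreeGroup A) (v : A → V) :
    foxF ρ u⁻¹ v = - ((FreeGroup.lift ρ u)⁻¹ : (Module.End R V)ˣ).val (foxF ρ u v) := by
  have h := foxF_mul_apply ρ u⁻¹ u v
  rw [inv_mul_cancel, foxF_one, map_inv] at h
  rw [LinearMap.zero_apply] at h
  exact eq_neg_of_add_eq_zero_left h.symm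

end Pool.Agent.H61.Tu
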