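import Pool.Agent.H61.Tu.GamBasic

/-!
# Fox derivatives of elements of the lower central series   [H61 TU FOXG]

Induction on `m`. Write `ρ c` for `(lift ρ c).val`. If `ρ a = 1 + t M` for all letters then
for every `c` the endomorphism `ρ c` is `1 + t K` (the units of this form are a subgroup: products,
and inverses, `(1 + tK)⁻¹ = 1 - t K (1 + tK)⁻¹`), and `foxF ρ c` is anything: the case `m = 0`.
Step: the set of the `c` for which both statements hold (for `m + 1`) is a subgroup (product: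
`foxF (c c') = foxF c + ρ c foxF c'`; inverse: `foxF c⁻¹ = - (ρ c)⁻¹ foxF c`), so by
`Subgroup.closure_induction` (definition of `gam (m+1) = ⁅gam m, ⊤⁆`, see
`Subgroup.commutator_le`, `Subgroup.mem_closure`) it is enough to treat `⁅u, g⁆`, `u ∈ gam m`, `g`
arbitrary: `ρ u = 1 + t^(m+1) K`, `foxF u = t^m L`, `ρ g = 1 + t M`. Then
`ρ u ρ g - ρ g ρ u = t^(m+2) (K M - M K)`, so `ρ ⁅u,g⁆ = 1 + t^(m+2) (..)`; and
`foxF ⁅u,g⁆ = foxF u + ρ u foxF g - ρ (u g u⁻¹) foxF u - ρ ⁅u,g⁆ foxF g`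
`= (1 - ρ (u g u⁻¹)) foxF u + (ρ u - ρ ⁅u,g⁆) foxF g`, where `1 - ρ (u g u⁻¹) = t (..)` and
`ρ u - ρ ⁅u, g⁆ = t^(m+1) (..)`.
-/

namespace Pool.Agent.H61.Tu

open Diagram Relation
open scoped commutatorElement

section Aux

variable {R : Type} [CommRing R] {V : Type} [AddCommGroup V] [Module R V]

private theorem inv_form (s : R) (u : (Module.End R V)ˣ) (K : Module.End R V)
    (h : u.val = 1 + s • K) : ∃ K' : Module.End R V, (u⁻¹ : (Module.End R V)ˣ).val = 1 + s • K' := by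
  refine ⟨-(K * (u⁻¹ : (Module.End R V)ˣ).val), ?_⟩
  have h1 : u.val * (u⁻¹ : (Module.End R V)ˣ).val = 1 := u.mul_inv
  rw [h, add_mul, one_mul, smul_mul_assoc] at h1
  rw [smul_neg]
  exact eq_add_neg_of_add_eq h1

private theorem mul_form (s : R) (K K' : Module.End R V) :
    (1 + s • K) * (1 + s • K') = 1 + s • (K + K' + s • (K * K')) := by
  rw [add_mul, mul_add, mul_add, one_mul, mul_one, one_mul, smul_mul_smul_comm, smul_add, smul_add,
    smul_smul]
  abel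

private theorem comm_form (s t : R) (u g : (Module.End R V)ˣ) (K M : Module.End R V)
    (hu : u.val = 1 + s • K) (hg : g.val = 1 + t • M) :
    ∃ K' : Module.End R V, (⁅u, g⁆ : (Module.End R V)ˣ).val = 1 + (s * t) • K' := by
  refine ⟨(K * M - M * K) * ((g * u)⁻¹ : (Module.End R V)ˣ).val, ?_⟩
  have h1 : u.val * g.val = g.val * u.val + (s * t) • (K * M - M * K) := by
    rw [hu, hg]
    simp only [add_mul, mul_add, one_mul, mul_one, smul_mul_smul_comm, smul_sub, mul_comm t s]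
    abel
  have h2 : (⁅u, g⁆ : (Module.End R V)ˣ) = (u * g) * (g * u)⁻¹ := by
    rw [commutatorElement_def]
    group
  rw [h2, Units.val_mul, Units.val_mul, h1, add_mul, ← Units.val_mul, ← Units.val_mul,
    mul_inv_cancel, Units.val_one, smul_mul_assoc]

variable {A : Type}

private def goodSub (t : R) (ρ : A → (Module.End R V)ˣ) (m : ℕ) : Subgroup (FreeGroup A) where
  carrier := {c | (∃ K : Module.End R V, (FreeGroup.lift ρ c).val = 1 + t ^ (m + 1) • K) ∧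
      ∃ K : (A → V) →ₗ[R] V, foxF ρ c = t ^ m • K}
  one_mem' := ⟨⟨0, by simp⟩, ⟨0, by simp⟩⟩
  mul_mem' := by
    rintro c c' ⟨⟨K, hK⟩, L, hL⟩ ⟨⟨K', hK'⟩, L', hL'⟩
    refine ⟨⟨K + K' + t ^ (m + 1) • (K * K'), ?_⟩,
      ⟨L + (FreeGroup.lift ρ c).val ∘ₗ L', ?_⟩⟩
    · rw [map_mul, Units.val_mul, hK, hK', mul_form]
    · rw [foxF_mul, hL, hL', LinearMap.comp_smul, smul_add]
  inv_mem' := by
    rintro c ⟨⟨K, hK⟩, L, hL⟩
    obtain ⟨K', hK'⟩ := inv_form _ _ K hK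
    refine ⟨⟨K', ?_⟩, ⟨-(((FreeGroup.lift ρ c)⁻¹ : (Module.End R V)ˣ).val ∘ₗ L), ?_⟩⟩
    · rw [map_inv]
      exact hK'
    · ext v : 1
      rw [foxF_inv_apply, hL]
      simp

private theorem all_form (t : R) (ρ : A → (Module.End R V)ˣ)
    (hρ : ∀ a, ∃ M : Module.End R V, (ρ a).val = 1 + t • M) (c : FreeGroup A) :
    ∃ M : Module.End R V, (FreeGroup.lift ρ c).val = 1 + t • M := by
  induction c using FreeGroup.induction_on with
  | C1 => exact ⟨0, by simp⟩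
  | of a =>
    obtain ⟨M, hM⟩ := hρ a
    exact ⟨M, by simpa using hM⟩
  | inv_of a _ =>
    obtain ⟨M, hM⟩ := hρ a
    obtain ⟨M', hM'⟩ := inv_form _ _ M hM
    exact ⟨M', by simpa using hM'⟩
  | mul x y hx hy =>
    obtain ⟨M, hM⟩ := hx
    obtain ⟨M', hM'⟩ := hy
    exact ⟨_, by rw [map_mul, Units.val_mul, hM, hM', mul_form]⟩

private theorem fox_comm (ρ : A → (Module.End R V)ˣ) (u g : FreeGroup A) (v : A → V) :
    foxF ρ ⁅u, g⁆ v = (foxF ρ u v - (FreeGroup.lift ρ (u * g * u⁻¹)).val (foxF ρ u v)) +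
      ((FreeGroup.lift ρ u).val (foxF ρ g v) - (FreeGroup.lift ρ ⁅u, g⁆).val (foxF ρ g v)) := by
  have h1 : (FreeGroup.lift ρ (u * g)).val (((FreeGroup.lift ρ u)⁻¹ : (Module.End R V)ˣ).val
      (foxF ρ u v)) = (FreeGroup.lift ρ (u * g * u⁻¹)).val (foxF ρ u v) := by
    rw [map_mul _ (u * g) u⁻¹, map_inv, Units.val_mul, Module.End.mul_apply]
  have h2 : (FreeGroup.lift ρ (u * g * u⁻¹)).val (((FreeGroup.lift ρ g)⁻¹ :
      (Module.End R V)ˣ).val (foxF ρ g v)) = (FreeGroup.lift ρ ⁅u, g⁆).val (foxF ρ g v) := by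
    rw [commutatorElement_def, map_mul _ (u * g * u⁻¹) g⁻¹, map_inv, Units.val_mul,
      Module.End.mul_apply]
  rw [← h1, ← h2, commutatorElement_def, foxF_mul_apply, foxF_mul_apply, foxF_mul_apply,
    foxF_inv_apply, foxF_inv_apply, map_neg, map_neg]
  abel

private theorem gam_le_good (t : R) (ρ : A → (Module.End R V)ˣ)
    (hρ : ∀ a, ∃ M : Module.End R V, (ρ a).val = 1 + t • M) (m : ℕ) :
    gam (FreeGroup A) m ≤ goodSub t ρ m := by
  induction m with
  | zero =>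
    intro c _
    obtain ⟨M, hM⟩ := all_form t ρ hρ c
    exact ⟨⟨M, by simpa using hM⟩, ⟨foxF ρ c, by simp⟩⟩
  | succ m ih =>
    show ⁅gam (FreeGroup A) m, (⊤ : Subgroup (FreeGroup A))⁆ ≤ _
    rw [Subgroup.commutator_le]
    intro u hu g _
    obtain ⟨⟨K, hK⟩, L, hL⟩ := ih hu
    obtain ⟨M, hM⟩ := all_form t ρ hρ g
    obtain ⟨N, hN⟩ := all_form t ρ hρ (u * g * u⁻¹)
    obtain ⟨K', hK'⟩ := comm_form _ _ _ _ K M hK hM
    rw [← map_commutatorElement, ← pow_succ] at hK'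
    refine ⟨⟨K', hK'⟩, ⟨-(N ∘ₗ L) + (K - t • K') ∘ₗ foxF ρ g, ?_⟩⟩
    ext v : 1
    rw [fox_comm, hN, hK', hK, hL]
    simp only [LinearMap.add_apply, LinearMap.smul_apply, Module.End.one_apply, LinearMap.neg_apply,
      LinearMap.comp_apply, LinearMap.sub_apply, map_smul, smul_add, smul_sub, smul_neg, smul_smul]
    have e1 : t * t ^ m = t ^ (m + 1) := by ring
    have e2 : t ^ (m + 1) * t = t ^ (m + 1 + 1) := by ring
    have e3 : t ^ m * t = t ^ (m + 1) := by ring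
    simp only [e1, e2, e3]
    abel

end Aux

theorem fox_gam {R : Type} [CommRing R] {V : Type} [AddCommGroup V] [Module R V] {A : Type}
    (t : R) (ρ : A → (Module.End R V)ˣ) (hρ : ∀ a, ∃ M : Module.End R V, (ρ a).val = 1 + t • M)
    (m : ℕ) (c : FreeGroup A) (hc : c ∈ gam (FreeGroup A) m) :
    (∃ K : Module.End R V, (FreeGroup.lift ρ c).val = 1 + t ^ (m + 1) • K) ∧
      ∃ K : (A → V) →ₗ[R] V, foxF ρ c = t ^ m • K :=
  gam_le_good t ρ hρ m hc

end Pool.Agent.H61.Tu
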