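import Pool.Agent.H61.Tu.WD

/-!
# Lower central series: functoriality, the free nilpotent group   [H61 TU GAM]

`gam G m` is `(⊤ : Subgroup G).lowerCentralSeries m`.

* `gam_map`: induction on `m`, `gam G (m+1) = ⁅gam G m, ⊤⁆`; or Mathlib's
  `Subgroup.map_lowerCentralSeries` and `map ⊤ ≤ ⊤` with monotonicity of commutators.
* `gam_Ga`: the quotient map is surjective, so `gam (F/gam F m) m` is the image of `gam F m`,
  which is trivial (`Subgroup.map_lowerCentralSeries`, `Subgroup.map_top_of_surjective`).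
* `Ga_hom_ext`: `QuotientGroup.monoidHom_ext` and `FreeGroup.ext_hom`.
* `gam_normal`: characteristic, hence normal (instance in Mathlib).
* `gam_anti`: `Subgroup.lowerCentralSeries_antitone`.
-/

namespace Pool.Agent.H61.Tu

open Diagram Relation
open scoped commutatorElement

theorem gam_map {G H : Type*} [Group G] [Group H] (f : G →* H) (m : ℕ) {c : G}
    (hc : c ∈ gam G m) : f c ∈ gam H m := by
  have h1 : f c ∈ (gam G m).map f := Subgroup.mem_map_of_mem f hc
  rw [Subgroup.map_lowerCentralSeries] at h1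
  exact Subgroup.lowerCentralSeries_mono m le_top h1

theorem gam_anti {G : Type*} [Group G] {m k : ℕ} (h : m ≤ k) : gam G k ≤ gam G m :=
  Subgroup.lowerCentralSeries_antitone ⊤ h

theorem gam_normal (G : Type*) [Group G] (m : ℕ) : (gam G m).Normal :=
  Subgroup.lowerCentralSeries_normal ⊤ m

theorem commutator_mem_gam {G : Type*} [Group G] {m : ℕ} {c : G} (hc : c ∈ gam G m) (g : G) :
    ⁅c, g⁆ ∈ gam G (m + 1) ∧ ⁅g, c⁆ ∈ gam G (m + 1) := by
  have h1 : ⁅c, g⁆ ∈ gam G (m + 1) := Subgroup.commutator_mem_commutator hc (Subgroup.mem_top g)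
  refine ⟨h1, ?_⟩
  rw [← commutatorElement_inv]
  exact inv_mem h1

theorem gam_Ga (n m : ℕ) : gam (Ga n m) m = ⊥ := by
  have h1 : (gam (FreeGroup (Fin n)) m).map (QuotientGroup.mk' (gam (FreeGroup (Fin n)) m)) =
      gam (Ga n m) m := by
    rw [Subgroup.map_lowerCentralSeries,
      Subgroup.map_top_of_surjective _ (QuotientGroup.mk'_surjective _)]
  rw [← h1]
  exact QuotientGroup.map_mk'_self _

theorem Ga_hom_ext {n m : ℕ} {H : Type*} [Group H] (f g : Ga n m →* H)
    (h : ∀ i, f (xg n m i) = g (xg n m i)) : f = g := by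
  apply QuotientGroup.monoidHom_ext
  apply FreeGroup.ext_hom
  intro i
  exact h i

end Pool.Agent.H61.Tu
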