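import Pool.Agent.H61.Tu.GamComm

/-!
# Two homomorphisms that agree modulo commutators   [H61 TU HOM]

First: `(φ₁ v)⁻¹ * φ₂ v ∈ gam G 1` for ALL `v` (the two homs to `G ⧸ gam G 1` agree on `A`, which
generates: `MonoidHom.eqOn_closure`, `Subgroup`...). Then induction on `m`; `m = 0` is this.
Step: the set of the `c` with `(φ₁ c)⁻¹ * φ₂ c ∈ gam G (m+2)` is a subgroup (it is the
equalizer of the two homs to `G ⧸ gam G (m+2)`), so it is enough to treat `⁅u, v⁆` with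
`u ∈ gam F m`. There `φ₂ u = φ₁ u * z`, `z ∈ gam G (m+1)`, `φ₂ v = φ₁ v * z'`, `z' ∈ gam G 1`, and
`φ₁ u ∈ gam G m`. In `G ⧸ gam G (m+2)` the element `z` is central and `z'` commutes with
`φ₁ u` (`gam_commutator_le`: `⁅gam m, gam 1⁆ ≤ gam (m+2)`) and with `z`; so
`⁅φ₁ u * z, φ₁ v * z'⁆ = ⁅φ₁ u, φ₁ v * z'⁆ = φ₁ u * φ₁ v * z' * (φ₁ u)⁻¹ * z'⁻¹ * (φ₁ v)⁻¹
= ⁅φ₁ u, φ₁ v⁆`.
-/

namespace Pool.Agent.H61.Tu

open Diagram Relation
open scoped commutatorElement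

private theorem homCongr_aux {Q : Type*} [Group Q] (A B Z Z' : Q) (hZ : ∀ g, Z * g = g * Z)
    (hZ' : Z' * A = A * Z') : ⁅A * Z, B * Z'⁆ = ⁅A, B⁆ := by
  have h1 : A * Z * (B * Z') * (Z⁻¹ * A⁻¹) = A * (B * Z') * A⁻¹ := by
    calc A * Z * (B * Z') * (Z⁻¹ * A⁻¹) = A * (Z * (B * Z')) * (Z⁻¹ * A⁻¹) := by group
      _ = A * ((B * Z') * Z) * (Z⁻¹ * A⁻¹) := by rw [hZ]
      _ = A * (B * Z') * A⁻¹ := by group
  have h2 : Z' * A⁻¹ = A⁻¹ * Z' := by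
    calc Z' * A⁻¹ = A⁻¹ * (A * Z') * A⁻¹ := by group
      _ = A⁻¹ * (Z' * A) * A⁻¹ := by rw [hZ']
      _ = A⁻¹ * Z' := by group
  rw [commutatorElement_def, commutatorElement_def, mul_inv_rev, mul_inv_rev, h1]
  calc A * (B * Z') * A⁻¹ * (Z'⁻¹ * B⁻¹) = A * B * (Z' * A⁻¹) * (Z'⁻¹ * B⁻¹) := by group
    _ = A * B * (A⁻¹ * Z') * (Z'⁻¹ * B⁻¹) := by rw [h2]
    _ = A * B * A⁻¹ * B⁻¹ := by group

theorem hom_congr {F G : Type*} [Group F] [Group G] (A : Set F) (hA : Subgroup.closure A = ⊤)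
    (φ₁ φ₂ : F →* G) (h : ∀ a ∈ A, (φ₁ a)⁻¹ * φ₂ a ∈ gam G 1) (m : ℕ) (c : F)
    (hc : c ∈ gam F m) : (φ₁ c)⁻¹ * φ₂ c ∈ gam G (m + 1) := by
  have hone : ∀ v, (φ₁ v)⁻¹ * φ₂ v ∈ gam G 1 := by
    have hN : (gam G 1).Normal := gam_normal G 1
    have h1 : (QuotientGroup.mk' (gam G 1)).comp φ₁ = (QuotientGroup.mk' (gam G 1)).comp φ₂ := by
      apply MonoidHom.eq_of_eqOn_dense hA
      intro a ha
      exact QuotientGroup.eq.2 (h a ha)
    intro v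
    exact QuotientGroup.eq.1 (DFunLike.congr_fun h1 v)
  induction m generalizing c with
  | zero => exact hone c
  | succ m ih =>
    have hN : (gam G (m + 1 + 1)).Normal := gam_normal G _
    let π := QuotientGroup.mk' (gam G (m + 1 + 1))
    have hle : ⁅gam F m, (⊤ : Subgroup F)⁆ ≤ MonoidHom.eqLocus (π.comp φ₁) (π.comp φ₂) := by
      rw [Subgroup.commutator_le]
      intro u hu v _
      have hz : (φ₁ u)⁻¹ * φ₂ u ∈ gam G (m + 1) := ih u hu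
      have hz' : (φ₁ v)⁻¹ * φ₂ v ∈ gam G 1 := hone v
      have ha : φ₁ u ∈ gam G m := gam_map φ₁ m hu
      obtain ⟨z, hzd⟩ : ∃ z, z = (φ₁ u)⁻¹ * φ₂ u := ⟨_, rfl⟩
      obtain ⟨z', hzd'⟩ : ∃ z', z' = (φ₁ v)⁻¹ * φ₂ v := ⟨_, rfl⟩
      rw [← hzd] at hz
      rw [← hzd'] at hz'
      have e1 : φ₂ u = φ₁ u * z := by rw [hzd]; group
      have e2 : φ₂ v = φ₁ v * z' := by rw [hzd']; group
      have hcom : ∀ x y : G, ⁅x, y⁆ ∈ gam G (m + 1 + 1) → π x * π y = π y * π x := by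
        intro x y hxy
        have h3 : π ⁅x, y⁆ = 1 := (QuotientGroup.eq_one_iff _).2 hxy
        rw [map_commutatorElement] at h3
        exact commutatorElement_eq_one_iff_mul_comm.1 h3
      change π (φ₁ ⁅u, v⁆) = π (φ₂ ⁅u, v⁆)
      rw [map_commutatorElement φ₂, e1, e2, map_commutatorElement φ₁, map_commutatorElement π,
        map_commutatorElement π, map_mul π, map_mul π]
      symm
      apply homCongr_aux
      · intro g
        obtain ⟨g, rfl⟩ := QuotientGroup.mk'_surjective _ g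
        exact hcom _ _ (commutator_mem_gam hz g).1
      · symm
        apply hcom
        exact commutator_mem_gam' ha hz'
    exact QuotientGroup.eq.1 (hle hc)

end Pool.Agent.H61.Tu
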