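import Pool.Agent.H61.Tu.Theta
import Pool.Agent.H61.Tu.FoxGam

/-!
# Representations factor through the free nilpotent group   [H61 TU HF]

* Every `ψ (mer a)` is of the form `1 + t • M`: `D.sk.arc_induction`; at the bottom `hψ`, at a run
  `ψ (mer (inr e)) = g⁻¹ * ψ (mer (src e)) * g` (`isCol_mer`), and
  `g⁻¹ (1 + t M) g = 1 + t g⁻¹ M g`.
* `ψ` kills `gam D.Pi m`: the projection `FreeGroup D.Arc → D.Pi` is surjective, so the
  elements of `gam D.Pi m` are images of elements `c` of `gam (FreeGroup D.Arc) m`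
  (`Subgroup.map_lowerCentralSeries`), and `ψ (mk c) = lift (ψ ∘ mer) c = 1 + t^(m+1) • K = 1`
  (`fox_gam`, `lift_mer`).
* So `ψ` factors through `D.Pi ⧸ gam D.Pi m` (`QuotientGroup.lift`); compose with `θ.symm` of
  `theta_exists`.
-/

namespace Pool.Agent.H61.Tu

open Diagram Relation
open scoped commutatorElement

private theorem conj_form {R : Type} [CommRing R] {V : Type} [AddCommGroup V] [Module R V]
    (t : R) (g u : (Module.End R V)ˣ) (h : ∃ M : Module.End R V, u.val = 1 + t • M) :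
    ∃ M : Module.End R V, (g⁻¹ * u * g).val = 1 + t • M := by
  obtain ⟨M, hM⟩ := h
  refine ⟨(g⁻¹ : (Module.End R V)ˣ).val * M * g.val, ?_⟩
  rw [Units.val_mul, Units.val_mul, hM, mul_add, add_mul, mul_one, ← Units.val_mul,
    inv_mul_cancel, Units.val_one, mul_smul_comm, smul_mul_assoc]

theorem hom_factor {n m : ℕ} (D : Diagram n) (η : D.Arc → Ga n m)
    (hη : D.sk.IsCol D.fw (xg n m) η) {R : Type} [CommRing R] {V : Type} [AddCommGroup V]
    [Module R V] (t : R) (ht : t ^ (m + 1) = 0) (ψ : D.Pi →* (Module.End R V)ˣ)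
    (hψ : ∀ i, ∃ M : Module.End R V, (ψ (D.mer (Sum.inl i))).val = 1 + t • M) :
    ∃ χ : Ga n m →* (Module.End R V)ˣ, ∀ a, χ (η a) = ψ (D.mer a) := by
  have h1 : ∀ a : D.Arc, ∃ M : Module.End R V, (ψ (D.mer a)).val = 1 + t • M := by
    refine D.sk.arc_induction hψ fun e he => ?_
    have h2 := (isCol_mer D ψ).2 e
    simp only at h2
    rw [h2]
    exact conj_form t _ _ he
  have h3 : gam D.Pi m ≤ ψ.ker := by
    intro c hc
    have hs : Function.Surjective (PresentedGroup.mk (Set.range D.rel)) :=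
      PresentedGroup.mk_surjective _
    have h4 : (gam (FreeGroup D.Arc) m).map (PresentedGroup.mk (Set.range D.rel)) =
        gam D.Pi m := by
      rw [Subgroup.map_lowerCentralSeries, Subgroup.map_top_of_surjective _ hs]
    rw [← h4] at hc
    obtain ⟨c', hc', rfl⟩ := hc
    obtain ⟨⟨K, hK⟩, _⟩ := fox_gam t (fun a => ψ (D.mer a)) h1 m c' hc'
    rw [ht, zero_smul, add_zero] at hK
    have h5 : FreeGroup.lift (fun a => ψ (D.mer a)) c' =
        ψ (PresentedGroup.mk (Set.range D.rel) c') := by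
      induction c' using Quot.inductionOn with
      | h L => exact lift_mer D ψ L
    change ψ (PresentedGroup.mk (Set.range D.rel) c') = 1
    rw [← h5]
    exact Units.ext hK
  obtain ⟨θ, hθ⟩ := theta_exists D η hη
  refine ⟨(QuotientGroup.lift (gam D.Pi m) ψ h3).comp θ.symm.toMonoidHom, fun a => ?_⟩
  change QuotientGroup.lift (gam D.Pi m) ψ h3 (θ.symm (η a)) = ψ (D.mer a)
  rw [← hθ a, MulEquiv.symm_apply_apply]
  rfl

end Pool.Agent.H61.Tu
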