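import Pool.Agent.H61.Tu.WD
import Pool.Agent.H61.Tu.Paths

/-!
# The move `rename`   [H61 TU REN]

`η' := η ∘ Sum.map id φ.symm`. Put `σ = Sum.map id φ : S.Arc → S'.Arc` (a bijection). Then
`η' ∘ σ = η`, so `lift η' (FreeGroup.map σ u) = lift η u` (`FreeGroup.lift.unique` or
`FreeGroup.map.comp`/`ext_hom`).
* colouring: `w' (φ e) = map σ (w e)`, `S'.src (φ e) = σ (S.src e)`.
* longitudes: `S.Path w j a u → S'.Path (renW φ w) j (σ a) (map σ u)` by induction; sources
  correspond; so `u' = map σ u` by `isLong_unique`, exponent `0`.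
* determinant (any `ρ`, here `ψ ∘ η`; exponents `0`): with `F : (S.E → V) ≃ₗ (S'.E → V)`,
  `F v = v ∘ φ.symm` (`LinearMap.funCongrLeft` or `LinearEquiv.funCongrLeft R V φ.symm`), the
  Alexander maps satisfy `T' = F ∘ T ∘ F.symm`; `LinearMap.det_conj`. The key point is
  `foxF ρ' (map σ u) v' = foxF ρ u (v' ∘ σ)` for `ρ' ∘ σ = ρ` (prove it as a lemma
  `foxF_map` by `FreeGroup.induction_on`: both sides satisfy the same product rule
  `foxF_mul_apply`, `foxF_inv_apply`, `foxF_of`).
-/

namespace Pool.Agent.H61.Tu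

open Diagram Relation
open scoped commutatorElement

private theorem lift_map_ren {A B H : Type*} [Group H] (σ : A → B) (ρ : B → H)
    (x : FreeGroup A) :
    FreeGroup.lift ρ (FreeGroup.map σ x) = FreeGroup.lift (fun a => ρ (σ a)) x := by
  have h : (FreeGroup.lift ρ).comp (FreeGroup.map σ) = FreeGroup.lift (fun a => ρ (σ a)) := by
    ext a
    simp
  exact DFunLike.congr_fun h x

/-- Fox derivative and renaming of letters -/
theorem foxF_map {R : Type} [CommRing R] {V : Type} [AddCommGroup V] [Module R V] {A B : Type}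
    (σ : A → B) (ρ : B → (Module.End R V)ˣ) (u : FreeGroup A) (v : B → V) :
    foxF ρ (FreeGroup.map σ u) v = foxF (fun a => ρ (σ a)) u (fun a => v (σ a)) := by
  induction u using FreeGroup.induction_on with
  | C1 => simp
  | of a => simp
  | inv_of a ih =>
    rw [map_inv, foxF_inv_apply, foxF_inv_apply, lift_map_ren]
    rw [ih]
  | mul x y hx hy => rw [map_mul, foxF_mul_apply, foxF_mul_apply, hx, hy, lift_map_ren]

private theorem path_ren {n : ℕ} (S S' : Sk n) (φ : S.E ≃ S'.E)
    (h : ∀ e, S'.src (φ e) = Sum.map id φ (S.src e)) (w : S.W) {j : Fin n} {a : S.Arc}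
    {u : FreeGroup S.Arc} (hp : S.Path w j a u) :
    S'.Path (Sk.renW φ w) j (Sum.map id φ a) (FreeGroup.map (Sum.map id φ) u) := by
  induction hp with
  | base =>
    rw [map_one]
    exact Sk.Path.base
  | step e u _ ih =>
    rw [← h e] at ih
    have h1 := Sk.Path.step (φ e) _ ih
    have h2 : Sk.renW φ w (φ e) = FreeGroup.map (Sum.map id φ) (w e) := by
      simp [Sk.renW]
    rw [h2, ← map_mul] at h1
    exact h1

theorem stepOK_rename {n : ℕ} (m : ℕ) (S S' : Sk n) (φ : S.E ≃ S'.E)
    (h : ∀ e, S'.src (φ e) = Sum.map id φ (S.src e)) (w : S.W) :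
    StepOK m ⟨S, w⟩ ⟨S', Sk.renW φ w⟩ := by
  intro η hη
  have hren : ∀ e, Sk.renW φ w (φ e) = FreeGroup.map (Sum.map id φ) (w e) := by
    intro e
    simp [Sk.renW]
  have hηη : ∀ a : S.Arc, (fun b : S'.Arc => η (Sum.map id φ.symm b)) (Sum.map id φ a) = η a := by
    intro a
    rcases a with i | e <;> simp
  have hlift : ∀ u : FreeGroup S.Arc, FreeGroup.lift (fun b : S'.Arc => η (Sum.map id φ.symm b))
      (FreeGroup.map (Sum.map id φ) u) = FreeGroup.lift η u := by
    intro u
    rw [lift_map_ren]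
    congr 2
    funext a
    exact hηη a
  refine ⟨fun b => η (Sum.map id φ.symm b), ⟨fun i => ?_, fun e' => ?_⟩, fun j => ⟨0, ?_⟩,
    fun _ => 0, ?_⟩
  · exact hη.1 i
  · obtain ⟨e, rfl⟩ := φ.surjective e'
    change (fun b : S'.Arc => η (Sum.map id φ.symm b)) (Sum.inr (φ e)) =
      (FreeGroup.lift (fun b : S'.Arc => η (Sum.map id φ.symm b)) (Sk.renW φ w (φ e)))⁻¹ *
        (fun b : S'.Arc => η (Sum.map id φ.symm b)) (S'.src (φ e)) *
        FreeGroup.lift (fun b : S'.Arc => η (Sum.map id φ.symm b)) (Sk.renW φ w (φ e))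
    rw [hren, hlift, h e, hηη]
    have h1 := hη.2 e
    have h2 : η (Sum.map id φ.symm (Sum.inr (φ e))) = η (Sum.inr e) := by simp
    simp only
    rw [h2]
    exact h1
  · intro u u' hu hu'
    have h1 : S'.IsLong (Sk.renW φ w) j (FreeGroup.map (Sum.map id φ) u) := by
      obtain ⟨a, ha, hs⟩ := hu
      refine ⟨Sum.map id φ a, path_ren S S' φ h w ha, fun e' he' => ?_⟩
      obtain ⟨e, rfl⟩ := φ.surjective e'
      rw [h e] at he'
      refine hs e ?_
      exact Function.Injective.sumMap Function.injective_id φ.injective he'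
    rw [isLong_unique hu' h1, hlift, zpow_zero, one_mul]
  · intro R _ t _ r ψ _
    have key : S'.alexMap (Sk.renW φ w) (fun a => ψ (η (Sum.map id φ.symm a))) =
        ((LinearEquiv.funCongrLeft R (Fin r → R) φ.symm :
          (S.E → Fin r → R) ≃ₗ[R] (S'.E → Fin r → R)) :
            (S.E → Fin r → R) →ₗ[R] (S'.E → Fin r → R)) ∘ₗ
          S.alexMap w (fun a => ψ (η a)) ∘ₗ
          ((LinearEquiv.funCongrLeft R (Fin r → R) φ.symm).symm :
            (S'.E → Fin r → R) →ₗ[R] (S.E → Fin r → R)) := by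
      refine LinearMap.ext fun v => funext fun e' => ?_
      obtain ⟨e, rfl⟩ := φ.surjective e'
      have hR : (((LinearEquiv.funCongrLeft R (Fin r → R) φ.symm :
          (S.E → Fin r → R) ≃ₗ[R] (S'.E → Fin r → R)) :
            (S.E → Fin r → R) →ₗ[R] (S'.E → Fin r → R)) ∘ₗ
          S.alexMap w (fun a => ψ (η a)) ∘ₗ
          ((LinearEquiv.funCongrLeft R (Fin r → R) φ.symm).symm :
            (S'.E → Fin r → R) →ₗ[R] (S.E → Fin r → R))) v (φ e) =
          S.alexMap w (fun a => ψ (η a)) (fun e => v (φ e)) e := by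
        simp [LinearEquiv.funCongrLeft, LinearMap.funLeft]
        rfl
      rw [hR, Sk.alexMap_apply, Sk.alexMap_apply, hren]
      have hρ : (fun a : S.Arc => (fun b : S'.Arc => ψ (η (Sum.map id φ.symm b)))
          (Sum.map id φ a)) = fun a => ψ (η a) := by
        funext a
        exact congrArg ψ (hηη a)
      have hext : (fun a : S.Arc => extend n S'.E R (Fin r → R) v (Sum.map id φ a)) =
          extend n S.E R (Fin r → R) (fun e => v (φ e)) := by
        funext a
        rcases a with i | e <;> rfl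
      rw [foxF_map, lift_map_ren, hρ, hext, h e]
      rw [← congrFun hρ (S.src e), ← congrFun hext (S.src e)]
    simp only [Sk.alex]
    rw [key, LinearMap.det_conj]
    simp

end Pool.Agent.H61.Tu
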