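import Pool.Agent.H61.Tu.StepMarkA
import Pool.Agent.H61.Tu.StepRename
import Pool.Agent.H61.Tu.DetLemmas

/-!
# The move `mark`: determinant   [H61 TU MARKB]

`alex_mark`: write `Option S.E → V` as `V × (S.E → V)` (a linear equivalence
`LinearEquiv.piOptionEquivProd` or built by hand; `LinearMap.det_conj`). Put
`T = S.alexMap w ρ`, `ρ' = S.markCol a ρ`, `σ = Sum.map id some`, `v̂ = extend .. v`. For
`(z, v)` the extended vector of `S.mark a` is `v̂ ∘ ..` on the arcs `σ b` and `z` on `inr none`.
By `foxF_map` and `ρ' ∘ σ = ρ` the Alexander map of `S.mark a` is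
`(z, v) ↦ (z - v̂ a, T v + D (z - v̂ a))`, where `D z` has the value
`- (lift ρ (w e))⁻¹ z` at the run `e` with `S.src e = a` and `0` at the other runs (at the row
`some e` with `S.src e = a` the source is `inr none`, with the same colour `ρ a`, and `v̂ a` is
replaced by `z = v̂ a + (z - v̂ a)`). So it is the composition of `(z, v) ↦ (z - v̂ a, v)`
(determinant `1`, `det_upper`) and the map `(z, v) ↦ (z, T v + D z)` (determinant `det T`,
`det_block` with `A = 1`).

`stepOK_mark`: `η' = S.markCol a η`, `isCol_mark`, `long_mark` (exponent `0`;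
`lift η' (map σ u) = lift η u`), `alex_mark` (exponents `0`) applied to `ρ = ψ ∘ η`, for which
`ψ ∘ (S.markCol a η) = S.markCol a (ψ ∘ η)`.
-/

namespace Pool.Agent.H61.Tu

open Diagram Relation
open scoped commutatorElement

theorem StepMarkB_ext {n : ℕ} {E R V : Type} [CommRing R] [AddCommGroup V] [Module R V]
    (x : Option E → V) (b : Fin n ⊕ E) :
    extend n (Option E) R V x (Sum.map id some b) =
      extend n E R V (fun e => x (some e)) b := by
  rcases b with i | e <;> rfl

/-- `Option E → V` as a product -/
def StepMarkB_eq (E R V : Type) [CommRing R] [AddCommGroup V] [Module R V] :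
    (Option E → V) ≃ₗ[R] V × (E → V) where
  toFun x := (x none, fun e => x (some e))
  invFun y := fun o => match o with
    | none => y.1
    | some e => y.2 e
  left_inv x := by
    funext o
    cases o <;> rfl
  right_inv y := rfl
  map_add' x y := rfl
  map_smul' c x := rfl

open Classical in
/-- the change of the Alexander map -/
noncomputable def StepMarkB_D {n : ℕ} (S : Sk n) (w : S.W) (a : S.Arc) {R : Type} [CommRing R]
    {V : Type} [AddCommGroup V] [Module R V] (ρ : S.Arc → (Module.End R V)ˣ) :
    V →ₗ[R] (S.E → V) :=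
  LinearMap.pi fun e => if S.src e = a then
    -((FreeGroup.lift ρ (w e))⁻¹ : (Module.End R V)ˣ).val else 0

theorem StepMarkB_row {n : ℕ} (S : Sk n) (w : S.W) (a : S.Arc) {R : Type} [CommRing R] {V : Type}
    [AddCommGroup V] [Module R V] (ρ : S.Arc → (Module.End R V)ˣ) (x : (S.mark a).E → V)
    (e : S.E) :
    (S.mark a).alexMap (S.markW a w) (S.markCol a ρ) x (some e) =
      S.alexMap w ρ (fun e => x (some e)) e +
        StepMarkB_D S w a ρ (x none - extend n S.E R V (fun e => x (some e)) a) e := by
  classical
  rw [Sk.alexMap_apply, Sk.alexMap_apply]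
  have h1 : S.markCol a ρ ((S.mark a).src (some e)) = ρ (S.src e) := by
    by_cases h : S.src e = a
    · rw [StepMarkA_src S a e h, h]
      rfl
    · rw [StepMarkA_src' S a e h]
      exact StepMarkA_col S a ρ _
  have h2 : FreeGroup.lift (S.markCol a ρ) (S.markW a w (some e)) = FreeGroup.lift ρ (w e) :=
    StepMarkA_map S a ρ (w e)
  have h3 : foxF (S.markCol a ρ) (S.markW a w (some e)) (extend n (S.mark a).E R V x) =
      foxF ρ (w e) (extend n S.E R V (fun e => x (some e))) := by
    have e1 : (fun b => S.markCol a ρ (Sum.map id some b)) = ρ :=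
      funext fun b => StepMarkA_col S a ρ b
    have e2 : (fun b => extend n (Option S.E) R V x (Sum.map id some b)) =
        extend n S.E R V (fun e => x (some e)) := funext fun b => StepMarkB_ext x b
    exact (foxF_map _ _ _ _).trans (congrArg₂
      (fun (r : S.Arc → (Module.End R V)ˣ) (y : S.Arc → V) => foxF r (w e) y) e1 e2)
  have h4 : extend n (S.mark a).E R V x ((S.mark a).src (some e)) =
      if S.src e = a then x none else extend n S.E R V (fun e => x (some e)) (S.src e) := by
    by_cases h : S.src e = a
    · rw [StepMarkA_src S a e h, if_pos h]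
      rfl
    · rw [StepMarkA_src' S a e h, if_neg h]
      exact StepMarkB_ext x _
  rw [h1, h2, h3, h4]
  have hD : ∀ z, StepMarkB_D S w a ρ z e = (if S.src e = a then
      -((FreeGroup.lift ρ (w e))⁻¹ : (Module.End R V)ˣ).val else 0 : Module.End R V) z :=
    fun z => rfl
  rw [hD]
  by_cases h : S.src e = a
  · rw [if_pos h, if_pos h, h, LinearMap.neg_apply]
    simp only [map_add, map_sub]
    abel
  · rw [if_neg h, if_neg h, LinearMap.zero_apply, add_zero]

theorem StepMarkB_none {n : ℕ} (S : Sk n) (w : S.W) (a : S.Arc) {R : Type} [CommRing R] {V : Type}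
    [AddCommGroup V] [Module R V] (ρ : S.Arc → (Module.End R V)ˣ) (x : Option S.E → V) :
    (S.mark a).alexMap (S.markW a w) (S.markCol a ρ) x none =
      x none - extend n S.E R V (fun e => x (some e)) a := by
  rw [Sk.alexMap_apply]
  have h1 : S.markW a w none = 1 := rfl
  have h2 : (S.mark a).src none = Sum.map id some a := rfl
  rw [h1, h2, map_one, foxF_one, inv_one, Units.val_one, LinearMap.zero_apply, map_zero,
    sub_zero, add_zero, Module.End.one_apply]
  congr 1
  exact StepMarkB_ext x a

theorem alex_mark {n : ℕ} (S : Sk n) (w : S.W) (a : S.Arc) {R : Type} [CommRing R] {V : Type}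
    [AddCommGroup V] [Module R V] [Module.Free R V] [Module.Finite R V]
    (ρ : S.Arc → (Module.End R V)ˣ) :
    (S.mark a).alex (S.markW a w) (S.markCol a ρ) = S.alex w ρ := by
  classical
  haveI := S.finite
  haveI : Fintype S.E := Fintype.ofFinite S.E
  unfold Sk.alex
  set T : Module.End R (S.E → V) := S.alexMap w ρ with hT
  set T' : Module.End R (Option S.E → V) :=
    (S.mark a).alexMap (S.markW a w) (S.markCol a ρ) with hT'
  set G : (S.E → V) →ₗ[R] V := -(LinearMap.proj a ∘ₗ extend n S.E R V) with hG
  have h1 : ((StepMarkB_eq S.E R V).toLinearMap ∘ₗ T' ∘ₗ (StepMarkB_eq S.E R V).symm.toLinearMap :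
      Module.End R (V × (S.E → V))) =
      (LinearMap.prod (LinearMap.id ∘ₗ LinearMap.fst R V (S.E → V))
        (T ∘ₗ LinearMap.snd R V (S.E → V) + StepMarkB_D S w a ρ ∘ₗ
          LinearMap.fst R V (S.E → V))) ∘ₗ
      (LinearMap.prod (LinearMap.fst R V (S.E → V) + G ∘ₗ LinearMap.snd R V (S.E → V))
        (LinearMap.snd R V (S.E → V))) := by
    apply LinearMap.ext
    rintro ⟨z, v⟩
    set x : Option S.E → V := (StepMarkB_eq S.E R V).symm (z, v) with hx
    have hx1 : x none = z := rfl
    have hx2 : (fun e => x (some e)) = v := rfl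
    have e1 : T' x none = z - extend n S.E R V v a := by
      rw [hT']
      have := StepMarkB_none S w a ρ x
      rw [hx1, hx2] at this
      exact this
    have e2 : (fun e => T' x (some e)) = T v + StepMarkB_D S w a ρ (z - extend n S.E R V v a) := by
      funext e
      rw [hT']
      have := StepMarkB_row S w a ρ x e
      rw [hx1, hx2] at this
      exact this
    change (T' x none, fun e => T' x (some e)) = (z + G v, T v + StepMarkB_D S w a ρ (z + G v))
    have e3 : z + G v = z - extend n S.E R V v a := by
      rw [hG, LinearMap.neg_apply, ← sub_eq_add_neg]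
      rfl
    rw [e1, e2, e3]
  have h2 := LinearMap.det_conj T' (StepMarkB_eq S.E R V)
  have h3 : LinearMap.det T' = LinearMap.det T := by
    rw [← h2, h1, LinearMap.det_comp, det_upper, mul_one]
    have h4 := det_block (LinearMap.id : Module.End R V) T (StepMarkB_D S w a ρ)
    rw [LinearMap.det_id, one_mul] at h4
    exact h4
  exact h3

theorem stepOK_mark {n : ℕ} (m : ℕ) (S : Sk n) (w : S.W) (a : S.Arc) :
    StepOK m ⟨S, w⟩ ⟨S.mark a, S.markW a w⟩ := by
  intro η hη
  refine ⟨S.markCol a η, isCol_mark S w a hη, fun j => ⟨0, fun u u' hu hu' => ?_⟩,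
    fun _ => 0, ?_⟩
  · rw [long_mark S w a hu hu', zpow_zero, one_mul]
    exact StepMarkA_map S a η u
  · intro R _ t _ r ψ _
    have h1 : (fun b => ψ (S.markCol a η b)) = S.markCol a (fun b => ψ (η b)) := by
      funext b
      rcases b with i | (_ | e) <;> rfl
    simp only [zpow_zero, Finset.prod_const_one, Units.val_one, one_mul]
    rw [h1]
    exact alex_mark S w a (fun b => ψ (η b))

end Pool.Agent.H61.Tu
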