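import Pool.Agent.H61.Tu.StepRename
import Pool.Agent.H61.Tu.StepMarkB
import Pool.Agent.H61.Tu.DetLemmas
import Pool.Agent.H61.Tu.FoxGam

/-!
# The Alexander determinant of an insertion   [H61 TU IAL]

`X = ⟨S, w⟩`, `G = S.mark (inl j)`, `ρ' = S.markCol (inl j) ρ`, `T = S.alexMap w ρ`. Write
`Option S.E → V` as `V × (S.E → V)` (see `StepMarkB.lean`), elements `(z, v)`. The extended
vector is `0` on `inl i`, `z` on `inr none`, `v e` on `inr (some e)`. `ρ' (up S j a) = ρ a`.
* row `none`: source `inl j`, extended value `0`, word `c' = map (letterMap G none) c`.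
  By `foxF_map` `foxF ρ' c' (..) = foxF (fun o => ρ (inl (sub j o))) c (single none z)`
  (`ρ' (letterMap G none o) = ρ (inl (sub j o))`). So the row is `z - (lift ρ' c')⁻¹ (κ z)`,
  `κ = kap j (fun i => ρ (inl i)) c`. By `fox_gam` (and `ρ a = 1 + t • ..`):
  `κ = t • .. ∘ t^m • .. = t^(m+1) • ..` and `lift ρ' c' = 1 + t^(m+1) • ..`, its inverse too, and
  `t^(m+1) * t^(m+1) = 0`; so the row is `z - κ z`.
* row `some e`: the source is `up S j (src e)`, the word `map (up S j) (w e)`: by `foxF_map` it is
  the row `e` of `T`, with the extended vector having the value `z` instead of `0` at `inl j`: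
  linear in `(z, v)`, equal to `T v e + D z e` for a linear map `D`.
So `det = det (1 - κ) * det T` (`det_block`).
-/

namespace Pool.Agent.H61.Tu

open Diagram Relation
open scoped commutatorElement

private theorem kap_apply' {n : ℕ} {R : Type} [CommRing R] {V : Type} [AddCommGroup V]
    [Module R V] (j : Fin n) (ρ : Fin n → (Module.End R V)ˣ) (c : FreeGroup (Option (Fin n)))
    (z : V) : kap j ρ c z = (ρ j).val (foxF (fun o => ρ (sub j o)) c
      (LinearMap.single R (fun _ : Option (Fin n) => V) none z)) -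
      foxF (fun o => ρ (sub j o)) c (LinearMap.single R (fun _ : Option (Fin n) => V) none z) := by
  rw [kap, LinearMap.comp_apply, LinearMap.comp_apply, LinearMap.sub_apply,
    Module.End.one_apply]

private theorem lift_map_ins {A B H : Type*} [Group H] (σ : A → B) (ρ : B → H)
    (x : FreeGroup A) :
    FreeGroup.lift ρ (FreeGroup.map σ x) = FreeGroup.lift (fun a => ρ (σ a)) x := by
  have h : (FreeGroup.lift ρ).comp (FreeGroup.map σ) = FreeGroup.lift (fun a => ρ (σ a)) := by
    ext a
    simp
  exact DFunLike.congr_fun h x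

private theorem kap_fix {n m : ℕ} (c : FreeGroup (Option (Fin n))) (j : Fin n)
    (hc : c ∈ gam (FreeGroup (Option (Fin n))) m) {R : Type} [CommRing R] (t : R)
    (ht : t ^ (m + 2) = 0) {V : Type} [AddCommGroup V] [Module R V]
    (ρ : Fin n → (Module.End R V)ˣ)
    (hρ : ∀ a, ∃ M : Module.End R V, (ρ a).val = 1 + t • M) (z : V) :
    ((FreeGroup.lift (fun o => ρ (sub j o)) c)⁻¹ : (Module.End R V)ˣ).val (kap j ρ c z) =
      kap j ρ c z := by
  obtain ⟨⟨K, hK⟩, L, hL⟩ := fox_gam t (fun o => ρ (sub j o)) (fun o => hρ _) m c hc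
  obtain ⟨M, hM⟩ := hρ j
  have h1 : ∃ y, kap j ρ c z = t ^ (m + 1) • y := by
    refine ⟨M (L (LinearMap.single R (fun _ : Option (Fin n) => V) none z)), ?_⟩
    rw [kap_apply', hM, hL, LinearMap.add_apply, Module.End.one_apply, add_sub_cancel_left,
      LinearMap.smul_apply, LinearMap.smul_apply, map_smul, smul_smul, ← pow_succ']
  obtain ⟨y, hy⟩ := h1
  have h2 : (FreeGroup.lift (fun o => ρ (sub j o)) c).val (kap j ρ c z) = kap j ρ c z := by
    rw [hK, LinearMap.add_apply, Module.End.one_apply, LinearMap.smul_apply, hy, map_smul,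
      smul_smul, ← pow_add]
    have h3 : t ^ (m + 1 + (m + 1)) = 0 := by
      rw [show m + 1 + (m + 1) = (m + 2) + m by omega, pow_add, ht, zero_mul]
    rw [h3, zero_smul, add_zero]
  conv_lhs => rw [← h2]
  rw [← Module.End.mul_apply, ← Units.val_mul, inv_mul_cancel, Units.val_one,
    Module.End.one_apply]

private theorem col_up {n : ℕ} (S : Sk n) (j : Fin n) {H : Type*} (ρ : S.Arc → H) (a : S.Arc) :
    S.markCol (Sum.inl j) ρ (up S j a) = ρ a := by
  rcases a with i | e
  · by_cases h : i = j
    · subst h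
      simp only [up, if_true]
      rfl
    · simp only [up, if_neg h]
      rfl
  · rfl

private theorem row_none {n m : ℕ} (S : Sk n) (w : S.W) (j : Fin n)
    (c : FreeGroup (Option (Fin n)))
    (hc : c ∈ gam (FreeGroup (Option (Fin n))) m) {R : Type} [CommRing R] (t : R)
    (ht : t ^ (m + 2) = 0) {V : Type} [AddCommGroup V] [Module R V]
    (ρ : S.Arc → (Module.End R V)ˣ)
    (hρ : ∀ a, ∃ M : Module.End R V, (ρ a).val = 1 + t • M) (x : (S.mark (Sum.inl j)).E → V) :
    (S.mark (Sum.inl j)).alexMap (S.insW j c w) (S.markCol (Sum.inl j) ρ) x none =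
      x none - kap j (fun i => ρ (Sum.inl i)) c (x none) := by
  rw [Sk.alexMap_apply]
  have h1 : S.insW j c w none = FreeGroup.map (letterMap (S.mark (Sum.inl j)) none) c := rfl
  have h2 : (S.mark (Sum.inl j)).src none = Sum.inl j := rfl
  have h3 : extend n (S.mark (Sum.inl j)).E R V x (Sum.inl j) = 0 := rfl
  have h4 : S.markCol (Sum.inl j) ρ (Sum.inl j) = ρ (Sum.inl j) := rfl
  have h5 : (fun o => S.markCol (Sum.inl j) ρ (letterMap (S.mark (Sum.inl j)) none o)) =
      fun o => ρ (Sum.inl (sub j o)) := by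
    funext o
    cases o <;> rfl
  have h6 : (fun o => extend n (S.mark (Sum.inl j)).E R V x
      (letterMap (S.mark (Sum.inl j)) none o)) =
      LinearMap.single R (fun _ : Option (Fin n) => V) none (x none) := by
    funext o
    cases o with
    | none =>
      rw [LinearMap.single_apply, Pi.single_eq_same]
      rfl
    | some i =>
      rw [LinearMap.single_apply, Pi.single_eq_of_ne (by simp)]
      rfl
  rw [h1, h2, h3, h4, zero_add, foxF_map, lift_map_ins, h5, h6,
    ← kap_apply' j (fun i => ρ (Sum.inl i)) c (x none),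
    kap_fix c j hc t ht (fun i => ρ (Sum.inl i)) (fun a => hρ _)]

open Classical in
/-- the change of the Alexander map -/
private noncomputable def insD {n : ℕ} (S : Sk n) (w : S.W) (j : Fin n) {R : Type} [CommRing R]
    {V : Type} [AddCommGroup V] [Module R V] (ρ : S.Arc → (Module.End R V)ˣ) :
    V →ₗ[R] (S.E → V) :=
  LinearMap.pi fun e => -(((FreeGroup.lift ρ (w e))⁻¹ : (Module.End R V)ˣ).val ∘ₗ
      (LinearMap.proj (S.src e) +
        ((ρ (S.src e) : Module.End R V) - 1) ∘ₗ foxF ρ (w e)) ∘ₗ
          LinearMap.single R (fun _ : S.Arc => V) (Sum.inl j))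

private theorem row_some {n : ℕ} (S : Sk n) (w : S.W) (j : Fin n)
    (c : FreeGroup (Option (Fin n))) {R : Type} [CommRing R]
    {V : Type} [AddCommGroup V] [Module R V]
    (ρ : S.Arc → (Module.End R V)ˣ) (x : (S.mark (Sum.inl j)).E → V) (e : S.E) :
    (S.mark (Sum.inl j)).alexMap (S.insW j c w) (S.markCol (Sum.inl j) ρ) x (some e) =
      S.alexMap w ρ (fun e => x (some e)) e + insD S w j ρ (x none) e := by
  classical
  rw [Sk.alexMap_apply, Sk.alexMap_apply]
  have h5 : (fun a => S.markCol (Sum.inl j) ρ (up S j a)) = ρ := by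
    funext a
    exact col_up S j ρ a
  have h6 : (fun a => extend n (S.mark (Sum.inl j)).E R V x (up S j a)) =
      extend n S.E R V (fun e => x (some e)) +
        LinearMap.single R (fun _ : S.Arc => V) (Sum.inl j) (x none) := by
    funext a
    rw [Pi.add_apply, LinearMap.single_apply]
    rcases a with i | e
    · by_cases h : i = j
      · subst h
        rw [Pi.single_eq_same]
        simp only [up, if_true]
        change x none = 0 + x none
        rw [zero_add]
      · rw [Pi.single_eq_of_ne (by simpa using h)]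
        simp only [up, if_neg h]
        change (0 : V) = 0 + 0
        rw [zero_add]
    · rw [Pi.single_eq_of_ne (by simp), add_zero]
      rfl
  have h7 := congrFun h6 (S.src e)
  have hD : insD S w j ρ (x none) e = -(((FreeGroup.lift ρ (w e))⁻¹ : (Module.End R V)ˣ).val
      (LinearMap.single R (fun _ : S.Arc => V) (Sum.inl j) (x none) (S.src e) +
        ((ρ (S.src e)).val (foxF ρ (w e) (LinearMap.single R (fun _ : S.Arc => V) (Sum.inl j)
          (x none))) - foxF ρ (w e) (LinearMap.single R (fun _ : S.Arc => V) (Sum.inl j)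
          (x none))))) := rfl
  have h8 : FreeGroup.lift (S.markCol (Sum.inl j) ρ) (S.insW j c w (some e)) =
      FreeGroup.lift ρ (w e) :=
    (lift_map_ins _ _ _).trans (congrArg (fun r : S.Arc → (Module.End R V)ˣ =>
      FreeGroup.lift r (w e)) h5)
  have h9 : foxF (S.markCol (Sum.inl j) ρ) (S.insW j c w (some e))
      (extend n (S.mark (Sum.inl j)).E R V x) =
      foxF ρ (w e) (extend n S.E R V (fun e => x (some e)) +
        LinearMap.single R (fun _ : S.Arc => V) (Sum.inl j) (x none)) :=
    (foxF_map _ _ _ _).trans (congrArg₂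
      (fun (r : S.Arc → (Module.End R V)ˣ) (y : S.Arc → V) => foxF r (w e) y) h5 h6)
  rw [Pi.add_apply] at h7
  rw [h8, h9, mark_src_some, col_up, hD, h7]
  simp only [map_add, map_sub]
  abel

theorem alex_ins {n m : ℕ} (X : WD n) (j : Fin n) (c : FreeGroup (Option (Fin n)))
    (hc : c ∈ gam (FreeGroup (Option (Fin n))) m) {R : Type} [CommRing R] (t : R)
    (ht : t ^ (m + 2) = 0) {V : Type} [AddCommGroup V] [Module R V] [Module.Free R V]
    [Module.Finite R V] (ρ : X.S.Arc → (Module.End R V)ˣ)
    (hρ : ∀ a, ∃ M : Module.End R V, (ρ a).val = 1 + t • M) :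
    (X.ins j c).S.alex (X.ins j c).w (X.S.markCol (Sum.inl j) ρ) =
      LinearMap.det (1 - kap j (fun i => ρ (Sum.inl i)) c : Module.End R V) *
        X.S.alex X.w ρ := by
  classical
  obtain ⟨S, w⟩ := X
  have := S.finite
  have : Fintype S.E := Fintype.ofFinite S.E
  unfold Sk.alex
  change LinearMap.det ((S.mark (Sum.inl j)).alexMap (S.insW j c w) (S.markCol (Sum.inl j) ρ)) =
    LinearMap.det (1 - kap j (fun i => ρ (Sum.inl i)) c : Module.End R V) *
      LinearMap.det (S.alexMap w ρ)
  set T : Module.End R (S.E → V) := S.alexMap w ρ with hT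
  set T' : Module.End R (Option S.E → V) :=
    (S.mark (Sum.inl j)).alexMap (S.insW j c w) (S.markCol (Sum.inl j) ρ) with hT'
  set κ : Module.End R V := kap j (fun i => ρ (Sum.inl i)) c with hκ
  have h1 : ((StepMarkB_eq S.E R V).toLinearMap ∘ₗ T' ∘ₗ (StepMarkB_eq S.E R V).symm.toLinearMap :
      Module.End R (V × (S.E → V))) =
      (LinearMap.prod ((1 - κ : Module.End R V) ∘ₗ LinearMap.fst R V (S.E → V))
        (T ∘ₗ LinearMap.snd R V (S.E → V) + insD S w j ρ ∘ₗ
          LinearMap.fst R V (S.E → V))) := by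
    apply LinearMap.ext
    rintro ⟨z, v⟩
    set x : Option S.E → V := (StepMarkB_eq S.E R V).symm (z, v) with hx
    have hx1 : x none = z := rfl
    have hx2 : (fun e => x (some e)) = v := rfl
    have e1 : T' x none = z - κ z := by
      have := row_none S w j c hc t ht ρ hρ x
      rw [hx1] at this
      exact this
    have e2 : (fun e => T' x (some e)) = T v + insD S w j ρ z := by
      funext e
      have := row_some S w j c ρ x e
      rw [hx1, hx2] at this
      exact this
    change (T' x none, fun e => T' x (some e)) = (z - κ z, T v + insD S w j ρ z)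
    rw [e1, e2]
  have h2 := LinearMap.det_conj T' (StepMarkB_eq S.E R V)
  have h3 : LinearMap.det T' = LinearMap.det (1 - κ : Module.End R V) * LinearMap.det T := by
    rw [← h2, h1]
    exact det_block (1 - κ : Module.End R V) T (insD S w j ρ)
  exact h3

end Pool.Agent.H61.Tu
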