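import Pool.Agent.H61.Tu.FoxGam
import Pool.Agent.H61.Tu.Paths

/-!
# Surgery   [H61 TU COM]

`η' = η`, all exponents `0`. `c ∈ gam (FreeGroup S.Arc) m` maps to `gam (Ga n m) m = ⊥`
(`gam_map`, `gam_Ga`), so `lift η (w e * c) = lift η (w e)`; colouring and longitudes as in
`StepSlide.lean`. Alexander map: `ρ = ψ ∘ η`. Every colour is `1 + t M`: `η a` is conjugate to a
generator (`path_exists`, `path_col`), and `1 + t M` is preserved by conjugation. By `fox_gam`:
`foxF ρ c = t^m • K`, `(ρ (src e)).val - 1 = t • M`, so `(ρ a - 1) (W (foxF ρ c v)) = 0` as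
`t^(m+1) = 0`, and `lift ρ (w e * c) = lift ρ (w e)`. Hence the row of `e` does not change.
-/

namespace Pool.Agent.H61.Tu

open Diagram Relation
open scoped commutatorElement

/-- all colours are `1 + t M` -/
theorem col_one_add {n m : ℕ} {S : Sk n} {w : S.W} {η : S.Arc → Ga n m}
    (hη : S.IsCol w (xg n m) η) {R : Type} [CommRing R] {V : Type} [AddCommGroup V] [Module R V]
    (t : R) (ψ : Ga n m →* (Module.End R V)ˣ)
    (hψ : ∀ i, ∃ M : Module.End R V, (ψ (xg n m i)).val = 1 + t • M) (a : S.Arc) :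
    ∃ M : Module.End R V, (ψ (η a)).val = 1 + t • M := by
  obtain ⟨j, u, h⟩ := path_exists S w a
  obtain ⟨M, hM⟩ := hψ j
  refine ⟨((ψ (FreeGroup.lift η u))⁻¹).val * M * (ψ (FreeGroup.lift η u)).val, ?_⟩
  rw [path_col hη h, map_mul, map_mul, map_inv, Units.val_mul, Units.val_mul, hM, mul_add,
    add_mul, mul_one, Units.inv_mul, mul_smul_comm, smul_mul_assoc]

private theorem com_path {n m : ℕ} {S : Sk n} {w : S.W} {e : S.E} {c : FreeGroup S.Arc}
    {η : S.Arc → Ga n m} (hc : FreeGroup.lift η c = 1) {j : Fin n} {a : S.Arc}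
    {v : FreeGroup S.Arc} (h : S.Path w j a v) :
    ∃ v', S.Path (S.upd w e (w e * c)) j a v' ∧ FreeGroup.lift η v' = FreeGroup.lift η v := by
  induction h with
  | base => exact ⟨1, Sk.Path.base, rfl⟩
  | step f u _ ih =>
    obtain ⟨v', h1, h2⟩ := ih
    refine ⟨v' * S.upd w e (w e * c) f, Sk.Path.step f v' h1, ?_⟩
    rw [map_mul, map_mul, h2]
    by_cases hf : f = e
    · subst hf
      rw [S.upd_same, map_mul, hc, mul_one]
    · rw [S.upd_ne w hf]

theorem stepOK_comm {n : ℕ} (m : ℕ) (S : Sk n) (w : S.W) (e : S.E) (c : FreeGroup S.Arc)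
    (hc : c ∈ gam (FreeGroup S.Arc) m) : StepOK m ⟨S, w⟩ ⟨S, S.upd w e (w e * c)⟩ := by
  intro η hη
  have hc1 : FreeGroup.lift η c = 1 := by
    have h1 := gam_map (FreeGroup.lift η) m hc
    rw [gam_Ga, Subgroup.mem_bot] at h1
    exact h1
  refine ⟨η, ⟨hη.1, ?_⟩, ?_, ?_⟩
  · intro f
    show η (Sum.inr f) = (FreeGroup.lift η (S.upd w e (w e * c) f))⁻¹ * η (S.src f) *
      FreeGroup.lift η (S.upd w e (w e * c) f)
    by_cases hf : f = e
    · rw [hf, S.upd_same, map_mul, hc1, mul_one]
      exact hη.2 e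
    · rw [S.upd_ne w hf]
      exact hη.2 f
  · intro j
    refine ⟨0, ?_⟩
    rintro u u' ⟨a, hp, ha⟩ hu'
    obtain ⟨v', h1, h2⟩ := com_path (e := e) hc1 hp
    have h3 : S.IsLong (S.upd w e (w e * c)) j v' := ⟨a, h1, ha⟩
    rw [isLong_unique hu' h3, h2, zpow_zero, one_mul]
  · refine ⟨fun _ => 0, ?_⟩
    intro R _ t ht r ψ hψ
    have hlift : ∀ x : FreeGroup S.Arc, FreeGroup.lift (fun a => ψ (η a)) x =
        ψ (FreeGroup.lift η x) := by
      intro x
      have h1 : FreeGroup.lift (fun a => ψ (η a)) = ψ.comp (FreeGroup.lift η) := by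
        apply FreeGroup.ext_hom
        intro a
        simp
      rw [h1]
      rfl
    have hone := fun a => col_one_add hη t ψ hψ a
    obtain ⟨_, K, hK⟩ := fox_gam t (fun a => ψ (η a)) hone m c hc
    obtain ⟨M, hM⟩ := hone (S.src e)
    have hmap : S.alexMap (S.upd w e (w e * c)) (fun a => ψ (η a)) =
        S.alexMap w (fun a => ψ (η a)) := by
      apply LinearMap.ext
      intro v
      funext f
      rw [Sk.alexMap_apply, Sk.alexMap_apply]
      by_cases hf : f = e
      · subst hf
        have hl : FreeGroup.lift (fun a => ψ (η a)) (w f * c) =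
            FreeGroup.lift (fun a => ψ (η a)) (w f) := by
          rw [hlift, hlift, map_mul, hc1, mul_one]
        rw [S.upd_same, hl, foxF_mul_apply, hK]
        congr 2
        have h3 : ((ψ (η (S.src f)) : (Module.End R (Fin r → R))ˣ)).val
            ((FreeGroup.lift (fun a => ψ (η a)) (w f)).val
              ((t ^ m • K) (extend n S.E R (Fin r → R) v))) =
            (FreeGroup.lift (fun a => ψ (η a)) (w f)).val
              ((t ^ m • K) (extend n S.E R (Fin r → R) v)) := by
          rw [hM, LinearMap.add_apply, Module.End.one_apply, LinearMap.smul_apply,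
            LinearMap.smul_apply, map_smul, map_smul, smul_smul, ← pow_succ', ht, zero_smul,
            add_zero]
        rw [map_add]
        simp only [] at h3 ⊢
        rw [h3]
        abel
      · rw [S.upd_ne w hf]
    show S.alex (S.upd w e (w e * c)) _ = _ * S.alex w _
    unfold Sk.alex
    rw [hmap]
    simp

end Pool.Agent.H61.Tu
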