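import Pool.Agent.H61.Tu.InsCol
import Pool.Agent.H61.Tu.InsAlex
import Pool.Agent.H61.Tu.StepComm

/-!
# Insertion in several strands   [H61 TU IAL2]

Induction on `l` with `isCol_ins`, `long_ins` (and `isLong_exists` for the intermediate diagram),
`alex_ins` for `ρ = ψ ∘ η` (all colours are `1 + t • ..` by `col_one_add`;
`ψ ∘ (markCol a η) = markCol a (ψ ∘ η)`, and the colours of the bottom arcs are `xg`).
`List.count` of `j' :: l`, `pow_succ'`. `act_insL`: induction with `A.act_b`, `A.act_add`,
`A.act_zero`.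
-/

namespace Pool.Agent.H61.Tu

open Diagram Relation
open scoped commutatorElement

/-- insertion of `c j` at the bottom of the strands `j` in the list -/
noncomputable def insL {n : ℕ} (c : Fin n → FreeGroup (Option (Fin n))) :
    List (Fin n) → WD n → WD n
  | [], X => X
  | j :: l, X => (insL c l X).ins j (c j)

private theorem insAll_markCol {n : ℕ} (S : Sk n) (a : S.Arc) {H H' : Type*} (ψ : H → H')
    (η : S.Arc → H) : (fun b => ψ (S.markCol a η b)) = S.markCol a (fun b => ψ (η b)) := by
  funext b
  rcases b with i | _ | e <;> rfl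

theorem insL_data {n m : ℕ} (c : Fin n → FreeGroup (Option (Fin n)))
    (hc : ∀ j, c j ∈ gam (FreeGroup (Option (Fin n))) m) (l : List (Fin n)) (X : WD n)
    (η : X.S.Arc → Ga n (m + 1)) (hη : X.S.IsCol X.w (xg n (m + 1)) η) :
    ∃ η' : (insL c l X).S.Arc → Ga n (m + 1),
      (insL c l X).S.IsCol (insL c l X).w (xg n (m + 1)) η' ∧
      (∀ j u u', X.S.IsLong X.w j u → (insL c l X).S.IsLong (insL c l X).w j u' →
        FreeGroup.lift η' u' = tree (m + 1) j (c j) ^ (l.count j) * FreeGroup.lift η u) ∧
      ∀ (R : Type) [CommRing R] (t : R), t ^ (m + 2) = 0 → ∀ (r : ℕ)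
        (ψ : Ga n (m + 1) →* (Module.End R (Fin r → R))ˣ),
        (∀ i, ∃ M : Module.End R (Fin r → R), (ψ (xg n (m + 1) i)).val = 1 + t • M) →
        (insL c l X).S.alex (insL c l X).w (fun a => ψ (η' a)) =
          (l.map fun j => LinearMap.det
            (1 - kap j (fun i => ψ (xg n (m + 1) i)) (c j) :
              Module.End R (Fin r → R))).prod *
            X.S.alex X.w (fun a => ψ (η a)) := by
  induction l with
  | nil =>
    refine ⟨η, hη, ?_, ?_⟩
    · intro j u u' hu hu'
      have h1 : u' = u := isLong_unique hu' hu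
      rw [h1, List.count_nil, pow_zero, one_mul]
      rfl
    · intro R _ t _ r ψ _
      change X.S.alex X.w (fun a => ψ (η a)) = _
      rw [List.map_nil, List.prod_nil, one_mul]
  | cons j l ih =>
    obtain ⟨η₁, hη₁, hlong, halex⟩ := ih
    refine ⟨(insL c l X).S.markCol (Sum.inl j) η₁, isCol_ins (insL c l X) j (c j) (hc j) η₁ hη₁,
      ?_, ?_⟩
    · intro j' u u' hu hu'
      obtain ⟨u₁, hu₁⟩ := isLong_exists (insL c l X).S (insL c l X).w j'
      have h1 := long_ins (insL c l X) j (c j) η₁ hη₁ j' u₁ u' hu₁ hu'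
      have h2 := hlong j' u u₁ hu hu₁
      refine h1.trans ?_
      rw [h2, List.count_cons]
      by_cases hj : j' = j
      · subst hj
        rw [if_pos rfl, beq_self_eq_true, if_pos rfl, pow_succ', mul_assoc]
      · rw [if_neg hj, one_mul]
        have h3 : (j == j') = false := beq_eq_false_iff_ne.2 (fun h => hj h.symm)
        rw [h3]
        simp
    · intro R _ t ht r ψ hψ
      have h1 := alex_ins (insL c l X) j (c j) (hc j) t ht (fun a => ψ (η₁ a))
        (fun a => col_one_add hη₁ t ψ hψ a)
      have h2 := halex R t ht r ψ hψ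
      have h3 : (fun i => ψ (η₁ (Sum.inl i))) = fun i => ψ (xg n (m + 1) i) := by
        funext i
        rw [hη₁.1 i]
      rw [h3, h2, ← mul_assoc] at h1
      rw [List.map_cons, List.prod_cons, ← h1]
      exact congrArg (((insL c l X).ins j (c j)).S.alex ((insL c l X).ins j (c j)).w)
        (insAll_markCol (insL c l X).S (Sum.inl j) ψ η₁)

theorem act_insL {n m : ℕ} (A : Act n m) (c : Fin n → FreeGroup (Option (Fin n)))
    (hc : ∀ j, c j ∈ gam (FreeGroup (Option (Fin n))) m) (l : List (Fin n)) (X : WD n) :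
    (Quot.mk _ (insL c l X) : Quot (WStep (n := n) (m + 1))) =
      A.act ((l.map fun j => A.b j (c j)).sum) (Quot.mk _ X) := by
  induction l with
  | nil =>
    rw [List.map_nil, List.sum_nil, A.act_zero]
    rfl
  | cons j l ih =>
    rw [List.map_cons, List.sum_cons, A.act_add, ← ih, A.act_b j (c j) (hc j)]
    rfl

end Pool.Agent.H61.Tu
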