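import Pool.Agent.H61.Tu.InsOne
import Pool.Agent.H61.Tu.Paths

/-!
# Colours and longitudes of an insertion   [H61 TU ICL]

`X = ⟨S, w⟩`, `G = S.mark (inl j)`, `η' = S.markCol (inl j) η`, target `Ga n (m+1)`, `c ∈ gam m`.
* The image of `gam (FreeGroup A) m` under any hom to `Ga n (m+1)` is in `gam (Ga n (m+1)) m`,
  which is central, because `gam (Ga n (m+1)) (m+1) = ⊥` (`gam_Ga`, `commutator_mem_gam`).
* `η' (up S j a) = η a` for all arcs `a` of `S` (for `a = inl j`: `η' (inr none) = η (inl j)`), so
  `lift η' (map (up S j) u) = lift η u`. `η' (letterMap G none o) = xg (sub j o)`, so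
  `lift η' (map (letterMap G none) c) = tree (m+1) j c`.
* colouring: at `none`: source `inl j`, colour `xg j`; the word is central: colour `xg j`. At
  `some e`: `mark_src_some`.
* longitudes: if `S.Path w i a u` with `i ≠ j` then `G.Path .. i (up S j a) (map (up S j) u)`; if
  `S.Path w j a u` then `G.Path .. j (up S j a) (c' * map (up S j) u)` with
  `c' = map (letterMap G none) c` (for `a = inl j` this is the path to `inr none`:
  `1 * c'`). Top arcs: `a` is not a source in `S` iff `up S j a` is not a source in `G`.
  `isLong_unique`.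
-/

namespace Pool.Agent.H61.Tu

open Diagram Relation
open scoped commutatorElement

private theorem icl_up {n : ℕ} {H : Type*} (S : Sk n) (j : Fin n) (η : S.Arc → H) (a : S.Arc) :
    S.markCol (Sum.inl j) η (insUp S j a) = η a := by
  rcases a with i | e
  · by_cases hij : i = j
    · subst hij
      have e1 : insUp S i (Sum.inl i) = Sum.inr (insNone S (Sum.inl i)) := by
        change up S i (Sum.inl i) = _
        rw [up, if_pos rfl]
        rfl
      rw [e1]
      rfl
    · have e1 : insUp S j (Sum.inl i) = Sum.inl i := by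
        change up S j (Sum.inl i) = _
        rw [up, if_neg hij]
        rfl
      rw [e1]
      rfl
  · rfl

private theorem icl_lift_up {n : ℕ} {H : Type*} [Group H] (S : Sk n) (j : Fin n) (η : S.Arc → H)
    (u : FreeGroup S.Arc) : FreeGroup.lift (S.markCol (Sum.inl j) η)
      (FreeGroup.map (insUp S j) u) = FreeGroup.lift η u := by
  have h : (FreeGroup.lift (S.markCol (Sum.inl j) η)).comp (FreeGroup.map (insUp S j)) =
      FreeGroup.lift η := by
    apply FreeGroup.ext_hom
    intro a
    rw [MonoidHom.comp_apply, FreeGroup.map.of, FreeGroup.lift_apply_of, FreeGroup.lift_apply_of, icl_up]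
  exact DFunLike.congr_fun h u

private theorem icl_lift_none {n m : ℕ} (S : Sk n) (w : S.W) (j : Fin n) (η : S.Arc → Ga n (m + 1))
    (hη : S.IsCol w (xg n (m + 1)) η) (c : FreeGroup (Option (Fin n))) :
    FreeGroup.lift (S.markCol (Sum.inl j) η)
      (FreeGroup.map (letterMap (S.mark (Sum.inl j)) (insNone S (Sum.inl j))) c) =
      tree (m + 1) j c := by
  have h : (FreeGroup.lift (S.markCol (Sum.inl j) η)).comp
      (FreeGroup.map (letterMap (S.mark (Sum.inl j)) (insNone S (Sum.inl j)))) =
      tree (m + 1) j := by
    apply FreeGroup.ext_hom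
    intro o
    rw [MonoidHom.comp_apply, FreeGroup.map.of, FreeGroup.lift_apply_of, tree, FreeGroup.lift_apply_of]
    rcases o with _ | i
    · exact hη.1 j
    · exact hη.1 i
  exact DFunLike.congr_fun h c

private theorem icl_central {n m : ℕ} {z : Ga n (m + 1)} (hz : z ∈ gam (Ga n (m + 1)) m)
    (g : Ga n (m + 1)) : z⁻¹ * g * z = g := by
  have h1 := (commutator_mem_gam hz g).1
  rw [gam_Ga, Subgroup.mem_bot, commutatorElement_eq_one_iff_mul_comm] at h1
  rw [mul_assoc, ← h1, inv_mul_cancel_left]

theorem isCol_ins {n m : ℕ} (X : WD n) (j : Fin n) (c : FreeGroup (Option (Fin n)))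
    (hc : c ∈ gam (FreeGroup (Option (Fin n))) m) (η : X.S.Arc → Ga n (m + 1))
    (hη : X.S.IsCol X.w (xg n (m + 1)) η) :
    (X.ins j c).S.IsCol (X.ins j c).w (xg n (m + 1)) (X.S.markCol (Sum.inl j) η) := by
  refine ⟨fun i => hη.1 i, ?_⟩
  have key : ∀ o : Option X.S.E, X.S.markCol (Sum.inl j) η (Sum.inr o) =
      (FreeGroup.lift (X.S.markCol (Sum.inl j) η) ((X.ins j c).w o))⁻¹ *
        X.S.markCol (Sum.inl j) η ((X.ins j c).S.src o) *
          FreeGroup.lift (X.S.markCol (Sum.inl j) η) ((X.ins j c).w o) := by
    intro o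
    rcases o with _ | e
    · have h1 : FreeGroup.lift (X.S.markCol (Sum.inl j) η) ((X.ins j c).w none) =
          tree (m + 1) j c := icl_lift_none X.S X.w j η hη c
      have h2 : tree (m + 1) j c ∈ gam (Ga n (m + 1)) m := gam_map _ m hc
      rw [h1, icl_central h2]
      rfl
    · have h1 : FreeGroup.lift (X.S.markCol (Sum.inl j) η) ((X.ins j c).w (some e)) =
          FreeGroup.lift η (X.w e) := icl_lift_up X.S j η (X.w e)
      have h2 : X.S.markCol (Sum.inl j) η ((X.ins j c).S.src (some e)) = η (X.S.src e) := by
        have h3 : (X.ins j c).S.src (some e) = insUp X.S j (X.S.src e) := mark_src_some X.S j e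
        rw [h3, icl_up]
      rw [h1, h2]
      exact hη.2 e
  exact key

private theorem icl_inj {n : ℕ} (S : Sk n) (j : Fin n) : Function.Injective (insUp S j) := by
  have key : Function.Injective (up S j) := by
    intro a b h
    rcases a with i | e <;> rcases b with i' | e'
    · simp only [up] at h
      split_ifs at h with h1 h2 h2
      · rw [h1, h2]
      · rw [Sum.inl.inj h]
    · simp only [up] at h
      split_ifs at h with h1
      simp at h
    · simp only [up] at h
      split_ifs at h with h1
      simp at h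
    · simp only [up, Sum.inr.injEq, Option.some.injEq] at h
      rw [h]
  exact key

private theorem icl_ne {n : ℕ} (S : Sk n) (j : Fin n) (a : S.Arc) :
    (Sum.inl j : (S.mark (Sum.inl j)).Arc) ≠ insUp S j a := by
  have key : (Sum.inl j : Fin n ⊕ Option S.E) ≠ up S j a := by
    rcases a with i | e
    · simp only [up]
      split_ifs with h1
      · simp
      · intro h
        exact h1 (Sum.inl.inj h).symm
    · simp [up]
  exact key

private theorem icl_path {n : ℕ} (X : WD n) (j : Fin n) (c : FreeGroup (Option (Fin n)))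
    (i : Fin n) (a : X.S.Arc) (u : FreeGroup X.S.Arc) (h : X.S.Path X.w i a u) :
    (X.ins j c).S.Path (X.ins j c).w i (insUp X.S j a)
      ((if i = j then
        FreeGroup.map (letterMap (X.S.mark (Sum.inl j)) (insNone X.S (Sum.inl j))) c else 1) *
        FreeGroup.map (insUp X.S j) u) := by
  induction h with
  | base =>
    rw [map_one, mul_one]
    by_cases hij : i = j
    · subst hij
      rw [if_pos rfl]
      have h1 := Sk.Path.step (S := (X.ins i c).S) (w := (X.ins i c).w) (j := i)
        (insNone X.S (Sum.inl i)) 1 Sk.Path.base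
      rw [one_mul] at h1
      have e1 : insUp X.S i (Sum.inl i) = Sum.inr (insNone X.S (Sum.inl i)) := by
        change up X.S i (Sum.inl i) = _
        rw [up, if_pos rfl]
        rfl
      rw [e1]
      exact h1
    · rw [if_neg hij]
      have e1 : insUp X.S j (Sum.inl i) = Sum.inl i := by
        change up X.S j (Sum.inl i) = _
        rw [up, if_neg hij]
        rfl
      rw [e1]
      exact Sk.Path.base
  | step e v _ ih =>
    have h3 : (X.ins j c).S.src (insSome X.S (Sum.inl j) e) = insUp X.S j (X.S.src e) :=
      mark_src_some X.S j e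
    rw [← h3] at ih
    have h4 := Sk.Path.step (insSome X.S (Sum.inl j) e) _ ih
    have h5 : (X.ins j c).w (insSome X.S (Sum.inl j) e) = FreeGroup.map (insUp X.S j) (X.w e) := rfl
    rw [h5, mul_assoc, ← map_mul] at h4
    exact h4

theorem long_ins {n m : ℕ} (X : WD n) (j : Fin n) (c : FreeGroup (Option (Fin n)))
    (η : X.S.Arc → Ga n (m + 1)) (hη : X.S.IsCol X.w (xg n (m + 1)) η) (i : Fin n)
    (u : FreeGroup X.S.Arc) (u' : FreeGroup (X.ins j c).S.Arc) (hu : X.S.IsLong X.w i u)
    (hu' : (X.ins j c).S.IsLong (X.ins j c).w i u') :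
    FreeGroup.lift (X.S.markCol (Sum.inl j) η) u' =
      (if i = j then tree (m + 1) j c else 1) * FreeGroup.lift η u := by
  obtain ⟨a, ha, hsrc⟩ := hu
  have h1 : (X.ins j c).S.IsLong (X.ins j c).w i
      ((if i = j then
        FreeGroup.map (letterMap (X.S.mark (Sum.inl j)) (insNone X.S (Sum.inl j))) c else 1) *
        FreeGroup.map (insUp X.S j) u) := by
    refine ⟨insUp X.S j a, icl_path X j c i a u ha, ?_⟩
    have key : ∀ o : Option X.S.E, (X.ins j c).S.src o ≠ insUp X.S j a := by
      intro o
      rcases o with _ | e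
      · exact icl_ne X.S j a
      · have h3 : (X.ins j c).S.src (some e) = insUp X.S j (X.S.src e) := mark_src_some X.S j e
        rw [h3]
        exact fun h => hsrc e (icl_inj X.S j h)
    exact key
  rw [isLong_unique hu' h1]
  have h2 : FreeGroup.lift (X.S.markCol (Sum.inl j) η)
      ((if i = j then
        FreeGroup.map (letterMap (X.S.mark (Sum.inl j)) (insNone X.S (Sum.inl j))) c else 1) *
        FreeGroup.map (insUp X.S j) u) =
      (if i = j then tree (m + 1) j c else 1) * FreeGroup.lift η u := by
    rw [map_mul, icl_lift_up]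
    by_cases hij : i = j
    · rw [if_pos hij, if_pos hij, icl_lift_none X.S X.w j η hη c]
    · rw [if_neg hij, if_neg hij, map_one]
  exact h2

end Pool.Agent.H61.Tu
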