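import Pool.Agent.H61.Tu.Bridge

/-!
# Words and lists   [H61 TU LW]

* `setWord_self`, `setWord_setWord`: `Function.update_eq_self`, `Function.update_idem`
  (unfold `Diagram.setWord`; a diagram is a structure, `D = { D with word := D.word }`).
* `wEquiv_red`: one step of `FreeGroup.Red.Step` is the move `r2`.
* `wEquiv_setWord`: `FreeGroup.mk L = FreeGroup.mk L'` is equivalence generated by `Red.Step`
  (`Quot.eqvGen_exact`, `FreeGroup.mk = Quot.mk _`). Prove: `EqvGen Red.Step L L' → WEquiv m
  (D.setWord e L) (D.setWord e L')` by induction on `EqvGen` (`wEquiv_red`), then use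
  `L = D.word e` and `setWord_self`.
* `wEquiv_words`: induction on a finite set `T` of runs (`S.finite`): the diagram with the lists
  `L'` on `T` and `L` outside of `T` is equivalent to `S.dg L` (`Finset.induction_on`, classical;
  one run is changed by `wEquiv_setWord`); `T = Finset.univ`.
* `exists_lst_unused`: `Subgroup.closure_induction`; one letter: `[(b, true)]`; product: `++`
  (`FreeGroup.mul_mk`); inverse: `FreeGroup.invRev` (`FreeGroup.inv_mk`), its letters are
  the letters of the list.
-/

namespace Pool.Agent.H61.Tu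

open Diagram Relation
open scoped commutatorElement

open Classical in
/-- change of one list -/
noncomputable def Sk.updL {n : ℕ} (S : Sk n) (L : S.E → List (S.Arc × Bool)) (e : S.E)
    (K : List (S.Arc × Bool)) : S.E → List (S.Arc × Bool) := Function.update L e K

theorem dg_setWord {n : ℕ} (S : Sk n) (L : S.E → List (S.Arc × Bool)) (e : S.E)
    (K : List (S.Arc × Bool)) : (S.dg L).setWord e K = S.dg (S.updL L e K) := rfl

@[simp] theorem Sk.updL_same {n : ℕ} (S : Sk n) (L : S.E → List (S.Arc × Bool)) (e : S.E)
    (K : List (S.Arc × Bool)) : S.updL L e K e = K := by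
  simp [updL]

theorem Sk.updL_ne {n : ℕ} (S : Sk n) (L : S.E → List (S.Arc × Bool)) {e f : S.E} (h : f ≠ e)
    (K : List (S.Arc × Bool)) : S.updL L e K f = L f := by
  simp [updL, h]

@[simp] theorem Sk.updL_self {n : ℕ} (S : Sk n) (L : S.E → List (S.Arc × Bool)) (e : S.E) :
    S.updL L e (L e) = L := by
  simp [updL]

@[simp] theorem Sk.updL_updL {n : ℕ} (S : Sk n) (L : S.E → List (S.Arc × Bool)) (e : S.E)
    (K K' : List (S.Arc × Bool)) : S.updL (S.updL L e K) e K' = S.updL L e K' := by
  simp [updL]

theorem Sk.updL_comm {n : ℕ} (S : Sk n) (L : S.E → List (S.Arc × Bool)) {e f : S.E} (h : e ≠ f)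
    (K K' : List (S.Arc × Bool)) :
    S.updL (S.updL L e K) f K' = S.updL (S.updL L f K') e K := by
  classical
  simp only [updL]
  exact Function.update_comm h K K' L

theorem setWord_self {n : ℕ} (D : Diagram n) (e : D.E) : D.setWord e (D.word e) = D := by
  classical
  unfold Diagram.setWord
  rw [Function.update_eq_self]

theorem setWord_setWord {n : ℕ} (D : Diagram n) (e : D.E) (L L' : List (D.Arc × Bool)) :
    (D.setWord e L).setWord e L' = D.setWord e L' := by
  unfold Diagram.setWord
  simp only [Function.update_idem]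

theorem setWord_comm {n : ℕ} (D : Diagram n) {e f : D.E} (h : e ≠ f)
    (L L' : List (D.Arc × Bool)) :
    (D.setWord e L).setWord f L' = (D.setWord f L').setWord e L := by
  classical
  unfold Diagram.setWord
  simp only
  congr 1
  exact Function.update_comm h L L' D.word

theorem wEquiv_red {n m : ℕ} (D : Diagram n) (e : D.E) (L L' : List (D.Arc × Bool))
    (h : FreeGroup.Red.Step L L') : WEquiv m (D.setWord e L) (D.setWord e L') := by
  cases h with
  | @not L₁ L₂ x b =>
    have h := Move.r2 (D.setWord e (L₁ ++ (x, b) :: (x, !b) :: L₂)) e x b L₁ L₂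
      (setWord_word_same D e _)
    have h2 := setWord_setWord D e (L₁ ++ (x, b) :: (x, !b) :: L₂) (L₁ ++ L₂)
    rw [← h2]
    exact WEquiv.of_move h

theorem wEquiv_setWord {n m : ℕ} (D : Diagram n) (e : D.E) (L : List (D.Arc × Bool))
    (h : FreeGroup.mk (D.word e) = FreeGroup.mk L) : WEquiv m D (D.setWord e L) := by
  have key : ∀ L L' : List (D.Arc × Bool), EqvGen FreeGroup.Red.Step L L' →
      WEquiv m (D.setWord e L) (D.setWord e L') := by
    intro L L' h
    induction h with
    | rel L L' h => exact wEquiv_red D e L L' h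
    | refl L => exact WEquiv.refl _
    | symm L L' _ ih => exact ih.symm
    | trans L L' L'' _ _ ih ih' => exact ih.trans ih'
  have h1 := key _ _ (Quot.eqvGen_exact h)
  rwa [setWord_self] at h1

theorem wEquiv_words {n m : ℕ} (S : Sk n) (L L' : S.E → List (S.Arc × Bool))
    (h : ∀ e, FreeGroup.mk (L e) = FreeGroup.mk (L' e)) : WEquiv m (S.dg L) (S.dg L') := by
  classical
  have hfin := S.finite
  have := Fintype.ofFinite S.E
  have key : ∀ T : Finset S.E, WEquiv m (S.dg L) (S.dg fun e => if e ∈ T then L' e else L e) := by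
    intro T
    induction T using Finset.induction_on with
    | empty => simpa using WEquiv.refl _
    | insert a T ha ih =>
      refine ih.trans ?_
      have h1 := wEquiv_setWord (m := m) (S.dg fun e => if e ∈ T then L' e else L e) a (L' a)
        (by simp [ha, h a])
      convert h1 using 1
      unfold Diagram.setWord
      simp only
      congr 1
      funext e
      by_cases hea : e = a
      · rw [hea, Function.update_self]
        simp
      · rw [Function.update_of_ne hea]
        simp [hea]
  have h1 := key Finset.univ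
  simpa using h1

theorem exists_lst_unused {n : ℕ} (S : Sk n) (a : S.Arc) (u : FreeGroup S.Arc)
    (h : S.Unused a u) : ∃ L : List (S.Arc × Bool), FreeGroup.mk L = u ∧ ∀ y ∈ L, y.1 ≠ a := by
  unfold Sk.Unused at h
  induction h using Subgroup.closure_induction with
  | mem x hx =>
    obtain ⟨b, hb, rfl⟩ := hx
    refine ⟨[(b, true)], rfl, ?_⟩
    intro y hy
    rw [List.mem_singleton] at hy
    rw [hy]
    exact hb
  | one => exact ⟨[], rfl, by simp⟩
  | mul x y _ _ hx hy =>
    obtain ⟨L, hL, hL'⟩ := hx
    obtain ⟨K, hK, hK'⟩ := hy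
    refine ⟨L ++ K, by rw [← FreeGroup.mul_mk, hL, hK], ?_⟩
    intro z hz
    rcases List.mem_append.1 hz with h | h
    · exact hL' z h
    · exact hK' z h
  | inv x _ hx =>
    obtain ⟨L, hL, hL'⟩ := hx
    refine ⟨FreeGroup.invRev L, by rw [← FreeGroup.inv_mk, hL], ?_⟩
    intro z hz
    unfold FreeGroup.invRev at hz
    rw [List.mem_reverse, List.mem_map] at hz
    obtain ⟨y, hy, rfl⟩ := hz
    exact hL' y hy

end Pool.Agent.H61.Tu
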