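import Pool.Agent.H61.Tu.WD
import Pool.Agent.H61.Tu.Paths

/-!
# Reidemeister I   [H61 TU KINK]

In both cases `η' = η`.
* `kinkL`, new word `of (src e) * w e`: colouring: conjugation by `ρ (src e)` does not change
  `ρ (src e)`. Alexander map: the row of `e` does not change at all:
  `foxF (a * w) = v̂ a + ρ a (foxF w)` and
  `(ρ a * W)⁻¹ (v̂ a + (ρ a - 1)(v̂ a + ρ a (foxF w))) = W⁻¹ (v̂ a + (ρ a - 1) (foxF w))`, where
  `W = lift ρ (w e)` (use `alexMap_apply`, `foxF_mul_apply`, `foxF_of`). Exponents `0`.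
  Longitude of the strand `j`: if `e` is not on the strand `j` it is the same; if `e` is on the
  strand `j` with a path `P` to `src e`, it changes from `P * w e * Q` to
  `P * of (src e) * w e * Q`, and `lift ρ P * ρ (src e) = x j * lift ρ P` by `path_col`: exponent
  `1`. Formally: claim by induction on paths: for every path `S.Path w j a v` there is `v'` with
  `S.Path w' j a v'` and `lift η v' = x j ^ k * lift η v`, where `k = 1` if `e` is below `a` and
  `0` otherwise; for a statement with a fixed `j` it is enough: there is a function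
  `k : S.Arc → ℤ` (by `Sk.exists_rec`: `k (inl i) = 0`, `k (inr g) = k (src g)` for `g ≠ e`,
  `k (inr e) = 1`; note that `k (src e) = 0` is needed, or define `k (inr e) = k (src e) + 1`).
  The exponent `a` for the strand `j` is the value of `k` at its top arc.
* `kinkR`, new word `w e * of (inr e)`: `b = inr e`, `ρ b = W⁻¹ ρ a W`, so the colouring is
  still a colouring. Longitude: exponent `1` at the strand of `e` as before:
  `lift η (P * w e) * η b = (lift η (P * w e)) * (lift η (P * w e))⁻¹ * x j * lift η (P * w e)`.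
  Alexander map: the new row of `e` is `(ρ b)⁻¹` applied to the old one:
  `foxF (w * b) = foxF w + W (v e)`,
  `v e - (ρ b)⁻¹ W⁻¹ [v̂ a + (ρ a - 1)(foxF w + W (v e))]`
  `= v e - (ρ b)⁻¹ W⁻¹ [v̂ a + (ρ a - 1) foxF w] - (ρ b)⁻¹ (ρ b - 1) (v e) = (ρ b)⁻¹ [row e]`.
  So `T' = D ∘ T`, `D` = `(ρ b)⁻¹` at `e`, identity elsewhere; `det D = det (ρ b)⁻¹`: e.g.
  `D = 1 + single e ∘ ((ρ b)⁻¹ - 1) ∘ proj e` and `Matrix`/`det_one_add_comp_comm` (import
  `DetLemmas`), `proj e ∘ single e = 1`. As `ρ b` is conjugate to `x j` (`path_col`),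
  `det (ρ b) = det (x j)`: exponents `-1` at the strand `j` of `e`, `0` elsewhere.
-/

namespace Pool.Agent.H61.Tu

open Diagram Relation
open scoped commutatorElement

theorem StepKink_alex {n : ℕ} (S : Sk n) (w : S.W) (e : S.E) {R : Type} [CommRing R] {V : Type}
    [AddCommGroup V] [Module R V] (ρ : S.Arc → (Module.End R V)ˣ) :
    S.alexMap (S.upd w e (FreeGroup.of (S.src e) * w e)) ρ = S.alexMap w ρ := by
  apply LinearMap.ext
  intro v
  funext g
  rw [Sk.alexMap_apply, Sk.alexMap_apply]
  by_cases hg : g = e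
  · subst hg
    rw [Sk.upd_same, map_mul, FreeGroup.lift_apply_of, foxF_mul_apply, foxF_of,
      FreeGroup.lift_apply_of]
    congr 1
    set A := ρ (S.src g) with hA
    set F := foxF ρ (w g) (extend n S.E R V v) with hF
    set y := extend n S.E R V v (S.src g) with hy
    have h1 : y + (A.val (y + A.val F) - (y + A.val F)) = A.val (y + (A.val F - F)) := by
      simp only [map_add, map_sub]
      abel
    rw [h1, mul_inv_rev, Units.val_mul, Module.End.mul_apply]
    congr 1
    rw [← Module.End.mul_apply, ← Units.val_mul, inv_mul_cancel, Units.val_one,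
      Module.End.one_apply]
  · rw [Sk.upd_ne S w hg]

open Classical in
theorem StepKink_path {n : ℕ} {H : Type*} [Group H] (S : Sk n) (w : S.W) (e : S.E)
    {x : Fin n → H} {η : S.Arc → H} (hη : S.IsCol w x η) (k : S.Arc → ℤ)
    (hk0 : ∀ i, k (Sum.inl i) = 0)
    (hk : ∀ g, k (Sum.inr g) = if g = e then k (S.src g) + 1 else k (S.src g)) {j : Fin n}
    {b : S.Arc} {u : FreeGroup S.Arc} (h : S.Path w j b u) :
    ∃ u', S.Path (S.upd w e (FreeGroup.of (S.src e) * w e)) j b u' ∧
      FreeGroup.lift η u' = x j ^ k b * FreeGroup.lift η u := by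
  induction h with
  | base =>
    refine ⟨1, Sk.Path.base, ?_⟩
    rw [hk0, zpow_zero, one_mul]
  | step g u h ih =>
    obtain ⟨u', h1, h2⟩ := ih
    refine ⟨u' * S.upd w e (FreeGroup.of (S.src e) * w e) g, Sk.Path.step g u' h1, ?_⟩
    rw [map_mul, map_mul, h2, hk]
    by_cases hg : g = e
    · subst hg
      rw [Sk.upd_same, if_pos rfl, map_mul, FreeGroup.lift_apply_of, path_col hη h,
        zpow_add_one]
      group
    · rw [Sk.upd_ne S w hg, if_neg hg, mul_assoc]

theorem stepOK_kinkL {n : ℕ} (m : ℕ) (S : Sk n) (w : S.W) (e : S.E) :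
    StepOK m ⟨S, w⟩ ⟨S, S.upd w e (FreeGroup.of (S.src e) * w e)⟩ := by
  classical
  intro η hη
  change S.IsCol w (xg n m) η at hη
  refine ⟨η, ⟨hη.1, fun (g : S.E) => ?_⟩, fun j => ?_, fun _ => 0, ?_⟩
  · change η (Sum.inr g) = (FreeGroup.lift η (S.upd w e (FreeGroup.of (S.src e) * w e) g))⁻¹ *
      η (S.src g) * FreeGroup.lift η (S.upd w e (FreeGroup.of (S.src e) * w e) g)
    by_cases hg : g = e
    · subst hg
      rw [Sk.upd_same, map_mul, FreeGroup.lift_apply_of]
      have h1 := hη.2 g
      rw [h1]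
      group
    · rw [Sk.upd_ne S w hg]
      exact hη.2 g
  · obtain ⟨k, hk0, hk⟩ := S.exists_rec (fun _ => (0 : ℤ))
      (fun g t => if g = e then t + 1 else t)
    obtain ⟨u0, hu0⟩ := isLong_exists S w j
    obtain ⟨b, hb, hns⟩ := id hu0
    obtain ⟨v, hv1, hv2⟩ := StepKink_path S w e hη k hk0 hk hb
    refine ⟨k b, fun u u' hu hu' => ?_⟩
    rw [isLong_unique hu hu0, isLong_unique hu' ⟨b, hv1, hns⟩, hv2]
  · intro R _ t _ r ψ _
    simp only [zpow_zero, Finset.prod_const_one, Units.val_one, one_mul]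
    unfold Sk.alex
    rw [StepKink_alex]

end Pool.Agent.H61.Tu
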