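import Pool.Agent.H61.Tu.DetLemmas
import Pool.Agent.H61.Tu.Paths

/-!
# Reidemeister I, upper end   [H61 TU KINR]

See the header of `StepKink.lean`, second case (`kinkR`): `η' = η`, the colouring equation at `e`
holds because `ρ b` commutes with itself, the longitude of the strand of `e` gets a factor
`x j`, and the Alexander map is composed with the map that is `(ρ b)⁻¹` at `e` and the identity
elsewhere, of determinant `det (x j)⁻¹`. `detU R V (conj)`: `detU` is a homomorphism to a
commutative group, so it is invariant under conjugation.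
-/

namespace Pool.Agent.H61.Tu

open Diagram Relation
open scoped commutatorElement

private theorem kinkR_path {n : ℕ} {S : Sk n} {w : S.W} {e : S.E} {H : Type*} [Group H] {x : Fin n → H}
    {η : S.Arc → H} (hη : S.IsCol w x η) {j : Fin n} {a : S.Arc} {u' : FreeGroup S.Arc}
    (φ : FreeGroup S.Arc →* Multiplicative ℤ) (hφ : φ (FreeGroup.of (Sum.inr e)) = Multiplicative.ofAdd (1 : ℤ))
    (h : S.Path (S.upd w e (w e * FreeGroup.of (Sum.inr e))) j a u') :
    ∃ u v, S.Path w j a u ∧ S.Path (S.upd (fun _ => 1) e (FreeGroup.of (Sum.inr e))) j a v ∧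
      FreeGroup.lift η u' = x j ^ (Multiplicative.toAdd (φ v)) * FreeGroup.lift η u := by
  induction h with
  | base => exact ⟨1, 1, Sk.Path.base, Sk.Path.base, by simp⟩
  | step f u' h ih =>
    obtain ⟨u, v, hu, hv, huv⟩ := ih
    refine ⟨_, _, Sk.Path.step f u hu, Sk.Path.step f v hv, ?_⟩
    by_cases hf : f = e
    · subst hf
      have hc := path_col hη (Sk.Path.step f u hu)
      rw [Sk.upd_same, Sk.upd_same, map_mul (FreeGroup.lift η) u', huv, map_mul (FreeGroup.lift η) (w f),
        FreeGroup.lift_apply_of, hc, map_mul φ, hφ, toAdd_mul, toAdd_ofAdd, zpow_add_one,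
        map_mul (FreeGroup.lift η) u]
      simp only [mul_assoc, mul_inv_rev, mul_inv_cancel_left]
    · rw [Sk.upd_ne _ _ hf, Sk.upd_ne _ _ hf, map_mul (FreeGroup.lift η) u', huv, map_mul (FreeGroup.lift η) u,
        mul_one, mul_assoc]

private theorem kinkR_det {R : Type} [CommRing R] {V : Type} [AddCommGroup V] [Module R V]
    [Module.Free R V] [Module.Finite R V] {E : Type} [Finite E] [DecidableEq E] (e : E) (B : Module.End R V) :
    LinearMap.det (1 + (LinearMap.single R (fun _ : E => V) e) ∘ₗ ((B - 1) ∘ₗ LinearMap.proj e) :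
      Module.End R (E → V)) = LinearMap.det B := by
  rw [det_one_add_comp_comm]
  congr 1
  apply LinearMap.ext
  intro v
  simp

private theorem kinkR_row {n : ℕ} {R : Type} [CommRing R] {V : Type} [AddCommGroup V] [Module R V]
    [Module.Free R V] [Module.Finite R V] (S : Sk n) (w : S.W) (e : S.E)
    {x : Fin n → (Module.End R V)ˣ} {ρ : S.Arc → (Module.End R V)ˣ} (hρ : S.IsCol w x ρ) :
    S.alex (S.upd w e (w e * FreeGroup.of (Sum.inr e))) ρ =
      ((detU R V (ρ (Sum.inr e)))⁻¹ : Rˣ) * S.alex w ρ := by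
  classical
  have := S.finite
  have h1 : S.alexMap (S.upd w e (w e * FreeGroup.of (Sum.inr e))) ρ =
      (1 + (LinearMap.single R (fun _ : S.E => V) e) ∘ₗ
        ((((ρ (Sum.inr e))⁻¹ : (Module.End R V)ˣ).val - 1) ∘ₗ LinearMap.proj e) :
          Module.End R (S.E → V)) ∘ₗ S.alexMap w ρ := by
    apply LinearMap.ext
    intro v
    funext f
    by_cases hf : f = e
    · rw [hf]
      clear hf f
      have h3 := hρ.2 e
      rw [LinearMap.comp_apply, LinearMap.add_apply, Module.End.one_apply, LinearMap.comp_apply,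
        LinearMap.comp_apply, Pi.add_apply, LinearMap.single_apply, Pi.single_eq_same, LinearMap.proj_apply,
        LinearMap.sub_apply, Module.End.one_apply, add_sub_cancel, Sk.alexMap_apply, Sk.alexMap_apply,
        Sk.upd_same, foxF_mul_apply, foxF_of, map_mul, FreeGroup.lift_apply_of, mul_inv_rev]
      generalize extend n S.E R V v (S.src e) = a'
      generalize foxF ρ (w e) (extend n S.E R V v) = F
      have hv : extend n S.E R V v (Sum.inr e) = v e := rfl
      rw [hv]
      generalize v e = z
      generalize hW : FreeGroup.lift ρ (w e) = W at h3 ⊢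
      generalize ρ (Sum.inr e) = B at h3 ⊢
      generalize ρ (S.src e) = A at h3 ⊢
      have hinv : ∀ (U : (Module.End R V)ˣ) (y : V), (U⁻¹ : (Module.End R V)ˣ).val (U.val y) = y := by
        intro U y
        rw [← Module.End.mul_apply, Units.inv_mul, Module.End.one_apply]
      have h4 : A.val (W.val z) = W.val (B.val z) := by
        have h5 : A * W = W * B := by
          rw [h3]
          group
        rw [← Module.End.mul_apply, ← Module.End.mul_apply, ← Units.val_mul, ← Units.val_mul, h5]
      have h6 : a' + (A.val (F + W.val z) - (F + W.val z)) =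
          (a' + (A.val F - F)) + W.val (B.val z) - W.val z := by
        rw [map_add, h4]
        abel
      rw [h6, Units.val_mul, Module.End.mul_apply, map_sub, map_add, hinv W, hinv W, map_sub, map_add, hinv B,
        map_sub]
      abel
    · rw [LinearMap.comp_apply, LinearMap.add_apply, Module.End.one_apply, LinearMap.comp_apply,
        Pi.add_apply, LinearMap.single_apply, Pi.single_eq_of_ne hf, add_zero, Sk.alexMap_apply, Sk.alexMap_apply,
        Sk.upd_ne _ _ hf]
  unfold Sk.alex
  rw [h1, LinearMap.det_comp, kinkR_det]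
  congr 1

theorem stepOK_kinkR {n : ℕ} (m : ℕ) (S : Sk n) (w : S.W) (e : S.E) :
    StepOK m ⟨S, w⟩ ⟨S, S.upd w e (w e * FreeGroup.of (Sum.inr e))⟩ := by
  intro η hη
  refine ⟨η, ⟨hη.1, ?_⟩, ?_, ?_⟩
  · intro f
    change η (Sum.inr f) = (FreeGroup.lift η (S.upd w e (w e * FreeGroup.of (Sum.inr e)) f))⁻¹ * η (S.src f) *
      FreeGroup.lift η (S.upd w e (w e * FreeGroup.of (Sum.inr e)) f)
    by_cases hf : f = e
    · rw [hf]
      clear hf f
      have h1 : η (Sum.inr e) = (FreeGroup.lift η (w e))⁻¹ * η (S.src e) * FreeGroup.lift η (w e) := hη.2 e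
      rw [Sk.upd_same, map_mul, FreeGroup.lift_apply_of]
      have h2 : (FreeGroup.lift η (w e) * η (Sum.inr e))⁻¹ * η (S.src e) *
          (FreeGroup.lift η (w e) * η (Sum.inr e)) =
          (η (Sum.inr e))⁻¹ * ((FreeGroup.lift η (w e))⁻¹ * η (S.src e) * FreeGroup.lift η (w e)) *
            η (Sum.inr e) := by group
      rw [h2, ← h1]
      group
    · rw [Sk.upd_ne _ _ hf]
      exact hη.2 f
  · intro j
    obtain ⟨v0, hv0⟩ := isLong_exists S (S.upd (fun _ => 1) e (FreeGroup.of (Sum.inr e))) j
    refine ⟨Multiplicative.toAdd (FreeGroup.lift (fun _ : S.Arc => Multiplicative.ofAdd (1 : ℤ)) v0), ?_⟩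
    have hφ : FreeGroup.lift (fun _ : S.Arc => Multiplicative.ofAdd (1 : ℤ)) (FreeGroup.of (Sum.inr e)) =
      Multiplicative.ofAdd (1 : ℤ) := FreeGroup.lift_apply_of
    rintro u u' hu ⟨a, ha, hna⟩
    obtain ⟨u1, v1, hu1, hv1, h⟩ := kinkR_path hη _ hφ ha
    have e1 : u = u1 := isLong_unique hu ⟨a, hu1, hna⟩
    have e2 : v0 = v1 := isLong_unique hv0 ⟨a, hv1, hna⟩
    rw [e1, e2]
    exact h
  · obtain ⟨j, P, hP⟩ := path_exists S w (Sum.inr e)
    refine ⟨Pi.single j (-1), ?_⟩
    intro R _ t _ r ψ _
    have hρ : S.IsCol w (fun i => ψ (xg n m i)) (fun a => ψ (η a)) := by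
      refine ⟨fun i => congrArg ψ (hη.1 i), fun f => ?_⟩
      have h1 := congrArg ψ (hη.2 f)
      have h2 : ∀ u : FreeGroup S.Arc, FreeGroup.lift (fun a => ψ (η a)) u = ψ (FreeGroup.lift η u) := by
        intro u
        have : FreeGroup.lift (fun a => ψ (η a)) = ψ.comp (FreeGroup.lift η) := by
          ext a
          simp
        rw [this]
        rfl
      rw [h2]
      change ψ (η (Sum.inr f)) = _
      rw [h1]
      simp
    have h3 := kinkR_row S w e hρ
    change S.alex (S.upd w e (w e * FreeGroup.of (Sum.inr e))) (fun a => ψ (η a)) = _ * S.alex w (fun a => ψ (η a))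
    rw [h3]
    congr 2
    have h4 : ψ (η (Sum.inr e)) = (FreeGroup.lift (fun a => ψ (η a)) P)⁻¹ * ψ (xg n m j) *
        FreeGroup.lift (fun a => ψ (η a)) P := path_col hρ hP
    rw [h4, map_mul, map_mul, map_inv, mul_comm, ← mul_assoc, mul_inv_cancel, one_mul]
    rw [Finset.prod_eq_single j]
    · simp
    · intro i _ hi
      simp [Pi.single_eq_of_ne hi]
    · intro h
      exact absurd (Finset.mem_univ j) h

end Pool.Agent.H61.Tu
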