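import Pool.Agent.H61.Tu.DetLemmas
import Pool.Agent.H61.Tu.Paths

/-!
# Reidemeister III (slide)   [H61 TU SLI]

`η' = η`, all exponents `0`. Let `ρ` be a colouring, `c = g⁻¹ * S.rel w f * g`. Then
`lift ρ (S.rel w f) = 1`, so `lift ρ (w e * c) = lift ρ (w e)`: the colouring equation and the
longitudes (as elements of `H`) do not change. For the longitudes: by induction on paths, for
every path `S.Path w j a v` there is `v'` with `S.Path w' j a v'` and `lift ρ v' = lift ρ v`;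
top arcs are the same; `isLong_unique`.
Determinant: `foxF ρ c v̂ = (lift ρ g)⁻¹ (foxF ρ (S.rel w f) v̂)` (since
`foxF (g⁻¹) = - (lift ρ g)⁻¹ (foxF g)` and `lift ρ (rel) = 1`), and
`foxF ρ (S.rel w f) v̂ = - (ρ (inr f))⁻¹ (T v f)`, `T = S.alexMap w ρ` (expand with
`foxF_mul_apply`, `foxF_inv_apply`, `foxF_of`, and `ρ (inr f) = F⁻¹ ρ (src f) F`,
`F = lift ρ (w f)`). So with `W = lift ρ (w e)`, `a = S.src e`, the new row of `e` is
`T v e + W⁻¹ (ρ a - 1) W (lift ρ g)⁻¹ (ρ (inr f))⁻¹ (T v f)`, and the other rows are the same: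
`T' = (1 + single e ∘ K ∘ proj f) ∘ T`. By `det_one_add_comp_comm` (`A = single e ∘ K`,
`B = proj f`) the first factor has determinant `det (1 + proj f ∘ single e ∘ K) = det 1 = 1`
because `f ≠ e`.
-/

namespace Pool.Agent.H61.Tu

open Diagram Relation
open scoped commutatorElement

theorem StepSlide_rel {n : ℕ} (S : Sk n) (w : S.W) {H : Type*} [Group H] (x : Fin n → H)
    (ρ : S.Arc → H) (hρ : S.IsCol w x ρ) (f : S.E) : FreeGroup.lift ρ (S.rel w f) = 1 := by
  unfold Sk.rel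
  simp only [map_mul, map_inv, FreeGroup.lift_apply_of]
  rw [hρ.2 f]
  group

theorem StepSlide_lift {n : ℕ} (S : Sk n) (w : S.W) (e f : S.E) (g : FreeGroup S.Arc)
    {H : Type*} [Group H] (x : Fin n → H) (ρ : S.Arc → H) (hρ : S.IsCol w x ρ) (e' : S.E) :
    FreeGroup.lift ρ (S.upd w e (w e * (g⁻¹ * S.rel w f * g)) e') = FreeGroup.lift ρ (w e') := by
  by_cases h : e' = e
  · subst h
    rw [Sk.upd_same, map_mul, map_mul, map_mul, StepSlide_rel S w x ρ hρ f, map_inv]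
    group
  · rw [Sk.upd_ne S w h]

theorem StepSlide_path {n : ℕ} (S : Sk n) (w w' : S.W) {H : Type*} [Group H]
    (ρ : S.Arc → H) (h : ∀ e, FreeGroup.lift ρ (w' e) = FreeGroup.lift ρ (w e)) {j : Fin n}
    {a : S.Arc} {u : FreeGroup S.Arc} (hp : S.Path w' j a u) :
    ∃ u', S.Path w j a u' ∧ FreeGroup.lift ρ u' = FreeGroup.lift ρ u := by
  induction hp with
  | base => exact ⟨1, Sk.Path.base, rfl⟩
  | step e u hp ih =>
    obtain ⟨u', h1, h2⟩ := ih
    exact ⟨u' * w e, Sk.Path.step e u' h1, by rw [map_mul, map_mul, h2, h e]⟩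

theorem StepSlide_fox {n : ℕ} {R : Type} [CommRing R] {V : Type} [AddCommGroup V] [Module R V]
    (S : Sk n) (w : S.W) (ρ : S.Arc → (Module.End R V)ˣ) (f : S.E) (v : S.E → V) :
    foxF ρ (S.rel w f) (extend n S.E R V v) =
      - ((ρ (Sum.inr f))⁻¹ : (Module.End R V)ˣ).val (S.alexMap w ρ v f) := by
  have h1 : extend n S.E R V v (Sum.inr f) = v f := rfl
  unfold Sk.rel
  rw [foxF_mul_apply, foxF_mul_apply, foxF_mul_apply, foxF_inv_apply, foxF_inv_apply, foxF_of,
    foxF_of, Sk.alexMap_apply, h1]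
  simp only [map_mul, map_inv, FreeGroup.lift_apply_of, Units.val_mul, Module.End.mul_apply,
    map_sub, map_add, map_neg]
  abel

theorem StepSlide_fox2 {n : ℕ} {R : Type} [CommRing R] {V : Type} [AddCommGroup V] [Module R V]
    (S : Sk n) (w : S.W) (x : Fin n → (Module.End R V)ˣ) (ρ : S.Arc → (Module.End R V)ˣ)
    (hρ : S.IsCol w x ρ) (f : S.E) (g : FreeGroup S.Arc) (v : S.E → V) :
    foxF ρ (g⁻¹ * S.rel w f * g) (extend n S.E R V v) =
      - ((FreeGroup.lift ρ g)⁻¹ : (Module.End R V)ˣ).val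
        (((ρ (Sum.inr f))⁻¹ : (Module.End R V)ˣ).val (S.alexMap w ρ v f)) := by
  rw [foxF_mul_apply, foxF_mul_apply, foxF_inv_apply, StepSlide_fox, map_mul,
    StepSlide_rel S w x ρ hρ f, mul_one, map_inv, map_neg]
  abel

theorem StepSlide_alex {n : ℕ} {R : Type} [CommRing R] {V : Type} [AddCommGroup V] [Module R V]
    [Module.Free R V] [Module.Finite R V]
    (S : Sk n) (w : S.W) (x : Fin n → (Module.End R V)ˣ) (ρ : S.Arc → (Module.End R V)ˣ)
    (hρ : S.IsCol w x ρ) (e f : S.E) (hfe : f ≠ e) (g : FreeGroup S.Arc) :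
    S.alex (S.upd w e (w e * (g⁻¹ * S.rel w f * g))) ρ = S.alex w ρ := by
  classical
  have hfin := S.finite
  let K : Module.End R V := ((FreeGroup.lift ρ (w e))⁻¹ : (Module.End R V)ˣ).val *
    ((ρ (S.src e)).val - 1) * (FreeGroup.lift ρ (w e)).val *
    ((FreeGroup.lift ρ g)⁻¹ : (Module.End R V)ˣ).val *
    ((ρ (Sum.inr f))⁻¹ : (Module.End R V)ˣ).val
  let A : V →ₗ[R] (S.E → V) := LinearMap.single R (fun _ : S.E => V) e ∘ₗ K
  let B : (S.E → V) →ₗ[R] V := LinearMap.proj f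
  have hBA : B ∘ₗ A = 0 := by
    apply LinearMap.ext
    intro v
    simp [A, B, hfe]
  have hT : S.alexMap (S.upd w e (w e * (g⁻¹ * S.rel w f * g))) ρ =
      (1 + A ∘ₗ B : Module.End R (S.E → V)) ∘ₗ S.alexMap w ρ := by
    apply LinearMap.ext
    intro v
    funext e'
    have hR : ((1 + A ∘ₗ B : Module.End R (S.E → V)) ∘ₗ S.alexMap w ρ) v e' =
        S.alexMap w ρ v e' + Pi.single (M := fun _ : S.E => V) e (K (S.alexMap w ρ v f)) e' := rfl
    rw [hR, Sk.alexMap_apply, StepSlide_lift S w e f g x ρ hρ e']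
    by_cases h : e' = e
    · subst h
      rw [Sk.upd_same, foxF_mul_apply, StepSlide_fox2 S w x ρ hρ, Sk.alexMap_apply S w ρ v e',
        Pi.single_eq_same]
      simp only [K, Module.End.mul_apply, LinearMap.sub_apply, Module.End.one_apply, map_sub,
        map_add, map_neg]
      abel
    · rw [Sk.upd_ne S w h, Sk.alexMap_apply S w ρ v e', Pi.single_eq_of_ne h, add_zero]
  unfold Sk.alex
  rw [hT, LinearMap.det_comp, DetLemmas_of_sq A B hBA, one_mul]

theorem StepSlide_comp {n : ℕ} {S : Sk n} {w : S.W} {H H' : Type*} [Group H] [Group H']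
    (ψ : H →* H') {x : Fin n → H} {ρ : S.Arc → H} (hρ : S.IsCol w x ρ) :
    S.IsCol w (fun i => ψ (x i)) (fun a => ψ (ρ a)) := by
  have h1 : FreeGroup.lift (fun a => ψ (ρ a)) = ψ.comp (FreeGroup.lift ρ) :=
    FreeGroup.ext_hom _ _ (fun a => by simp)
  refine ⟨fun i => congrArg ψ (hρ.1 i), fun e => ?_⟩
  rw [h1, MonoidHom.comp_apply, ← map_inv, ← map_mul, ← map_mul, ← hρ.2 e]

theorem stepOK_slide {n : ℕ} (m : ℕ) (S : Sk n) (w : S.W) (e f : S.E) (hfe : f ≠ e)
    (g : FreeGroup S.Arc) :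
    StepOK m ⟨S, w⟩ ⟨S, S.upd w e (w e * (g⁻¹ * S.rel w f * g))⟩ := by
  intro η hη
  have hl := StepSlide_lift S w e f g (xg n m) η hη
  refine ⟨η, ⟨hη.1, fun e' => ?_⟩, fun j => ⟨0, fun u u' hu hu' => ?_⟩, 0, ?_⟩
  · change η (Sum.inr e') = (FreeGroup.lift η (S.upd w e (w e * (g⁻¹ * S.rel w f * g)) e'))⁻¹ *
      η (S.src e') * FreeGroup.lift η (S.upd w e (w e * (g⁻¹ * S.rel w f * g)) e')
    rw [hl e']
    exact hη.2 e'
  · obtain ⟨a, ha, hta⟩ := hu'
    obtain ⟨u1, h1, h2⟩ := StepSlide_path S w _ η hl ha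
    have h3 : S.IsLong w j u1 := ⟨a, h1, hta⟩
    rw [isLong_unique hu h3, h2, zpow_zero, one_mul]
  · intro R _ t ht r ψ hψ
    have h1 := StepSlide_alex S w _ (fun a => ψ (η a)) (StepSlide_comp ψ hη) e f hfe g
    simp only [Pi.zero_apply, zpow_zero, Finset.prod_const_one, Units.val_one, one_mul]
    exact h1

end Pool.Agent.H61.Tu
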