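import Pool.Agent.H61.Tu.StepTransA
import Pool.Agent.H61.Tu.DetLemmas

/-!
# The move `transfer`: determinant   [H61 TU TRB]

Notation: `b = inr e`, `a = S.src e`, `w' = S.upd (S.upd w e (w e * u)) f (u⁻¹ * w f)`,
`ρ' = S.transCol e u ρ`, `T`, `T'` the two Alexander maps, `v̂ = extend .. v`,
`U = lift ρ u`, `W = lift ρ (w e)`. Let `ρ` be a colouring.
`Φ v` is `v` with the value at `e` replaced by `U⁻¹ (v e + (ρ b - 1) (foxF ρ u v̂))`, and `Ψ y`
is `y` with the value at `e` replaced by `U⁻¹ (y e)`. Claim `T' ∘ Φ = Ψ ∘ T`: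
words not involving `b` have the same value and the same Fox derivative for `(ρ', Φ v)` as for
`(ρ, v)` (lemma: `Unused b c`, `ρ'`, `ρ` and `v'`, `v` agree outside `b` ⟹
`foxF ρ' c v' = foxF ρ c v`). Row `e`: new word `w e * u`, `foxF (w e * u) = foxF (w e) + W foxF u`;
`U⁻¹[v e + (ρ b - 1) foxF u] - U⁻¹ W⁻¹ [v̂ a + (ρ a - 1)(foxF (w e) + W foxF u)]`
`= U⁻¹ [row e + (ρ b - 1) foxF u - W⁻¹ (ρ a - 1) W foxF u] = U⁻¹ [row e]`, as
`ρ b = W⁻¹ ρ a W`. Row `f`: source `b`, new word `u⁻¹ * w f`, `ρ' b = U⁻¹ ρ b U`,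
`foxF (u⁻¹ * w f) = - U⁻¹ foxF u + U⁻¹ foxF (w f)`, the term in brackets is
`U⁻¹(v e + (ρ b - 1) foxF u) + (U⁻¹ ρ b U - 1) U⁻¹ (foxF (w f) - foxF u)
 = U⁻¹ (v e + (ρ b - 1) foxF (w f))`, so the row is the old one. Other rows: same word, and the
source is not `b` (`S.inj`).
Determinants: `Φ = Ψ ∘ (1 + single e ∘ K)` with `K v = (ρ b - 1) (foxF ρ u v̂)`, and
`K ∘ single e = 0` as `u` does not involve `b`; by `det_one_add_comp_comm` the determinant of
`1 + single e ∘ K` is `det (1 + K ∘ single e) = 1`. So `det Φ = det Ψ`, and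
`det Ψ * det (inverse of Ψ) = 1`, so `det Ψ` is a unit and `det T' = det T`.
`stepOK_transfer`: exponents `0`; `η' = S.transCol e u η`; note that
`ψ ∘ (S.transCol e u η) = S.transCol e u (ψ ∘ η)`; longitudes by `long_transfer`,
`isLong_unique`, `lift_unused` and `transCol_ne`.
-/

namespace Pool.Agent.H61.Tu

open Diagram Relation
open scoped commutatorElement

theorem trb_fox_unused {n : ℕ} (S : Sk n) {b : S.Arc} {R : Type} [CommRing R] {V : Type}
    [AddCommGroup V] [Module R V] {ρ ρ' : S.Arc → (Module.End R V)ˣ} {v v' : S.Arc → V}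
    (h : ∀ a, a ≠ b → ρ' a = ρ a) (hv : ∀ a, a ≠ b → v' a = v a) {c : FreeGroup S.Arc}
    (hc : S.Unused b c) : foxF ρ' c v' = foxF ρ c v := by
  have hc2 := hc
  unfold Sk.Unused at hc
  induction hc using Subgroup.closure_induction with
  | mem x hx =>
    obtain ⟨d, hd, rfl⟩ := hx
    rw [foxF_of, foxF_of, hv d hd]
  | one => rw [foxF_one, foxF_one]; rfl
  | mul x y hx1 hy1 hx hy =>
    rw [foxF_mul_apply, foxF_mul_apply, hx hx1, hy hy1, lift_unused S h hx1]
  | inv x hx1 hx => rw [foxF_inv_apply, foxF_inv_apply, hx hx1, lift_unused S h hx1]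

section Lin

variable {E : Type} {R : Type} [CommRing R] {V : Type} [AddCommGroup V] [Module R V]

open Classical in
/-- change of the coordinate `e` -/
noncomputable def trbPsi (e : E) (P : Module.End R V) : Module.End R (E → V) :=
  LinearMap.pi fun g => if g = e then P ∘ₗ LinearMap.proj g else LinearMap.proj g

theorem trbPsi_same (e : E) (P : Module.End R V) (y : E → V) : trbPsi e P y e = P (y e) := by
  simp [trbPsi]

theorem trbPsi_ne {e g : E} (hg : g ≠ e) (P : Module.End R V) (y : E → V) :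
    trbPsi e P y g = y g := by
  simp [trbPsi, hg]

open Classical in
/-- addition to the coordinate `e` -/
noncomputable def trbOne (e : E) (K : (E → V) →ₗ[R] V) : Module.End R (E → V) :=
  1 + LinearMap.single R (fun _ : E => V) e ∘ₗ K

theorem trbOne_same (e : E) (K : (E → V) →ₗ[R] V) (y : E → V) : trbOne e K y e = y e + K y := by
  simp [trbOne]

theorem trbOne_ne {e g : E} (hg : g ≠ e) (K : (E → V) →ₗ[R] V) (y : E → V) :
    trbOne e K y g = y g := by
  classical
  simp [trbOne, Pi.single_eq_of_ne hg]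

theorem trbOne_det [Finite E] [Module.Free R V] [Module.Finite R V] (e : E)
    (K : (E → V) →ₗ[R] V)
    (hK : ∀ y : E → V, (∀ g, g ≠ e → y g = 0) → K y = 0) : LinearMap.det (trbOne e K) = 1 := by
  classical
  unfold trbOne
  have h1 := det_one_add_comp_comm K (LinearMap.single R (fun _ : E => V) e)
  have h2 : K ∘ₗ LinearMap.single R (fun _ : E => V) e = 0 := by
    ext x
    rw [LinearMap.comp_apply, LinearMap.zero_apply]
    apply hK
    intro g hg
    simp [Pi.single_eq_of_ne hg]
  rw [h2, add_zero, map_one] at h1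
  convert h1.symm using 5

theorem trbPsi_det [Finite E] [Module.Free R V] [Module.Finite R V] (e : E)
    (P : (Module.End R V)ˣ) : IsUnit (LinearMap.det (trbPsi e P.val)) := by
  have h1 : trbPsi e P.val * trbPsi e (P⁻¹ : (Module.End R V)ˣ).val = 1 := by
    apply LinearMap.ext
    intro y
    funext g
    rw [Module.End.mul_apply, Module.End.one_apply]
    by_cases hg : g = e
    · subst hg
      rw [trbPsi_same, trbPsi_same, ← Module.End.mul_apply, ← Units.val_mul, mul_inv_cancel,
        Units.val_one, Module.End.one_apply]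
    · rw [trbPsi_ne hg, trbPsi_ne hg]
  have h2 : LinearMap.det (trbPsi e P.val) *
      LinearMap.det (trbPsi e (P⁻¹ : (Module.End R V)ˣ).val) = 1 := by
    rw [← map_mul, h1, map_one]
  exact IsUnit.of_mul_eq_one _ h2

end Lin

theorem alex_transfer {n : ℕ} (S : Sk n) (w : S.W) (e f : S.E) (u : FreeGroup S.Arc)
    (hef : S.src f = Sum.inr e) (hw : ∀ g, S.Unused (Sum.inr e) (w g))
    (hu : S.Unused (Sum.inr e) u) {R : Type} [CommRing R] {V : Type}
    [AddCommGroup V] [Module R V] [Module.Free R V] [Module.Finite R V]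
    {x : Fin n → (Module.End R V)ˣ} {ρ : S.Arc → (Module.End R V)ˣ} (hρ : S.IsCol w x ρ) :
    S.alex (S.upd (S.upd w e (w e * u)) f (u⁻¹ * w f)) (S.transCol e u ρ) = S.alex w ρ := by
  have hfe : f ≠ e := S.ne_of_src hef
  have hfin : Finite S.E := S.finite
  have hne : ∀ a, a ≠ Sum.inr e → S.transCol e u ρ a = ρ a := fun a ha => S.transCol_ne e u ρ ha
  have hlw : ∀ g, FreeGroup.lift (S.transCol e u ρ) (w g) = FreeGroup.lift ρ (w g) :=
    fun g => lift_unused S hne (hw g)
  have hlu : FreeGroup.lift (S.transCol e u ρ) u = FreeGroup.lift ρ u := lift_unused S hne hu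
  obtain ⟨U, hU⟩ : ∃ U : (Module.End R V)ˣ, U = FreeGroup.lift ρ u := ⟨_, rfl⟩
  obtain ⟨K, hK⟩ : ∃ K : (S.E → V) →ₗ[R] V,
    K = ((ρ (Sum.inr e)).val - 1) ∘ₗ foxF ρ u ∘ₗ extend n S.E R V := ⟨_, rfl⟩
  have hKa : ∀ v, K v = (ρ (Sum.inr e)).val (foxF ρ u (extend n S.E R V v)) -
      foxF ρ u (extend n S.E R V v) := by
    intro v
    rw [hK]
    simp
  have hK0 : ∀ y : S.E → V, (∀ g, g ≠ e → y g = 0) → K y = 0 := by
    intro y hy
    have h1 : foxF ρ u (extend n S.E R V y) = foxF ρ u 0 := by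
      refine trb_fox_unused S (b := Sum.inr e) (fun _ _ => rfl) ?_ hu
      intro a ha
      rcases a with i | g
      · rfl
      · have hg : g ≠ e := fun h => ha (by rw [h])
        exact hy g hg
    rw [hKa, h1, map_zero, map_zero, sub_zero]
  obtain ⟨Φ, hΦ⟩ : ∃ Φ : Module.End R (S.E → V),
    Φ = trbPsi e (U⁻¹ : (Module.End R V)ˣ).val * trbOne e K := ⟨_, rfl⟩
  have hΦe : ∀ v, Φ v e = (U⁻¹ : (Module.End R V)ˣ).val (v e + K v) := by
    intro v
    rw [hΦ, Module.End.mul_apply, trbPsi_same, trbOne_same]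
  have hΦg : ∀ v g, g ≠ e → Φ v g = v g := by
    intro v g hg
    rw [hΦ, Module.End.mul_apply, trbPsi_ne hg, trbOne_ne hg]
  have hdetΦ : LinearMap.det Φ = LinearMap.det (trbPsi e (U⁻¹ : (Module.End R V)ˣ).val) := by
    rw [hΦ, map_mul, trbOne_det e K hK0, mul_one]
  have hunit := trbPsi_det e (U⁻¹)
  -- the intertwining relation
  have hmain : S.alexMap (S.upd (S.upd w e (w e * u)) f (u⁻¹ * w f)) (S.transCol e u ρ) * Φ =
      trbPsi e (U⁻¹ : (Module.End R V)ˣ).val * S.alexMap w ρ := by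
    apply LinearMap.ext
    intro v
    funext g
    rw [Module.End.mul_apply, Module.End.mul_apply]
    have hext : ∀ a, a ≠ Sum.inr e →
        extend n S.E R V (Φ v) a = extend n S.E R V v a := by
      intro a ha
      rcases a with i | g
      · rfl
      · exact hΦg v g (fun h => ha (by rw [h]))
    have hfw : ∀ g, foxF (S.transCol e u ρ) (w g) (extend n S.E R V (Φ v)) =
        foxF ρ (w g) (extend n S.E R V v) :=
      fun g => trb_fox_unused S hne hext (hw g)
    have hfu : foxF (S.transCol e u ρ) u (extend n S.E R V (Φ v)) =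
        foxF ρ u (extend n S.E R V v) := trb_fox_unused S hne hext hu
    obtain ⟨X, hX⟩ : ∃ X : V, X = foxF ρ u (extend n S.E R V v) := ⟨_, rfl⟩
    have hΦev := hΦe v
    rw [hKa, ← hX] at hΦev
    rw [← hX] at hfu
    have hUU : ∀ z : V, U.val ((U⁻¹ : (Module.End R V)ˣ).val z) = z := by
      intro z
      rw [← Module.End.mul_apply, ← Units.val_mul, mul_inv_cancel, Units.val_one,
        Module.End.one_apply]
    rw [Sk.alexMap_apply]
    by_cases hge : g = e
    · subst hge
      rw [trbPsi_same, Sk.alexMap_apply, S.upd_ne _ (Ne.symm hfe), S.upd_same, map_mul, hlw, hlu,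
        ← hU, hne _ (S.src_ne g), hext _ (S.src_ne g), foxF_mul_apply, hfw, hfu, hlw, hΦev]
      obtain ⟨W, hW⟩ : ∃ W : (Module.End R V)ˣ, W = FreeGroup.lift ρ (w g) := ⟨_, rfl⟩
      obtain ⟨F, hF⟩ : ∃ F : V, F = foxF ρ (w g) (extend n S.E R V v) := ⟨_, rfl⟩
      rw [← hW, ← hF]
      have hcol := hρ.2 g
      rw [← hW] at hcol
      have h1 : (W⁻¹ : (Module.End R V)ˣ).val ((ρ (S.src g)).val (W.val X)) =
          (ρ (Sum.inr g)).val X := by
        rw [hcol, Units.val_mul, Units.val_mul, Module.End.mul_apply, Module.End.mul_apply]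
      have h2 : (W⁻¹ : (Module.End R V)ˣ).val (W.val X) = X := by
        rw [← Module.End.mul_apply, ← Units.val_mul, inv_mul_cancel, Units.val_one,
          Module.End.one_apply]
      rw [mul_inv_rev, Units.val_mul, Module.End.mul_apply]
      simp only [map_add, map_sub]
      rw [h1, h2]
      abel
    · rw [trbPsi_ne hge, Sk.alexMap_apply]
      by_cases hgf : g = f
      · subst hgf
        rw [S.upd_same, map_mul, map_inv, hlw, hlu, ← hU, hef, S.transCol_same, ← hU,
          foxF_mul_apply, foxF_inv_apply, hfw, hfu, hlu, map_inv, hlu, ← hU, hΦg v g hge]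
        obtain ⟨W, hW⟩ : ∃ W : (Module.End R V)ˣ, W = FreeGroup.lift ρ (w g) := ⟨_, rfl⟩
        obtain ⟨F, hF⟩ : ∃ F : V, F = foxF ρ (w g) (extend n S.E R V v) := ⟨_, rfl⟩
        rw [← hW, ← hF]
        have h3 : extend n S.E R V (Φ v) (Sum.inr e) = Φ v e := rfl
        have h4 : extend n S.E R V v (Sum.inr e) = v e := rfl
        rw [h3, h4, hΦev]
        rw [mul_inv_rev, inv_inv]
        simp only [Units.val_mul, Module.End.mul_apply, map_add, map_sub, map_neg, hUU]
        abel
      · have hsrc : S.src g ≠ Sum.inr e := fun h => hgf (S.inj (h.trans hef.symm))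
        rw [S.upd_ne _ hgf, S.upd_ne _ hge, hlw, hne _ hsrc, hext _ hsrc, hfw, hΦg v g hge]
  have hdet := congrArg LinearMap.det hmain
  rw [map_mul, map_mul, hdetΦ, mul_comm] at hdet
  exact hunit.mul_left_cancel hdet

theorem stepOK_transfer {n : ℕ} (m : ℕ) (S : Sk n) (w : S.W) (e f : S.E) (u : FreeGroup S.Arc)
    (hef : S.src f = Sum.inr e) (hw : ∀ g, S.Unused (Sum.inr e) (w g))
    (hu : S.Unused (Sum.inr e) u) :
    StepOK m ⟨S, w⟩ ⟨S, S.upd (S.upd w e (w e * u)) f (u⁻¹ * w f)⟩ := by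
  intro η hη
  refine ⟨S.transCol e u η, isCol_transfer S w e f u hef hw hu hη, ?_, 0, ?_⟩
  · intro j
    refine ⟨0, ?_⟩
    intro v v' hv hv'
    obtain ⟨h1, h2⟩ := long_transfer S w e f u hef hw hv
    have h3 := isLong_unique hv' h1
    rw [h3, zpow_zero, one_mul]
    exact lift_unused S (fun a ha => S.transCol_ne e u η ha) h2
  · intro R _ t _ r ψ _
    have hψη : (fun a => ψ (S.transCol e u η a)) = S.transCol e u (fun a => ψ (η a)) := by
      funext a
      have hl : FreeGroup.lift (fun a => ψ (η a)) u = ψ (FreeGroup.lift η u) := by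
        have h1 : FreeGroup.lift (fun a => ψ (η a)) = ψ.comp (FreeGroup.lift η) := by
          apply FreeGroup.ext_hom
          intro a
          rw [MonoidHom.comp_apply, FreeGroup.lift_apply_of, FreeGroup.lift_apply_of]
        rw [h1, MonoidHom.comp_apply]
      by_cases ha : a = Sum.inr e
      · subst ha
        rw [Sk.transCol_same, Sk.transCol_same, map_mul, map_mul, map_inv, hl]
      · rw [Sk.transCol_ne _ _ _ _ ha, Sk.transCol_ne _ _ _ _ ha]
    have hcol : S.IsCol w (fun i => ψ (xg n m i)) (fun a => ψ (η a)) := by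
      refine ⟨fun i => ?_, fun g => ?_⟩
      · exact congrArg ψ (hη.1 i)
      · have h1 : FreeGroup.lift (fun a => ψ (η a)) = ψ.comp (FreeGroup.lift η) := by
          apply FreeGroup.ext_hom
          intro a
          rw [MonoidHom.comp_apply, FreeGroup.lift_apply_of, FreeGroup.lift_apply_of]
        have h2 := congrArg ψ (hη.2 g)
        rw [map_mul, map_mul, map_inv] at h2
        rw [h1, MonoidHom.comp_apply]
        exact h2
    have h1 := alex_transfer S w e f u hef hw hu hcol
    change S.alex (S.upd (S.upd w e (w e * u)) f (u⁻¹ * w f)) (fun a => ψ (S.transCol e u η a)) =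
      _ * S.alex w (fun a => ψ (η a))
    rw [hψη, h1]
    simp

end Pool.Agent.H61.Tu
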