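import Pool.Agent.H61.Tu.SameEquiv
import Pool.Agent.H61.Tu.StepMarkB
import Pool.Agent.H61.Tu.StepTransB
import Pool.Agent.H61.Tu.StepKink
import Pool.Agent.H61.Tu.StepKinkR
import Pool.Agent.H61.Tu.StepSlide
import Pool.Agent.H61.Tu.StepComm
import Pool.Agent.H61.Tu.StepRename

/-!
# Invariance   [H61 TU LOW] (architect)
-/

namespace Pool.Agent.H61.Tu

open Diagram Relation
open scoped commutatorElement

theorem low_step {n m : ℕ} {X X' : WD n} (h : WStep m X X') : SameW m X X' := by
  apply sameW_of_stepOK
  cases h with
  | rename S S' φ h w => exact stepOK_rename m S S' φ h w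
  | mark S w a => exact stepOK_mark m S w a
  | transfer S w e f u hef hw hu => exact stepOK_transfer m S w e f u hef hw hu
  | kinkL S w e => exact stepOK_kinkL m S w e
  | kinkR S w e => exact stepOK_kinkR m S w e
  | slide S w e f hfe g => exact stepOK_slide m S w e f hfe g
  | comm S w e c hc => exact stepOK_comm m S w e c hc

theorem low {n m : ℕ} {X X' : WD n} (h : Eqv m X X') : SameW m X X' := by
  induction h with
  | rel X X' h => exact low_step h
  | refl X => exact sameW_refl m X
  | symm X X' _ ih => exact sameW_symm ih
  | trans X X' X'' _ _ ih ih' => exact sameW_trans ih ih'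

end Pool.Agent.H61.Tu
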