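import Pool.Agent.H61.Tu.Relators

/-!
# A block of the lower central series moves up one run   [H61 TU MOV]

`b = inr e = S.src f`, `c ∈ gam m` does not involve `b`. Levels: everything modulo `gam (m+1)`.
Let `G = S.mark b`; in `G`: `src none = inr (some e)`, `src (some f) = inr none`, other sources as
before. Let `ν : S.Arc → G.Arc` be `Sum.map id some` except that `ν b = inr none`, and
`ι = Sum.map id some`. `N c := FreeGroup.map ν c = FreeGroup.map ι c` as `c` does not involve `b`
(`Subgroup.closure_induction`); call it `c'`; `c' ∈ gam m`.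
1. `⟨S, S.upd w e (w e * c)⟩` → `mark b`.
2. `eqv_relator` with `g = none` (word `1`, relator `(inr none)⁻¹ * inr (some e)`): all words
   `map ι v` become `map ν v`. Now `inr (some e)` is unused in all words.
3. `WStep.transfer` at the runs `some e`, `none` with `u = c'⁻¹`: the words at `some e`, `none`
   become `map ν (w e * c) * c'⁻¹ = map ν (w e)` and `c' * 1`.
4. `eqv_relator` with `g = none` (word `c'`): modulo its relator and `gam (m+1)` the letters
   `inr none` and `inr (some e)` are equal, since
   `inr none = c'⁻¹ * inr (some e) * c'` and `c' ∈ gam m`. So the words `map ν v` of the runs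
   other than `none` become `map ι v`. The word `c'` does not involve `inr none`. Now `inr none`
   is unused in all words.
5. `WStep.transfer` at the runs `none`, `some f` with `u = c'⁻¹`: the words become
   `c' * c'⁻¹ = 1` and `c' * map ι (w f)`.
6. `WStep.comm` at `some f`: `c' * map ι (w f)` becomes `map ι (w f) * c' = map ι (w f * c)`
   (they differ by a commutator of `c'`, in `gam (m+1)`).
7. This is `⟨S, S.upd w f (w f * c)⟩` marked at `b`; go back with `WStep.mark`.
-/

namespace Pool.Agent.H61.Tu

open Diagram Relation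
open scoped commutatorElement

private theorem moveBlock_map {A B : Type} (N : Subgroup (FreeGroup B)) [N.Normal]
    (φ ψ : A → B) (h : ∀ a, (FreeGroup.of (φ a))⁻¹ * FreeGroup.of (ψ a) ∈ N) (x : FreeGroup A) :
    (FreeGroup.map φ x)⁻¹ * FreeGroup.map ψ x ∈ N := by
  have h1 : (QuotientGroup.mk' N).comp (FreeGroup.map φ) =
      (QuotientGroup.mk' N).comp (FreeGroup.map ψ) := by
    apply FreeGroup.ext_hom
    intro a
    simp only [MonoidHom.comp_apply, FreeGroup.map.of]
    exact QuotientGroup.eq.2 (h a)
  exact QuotientGroup.eq.1 (DFunLike.congr_fun h1 x)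

private theorem moveBlock_unused {n : ℕ} (S : Sk n) (a : S.Arc) {A : Type} (φ : A → S.Arc)
    (h : ∀ x, φ x ≠ a) (c : FreeGroup A) : S.Unused a (FreeGroup.map φ c) := by
  unfold Sk.Unused
  induction c using FreeGroup.induction_on with
  | C1 => rw [map_one]; exact one_mem _
  | of x =>
    rw [FreeGroup.map.of]
    exact Subgroup.subset_closure ⟨φ x, h x, rfl⟩
  | inv_of x _ =>
    rw [map_inv, FreeGroup.map.of]
    exact inv_mem (Subgroup.subset_closure ⟨φ x, h x, rfl⟩)
  | mul x y hx hy =>
    rw [map_mul]
    exact mul_mem hx hy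

private theorem moveBlock_map_eq {n : ℕ} (S : Sk n) (a : S.Arc) {B : Type} (φ ψ : S.Arc → B)
    (h : ∀ x, x ≠ a → φ x = ψ x) {c : FreeGroup S.Arc} (hc : S.Unused a c) :
    FreeGroup.map φ c = FreeGroup.map ψ c := by
  have hle : Subgroup.closure {g : FreeGroup S.Arc | ∃ b, b ≠ a ∧ g = FreeGroup.of b} ≤
      MonoidHom.eqLocus (FreeGroup.map φ) (FreeGroup.map ψ) := by
    rw [Subgroup.closure_le]
    rintro _ ⟨b, hb, rfl⟩
    change FreeGroup.map φ (FreeGroup.of b) = FreeGroup.map ψ (FreeGroup.of b)
    rw [FreeGroup.map.of, FreeGroup.map.of, h b hb]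
  exact hle hc

private theorem moveBlock_inv {n : ℕ} {S : Sk n} {a : S.Arc} {c : FreeGroup S.Arc}
    (hc : S.Unused a c) : S.Unused a c⁻¹ := by
  unfold Sk.Unused at hc ⊢
  exact inv_mem hc

theorem move_block {n m : ℕ} (S : Sk n) (w : S.W) (e f : S.E) (hef : S.src f = Sum.inr e)
    (c : FreeGroup S.Arc) (hc : c ∈ gam (FreeGroup S.Arc) m) (hu : S.Unused (Sum.inr e) c) :
    Eqv (m + 1) ⟨S, S.upd w e (w e * c)⟩ ⟨S, S.upd w f (w f * c)⟩ := by
  classical
  let b : S.Arc := Sum.inr e
  let G : Sk n := S.mark b
  let no : G.E := none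
  let so : S.E → G.E := some
  have hso : ∀ g, so g ≠ no := fun g => Option.some_ne_none g
  have hsoinj : Function.Injective so := Option.some_injective _
  let ι : S.Arc → G.Arc := Sum.map id some
  let ν : S.Arc → G.Arc := fun a => if a = b then Sum.inr no else ι a
  have hνb : ν b = Sum.inr no := if_pos rfl
  have hνn : ∀ a, a ≠ b → ν a = ι a := fun a ha => if_neg ha
  have hιb : ι b = Sum.inr (so e) := rfl
  have hιn : ∀ a, ι a ≠ Sum.inr no := by
    intro a h
    rcases a with i | g
    · cases h
    · exact hso g (Sum.inr_injective h)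
  have hιe : ∀ a, a ≠ b → ι a ≠ Sum.inr (so e) := by
    intro a ha h
    rcases a with i | g
    · cases h
    · exact ha (congrArg Sum.inr (hsoinj (Sum.inr_injective h)))
  have hνe : ∀ a, ν a ≠ Sum.inr (so e) := by
    intro a
    by_cases ha : a = b
    · rw [ha, hνb]
      exact fun h => hso e (Sum.inr_injective h).symm
    · rw [hνn a ha]
      exact hιe a ha
  have hsn : G.src no = Sum.inr (so e) := mark_src_none S b
  have hsf : G.src (so f) = Sum.inr no := by
    have h1 : G.src (so f) = markSrc S.src b (some f) := rfl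
    rw [h1]
    simp only [markSrc]
    rw [if_pos hef]
    rfl
  -- the assignments
  let V : FreeGroup G.Arc → (S.E → FreeGroup G.Arc) → G.W := fun x y o => match o with
    | none => x
    | some g => y g
  have hVn : ∀ x y, V x y no = x := fun _ _ => rfl
  have hVs : ∀ x y g, V x y (so g) = y g := fun _ _ _ => rfl
  have hVupd_s : ∀ x y g u, G.upd (V x y) (so g) u = V x (Function.update y g u) := by
    intro x y g u
    funext o
    rcases o with _ | o
    · rw [G.upd_ne _ (hso g).symm]
    · by_cases hog : o = g
      · rw [hog]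
        have h1 : G.upd (V x y) (so g) u (some g) = u := G.upd_same _ _ _
        rw [h1]
        have h2 : V x (Function.update y g u) (some g) = Function.update y g u g := rfl
        rw [h2, Function.update_self]
      · have h0 : (some o : G.E) ≠ so g := fun h => hog (hsoinj h)
        rw [G.upd_ne _ h0]
        have h2 : V x (Function.update y g u) (some o) = Function.update y g u o := rfl
        rw [h2, Function.update_of_ne hog]
  have hVupd_n : ∀ x y u, G.upd (V x y) no u = V u y := by
    intro x y u
    funext o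
    rcases o with _ | o
    · exact G.upd_same _ _ _
    · have h0 : (some o : G.E) ≠ no := hso o
      rw [G.upd_ne _ h0]
  have hmark : ∀ w' : S.W, S.markW b w' = V 1 (fun g => FreeGroup.map ι (w' g)) := by
    intro w'
    funext o
    rcases o with _ | o <;> rfl
  have hcases : ∀ P : G.E → Prop, P no → (∀ g, P (so g)) → ∀ o, P o := by
    intro P h1 h2 o
    rcases o with _ | o
    · exact h1
    · exact h2 o
  clear_value V
  set c' : FreeGroup G.Arc := FreeGroup.map ι c with hc'
  have hc'ν : FreeGroup.map ν c = c' := moveBlock_map_eq S b ν ι hνn hu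
  have hc'm : c' ∈ gam (FreeGroup G.Arc) m := gam_map _ m hc
  have hfe : f ≠ e := S.ne_of_src hef
  set W0 : S.W := S.upd w e (w e * c) with hW0
  -- step 1
  have s1 : Eqv (m + 1) ⟨S, W0⟩ ⟨G, V 1 (fun g => FreeGroup.map ι (W0 g))⟩ := by
    have h := Eqv.of_step (WStep.mark (m := m + 1) S W0 b)
    rw [hmark W0] at h
    exact h
  -- step 2
  have s2 : Eqv (m + 1) ⟨G, V 1 (fun g => FreeGroup.map ι (W0 g))⟩
      ⟨G, V 1 (fun g => FreeGroup.map ν (W0 g))⟩ := by
    refine eqv_relator (m + 1) G (V 1 (fun g => FreeGroup.map ι (W0 g)))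
      (V 1 (fun g => FreeGroup.map ν (W0 g))) no (by rw [hVn, hVn]) ?_
    refine hcases _ ?_ ?_
    · intro ho
      exact absurd rfl ho
    · intro o ho
      rw [hVs, hVs]
      have hN : (Nrel1 G (V 1 (fun g => FreeGroup.map ι (W0 g))) no (m + 1)).Normal := by
        have := gam_normal (FreeGroup G.Arc) (m + 1)
        unfold Nrel1
        infer_instance
      apply moveBlock_map
      intro a
      by_cases ha : a = b
      · rw [ha, hνb, hιb]
        have h1 : (FreeGroup.of (Sum.inr (so e)) : FreeGroup G.Arc)⁻¹ * FreeGroup.of (Sum.inr no) =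
            (G.rel (V 1 (fun g => FreeGroup.map ι (W0 g))) no)⁻¹ := by
          unfold Sk.rel
          rw [hVn, hsn]
          simp
        rw [h1]
        exact inv_mem (Subgroup.mem_sup_left (Subgroup.subset_normalClosure rfl))
      · rw [hνn a ha, inv_mul_cancel]
        exact one_mem _
  -- step 3
  have s3 : Eqv (m + 1) ⟨G, V 1 (fun g => FreeGroup.map ν (W0 g))⟩
      ⟨G, V c' (fun g => FreeGroup.map ν (w g))⟩ := by
    have h := Eqv.of_step (WStep.transfer (m := m + 1) G (V 1 (fun g => FreeGroup.map ν (W0 g)))
      (so e) no c'⁻¹ hsn (by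
        refine hcases _ ?_ ?_
        · rw [hVn]
          exact one_mem _
        · intro o
          rw [hVs]
          exact moveBlock_unused G _ ν hνe _) (by
        rw [← hc'ν]
        exact moveBlock_inv (moveBlock_unused G _ ν hνe _)))
    rw [hVs, hVupd_s, hVupd_n, hVn, inv_inv, mul_one] at h
    have h1 : Function.update (fun g => FreeGroup.map ν (W0 g)) e
        (FreeGroup.map ν (W0 e) * c'⁻¹) = fun g => FreeGroup.map ν (w g) := by
      funext g
      by_cases hg : g = e
      · rw [hg, Function.update_self, hW0, S.upd_same, map_mul, hc'ν, mul_inv_cancel_right]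
      · rw [Function.update_of_ne hg, hW0, S.upd_ne w hg]
    rw [h1] at h
    exact h
  -- step 4
  have s4 : Eqv (m + 1) ⟨G, V c' (fun g => FreeGroup.map ν (w g))⟩
      ⟨G, V c' (fun g => FreeGroup.map ι (w g))⟩ := by
    refine eqv_relator (m + 1) G (V c' (fun g => FreeGroup.map ν (w g)))
      (V c' (fun g => FreeGroup.map ι (w g))) no (by rw [hVn, hVn]) ?_
    refine hcases _ ?_ ?_
    · intro ho
      exact absurd rfl ho
    · intro o ho
      rw [hVs, hVs]
      have hN : (Nrel1 G (V c' (fun g => FreeGroup.map ν (w g))) no (m + 1)).Normal := by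
        have := gam_normal (FreeGroup G.Arc) (m + 1)
        unfold Nrel1
        infer_instance
      apply moveBlock_map
      intro a
      by_cases ha : a = b
      · rw [ha, hνb, hιb]
        have h1 : (FreeGroup.of (Sum.inr no) : FreeGroup G.Arc)⁻¹ *
            FreeGroup.of (Sum.inr (so e)) =
            G.rel (V c' (fun g => FreeGroup.map ν (w g))) no *
              ⁅c'⁻¹, (FreeGroup.of (Sum.inr (so e)))⁻¹⁆ := by
          unfold Sk.rel
          rw [hVn, hsn, commutatorElement_def]
          group
        rw [h1]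
        exact mul_mem (Subgroup.mem_sup_left (Subgroup.subset_normalClosure rfl))
          (Subgroup.mem_sup_right (commutator_mem_gam (inv_mem hc'm) _).1)
      · rw [hνn a ha, inv_mul_cancel]
        exact one_mem _
  -- step 5
  have s5 : Eqv (m + 1) ⟨G, V c' (fun g => FreeGroup.map ι (w g))⟩
      ⟨G, V 1 (Function.update (fun g => FreeGroup.map ι (w g)) f
        (c' * FreeGroup.map ι (w f)))⟩ := by
    have h := Eqv.of_step (WStep.transfer (m := m + 1) G (V c' (fun g => FreeGroup.map ι (w g)))
      no (so f) c'⁻¹ hsf (by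
        refine hcases _ ?_ ?_
        · rw [hVn]
          exact moveBlock_unused G _ ι hιn _
        · intro o
          rw [hVs]
          exact moveBlock_unused G _ ι hιn _) (moveBlock_inv (moveBlock_unused G _ ι hιn _)))
    rw [hVn, hVupd_n, hVupd_s, hVs, inv_inv, mul_inv_cancel] at h
    exact h
  -- step 6
  have s6 : Eqv (m + 1) ⟨G, V 1 (Function.update (fun g => FreeGroup.map ι (w g)) f
        (c' * FreeGroup.map ι (w f)))⟩
      ⟨G, V 1 (Function.update (fun g => FreeGroup.map ι (w g)) f
        (FreeGroup.map ι (w f) * c'))⟩ := by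
    have h := Eqv.of_step (WStep.comm (m := m + 1) G
      (V 1 (Function.update (fun g => FreeGroup.map ι (w g)) f (c' * FreeGroup.map ι (w f))))
      (so f) ⁅(FreeGroup.map ι (w f))⁻¹, c'⁻¹⁆ (commutator_mem_gam (inv_mem hc'm) _).2)
    rw [hVs, hVupd_s, Function.update_self, Function.update_idem] at h
    have h1 : c' * FreeGroup.map ι (w f) * ⁅(FreeGroup.map ι (w f))⁻¹, c'⁻¹⁆ =
        FreeGroup.map ι (w f) * c' := by
      rw [commutatorElement_def]
      group
    rw [h1] at h
    exact h
  -- step 7
  have s7 : Eqv (m + 1) ⟨S, S.upd w f (w f * c)⟩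
      ⟨G, V 1 (Function.update (fun g => FreeGroup.map ι (w g)) f
        (FreeGroup.map ι (w f) * c'))⟩ := by
    have h := Eqv.of_step (WStep.mark (m := m + 1) S (S.upd w f (w f * c)) b)
    rw [hmark] at h
    have h1 : (fun g => FreeGroup.map ι (S.upd w f (w f * c) g)) =
        Function.update (fun g => FreeGroup.map ι (w g)) f (FreeGroup.map ι (w f) * c') := by
      funext g
      by_cases hg : g = f
      · rw [hg, Function.update_self, S.upd_same, map_mul]
      · rw [Function.update_of_ne hg, S.upd_ne w hg]
    rw [h1] at h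
    exact h
  exact s1.trans (s2.trans (s3.trans (s4.trans (s5.trans (s6.trans s7.symm)))))

end Pool.Agent.H61.Tu
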