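import Pool.Agent.H61.Tu.Bridge

/-!
# Moves of diagrams are moves of word diagrams   [H61 TU M2S]

Write `w = D.fw`, `U L = FreeGroup.mk L`; `U (L ++ L') = U L * U L'` (`FreeGroup.mul_mk`),
`U ((a, true) :: L) = of a * U L`, `U ((a, false) :: L) = (of a)⁻¹ * U L`. For a change of one word
use `toWD_setWord` (and `D.sk.upd_self` if the word is the old one).
* `rename`: `WStep.rename D.sk D'.sk φ hsrc D.fw`; `renW φ D.fw = D'.fw`: at `e' = φ (φ.symm e')`
  use `hword` and `mk_map`.
* `mark`: `toWD_mark`, `WStep.mark`.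
* `pass`: `f ≠ e` (as `word f = []`, `word e ≠ []`), `w e = A * (of (inr f))^b * B` with `A = U L₁`,
  `B = U L₂`; the relator of `f` is `r = D.sk.rel w f = (of (inr f))⁻¹ * of (src f)`
  (up to `1`s). `b = true`: `A * of (src f) * B = w e * (B⁻¹ * r * B)`: `WStep.slide`, `g = B`.
  `b = false`: with the new word `v = A * (of (src f))⁻¹ * B` and `g = (of (inr f))⁻¹ * B`:
  `w e = v * (g⁻¹ * r * g)`: `WStep.slide` for `upd w e v` (the relator of `f` is the same because
  `f ≠ e`), `upd_upd`, `upd_self`, in the other direction.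
* `shift`: `WStep.transfer` with `u = U [x]`; the words do not use `inr e`: for a list `L` with
  all letters `≠ inr e` the element `U L` is in the closure (induction on `L`).
* `r1_left`: `b = true`: `w e = of (src e) * U L`, so `WStep.kinkL` from the new to the old
  diagram; `b = false`: `U L = of (src e) * w e`, `WStep.kinkL` from the old to the new one.
* `r1_right`: the same with `WStep.kinkR`.
* `r2`: the two word diagrams are equal: `U (L₁ ++ (a, b) :: (a, !b) :: L₂) = U (L₁ ++ L₂)`.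
* `r3`: `w f = C = U [(c, d)]`, `r = (of (inr f))⁻¹ * C⁻¹ * of (src f) * C`. `b = true`: the new word is
  `v = A * C * of (inr f) * B`, and `w e = A * of (src f) * C * B = v * (B⁻¹ * r * B)`: `slide` from
  the new to the old diagram. `b = false`: `w e = A * (of (src f))⁻¹ * C * B`,
  `g = (of (inr f))⁻¹ * B`: the new word `A * C * (of (inr f))⁻¹ * B` is `w e * (g⁻¹ * r * g)`.
* `surgery`: `U (L₁ ++ B ++ L₂) = w e * ((U L₂)⁻¹ * U B * U L₂)`; `gam` is normal:
  `WStep.comm` (`gam_normal` is in `GamBasic`, not needed: `Subgroup.lowerCentralSeries` of `⊤` is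
  normal by an instance; you may import `GamBasic`).
The group identities are closed by `group` or `simp [mul_assoc]`.
-/

namespace Pool.Agent.H61.Tu

open Diagram Relation
open scoped commutatorElement

private theorem mk_app {A : Type} (L L' : List (A × Bool)) :
    FreeGroup.mk (L ++ L') = FreeGroup.mk L * FreeGroup.mk L' := (FreeGroup.mul_mk).symm

private theorem mk_con {A : Type} (x : A × Bool) (L : List (A × Bool)) :
    FreeGroup.mk (x :: L) = FreeGroup.mk [x] * FreeGroup.mk L := by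
  rw [FreeGroup.mul_mk]
  rfl

private theorem mk_true {A : Type} (a : A) :
    FreeGroup.mk [(a, true)] = FreeGroup.of a := rfl

private theorem mk_false {A : Type} (a : A) :
    FreeGroup.mk [(a, false)] = (FreeGroup.of a)⁻¹ := rfl

private theorem slide_pos {n m : ℕ} (S : Sk n) (w : S.W) (e f : S.E) (hfe : f ≠ e)
    (g v : FreeGroup S.Arc) (hv : v = w e * (g⁻¹ * S.rel w f * g)) :
    Eqv m ⟨S, w⟩ ⟨S, S.upd w e v⟩ := by
  subst hv
  exact Eqv.of_step (WStep.slide S w e f hfe g)

private theorem slide_neg {n m : ℕ} (S : Sk n) (w : S.W) (e f : S.E) (hfe : f ≠ e)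
    (g v : FreeGroup S.Arc) (hv : w e = v * (g⁻¹ * S.rel w f * g)) :
    Eqv m ⟨S, w⟩ ⟨S, S.upd w e v⟩ := by
  have h1 : S.rel (S.upd w e v) f = S.rel w f := by
    rw [Sk.rel, Sk.rel, Sk.upd_ne S w hfe]
  have h2 := slide_pos (m := m) S (S.upd w e v) e f hfe g _ rfl
  rw [Sk.upd_upd, Sk.upd_same, h1, ← hv, Sk.upd_self] at h2
  exact h2.symm

private theorem unused_mk {n : ℕ} (S : Sk n) (a : S.Arc) (L : List (S.Arc × Bool))
    (h : ∀ y ∈ L, y.1 ≠ a) : S.Unused a (FreeGroup.mk L) := by
  induction L with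
  | nil => exact one_mem _
  | cons x L ih =>
    rw [mk_con]
    refine mul_mem ?_ (ih fun y hy => h y (List.mem_cons_of_mem _ hy))
    obtain ⟨b, c⟩ := x
    have hb : FreeGroup.of b ∈ Subgroup.closure {g : FreeGroup S.Arc | ∃ b, b ≠ a ∧
        g = FreeGroup.of b} :=
      Subgroup.subset_closure ⟨b, h (b, c) List.mem_cons_self, rfl⟩
    cases c
    · rw [mk_false]
      exact inv_mem hb
    · rw [mk_true]
      exact hb

theorem eqv_of_move {n m : ℕ} {D D' : Diagram n} (h : Move D D') : Eqv m D.toWD D'.toWD := by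
  cases h with
  | rename _ φ hsrc hword =>
    have h1 : Sk.renW (S := D.sk) (S' := D'.sk) φ D.fw = D'.fw := by
      funext e'
      obtain ⟨e, rfl⟩ := φ.surjective e'
      change FreeGroup.map (Sum.map id φ) (FreeGroup.mk (D.word (φ.symm (φ e)))) =
        FreeGroup.mk (D'.word (φ e))
      rw [φ.symm_apply_apply, hword, mk_map]
    have h2 := WStep.rename (m := m) D.sk D'.sk φ hsrc D.fw
    rw [h1] at h2
    exact Eqv.of_step h2
  | mark a =>
    rw [toWD_mark]
    exact Eqv.of_step (WStep.mark _ _ _)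
  | pass e f b L₁ L₂ hf he =>
    rw [toWD_setWord]
    have hfe : f ≠ e := by
      rintro rfl
      rw [hf] at he
      simp at he
    have h1 : D.fw e = FreeGroup.mk L₁ * (FreeGroup.mk [(Sum.inr f, b)] * FreeGroup.mk L₂) := by
      rw [Diagram.fw_apply, he, mk_app, mk_con]
    have h2 : FreeGroup.mk (L₁ ++ (D.src f, b) :: L₂) =
        FreeGroup.mk L₁ * (FreeGroup.mk [(D.src f, b)] * FreeGroup.mk L₂) := by
      rw [mk_app, mk_con]
    have h3 : D.sk.rel D.fw f = (FreeGroup.of (Sum.inr f))⁻¹ * FreeGroup.of (D.src f) := by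
      have h4 : D.fw f = 1 := by
        rw [Diagram.fw_apply, hf]
        rfl
      rw [Sk.rel, h4, inv_one, mul_one, mul_one]
    cases b
    · refine slide_neg D.sk D.fw e f hfe ((FreeGroup.of (Sum.inr f))⁻¹ * FreeGroup.mk L₂) _ ?_
      rw [h1, h2, h3, mk_false, mk_false]
      group
    · refine slide_pos D.sk D.fw e f hfe (FreeGroup.mk L₂) _ ?_
      rw [h1, h2, h3, mk_true, mk_true]
      group
  | shift e f x L hef hno hf =>
    have h1 : FreeGroup.mk (D.word e ++ [x]) = D.fw e * FreeGroup.mk [x] := by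
      rw [mk_app]
      rfl
    have h2 : FreeGroup.mk L = (FreeGroup.mk [x])⁻¹ * D.fw f := by
      rw [Diagram.fw_apply, hf, mk_con x L, inv_mul_cancel_left]
    have h3 : ((D.setWord e (D.word e ++ [x])).setWord f L).toWD = ⟨D.sk,
        D.sk.upd (D.sk.upd D.fw e (D.fw e * FreeGroup.mk [x])) f
          ((FreeGroup.mk [x])⁻¹ * D.fw f)⟩ := by
      have h4 := fw_setWord D e (D.word e ++ [x])
      rw [toWD_setWord, ← h1, ← h2]
      change (⟨D.sk, D.sk.upd (D.setWord e (D.word e ++ [x])).fw f (FreeGroup.mk L)⟩ : WD n) = _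
      rw [h4]
    rw [h3]
    refine Eqv.of_step (WStep.transfer D.sk D.fw e f (FreeGroup.mk [x]) hef ?_ ?_)
    · intro g
      exact unused_mk D.sk _ _ (hno g)
    · refine unused_mk D.sk _ _ ?_
      intro y hy
      rw [List.mem_singleton] at hy
      subst hy
      refine hno f y ?_
      rw [hf]
      exact List.mem_cons_self
  | r1_left e b L he =>
    rw [toWD_setWord]
    have h1 : D.fw e = FreeGroup.mk [(D.src e, b)] * FreeGroup.mk L := by
      rw [Diagram.fw_apply, he, mk_con]
    cases b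
    · have h2 : FreeGroup.mk L = FreeGroup.of (D.sk.src e) * D.fw e := by
        rw [h1, mk_false, mul_inv_cancel_left]
      rw [h2]
      exact Eqv.of_step (WStep.kinkL D.sk D.fw e)
    · have h2 := WStep.kinkL (m := m) D.sk (D.sk.upd D.fw e (FreeGroup.mk L)) e
      have h3 : FreeGroup.of (D.sk.src e) * FreeGroup.mk L = D.fw e := by
        rw [h1, mk_true]
      rw [Sk.upd_upd, Sk.upd_same, h3, Sk.upd_self] at h2
      exact (Eqv.of_step h2).symm
  | r1_right e b L he =>
    rw [toWD_setWord]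
    have h1 : D.fw e = FreeGroup.mk L * FreeGroup.mk [(Sum.inr e, b)] := by
      rw [Diagram.fw_apply, he, mk_app]
    cases b
    · have h2 : FreeGroup.mk L = D.fw e * FreeGroup.of (Sum.inr e) := by
        rw [h1, mk_false, inv_mul_cancel_right]
      rw [h2]
      exact Eqv.of_step (WStep.kinkR D.sk D.fw e)
    · have h2 := WStep.kinkR (m := m) D.sk (D.sk.upd D.fw e (FreeGroup.mk L)) e
      have h3 : FreeGroup.mk L * FreeGroup.of (Sum.inr e) = D.fw e := by
        rw [h1, mk_true]
      rw [Sk.upd_upd, Sk.upd_same, h3, Sk.upd_self] at h2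
      exact (Eqv.of_step h2).symm
  | r2 e a b L₁ L₂ he =>
    rw [toWD_setWord]
    have h1 : FreeGroup.mk (L₁ ++ L₂) = D.fw e := by
      rw [Diagram.fw_apply, he, mk_app, mk_app, mk_con (a, b), mk_con (a, !b)]
      cases b
      · rw [Bool.not_false, mk_true, mk_false, inv_mul_cancel_left]
      · rw [Bool.not_true, mk_true, mk_false, mul_inv_cancel_left]
    rw [h1, Sk.upd_self]
    exact Eqv.refl _
  | r3 e f hef c b d L₁ L₂ hf he =>
    rw [toWD_setWord]
    have h1 : D.fw e = FreeGroup.mk L₁ * (FreeGroup.mk [(D.src f, b)] *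
        (FreeGroup.mk [(c, d)] * FreeGroup.mk L₂)) := by
      rw [Diagram.fw_apply, he, mk_app, mk_con (D.src f, b), mk_con (c, d)]
    have h2 : FreeGroup.mk (L₁ ++ (c, d) :: (Sum.inr f, b) :: L₂) =
        FreeGroup.mk L₁ * (FreeGroup.mk [(c, d)] *
          (FreeGroup.mk [(Sum.inr f, b)] * FreeGroup.mk L₂)) := by
      rw [mk_app, mk_con (c, d), mk_con (Sum.inr f, b)]
    have h3 : D.sk.rel D.fw f = (FreeGroup.of (Sum.inr f))⁻¹ * (FreeGroup.mk [(c, d)])⁻¹ *
        FreeGroup.of (D.src f) * FreeGroup.mk [(c, d)] := by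
      have h4 : D.fw f = FreeGroup.mk [(c, d)] := by
        rw [Diagram.fw_apply, hf]
      rw [Sk.rel, h4]
    cases b
    · refine slide_pos D.sk D.fw e f hef ((FreeGroup.of (Sum.inr f))⁻¹ * FreeGroup.mk L₂) _ ?_
      rw [h1, h2, h3, mk_false, mk_false]
      group
    · refine slide_neg D.sk D.fw e f hef (FreeGroup.mk L₂) _ ?_
      rw [h1, h2, h3, mk_true, mk_true]
      group

theorem eqv_of_surgery {n m : ℕ} {D D' : Diagram n} (h : Surgery m D D') :
    Eqv m D.toWD D'.toWD := by
  obtain ⟨e, L₁, B, L₂, he, hB, rfl⟩ := h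
  rw [toWD_setWord]
  have h1 : D.fw e = FreeGroup.mk L₁ * FreeGroup.mk L₂ := by
    rw [Diagram.fw_apply, he, mk_app]
  have h2 : FreeGroup.mk (L₁ ++ B ++ L₂) =
      D.fw e * ((FreeGroup.mk L₂)⁻¹ * FreeGroup.mk B * FreeGroup.mk L₂) := by
    rw [h1, mk_app, mk_app]
    group
  rw [h2]
  refine Eqv.of_step (WStep.comm D.sk D.fw e _ ?_)
  have h3 : (gam (FreeGroup D.Arc) m).Normal := Subgroup.lowerCentralSeries_normal ⊤ m
  have h4 := h3.conj_mem _ hB (FreeGroup.mk L₂)⁻¹
  rw [inv_inv] at h4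
  exact h4

theorem eqv_of_wEquiv {n m : ℕ} {D D' : Diagram n} (h : WEquiv m D D') :
    Eqv m D.toWD D'.toWD := by
  induction h with
  | rel D D' h => exact h.elim eqv_of_move eqv_of_surgery
  | refl D => exact Eqv.refl _
  | symm D D' _ ih => exact ih.symm
  | trans D D' D'' _ _ ih ih' => exact ih.trans ih'

end Pool.Agent.H61.Tu
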