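import Pool.Agent.H61.Tu.WD
import Pool.Agent.H61.Tu.Paths

/-!
# The move `mark`: colours and longitudes   [H61 TU MARKA]

Let `σ = Sum.map id some : S.Arc → (S.mark a).Arc`. Then `S.markCol a ρ ∘ σ = ρ`, hence
`lift (S.markCol a ρ) (FreeGroup.map σ u) = lift ρ u`.
* `isCol_mark`: at `none` the word is `1` and the source is `σ a`, the colour `ρ a`. At `some e`
  the source is `inr none` (colour `ρ a`) if `S.src e = a`, and `σ (S.src e)` otherwise
  (`markSrc`).
* `long_mark`: claim, by `Sk.arc_induction` or induction on the path: if `S.Path w j b u` then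
  `(S.mark a).Path (S.markW a w) j (σ b) (map σ u)`, and if moreover `b = a` then also
  `(S.mark a).Path .. j (inr none) (map σ u * 1)`. (For `inr (some e)` with `S.src e = a` use
  the path to `inr none`.) If `b` is not a source in `S`: for `b ≠ a` the arc `σ b` is not a
  source in `S.mark a`; for `b = a` the arc `inr none` is not a source. So the longitude of
  `S.mark a` is `map σ u` (or `map σ u * 1`) by `isLong_unique`.
-/

namespace Pool.Agent.H61.Tu

open Diagram Relation
open scoped commutatorElement

theorem StepMarkA_col {n : ℕ} (S : Sk n) (a : S.Arc) {H : Type*} (ρ : S.Arc → H)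
    (b : S.Arc) : S.markCol a ρ (Sum.map id some b) = ρ b := by
  rcases b with i | e <;> rfl

theorem StepMarkA_lift {A B : Type} {H : Type*} [Group H] (f : B → H) (σ : A → B)
    (u : FreeGroup A) :
    FreeGroup.lift f (FreeGroup.map σ u) = FreeGroup.lift (fun b => f (σ b)) u := by
  have h : (FreeGroup.lift f).comp (FreeGroup.map σ) = FreeGroup.lift (fun b => f (σ b)) := by
    apply FreeGroup.ext_hom
    intro b
    simp
  exact DFunLike.congr_fun h u

theorem StepMarkA_map {n : ℕ} (S : Sk n) (a : S.Arc) {H : Type*} [Group H] (ρ : S.Arc → H)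
    (u : FreeGroup S.Arc) :
    FreeGroup.lift (S.markCol a ρ) (FreeGroup.map (Sum.map id some) u) =
      FreeGroup.lift ρ u := by
  refine (StepMarkA_lift (S.markCol a ρ) (Sum.map id some) u).trans ?_
  have h : (fun b => S.markCol a ρ (Sum.map id some b)) = ρ :=
    funext fun b => StepMarkA_col S a ρ b
  exact congrArg (fun f => FreeGroup.lift f u) h

theorem StepMarkA_src {n : ℕ} (S : Sk n) (a : S.Arc) (e : S.E) (h : S.src e = a) :
    (S.mark a).src (some e) = Sum.inr none := by
  change markSrc S.src a (some e) = _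
  simp [markSrc, h]

theorem StepMarkA_src' {n : ℕ} (S : Sk n) (a : S.Arc) (e : S.E) (h : S.src e ≠ a) :
    (S.mark a).src (some e) = Sum.map id some (S.src e) := by
  change markSrc S.src a (some e) = _
  simp [markSrc, h]

theorem StepMarkA_ne {n : ℕ} {E : Type} (x : Fin n ⊕ E) :
    Sum.map (id : Fin n → Fin n) (some : E → Option E) x ≠ Sum.inr none := by
  rcases x with x | x <;> simp

theorem StepMarkA_inj {n : ℕ} {E : Type} :
    Function.Injective (Sum.map (id : Fin n → Fin n) (some : E → Option E)) :=
  Function.Injective.sumMap Function.injective_id (Option.some_injective _)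

theorem isCol_mark {n : ℕ} (S : Sk n) (w : S.W) (a : S.Arc) {H : Type*} [Group H]
    {x : Fin n → H} {ρ : S.Arc → H} (hρ : S.IsCol w x ρ) :
    (S.mark a).IsCol (S.markW a w) x (S.markCol a ρ) := by
  refine ⟨fun i => hρ.1 i, ?_⟩
  rintro (_ | e)
  · change ρ a = (FreeGroup.lift (S.markCol a ρ) 1)⁻¹ * S.markCol a ρ (Sum.map id some a) *
      FreeGroup.lift (S.markCol a ρ) 1
    rw [StepMarkA_col, map_one, inv_one, one_mul, mul_one]
  · have h1 : S.markCol a ρ ((S.mark a).src (some e)) = ρ (S.src e) := by
      by_cases h : S.src e = a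
      · rw [StepMarkA_src S a e h, h]
        rfl
      · rw [StepMarkA_src' S a e h]
        exact StepMarkA_col S a ρ _
    rw [h1]
    change ρ (Sum.inr e) = (FreeGroup.lift (S.markCol a ρ)
      (FreeGroup.map (Sum.map id some) (w e)))⁻¹ * ρ (S.src e) *
      FreeGroup.lift (S.markCol a ρ) (FreeGroup.map (Sum.map id some) (w e))
    rw [StepMarkA_map]
    exact hρ.2 e

theorem StepMarkA_path {n : ℕ} (S : Sk n) (w : S.W) (a : S.Arc) {j : Fin n} {b : S.Arc}
    {u : FreeGroup S.Arc} (h : S.Path w j b u) :
    (S.mark a).Path (S.markW a w) j (Sum.map id some b) (FreeGroup.map (Sum.map id some) u) ∧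
    (b = a → (S.mark a).Path (S.markW a w) j (Sum.inr none)
      (FreeGroup.map (Sum.map id some) u)) := by
  have hnone : ∀ (b : S.Arc) (u' : FreeGroup (S.mark a).Arc),
      (S.mark a).Path (S.markW a w) j (Sum.map id some b) u' → b = a →
      (S.mark a).Path (S.markW a w) j (Sum.inr none) u' := by
    intro b u' h1 hb
    subst hb
    have h2 := Sk.Path.step (S := S.mark b) (w := S.markW b w) (j := j) none u' h1
    have h3 : u' * S.markW b w none = u' := mul_one u'
    rwa [h3] at h2
  induction h with
  | base =>
    have h1 : (S.mark a).Path (S.markW a w) j (Sum.map id some (Sum.inl j))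
        (FreeGroup.map (Sum.map id some) 1) := by
      rw [map_one]
      exact Sk.Path.base
    exact ⟨h1, hnone _ _ h1⟩
  | step e u h ih =>
    have h1 : (S.mark a).Path (S.markW a w) j (Sum.map id some (Sum.inr e))
        (FreeGroup.map (Sum.map id some) (u * w e)) := by
      rw [map_mul]
      apply Sk.Path.step (S := S.mark a) (w := S.markW a w) (j := j) (some e)
      by_cases h2 : S.src e = a
      · rw [StepMarkA_src S a e h2]
        exact ih.2 h2
      · rw [StepMarkA_src' S a e h2]
        exact ih.1
    exact ⟨h1, hnone _ _ h1⟩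

theorem long_mark {n : ℕ} (S : Sk n) (w : S.W) (a : S.Arc) {j : Fin n} {u : FreeGroup S.Arc}
    {u' : FreeGroup (S.mark a).Arc} (hu : S.IsLong w j u)
    (hu' : (S.mark a).IsLong (S.markW a w) j u') : u' = FreeGroup.map (Sum.map id some) u := by
  obtain ⟨b, hb, hns⟩ := hu
  apply isLong_unique hu'
  obtain ⟨h1, h2⟩ := StepMarkA_path S w a hb
  by_cases hba : b = a
  · refine ⟨Sum.inr none, h2 hba, ?_⟩
    rintro (_ | e)
    · exact StepMarkA_ne a
    · by_cases h3 : S.src e = a
      · exact absurd (h3.trans hba.symm) (hns e)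
      · rw [StepMarkA_src' S a e h3]
        exact StepMarkA_ne _
  · refine ⟨Sum.map id some b, h1, ?_⟩
    rintro (_ | e)
    · intro h
      exact hba (StepMarkA_inj h).symm
    · by_cases h3 : S.src e = a
      · rw [StepMarkA_src S a e h3]
        exact (StepMarkA_ne b).symm
      · rw [StepMarkA_src' S a e h3]
        intro h
        exact hns e (StepMarkA_inj h)

end Pool.Agent.H61.Tu
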