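import Pool.Agent.H61.Tu.WD
import Pool.Agent.H61.Tu.Paths

/-!
# The move `transfer`: colours and longitudes   [H61 TU TRA]

Put `b = inr e`, `w' = S.upd (S.upd w e (w e * u)) f (u⁻¹ * w f)`, `ρ' = S.transCol e u ρ`.
`f ≠ e` by `S.ne_of_src hef`.
* `lift_unused`: if `Unused b v` and `ρ`, `ρ'` agree outside `b` then
  `lift ρ' v = lift ρ v` (`Subgroup.closure_induction`).
* colouring: at `e`: `ρ' b = (lift ρ u)⁻¹ * ρ b * lift ρ u` and the new word is `w e * u`.
  At `f`: source `b`, new word `u⁻¹ * w f`. Other runs: the word is the same and the source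
  is not `b` (`S.inj`, since `S.src f = b`).
* longitudes: the longitude of the new diagram is the same element of the free group:
  by induction on the path, if `S.Path w j a v` and `a ≠ b` then `S.Path w' j a v`, and if
  `a = b` then `S.Path w' j b (v * u)` (for `inr f`: `(v * u) * (u⁻¹ * w f) = v * w f`). The top
  arcs are the same, and `b` is not a top arc. The longitude `v` is a product of words of
  runs, none of which involves `b`, so `lift ρ' v = lift ρ v`: prove by induction on paths that
  `S.Path w j a v` implies `S.Unused b v`.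
-/

namespace Pool.Agent.H61.Tu

open Diagram Relation
open scoped commutatorElement

theorem lift_unused {n : ℕ} (S : Sk n) {b : S.Arc} {H : Type*} [Group H] {ρ ρ' : S.Arc → H}
    (h : ∀ a, a ≠ b → ρ' a = ρ a) {v : FreeGroup S.Arc} (hv : S.Unused b v) :
    FreeGroup.lift ρ' v = FreeGroup.lift ρ v := by
  unfold Sk.Unused at hv
  induction hv using Subgroup.closure_induction with
  | mem x hx =>
    obtain ⟨c, hc, rfl⟩ := hx
    rw [FreeGroup.lift_apply_of, FreeGroup.lift_apply_of, h c hc]
  | one => rw [map_one, map_one]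
  | mul x y _ _ hx hy => rw [map_mul, map_mul, hx, hy]
  | inv x _ hx => rw [map_inv, map_inv, hx]

theorem isCol_transfer {n : ℕ} (S : Sk n) (w : S.W) (e f : S.E) (u : FreeGroup S.Arc)
    (hef : S.src f = Sum.inr e) (hw : ∀ g, S.Unused (Sum.inr e) (w g))
    (hu : S.Unused (Sum.inr e) u) {H : Type*} [Group H] {x : Fin n → H} {ρ : S.Arc → H}
    (hρ : S.IsCol w x ρ) :
    S.IsCol (S.upd (S.upd w e (w e * u)) f (u⁻¹ * w f)) x (S.transCol e u ρ) := by
  have hfe : f ≠ e := S.ne_of_src hef
  have hne : ∀ a, a ≠ Sum.inr e → S.transCol e u ρ a = ρ a := fun a ha => S.transCol_ne e u ρ ha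
  have hlw : ∀ g, FreeGroup.lift (S.transCol e u ρ) (w g) = FreeGroup.lift ρ (w g) :=
    fun g => lift_unused S hne (hw g)
  have hlu : FreeGroup.lift (S.transCol e u ρ) u = FreeGroup.lift ρ u := lift_unused S hne hu
  refine ⟨fun i => ?_, fun g => ?_⟩
  · rw [hne _ (by simp)]
    exact hρ.1 i
  · by_cases hge : g = e
    · subst hge
      rw [S.upd_ne _ (Ne.symm hfe), S.upd_same, map_mul, hlw, hlu, S.transCol_same,
        hne _ (S.src_ne g), hρ.2 g]
      group
    · by_cases hgf : g = f
      · subst hgf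
        rw [S.upd_same, map_mul, map_inv, hlw, hlu, hef, S.transCol_same,
          hne (Sum.inr g) (by simpa using hge), hρ.2 g, hef]
        group
      · rw [S.upd_ne _ hgf, S.upd_ne _ hge, hlw, hne (Sum.inr g) (by simpa using hge),
          hne (S.src g) (fun h => hgf (S.inj (h.trans hef.symm)))]
        exact hρ.2 g

private theorem path_transfer {n : ℕ} (S : Sk n) (w : S.W) (e f : S.E) (u : FreeGroup S.Arc)
    (hef : S.src f = Sum.inr e) (hw : ∀ g, S.Unused (Sum.inr e) (w g)) {j : Fin n}
    {a : S.Arc} {v : FreeGroup S.Arc} (hv : S.Path w j a v) :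
    S.Unused (Sum.inr e) v ∧
      (a ≠ Sum.inr e → S.Path (S.upd (S.upd w e (w e * u)) f (u⁻¹ * w f)) j a v) ∧
      (a = Sum.inr e → S.Path (S.upd (S.upd w e (w e * u)) f (u⁻¹ * w f)) j a (v * u)) := by
  have hfe : f ≠ e := S.ne_of_src hef
  induction hv with
  | base =>
    refine ⟨Subgroup.one_mem _, fun _ => Sk.Path.base, fun h => ?_⟩
    simp at h
  | step g v h ih =>
    refine ⟨Subgroup.mul_mem _ ih.1 (hw g), ?_, ?_⟩
    · intro hne
      have hge : g ≠ e := fun h => hne (by rw [h])
      by_cases hgf : g = f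
      · subst hgf
        have h1 := Sk.Path.step g _ (ih.2.2 hef)
        rw [S.upd_same] at h1
        have h2 : v * u * (u⁻¹ * w g) = v * w g := by group
        rw [h2] at h1
        exact h1
      · have h1 := Sk.Path.step g _ (ih.2.1 (fun h => hgf (S.inj (h.trans hef.symm))))
        rw [S.upd_ne _ hgf, S.upd_ne _ hge] at h1
        exact h1
    · intro heq
      have hge : g = e := by simpa using heq
      subst hge
      have h1 := Sk.Path.step g _ (ih.2.1 (S.src_ne g))
      rw [S.upd_ne _ (Ne.symm hfe), S.upd_same, ← mul_assoc] at h1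
      exact h1

theorem long_transfer {n : ℕ} (S : Sk n) (w : S.W) (e f : S.E) (u : FreeGroup S.Arc)
    (hef : S.src f = Sum.inr e) (hw : ∀ g, S.Unused (Sum.inr e) (w g)) {j : Fin n}
    {v : FreeGroup S.Arc} (hv : S.IsLong w j v) :
    S.IsLong (S.upd (S.upd w e (w e * u)) f (u⁻¹ * w f)) j v ∧ S.Unused (Sum.inr e) v := by
  obtain ⟨a, ha, htop⟩ := hv
  have hab : a ≠ Sum.inr e := fun h => htop f (hef.trans h.symm)
  have h1 := path_transfer S w e f u hef hw ha
  exact ⟨⟨a, h1.2.1 hab, htop⟩, h1.1⟩

end Pool.Agent.H61.Tu
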