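import Pool.Agent.H61.Tu.Place

/-!
# Every surgery is an insertion at the bottom   [H61 TU SUR]

* `exists_canon`: define `σ : S.Arc → Option (Fin n)` with `Sk.exists_rec`:
  `σ (inl i) = some i`, `σ (inr e) = none`, `σ (inr f) = σ (src f)` for `f ≠ e`. By
  `Sk.arc_induction` `(of a)⁻¹ * of (letterMap S e (σ a)) ∈ Nrel S w e 1`: equal for `a = inl i`
  and `a = inr e`; for `f ≠ e` the relator `rel f` shows that `of (inr f)` is conjugate to
  `of (src f)` modulo the relators, so congruent modulo `Nrel S w e 1`.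
* `surgery_eq_ins`: `c' = FreeGroup.map σ c ∈ gam m`; `letter_change_map` (with `A = S.Arc`,
  `σ = of`, `τ a = of (letterMap S e (σ a))`) and `eqv_update_update` give
  `⟨S, S.upd w e (w e * c)⟩ ≡ ⟨S, S.upd w e (w e * map (letterMap S e) c')⟩`; then `place` with
  `j` from `path_exists S w (inr e)`.
-/

namespace Pool.Agent.H61.Tu

open Diagram Relation
open scoped commutatorElement

private theorem sur_rel {n : ℕ} (S : Sk n) (w : S.W) {e g : S.E} (h : e ≠ g) :
    (FreeGroup.of (Sum.inr e) : FreeGroup S.Arc)⁻¹ * FreeGroup.of (S.src e) ∈ Nrel S w g 1 := by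
  have h1 : (FreeGroup.of (Sum.inr e) : FreeGroup S.Arc)⁻¹ * FreeGroup.of (S.src e) =
      S.rel w e * ⁅(w e)⁻¹, (FreeGroup.of (S.src e))⁻¹⁆ := by
    unfold Sk.rel
    rw [commutatorElement_def]
    group
  rw [h1]
  unfold Nrel
  refine mul_mem (Subgroup.mem_sup_left (Subgroup.subset_normalClosure ⟨e, h, rfl⟩))
    (Subgroup.mem_sup_right ?_)
  have h0 : (w e)⁻¹ ∈ gam (FreeGroup S.Arc) 0 := Subgroup.mem_top _
  exact (commutator_mem_gam h0 _).1

private theorem exists_canon {n : ℕ} (S : Sk n) (w : S.W) (e : S.E) :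
    ∃ σ : S.Arc → Option (Fin n), ∀ a, (FreeGroup.of a : FreeGroup S.Arc)⁻¹ *
      FreeGroup.of (letterMap S e (σ a)) ∈ Nrel S w e 1 := by
  classical
  obtain ⟨σ, h0, h1⟩ := S.exists_rec (T := Option (Fin n)) (fun i => some i)
    (fun g t => if g = e then none else t)
  refine ⟨σ, ?_⟩
  refine S.arc_induction ?_ ?_
  · intro i
    rw [h0 i]
    have h2 : (FreeGroup.of (Sum.inl i) : FreeGroup S.Arc)⁻¹ *
        FreeGroup.of (letterMap S e (some i)) = 1 := inv_mul_cancel _
    rw [h2]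
    exact one_mem _
  · intro g ih
    rw [h1 g]
    by_cases hg : g = e
    · rw [if_pos hg, hg]
      have h2 : (FreeGroup.of (Sum.inr e) : FreeGroup S.Arc)⁻¹ *
          FreeGroup.of (letterMap S e none) = 1 := inv_mul_cancel _
      rw [h2]
      exact one_mem _
    · rw [if_neg hg]
      have h2 := mul_mem (sur_rel S w hg) ih
      have h3 : (FreeGroup.of (Sum.inr g) : FreeGroup S.Arc)⁻¹ * FreeGroup.of (S.src g) *
          ((FreeGroup.of (S.src g))⁻¹ * FreeGroup.of (letterMap S e (σ (S.src g)))) =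
          (FreeGroup.of (Sum.inr g))⁻¹ * FreeGroup.of (letterMap S e (σ (S.src g))) := by
        group
      rwa [h3] at h2

theorem surgery_eq_ins {n m : ℕ} (S : Sk n) (w : S.W) (e : S.E) (c : FreeGroup S.Arc)
    (hc : c ∈ gam (FreeGroup S.Arc) m) : ∃ (j : Fin n) (c' : FreeGroup (Option (Fin n))),
      c' ∈ gam (FreeGroup (Option (Fin n))) m ∧
      Eqv (m + 1) ⟨S, S.upd w e (w e * c)⟩ (WD.ins ⟨S, w⟩ j c') := by
  obtain ⟨σ, hσ⟩ := exists_canon S w e
  obtain ⟨j, u, hu⟩ := path_exists S w (Sum.inr e)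
  have hc' : FreeGroup.map σ c ∈ gam (FreeGroup (Option (Fin n))) m := gam_map _ m hc
  refine ⟨j, FreeGroup.map σ c, hc', ?_⟩
  have h1 := letter_change S w e (fun a => FreeGroup.of (letterMap S e (σ a))) hσ c hc
  have h2 : (w e * c)⁻¹ * (w e * FreeGroup.map (letterMap S e) (FreeGroup.map σ c)) ∈
      Nrel S w e (m + 1) := by
    have h3 : FreeGroup.map (letterMap S e) (FreeGroup.map σ c) =
        FreeGroup.lift (fun a => FreeGroup.of (letterMap S e (σ a))) c := by
      rw [FreeGroup.map.comp, FreeGroup.map_eq_lift]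
      rfl
    rw [h3]
    have h4 : (w e * c)⁻¹ * (w e * FreeGroup.lift (fun a => FreeGroup.of
        (letterMap S e (σ a))) c) = c⁻¹ * FreeGroup.lift (fun a => FreeGroup.of
        (letterMap S e (σ a))) c := by group
    rw [h4]
    exact h1
  exact (eqv_update_update (m + 1) S w e _ _ h2).trans (place S w j e ⟨u, hu⟩ _ hc')

end Pool.Agent.H61.Tu
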