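import Pool.Agent.H61.Tu.BridgeLong
import Pool.Agent.H61.Tu.ColUnique

/-!
# The nilpotent quotient of the group of a diagram   [H61 TU TH]

* `gam_quot`: the quotient map is surjective, so `gam (G ⧸ gam G m) m` is the image of `gam G m`
  (`Subgroup.map_lowerCentralSeries`, `Subgroup.map_top_of_surjective`; like `gam_Ga`).
* `theta_exists`: `ψ : D.Pi →* Ga n m` with `ψ (mer a) = η a` (`hom_of_isCol`) kills `gam D.Pi m`
  (`gam_map`, `gam_Ga`), so it gives `θ : D.Pi ⧸ gam D.Pi m →* Ga n m` (`QuotientGroup.lift`). The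
  homomorphism `FreeGroup (Fin n) →* D.Pi ⧸ gam D.Pi m` with `x_i ↦ mk (mer (inl i))` kills
  `gam _ m` (`gam_map`, `gam_quot`), so it gives `θ' : Ga n m →* D.Pi ⧸ gam D.Pi m`.
  `θ ∘ θ' = id`: `Ga_hom_ext`. `θ' ∘ θ = id`: it is enough that `θ' (η a) = mk (mer a)`
  (`QuotientGroup.monoidHom_ext`, `PresentedGroup.ext`): both sides are colourings in
  `D.Pi ⧸ gam D.Pi m` with the bottom colours `mk (mer (inl i))` (`isCol_mer` for the quotient map;
  a colouring composed with a homomorphism is a colouring), so `col_unique` with `gam_quot`.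
  `MulEquiv` from `θ`, `θ'` (`MonoidHom.toMulEquiv`).
-/

namespace Pool.Agent.H61.Tu

open Diagram Relation
open scoped commutatorElement

theorem gam_quot (G : Type*) [Group G] (m : ℕ) : gam (G ⧸ gam G m) m = ⊥ := by
  have h1 : (gam G m).map (QuotientGroup.mk' (gam G m)) = gam (G ⧸ gam G m) m := by
    rw [Subgroup.map_lowerCentralSeries,
      Subgroup.map_top_of_surjective _ (QuotientGroup.mk'_surjective _)]
  rw [← h1]
  exact QuotientGroup.map_mk'_self _

private theorem col_comp {n : ℕ} {S : Sk n} {w : S.W} {H K : Type*} [Group H] [Group K]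
    {x : Fin n → H} {ρ : S.Arc → H} (h : S.IsCol w x ρ) (f : H →* K) :
    S.IsCol w (fun i => f (x i)) (fun a => f (ρ a)) := by
  have h1 : ∀ u : FreeGroup S.Arc, FreeGroup.lift (fun a => f (ρ a)) u =
      f (FreeGroup.lift ρ u) := by
    intro u
    have h2 : FreeGroup.lift (fun a => f (ρ a)) = f.comp (FreeGroup.lift ρ) := by
      ext a
      simp
    exact DFunLike.congr_fun h2 u
  refine ⟨fun i => ?_, fun e => ?_⟩
  · change f (ρ (Sum.inl i)) = f (x i)
    rw [h.1 i]
  · change f (ρ (Sum.inr e)) = _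
    rw [h.2 e, h1, map_mul, map_mul, map_inv]

theorem theta_exists {n m : ℕ} (D : Diagram n) (η : D.Arc → Ga n m)
    (hη : D.sk.IsCol D.fw (xg n m) η) :
    ∃ θ : D.Pi ⧸ gam D.Pi m ≃* Ga n m, ∀ a, θ (QuotientGroup.mk (D.mer a)) = η a := by
  obtain ⟨ψ, hψ⟩ := hom_of_isCol D hη
  have h1 : gam D.Pi m ≤ ψ.ker := by
    intro c hc
    have h2 := gam_map ψ m hc
    rw [gam_Ga, Subgroup.mem_bot] at h2
    exact h2
  let θ : D.Pi ⧸ gam D.Pi m →* Ga n m := QuotientGroup.lift (gam D.Pi m) ψ h1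
  have hθ : ∀ a, θ (QuotientGroup.mk (D.mer a)) = η a := fun a => hψ a
  let φ : FreeGroup (Fin n) →* D.Pi ⧸ gam D.Pi m :=
    FreeGroup.lift (fun i => QuotientGroup.mk (D.mer (Sum.inl i)))
  have h3 : gam (FreeGroup (Fin n)) m ≤ φ.ker := by
    intro c hc
    have h2 := gam_map φ m hc
    rw [gam_quot, Subgroup.mem_bot] at h2
    exact h2
  let θ' : Ga n m →* D.Pi ⧸ gam D.Pi m := QuotientGroup.lift (gam (FreeGroup (Fin n)) m) φ h3
  have hθ' : ∀ i, θ' (xg n m i) = QuotientGroup.mk (D.mer (Sum.inl i)) := by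
    intro i
    change φ (FreeGroup.of i) = _
    simp [φ]
  have h4 : (fun a => θ' (η a)) = fun a => (QuotientGroup.mk (D.mer a) : D.Pi ⧸ gam D.Pi m) := by
    have h5 := col_comp hη θ'
    have h6 := isCol_mer D (QuotientGroup.mk' (gam D.Pi m))
    have h7 : (fun i => θ' (xg n m i)) = fun i => QuotientGroup.mk' (gam D.Pi m)
        (D.mer (Sum.inl i)) := funext fun i => hθ' i
    rw [h7] at h5
    exact col_unique D.sk D.fw (gam_quot D.Pi m) _ h5 h6
  have hx : ∀ i, η (Sum.inl i) = xg n m i := hη.1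
  refine ⟨MonoidHom.toMulEquiv θ θ' ?_ ?_, fun a => hθ a⟩
  · apply QuotientGroup.monoidHom_ext
    apply PresentedGroup.ext
    intro a
    change θ' (θ (QuotientGroup.mk (D.mer a))) = QuotientGroup.mk (D.mer a)
    rw [hθ]
    exact congrFun h4 a
  · apply Ga_hom_ext
    intro i
    change θ (θ' (xg n m i)) = xg n m i
    rw [hθ', hθ, hx]

end Pool.Agent.H61.Tu
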