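import Pool.Agent.H61.Tu.ListWords

/-!
# Shift of a block of undercrossings   [H61 TU TL]

Induction on `U`, for all diagrams. `U = []`: `setWord_self` (twice; `List.append_nil`). Step
`x :: U`: the move `shift` gives the diagram `D₁` with `word e ++ [x]` at `e` and `U ++ K` at `f`.
In `D₁` still no letter is `inr e` (`x` is a letter of `word f`; `e ≠ f` because
`src f = inr e` and `src e ≠ inr e`: `D.sk.src_ne`, `D.sk.ne_of_src`). Induction hypothesis for
`D₁`, then `setWord_comm`, `setWord_setWord`, `List.append_assoc`.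
-/

namespace Pool.Agent.H61.Tu

open Diagram Relation
open scoped commutatorElement

private theorem shift_aux {n m : ℕ} (S : Sk n) (e f : S.E) (hef : S.src f = Sum.inr e)
    (L : S.E → List (S.Arc × Bool)) (U : List (S.Arc × Bool)) :
    ∀ (K P : List (S.Arc × Bool)), (∀ g, g ≠ e → g ≠ f → ∀ y ∈ L g, y.1 ≠ Sum.inr e) →
      (∀ y ∈ P, y.1 ≠ Sum.inr e) → (∀ y ∈ U ++ K, y.1 ≠ Sum.inr e) →
      WEquiv m (S.dg (S.updL (S.updL L e P) f (U ++ K)))
        (S.dg (S.updL (S.updL L e (P ++ U)) f K)) := by
  have hfe : f ≠ e := S.ne_of_src hef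
  induction U with
  | nil =>
    intro K P _ _ _
    rw [List.append_nil, List.nil_append]
    exact WEquiv.refl _
  | cons x U ih =>
    intro K P hL hP hU
    have hw : S.updL (S.updL L e P) f (x :: (U ++ K)) f = x :: (U ++ K) := S.updL_same _ f _
    have hwe : S.updL (S.updL L e P) f (x :: (U ++ K)) e = P := by
      rw [S.updL_ne _ hfe.symm, S.updL_same]
    have hno' : ∀ g, ∀ y ∈ S.updL (S.updL L e P) f (x :: (U ++ K)) g, y.1 ≠ Sum.inr e := by
      intro g
      by_cases hgf : g = f
      · rw [hgf, hw]
        exact hU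
      · by_cases hge : g = e
        · rw [hge, hwe]
          exact hP
        · rw [S.updL_ne _ hgf, S.updL_ne _ hge]
          exact hL g hge hgf
    have h1 := Move.shift (S.dg (S.updL (S.updL L e P) f (x :: (U ++ K)))) e f x (U ++ K) hef
      hno' hw
    change Move _ (S.dg (S.updL (S.updL _ e (S.updL (S.updL L e P) f (x :: (U ++ K)) e ++ [x]))
      f (U ++ K))) at h1
    rw [hwe, S.updL_comm (S.updL L e P) hfe, S.updL_updL, S.updL_updL] at h1
    have h4 := ih K (P ++ [x]) hL (by
      intro y hy
      rcases List.mem_append.1 hy with h | h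
      · exact hP y h
      · rw [List.mem_singleton] at h
        rw [h]
        exact hU x List.mem_cons_self) (by
      intro y hy
      exact hU y (List.mem_cons_of_mem _ hy))
    rw [List.append_assoc, List.singleton_append] at h4
    exact (WEquiv.of_move h1).trans h4

theorem wEquiv_shift {n m : ℕ} (D : Diagram n) (e f : D.E) (U K : List (D.Arc × Bool))
    (hef : D.src f = Sum.inr e) (hno : ∀ g, ∀ y ∈ D.word g, y.1 ≠ Sum.inr e)
    (hf : D.word f = U ++ K) :
    WEquiv m D ((D.setWord e (D.word e ++ U)).setWord f K) := by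
  have h := shift_aux (m := m) D.sk e f hef D.word U K (D.word e) (fun g _ _ => hno g) (hno e)
    (by rw [← hf]; exact hno f)
  rw [← hf] at h
  have h1 : D.sk.updL (D.sk.updL D.word e (D.word e)) f (D.word f) = D.word := by
    rw [D.sk.updL_self D.word e, D.sk.updL_self D.word f]
  rw [h1] at h
  exact h

end Pool.Agent.H61.Tu
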