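import Pool.Agent.H61.Tu.TwoEdge
import Pool.Agent.H61.Tu.Place
import Pool.Agent.H61.Tu.InsCongr

/-!
# The first relation between insertions   [H61 TU TA]

`i ≠ j`, `z` a list of letters of length `k`. Put `X₂ = (X.ins j 1).ins i 1 = ⟨S₂, w₂⟩`
(`≡ X` by `ins_one` twice). In `S₂`: `f := none`, `src f = inl i`; `e := some none`,
`src e = inl j` (`mark_src_some`, `up`: `inl j ≠ inl i`); `w₂ f = 1`, `w₂ e = 1`. Let
`ζ : Option (Fin n) → S₂.Arc`, `ζ = letterMap S₂ f` (`some l ↦ inl l`, `none ↦ inr none`).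
`two_edge k S₂ w₂ e f .. (z.map ζ)`:
* its right side is `⟨S₂, S₂.upd w₂ f (1 * map (letterMap S₂ f) c₂)⟩` with
  `c₂ = rn (ofs z) ⁅xx j, yy⁆ * (rn (ofs z) ⁅xx j, xx i⁆)⁻¹` (`rn` commutes with group homs), and
  `f` is on the strand `i`, so by `place` it is `≡ X₂.ins i c₂ ≡ X.ins i c₂` (`ins_congr`).
* its left side has at `e` the word `map`ped with the letters `ζ z`: there `inr none = inr f`
  may be replaced by `inl i = src f` (modulo the relator of `f`, word `1`, even equal), which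
  gives `map (letterMap S₂ e) c₁` with
  `c₁ = ⁅xx i, rn (ofs z̃) yy⁆ * ⁅xx i, rn (ofs z̃) (xx j)⁆⁻¹`, `z̃ = z.map fun o => some (sub i o)`
  (use `eqv_update_update`; the two words have the same image in `F ⧸ normalClosure {rel f}`,
  or use `letter_change_map`). By `place` it is `≡ X₂.ins j c₁ ≡ X.ins j c₁`.
`c₁, c₂ ∈ gam (k+1)` by `rn_mem` and `commutator_mem_gam`.
-/

namespace Pool.Agent.H61.Tu

open Diagram Relation
open scoped commutatorElement

private theorem twoA_rn_hom {G H : Type*} [Group G] [Group H] (φ : G →* H) (l : List G) (g : G) :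
    φ (rn l g) = rn (l.map φ) (φ g) := by
  induction l with
  | nil => rfl
  | cons z l ih => rw [List.map_cons, rn_cons, rn_cons, map_commutatorElement, ih]

private theorem twoA_rn_mem {G : Type*} [Group G] (l : List G) (g : G) :
    rn l g ∈ gam G l.length := by
  have h0 : g ∈ gam G 0 := Subgroup.mem_top g
  have h := rn_mem l h0
  rwa [zero_add] at h

private theorem twoA_rn_mem1 {G : Type*} [Group G] (l : List G) (x y : G) :
    rn l ⁅x, y⁆ ∈ gam G (l.length + 1) := by
  have h0 : x ∈ gam G 0 := Subgroup.mem_top x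
  have h := rn_mem l (commutator_mem_gam h0 y).1
  rw [show 0 + 1 + l.length = l.length + 1 by omega] at h
  exact h

private theorem twoA_comm_mem {G : Type*} [Group G] (x : G) (l : List G) (g h : G) :
    ⁅x, rn l g⁆ * ⁅x, rn l h⁆⁻¹ ∈ gam G (l.length + 1) :=
  mul_mem (commutator_mem_gam (twoA_rn_mem l g) x).2
    (inv_mem (commutator_mem_gam (twoA_rn_mem l h) x).2)

theorem ins_rel_a {n : ℕ} (k : ℕ) (i j : Fin n) (hij : i ≠ j) (z : List (Option (Fin n)))
    (hz : z.length = k) (X : WD n) :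
    Eqv (k + 2)
      (X.ins j (⁅xx i, rn (ofs (z.map fun o => some (sub i o))) (yy n)⁆ *
        ⁅xx i, rn (ofs (z.map fun o => some (sub i o))) (xx j)⁆⁻¹))
      (X.ins i (rn (ofs z) ⁅xx j, yy n⁆ * (rn (ofs z) ⁅xx j, xx i⁆)⁻¹)) := by
  classical
  set S₁ : Sk n := X.S.mark (Sum.inl j) with hS₁
  set w₁ : S₁.W := X.S.insW j 1 X.w with hw₁
  set S₂ : Sk n := S₁.mark (Sum.inl i) with hS₂
  set w₂ : S₂.W := S₁.insW i 1 w₁ with hw₂
  have hX₂ : Eqv (k + 2) X ⟨S₂, w₂⟩ :=
    (ins_one (k + 2) X j).symm.trans (ins_one (k + 2) (X.ins j 1) i).symm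
  let f : S₂.E := none
  let e : S₂.E := some none
  have hef : e ≠ f := fun h => Option.some_ne_none _ h
  have hsf : S₂.src f = Sum.inl i := mark_src_none S₁ (Sum.inl i)
  have hse : S₂.src e = Sum.inl j := by
    have h1 : S₂.src e = up S₁ i (S₁.src none) := mark_src_some S₁ i none
    have h2 : S₁.src none = Sum.inl j := mark_src_none X.S (Sum.inl j)
    rw [h1, h2]
    simp only [up, if_neg hij.symm]
    rfl
  have hwf : w₂ f = 1 := map_one _
  have hwe : w₂ e = 1 := by
    have h1 : w₂ e = FreeGroup.map (up S₁ i) (w₁ none) := rfl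
    have h2 : w₁ none = 1 := map_one _
    rw [h1, h2, map_one]
    rfl
  have hpf : ∃ u, S₂.Path w₂ i (Sum.inr f) u := by
    refine ⟨_, Sk.Path.step f 1 ?_⟩
    rw [hsf]
    exact Sk.Path.base
  have hpe : ∃ u, S₂.Path w₂ j (Sum.inr e) u := by
    refine ⟨_, Sk.Path.step e 1 ?_⟩
    rw [hse]
    exact Sk.Path.base
  set ζ : Option (Fin n) → S₂.Arc := letterMap S₂ f with hζ
  have hlen : (z.map ζ).length = k := by rw [List.length_map, hz]
  have key := two_edge k S₂ w₂ e f hef hwe hwf (z.map ζ) hlen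
  rw [hsf, hse] at key
  set c₁ : FreeGroup (Option (Fin n)) :=
    ⁅xx i, rn (ofs (z.map fun o => some (sub i o))) (yy n)⁆ *
      ⁅xx i, rn (ofs (z.map fun o => some (sub i o))) (xx j)⁆⁻¹ with hc₁
  set c₂ : FreeGroup (Option (Fin n)) :=
    rn (ofs z) ⁅xx j, yy n⁆ * (rn (ofs z) ⁅xx j, xx i⁆)⁻¹ with hc₂
  have hc₁m : c₁ ∈ gam (FreeGroup (Option (Fin n))) (k + 1) := by
    have h := twoA_comm_mem (xx i) (ofs (z.map fun o => some (sub i o))) (yy n) (xx j)
    rw [List.length_map, List.length_map, hz] at h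
    exact h
  have hc₂m : c₂ ∈ gam (FreeGroup (Option (Fin n))) (k + 1) := by
    have h1 := twoA_rn_mem1 (ofs z) (xx j) (yy n)
    have h2 := twoA_rn_mem1 (ofs z) (xx j) (xx i)
    rw [List.length_map, hz] at h1 h2
    exact mul_mem h1 (inv_mem h2)
  -- the right side
  have hR : rn ((z.map ζ).map FreeGroup.of)
      ⁅(FreeGroup.of (Sum.inl j) : FreeGroup S₂.Arc), FreeGroup.of (Sum.inr f)⁆ *
        (rn ((z.map ζ).map FreeGroup.of)
          ⁅(FreeGroup.of (Sum.inl j) : FreeGroup S₂.Arc), FreeGroup.of (Sum.inl i)⁆)⁻¹ =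
      w₂ f * FreeGroup.map (letterMap S₂ f) c₂ := by
    rw [hwf, one_mul, hc₂, map_mul, map_inv, twoA_rn_hom, twoA_rn_hom, map_commutatorElement,
      map_commutatorElement]
    have hl : (ofs z).map (FreeGroup.map (letterMap S₂ f)) = (z.map ζ).map FreeGroup.of := by
      simp [ofs, Function.comp_def, hζ]
    rw [hl]
    simp [yy, xx, letterMap]
  -- the left side
  set v : FreeGroup S₂.Arc := ⁅(FreeGroup.of (Sum.inl i) : FreeGroup S₂.Arc),
      rn ((z.map ζ).map FreeGroup.of) (FreeGroup.of (Sum.inr e))⁆ *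
    ⁅(FreeGroup.of (Sum.inl i) : FreeGroup S₂.Arc),
      rn ((z.map ζ).map FreeGroup.of) (FreeGroup.of (Sum.inl j))⁆⁻¹ with hv
  have hvm : v ∈ gam (FreeGroup S₂.Arc) (k + 1) := by
    have h := twoA_comm_mem (FreeGroup.of (Sum.inl i) : FreeGroup S₂.Arc)
      ((z.map ζ).map FreeGroup.of) (FreeGroup.of (Sum.inr e)) (FreeGroup.of (Sum.inl j))
    rw [List.length_map, List.length_map, hz] at h
    exact h
  let σ : S₂.Arc → FreeGroup S₂.Arc := fun a =>
    if a = Sum.inr f then FreeGroup.of (Sum.inl i) else FreeGroup.of a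
  have hσ : ∀ a, (FreeGroup.of a)⁻¹ * σ a ∈ Nrel S₂ w₂ e 1 := by
    intro a
    by_cases ha : a = Sum.inr f
    · have h1 : (FreeGroup.of a)⁻¹ * σ a = S₂.rel w₂ f := by
        simp only [σ, if_pos ha]
        unfold Sk.rel
        rw [hwf, hsf, ha]
        simp
      rw [h1]
      exact Subgroup.mem_sup_left (Subgroup.subset_normalClosure ⟨f, hef.symm, rfl⟩)
    · simp only [σ, if_neg ha, inv_mul_cancel]
      exact one_mem _
  have hlift := letter_change S₂ w₂ e σ hσ v hvm
  have hσl : FreeGroup.lift σ v = FreeGroup.map (letterMap S₂ e) c₁ := by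
    have e1 : FreeGroup.lift σ (FreeGroup.of (Sum.inr e)) = FreeGroup.of (Sum.inr e) := by
      rw [FreeGroup.lift_apply_of]
      have : (Sum.inr e : S₂.Arc) ≠ Sum.inr f := fun h => hef (Sum.inr_injective h)
      simp only [σ, if_neg this]
    have e2 : ∀ l, FreeGroup.lift σ (FreeGroup.of (Sum.inl l)) =
        FreeGroup.of (Sum.inl l) := by
      intro l
      rw [FreeGroup.lift_apply_of]
      have : (Sum.inl l : S₂.Arc) ≠ Sum.inr f := fun h => by cases h
      simp only [σ, if_neg this]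
    have e3 : ((z.map ζ).map FreeGroup.of).map (FreeGroup.lift σ) =
        (ofs (z.map fun o => some (sub i o))).map (FreeGroup.map (letterMap S₂ e)) := by
      rw [List.map_map, List.map_map, ofs, List.map_map, List.map_map]
      apply List.map_congr_left
      intro o _
      rcases o with _ | l
      · simp only [Function.comp_apply, FreeGroup.lift_apply_of, FreeGroup.map.of]
        simp [σ, hζ, letterMap, sub]
      · simp only [Function.comp_apply, FreeGroup.map.of]
        have h3 : ζ (some l) = Sum.inl l := rfl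
        rw [h3, e2]
        rfl
    rw [hv, hc₁, map_mul, map_inv, map_commutatorElement, map_commutatorElement, twoA_rn_hom,
      twoA_rn_hom, e1, e2, e2, e3, map_mul, map_inv, map_commutatorElement,
      map_commutatorElement, twoA_rn_hom, twoA_rn_hom]
    simp [yy, xx, letterMap]
  rw [hσl] at hlift
  have s1 : Eqv (k + 2) ⟨S₂, S₂.upd w₂ e v⟩
      ⟨S₂, S₂.upd w₂ e (w₂ e * FreeGroup.map (letterMap S₂ e) c₁)⟩ := by
    rw [hwe, one_mul]
    exact eqv_update_update (k + 2) S₂ w₂ e _ _ hlift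
  rw [hR] at key
  have p1 := place S₂ w₂ j e hpe c₁ hc₁m
  have p2 := place S₂ w₂ i f hpf c₂ hc₂m
  have q1 := ins_congr j c₁ hX₂
  have q2 := ins_congr i c₂ hX₂
  exact q1.trans (p1.symm.trans (s1.symm.trans (key.trans (p2.trans q2.symm))))

end Pool.Agent.H61.Tu
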