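import Pool.Agent.H61.Tu.Rn
import Pool.Agent.H61.Tu.Relators

/-!
# The two ways to resolve a cyclic pair of runs   [H61 TU TWO]

Notation: `xe = of (src e)`, `ye = of (inr e)`, `xf = of (src f)`, `yf = of (inr f)`,
`l = z.map of` (length `k`), `Q g = rn l g`; `A ~ B` means congruent modulo `gam (k+2)`. Let
`D₀` be the diagram `w` with the word `yf * xf⁻¹` at `e` and `Q ye * (Q xe)⁻¹` at `f`.
Way 1. At `e`: modulo the relator of `f`, with `v = Q ye * (Q xe)⁻¹ ∈ gam k` (`rn_mem`):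
`yf = v⁻¹ * xf * v`, so the word at `e` becomes `v⁻¹ * xf * v * xf⁻¹ = ⁅v⁻¹, xf⁆
~ ⁅xf, v⁆ ~ ⁅xf, Q ye⁆ * ⁅xf, Q xe⁆⁻¹ =: C₁ ∈ gam (k+1)`. (`eqv_update_update` with
`Nrel S _ e (k+2)`.) Then at `f`: modulo the relator of `e` (word `C₁`),
`ye = C₁⁻¹ * xe * C₁ ~ xe`, so the word at `f` becomes `1` (`rn_congr` with `s = k+2` in the
quotient by the relator: i.e. write `ye = xe * d * r` with `d ∈ gam (k+2)`, `r` in the normal
closure, and work in `F ⧸ Nrel`). Result: `⟨S, S.upd w e C₁⟩` since `w f = 1`.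
Way 2. At `f`: modulo the relator of `e` (word `p = yf * xf⁻¹`): `ye = p⁻¹ * xe * p
= xe * ⁅xe⁻¹, p⁻¹⁆`, `d = ⁅xe⁻¹, p⁻¹⁆ ∈ gam 1`, so `Q ye ~ Q xe * Q d` (`rn_mul`, `s = 1`) and
the word at `f` becomes `~ Q xe * Q d * (Q xe)⁻¹ ~ Q d` (`Q d ∈ gam (k+1)` is central modulo
`gam (k+2)`). Modulo `gam 2`: `d ≡ ⁅xe, p⁆ ≡ ⁅xe, yf⁆ * ⁅xe, xf⁆⁻¹`, so
`Q d ~ Q ⁅xe, yf⁆ * (Q ⁅xe, xf⁆)⁻¹ =: C₂ ∈ gam (k+1)` (`rn_congr`, `rn_mul`). Then at `e`: modulo
the relator of `f` (word `C₂`): `yf ~ xf`, so the word at `e` becomes `1 = w e`. Result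
`⟨S, S.upd w f C₂⟩`.
-/

namespace Pool.Agent.H61.Tu

open Diagram Relation
open scoped commutatorElement

private theorem twoEdge_rn_map {G H : Type*} [Group G] [Group H] (φ : G →* H) (l : List G)
    (g : G) : φ (rn l g) = rn (l.map φ) (φ g) := by
  induction l with
  | nil => rfl
  | cons z l ih => rw [rn_cons, List.map_cons, rn_cons, ← ih, map_commutatorElement]

private theorem twoEdge_zero {G : Type*} [Group G] (g : G) : g ∈ gam G 0 := by
  have h : gam G 0 = ⊤ := rfl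
  rw [h]
  exact Subgroup.mem_top g

private theorem twoEdge_normal {n : ℕ} (S : Sk n) (w : S.W) (e : S.E) (m : ℕ) :
    (Nrel S w e m).Normal := by
  have := gam_normal (FreeGroup S.Arc) m
  unfold Nrel
  infer_instance

/-- the Wirtinger relation of the run `f` in the quotient -/
private theorem twoEdge_mk {n : ℕ} (S : Sk n) (w : S.W) (e f : S.E) (m : ℕ) (hef : f ≠ e)
    [(Nrel S w e m).Normal] :
    (QuotientGroup.mk' (Nrel S w e m)) (FreeGroup.of (Sum.inr f)) =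
      ((QuotientGroup.mk' (Nrel S w e m)) (w f))⁻¹ *
        (QuotientGroup.mk' (Nrel S w e m)) (FreeGroup.of (S.src f)) *
        (QuotientGroup.mk' (Nrel S w e m)) (w f) := by
  rw [← map_inv, ← map_mul, ← map_mul, QuotientGroup.mk'_apply, QuotientGroup.mk'_apply,
    QuotientGroup.eq]
  have h1 : (FreeGroup.of (Sum.inr f) : FreeGroup S.Arc)⁻¹ *
      ((w f)⁻¹ * FreeGroup.of (S.src f) * w f) = S.rel w f := by
    unfold Sk.rel
    group
  rw [h1]
  refine Subgroup.mem_sup_left (Subgroup.subset_normalClosure ⟨f, hef, rfl⟩)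

private theorem twoEdge_triv {n : ℕ} (S : Sk n) (w : S.W) (e : S.E) (m : ℕ)
    [(Nrel S w e m).Normal] (c : FreeGroup S.Arc ⧸ Nrel S w e m)
    (hc : c ∈ gam (FreeGroup S.Arc ⧸ Nrel S w e m) m) : c = 1 := by
  have h1 := Subgroup.map_lowerCentralSeries (⊤ : Subgroup (FreeGroup S.Arc))
    (QuotientGroup.mk' (Nrel S w e m)) m
  rw [Subgroup.map_top_of_surjective _ (QuotientGroup.mk'_surjective _)] at h1
  have h2 : c ∈ (gam (FreeGroup S.Arc) m).map (QuotientGroup.mk' (Nrel S w e m)) := by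
    rw [h1]
    exact hc
  obtain ⟨c', hc', rfl⟩ := h2
  rw [QuotientGroup.mk'_apply, QuotientGroup.eq_one_iff]
  exact Subgroup.mem_sup_right hc'

section alg

variable {G : Type*} [Group G] {k : ℕ}

/-- elements of the last term are central -/
private theorem twoEdge_cen (h : ∀ c ∈ gam G (k + 1), c = 1) {c : G} (hc : c ∈ gam G k) (g : G) :
    c * g = g * c := by
  have h1 := h _ (commutator_mem_gam hc g).1
  exact commutatorElement_eq_one_iff_mul_comm.1 h1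

private theorem twoEdge_bil (h : ∀ c ∈ gam G (k + 2), c = 1) (x A B : G)
    (hB : B ∈ gam G k) : ⁅x, A * B⁻¹⁆ = ⁅x, A⁆ * ⁅x, B⁆⁻¹ := by
  have h1 : ∀ g, ⁅x, B⁆⁻¹ * g = g * ⁅x, B⁆⁻¹ :=
    fun g => twoEdge_cen (k := k + 1) h (inv_mem (commutator_mem_gam hB x).2) g
  calc ⁅x, A * B⁻¹⁆ = ⁅x, A⁆ * ((A * B⁻¹) * ⁅x, B⁆⁻¹ * (A * B⁻¹)⁻¹) := by
        simp only [commutatorElement_def]
        group
    _ = ⁅x, A⁆ * ⁅x, B⁆⁻¹ := by rw [← h1, mul_inv_cancel_right]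

private theorem twoEdge_one (h : ∀ c ∈ gam G (k + 2), c = 1) (l : List G) (hl : l.length = k)
    (x y a b : G) (hb : b = (rn l y * (rn l x)⁻¹)⁻¹ * a * (rn l y * (rn l x)⁻¹)) :
    b * a⁻¹ = ⁅a, rn l y⁆ * ⁅a, rn l x⁆⁻¹ := by
  have hA : ∀ g, rn l g ∈ gam G k := by
    intro g
    have h1 := rn_mem l (twoEdge_zero g)
    rw [hl, zero_add] at h1
    exact h1
  rw [← twoEdge_bil h a _ _ (hA x)]
  obtain ⟨v, hv⟩ : ∃ v, v = rn l y * (rn l x)⁻¹ := ⟨_, rfl⟩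
  have hvm : v ∈ gam G k := by
    rw [hv]
    exact mul_mem (hA y) (inv_mem (hA x))
  rw [← hv] at hb ⊢
  have h1 : ⁅a, v⁆ * v = v * ⁅a, v⁆ :=
    twoEdge_cen (k := k + 1) h (commutator_mem_gam hvm a).2 v
  calc b * a⁻¹ = v⁻¹ * ⁅a, v⁆ * v := by
        rw [hb, commutatorElement_def]
        group
    _ = ⁅a, v⁆ := by rw [mul_assoc, h1, inv_mul_cancel_left]

/-- commutators in a group of class two -/
private theorem twoEdge_cls (h : ∀ c ∈ gam G 2, c = 1) (x b c : G) :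
    x⁻¹ * (b * c⁻¹)⁻¹ * x * (b * c⁻¹) = ⁅x, b⁆ * ⁅x, c⁆⁻¹ := by
  have hcen : ∀ u v g : G, ⁅u, v⁆ * g = g * ⁅u, v⁆ := fun u v g =>
    twoEdge_cen (k := 1) h (commutator_mem_gam (twoEdge_zero u) v).1 g
  rw [← twoEdge_bil (k := 0) h x b c (twoEdge_zero c)]
  obtain ⟨p, hp⟩ : ∃ p, p = b * c⁻¹ := ⟨_, rfl⟩
  rw [← hp]
  have h1 := hcen x p (p * x)
  calc x⁻¹ * p⁻¹ * x * p = (p * x)⁻¹ * (⁅x, p⁆ * (p * x)) := by
        rw [commutatorElement_def]
        group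
    _ = ⁅x, p⁆ := by rw [h1, inv_mul_cancel_left]

private theorem twoEdge_mod (x b c : G) :
    (x⁻¹ * (b * c⁻¹)⁻¹ * x * (b * c⁻¹))⁻¹ * (⁅x, b⁆ * ⁅x, c⁆⁻¹) ∈ gam G 2 := by
  have hn := gam_normal G 2
  have htr : ∀ d ∈ gam (G ⧸ gam G 2) 2, d = 1 := by
    intro d hd
    have h1 := Subgroup.map_lowerCentralSeries (⊤ : Subgroup G) (QuotientGroup.mk' (gam G 2)) 2
    rw [Subgroup.map_top_of_surjective _ (QuotientGroup.mk'_surjective _)] at h1
    have h2 : d ∈ (gam G 2).map (QuotientGroup.mk' (gam G 2)) := by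
      rw [h1]
      exact hd
    obtain ⟨c', hc', rfl⟩ := h2
    rw [QuotientGroup.mk'_apply, QuotientGroup.eq_one_iff]
    exact hc'
  have h1 := twoEdge_cls htr (QuotientGroup.mk' (gam G 2) x) (QuotientGroup.mk' (gam G 2) b)
    (QuotientGroup.mk' (gam G 2) c)
  rw [← QuotientGroup.eq, ← QuotientGroup.mk'_apply, ← QuotientGroup.mk'_apply]
  simp only [map_mul, map_inv, map_commutatorElement]
  simpa only [map_mul, map_inv, map_commutatorElement] using h1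

private theorem twoEdge_two (h : ∀ c ∈ gam G (k + 2), c = 1) (l : List G) (hl : l.length = k)
    (x y a b : G) (hy : y = (b * a⁻¹)⁻¹ * x * (b * a⁻¹)) :
    rn l y * (rn l x)⁻¹ = rn l ⁅x, b⁆ * (rn l ⁅x, a⁆)⁻¹ := by
  obtain ⟨d, hd⟩ : ∃ d, d = x⁻¹ * (b * a⁻¹)⁻¹ * x * (b * a⁻¹) := ⟨_, rfl⟩
  have hyd : y = x * d := by
    rw [hy, hd]
    group
  have hd1 : d ∈ gam G 1 := by
    have e1 : d = ⁅x⁻¹, (b * a⁻¹)⁻¹⁆ := by
      rw [hd, commutatorElement_def]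
      group
    rw [e1]
    exact (commutator_mem_gam (twoEdge_zero _) _).1
  have hmul : ∀ g d : G, d ∈ gam G 1 → rn l (g * d) = rn l g * rn l d := by
    intro g d hd
    have h1 := rn_mul l g hd
    rw [hl] at h1
    have h2 := h _ (by
      have e1 : k + 2 = 1 + k + 1 := by omega
      rw [e1]
      exact h1)
    exact (inv_mul_eq_one.1 h2).symm
  have hQd : rn l d ∈ gam G (k + 1) := by
    have h1 := rn_mem l hd1
    rw [hl, add_comm] at h1
    exact h1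
  have h1 : rn l y * (rn l x)⁻¹ = rn l d := by
    rw [hyd, hmul x d hd1, ← twoEdge_cen (k := k + 1) h hQd (rn l x), mul_inv_cancel_right]
  have h2 : rn l d = rn l (⁅x, b⁆ * ⁅x, a⁆⁻¹) := by
    have h3 := twoEdge_mod x b a
    rw [← hd] at h3
    have h4 := rn_congr l h3
    rw [hl] at h4
    exact inv_mul_eq_one.1 (h _ (by rw [add_comm]; exact h4))
  have ha1 : ⁅x, a⁆ ∈ gam G 1 := (commutator_mem_gam (twoEdge_zero _) _).1
  have h3 : rn l (⁅x, a⁆⁻¹) = (rn l ⁅x, a⁆)⁻¹ := by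
    have h4 := hmul ⁅x, a⁆ ⁅x, a⁆⁻¹ (inv_mem ha1)
    rw [mul_inv_cancel, rn_one] at h4
    exact (inv_eq_of_mul_eq_one_right h4.symm).symm
  rw [h1, h2, hmul _ _ (inv_mem ha1), h3]

end alg

theorem two_edge {n : ℕ} (k : ℕ) (S : Sk n) (w : S.W) (e f : S.E) (hef : e ≠ f) (he : w e = 1)
    (hf : w f = 1) (z : List S.Arc) (hz : z.length = k) :
    Eqv (k + 2)
      ⟨S, S.upd w e (⁅(FreeGroup.of (S.src f) : FreeGroup S.Arc),
          rn (z.map FreeGroup.of) (FreeGroup.of (Sum.inr e))⁆ *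
        ⁅(FreeGroup.of (S.src f) : FreeGroup S.Arc),
          rn (z.map FreeGroup.of) (FreeGroup.of (S.src e))⁆⁻¹)⟩
      ⟨S, S.upd w f (rn (z.map FreeGroup.of)
          ⁅(FreeGroup.of (S.src e) : FreeGroup S.Arc), FreeGroup.of (Sum.inr f)⁆ *
        (rn (z.map FreeGroup.of)
          ⁅(FreeGroup.of (S.src e) : FreeGroup S.Arc), FreeGroup.of (S.src f)⁆)⁻¹)⟩ := by
  obtain ⟨l, hl⟩ : ∃ l : List (FreeGroup S.Arc), l = z.map FreeGroup.of := ⟨_, rfl⟩
  have hlk : l.length = k := by rw [hl, List.length_map, hz]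
  rw [← hl]
  obtain ⟨xe, hxe⟩ : ∃ xe : FreeGroup S.Arc, xe = FreeGroup.of (S.src e) := ⟨_, rfl⟩
  obtain ⟨ye, hye⟩ : ∃ ye : FreeGroup S.Arc, ye = FreeGroup.of (Sum.inr e) := ⟨_, rfl⟩
  obtain ⟨xf, hxf⟩ : ∃ xf : FreeGroup S.Arc, xf = FreeGroup.of (S.src f) := ⟨_, rfl⟩
  obtain ⟨yf, hyf⟩ : ∃ yf : FreeGroup S.Arc, yf = FreeGroup.of (Sum.inr f) := ⟨_, rfl⟩
  rw [← hxe, ← hye, ← hxf, ← hyf]
  obtain ⟨C₁, hC₁⟩ : ∃ C₁, C₁ = ⁅xf, rn l ye⁆ * ⁅xf, rn l xe⁆⁻¹ := ⟨_, rfl⟩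
  obtain ⟨C₂, hC₂⟩ : ∃ C₂, C₂ = rn l ⁅xe, yf⁆ * (rn l ⁅xe, xf⁆)⁻¹ := ⟨_, rfl⟩
  rw [← hC₁, ← hC₂]
  have hA : ∀ g, rn l g ∈ gam (FreeGroup S.Arc) k := by
    intro g
    have h1 := rn_mem l (twoEdge_zero g)
    rw [hlk, zero_add] at h1
    exact h1
  have hC₁m : C₁ ∈ gam (FreeGroup S.Arc) (k + 1) := by
    rw [hC₁]
    exact mul_mem (commutator_mem_gam (hA _) _).2 (inv_mem (commutator_mem_gam (hA _) _).2)
  have hC₂m : C₂ ∈ gam (FreeGroup S.Arc) (k + 1) := by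
    have h1 : ∀ u v : FreeGroup S.Arc, rn l ⁅u, v⁆ ∈ gam (FreeGroup S.Arc) (k + 1) := by
      intro u v
      have h2 := rn_mem l (commutator_mem_gam (twoEdge_zero u) v).1
      rw [hlk] at h2
      have e1 : k + 1 = 0 + 1 + k := by omega
      rw [e1]
      exact h2
    rw [hC₂]
    exact mul_mem (h1 _ _) (inv_mem (h1 _ _))
  obtain ⟨v, hv⟩ : ∃ v, v = rn l ye * (rn l xe)⁻¹ := ⟨_, rfl⟩
  obtain ⟨p, hp⟩ : ∃ p, p = yf * xf⁻¹ := ⟨_, rfl⟩
  have key1 : Eqv (k + 2) ⟨S, S.upd (S.upd w e p) f v⟩ ⟨S, S.upd w e C₁⟩ := by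
    have s1 : Eqv (k + 2) ⟨S, S.upd (S.upd w f v) e p⟩ ⟨S, S.upd (S.upd w f v) e C₁⟩ := by
      refine eqv_update_update (k + 2) S (S.upd w f v) e p C₁ ?_
      have hN := twoEdge_normal S (S.upd w f v) e (k + 2)
      rw [← QuotientGroup.eq, ← QuotientGroup.mk'_apply, ← QuotientGroup.mk'_apply]
      have hm := twoEdge_mk S (S.upd w f v) e f (k + 2) hef.symm
      have htr := twoEdge_triv S (S.upd w f v) e (k + 2)
      rw [Sk.upd_same, ← hyf, ← hxf] at hm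
      obtain ⟨q, hq⟩ : ∃ q, q = QuotientGroup.mk' (Nrel S (S.upd w f v) e (k + 2)) := ⟨_, rfl⟩
      rw [← hq] at hm ⊢
      have hqv : q v = rn (l.map q) (q ye) * (rn (l.map q) (q xe))⁻¹ := by
        refine (congrArg q hv).trans ?_
        rw [map_mul, map_inv, twoEdge_rn_map, twoEdge_rn_map]
      rw [hqv] at hm
      have h1 := twoEdge_one htr (l.map q) (by rw [List.length_map, hlk]) (q xe) (q ye) (q xf)
        (q yf) hm
      rw [hp, hC₁, map_mul, map_inv, map_mul, map_inv, map_commutatorElement,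
        map_commutatorElement, twoEdge_rn_map, twoEdge_rn_map]
      exact h1
    have s2 : Eqv (k + 2) ⟨S, S.upd (S.upd w e C₁) f v⟩ ⟨S, S.upd (S.upd w e C₁) f 1⟩ := by
      refine eqv_update_update (k + 2) S (S.upd w e C₁) f v 1 ?_
      have hN := twoEdge_normal S (S.upd w e C₁) f (k + 2)
      rw [← QuotientGroup.eq, ← QuotientGroup.mk'_apply, ← QuotientGroup.mk'_apply]
      have hm := twoEdge_mk S (S.upd w e C₁) f e (k + 2) hef
      have htr := twoEdge_triv S (S.upd w e C₁) f (k + 2)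
      rw [Sk.upd_same, ← hye, ← hxe] at hm
      obtain ⟨q, hq⟩ : ∃ q, q = QuotientGroup.mk' (Nrel S (S.upd w e C₁) f (k + 2)) := ⟨_, rfl⟩
      rw [← hq] at hm ⊢
      have h1 : q ye = q xe := by
        rw [hm, mul_assoc, ← twoEdge_cen (k := k + 1) htr (gam_map q (k + 1) hC₁m) (q xe),
          inv_mul_cancel_left]
      rw [hv, map_mul, map_inv, twoEdge_rn_map, twoEdge_rn_map, h1, mul_inv_cancel, map_one]
    have s3 : S.upd (S.upd w e C₁) f 1 = S.upd w e C₁ := by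
      have h1 : (S.upd w e C₁) f = 1 := by rw [S.upd_ne w hef.symm, hf]
      conv_lhs => rw [← h1]
      exact S.upd_self _ f
    rw [S.upd_comm w hef p v]
    refine s1.trans ?_
    rw [← S.upd_comm w hef C₁ v]
    rw [s3] at s2
    exact s2
  have key2 : Eqv (k + 2) ⟨S, S.upd (S.upd w e p) f v⟩ ⟨S, S.upd w f C₂⟩ := by
    have s1 : Eqv (k + 2) ⟨S, S.upd (S.upd w e p) f v⟩ ⟨S, S.upd (S.upd w e p) f C₂⟩ := by
      refine eqv_update_update (k + 2) S (S.upd w e p) f v C₂ ?_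
      have hN := twoEdge_normal S (S.upd w e p) f (k + 2)
      rw [← QuotientGroup.eq, ← QuotientGroup.mk'_apply, ← QuotientGroup.mk'_apply]
      have hm := twoEdge_mk S (S.upd w e p) f e (k + 2) hef
      have htr := twoEdge_triv S (S.upd w e p) f (k + 2)
      rw [Sk.upd_same, ← hye, ← hxe] at hm
      obtain ⟨q, hq⟩ : ∃ q, q = QuotientGroup.mk' (Nrel S (S.upd w e p) f (k + 2)) := ⟨_, rfl⟩
      rw [← hq] at hm ⊢
      have hqp : q p = q yf * (q xf)⁻¹ := by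
        refine (congrArg q hp).trans ?_
        rw [map_mul, map_inv]
      rw [hqp] at hm
      have h1 := twoEdge_two htr (l.map q) (by rw [List.length_map, hlk]) (q xe) (q ye) (q xf)
        (q yf) hm
      rw [hv, hC₂, map_mul, map_inv, map_mul, map_inv, twoEdge_rn_map, twoEdge_rn_map,
        twoEdge_rn_map, twoEdge_rn_map, map_commutatorElement, map_commutatorElement]
      exact h1
    have s2 : Eqv (k + 2) ⟨S, S.upd (S.upd w f C₂) e p⟩ ⟨S, S.upd (S.upd w f C₂) e 1⟩ := by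
      refine eqv_update_update (k + 2) S (S.upd w f C₂) e p 1 ?_
      have hN := twoEdge_normal S (S.upd w f C₂) e (k + 2)
      rw [← QuotientGroup.eq, ← QuotientGroup.mk'_apply, ← QuotientGroup.mk'_apply]
      have hm := twoEdge_mk S (S.upd w f C₂) e f (k + 2) hef.symm
      have htr := twoEdge_triv S (S.upd w f C₂) e (k + 2)
      rw [Sk.upd_same, ← hyf, ← hxf] at hm
      obtain ⟨q, hq⟩ : ∃ q, q = QuotientGroup.mk' (Nrel S (S.upd w f C₂) e (k + 2)) := ⟨_, rfl⟩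
      rw [← hq] at hm ⊢
      have h1 : q yf = q xf := by
        rw [hm, mul_assoc, ← twoEdge_cen (k := k + 1) htr (gam_map q (k + 1) hC₂m) (q xf),
          inv_mul_cancel_left]
      rw [hp, map_mul, map_inv, h1, mul_inv_cancel, map_one]
    have s3 : S.upd (S.upd w f C₂) e 1 = S.upd w f C₂ := by
      have h1 : (S.upd w f C₂) e = 1 := by rw [S.upd_ne w hef, he]
      conv_lhs => rw [← h1]
      exact S.upd_self _ e
    refine s1.trans ?_
    rw [S.upd_comm w hef p C₂]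
    rw [s3] at s2
    exact s2
  exact key1.symm.trans key2

end Pool.Agent.H61.Tu
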