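import Pool.Agent.H61.Tu.Fox

/-!
# Word diagrams

Internal version of `Diagram`: a skeleton `S : Sk n` (runs and arcs) and for each run an element
of the free group on the arcs. `WStep m` are the moves in this setting, `Eqv m` the equivalence
relation generated by them.
-/

namespace Pool.Agent.H61.Tu

open Diagram Relation
open scoped commutatorElement

/-- runs and arcs -/
structure Sk (n : ℕ) where
  E : Type
  finite : Finite E
  src : E → Fin n ⊕ E
  inj : Function.Injective src
  acyclic : ∃ r : E → ℕ, ∀ e f, src e = Sum.inr f → r f < r e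

/-- the arcs -/
abbrev Sk.Arc {n : ℕ} (S : Sk n) : Type := Fin n ⊕ S.E

/-- word assignments -/
abbrev Sk.W {n : ℕ} (S : Sk n) : Type := S.E → FreeGroup S.Arc

/-- word diagrams -/
structure WD (n : ℕ) where
  S : Sk n
  w : S.W

namespace Sk

variable {n : ℕ}

/-- a new run `none` at the upper end of the arc `a` -/
noncomputable def mark (S : Sk n) (a : S.Arc) : Sk n where
  E := Option S.E
  finite := by
    have := S.finite
    infer_instance
  src := markSrc S.src a
  inj := markSrc_injective S.src a S.inj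
  acyclic := markSrc_acyclic S.src a S.acyclic

/-- the words of the marked skeleton -/
def markW (S : Sk n) (a : S.Arc) (w : S.W) : (S.mark a).W := fun o => match o with
  | none => 1
  | some e => FreeGroup.map (Sum.map id some) (w e)

open Classical in
/-- change of the word of the run `e` -/
noncomputable def upd (S : Sk n) (w : S.W) (e : S.E) (u : FreeGroup S.Arc) : S.W :=
  Function.update w e u

@[simp] theorem upd_same (S : Sk n) (w : S.W) (e : S.E) (u : FreeGroup S.Arc) :
    S.upd w e u e = u := by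
  simp [upd]

theorem upd_ne (S : Sk n) (w : S.W) {e f : S.E} (h : f ≠ e) (u : FreeGroup S.Arc) :
    S.upd w e u f = w f := by
  simp [upd, h]

@[simp] theorem upd_self (S : Sk n) (w : S.W) (e : S.E) : S.upd w e (w e) = w := by
  simp [upd]

@[simp] theorem upd_upd (S : Sk n) (w : S.W) (e : S.E) (u v : FreeGroup S.Arc) :
    S.upd (S.upd w e u) e v = S.upd w e v := by
  simp [upd]

theorem upd_comm (S : Sk n) (w : S.W) {e f : S.E} (h : e ≠ f) (u v : FreeGroup S.Arc) :
    S.upd (S.upd w e u) f v = S.upd (S.upd w f v) e u := by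
  classical
  simp only [upd]
  exact Function.update_comm h u v w

theorem src_ne (S : Sk n) (e : S.E) : S.src e ≠ Sum.inr e := by
  obtain ⟨r, hr⟩ := S.acyclic
  intro h
  exact lt_irrefl _ (hr e e h)

theorem ne_of_src (S : Sk n) {e f : S.E} (h : S.src f = Sum.inr e) : f ≠ e := by
  rintro rfl
  exact S.src_ne f h

/-- the colours after the move `mark` -/
def markCol (S : Sk n) (a : S.Arc) {H : Type*} (ρ : S.Arc → H) : (S.mark a).Arc → H
  | Sum.inl i => ρ (Sum.inl i)
  | Sum.inr none => ρ a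
  | Sum.inr (some e) => ρ (Sum.inr e)

open Classical in
/-- the colours after the move `transfer` -/
noncomputable def transCol (S : Sk n) (e : S.E) (u : FreeGroup S.Arc) {H : Type*} [Group H]
    (ρ : S.Arc → H) : S.Arc → H :=
  Function.update ρ (Sum.inr e)
    ((FreeGroup.lift ρ u)⁻¹ * ρ (Sum.inr e) * FreeGroup.lift ρ u)

@[simp] theorem transCol_same (S : Sk n) (e : S.E) (u : FreeGroup S.Arc) {H : Type*} [Group H]
    (ρ : S.Arc → H) : S.transCol e u ρ (Sum.inr e) =
      (FreeGroup.lift ρ u)⁻¹ * ρ (Sum.inr e) * FreeGroup.lift ρ u := by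
  simp [transCol]

theorem transCol_ne (S : Sk n) (e : S.E) (u : FreeGroup S.Arc) {H : Type*} [Group H]
    (ρ : S.Arc → H) {a : S.Arc} (h : a ≠ Sum.inr e) : S.transCol e u ρ a = ρ a := by
  simp [transCol, h]

/-- Wirtinger relator -/
def rel (S : Sk n) (w : S.W) (e : S.E) : FreeGroup S.Arc :=
  (FreeGroup.of (Sum.inr e))⁻¹ * (w e)⁻¹ * FreeGroup.of (S.src e) * w e

/-- the element `u` does not involve the arc `a` -/
def Unused (S : Sk n) (a : S.Arc) (u : FreeGroup S.Arc) : Prop :=
  u ∈ Subgroup.closure {g : FreeGroup S.Arc | ∃ b, b ≠ a ∧ g = FreeGroup.of b}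

/-- renamed words -/
def renW {S S' : Sk n} (φ : S.E ≃ S'.E) (w : S.W) : S'.W :=
  fun e' => FreeGroup.map (Sum.map id φ) (w (φ.symm e'))

/-- `Path w j a u`: walking up the strand `j` to the arc `a` one reads `u` -/
inductive Path (S : Sk n) (w : S.W) (j : Fin n) : S.Arc → FreeGroup S.Arc → Prop
  | base : Path S w j (Sum.inl j) 1
  | step (e : S.E) (u : FreeGroup S.Arc) (h : Path S w j (S.src e) u) :
      Path S w j (Sum.inr e) (u * w e)

/-- longitudes -/
def IsLong (S : Sk n) (w : S.W) (j : Fin n) (u : FreeGroup S.Arc) : Prop :=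
  ∃ a, S.Path w j a u ∧ ∀ e, S.src e ≠ a

/-- `ρ` is a colouring of the arcs by elements of `H` with the colours `x` at the bottom -/
def IsCol (S : Sk n) (w : S.W) {H : Type*} [Group H] (x : Fin n → H) (ρ : S.Arc → H) : Prop :=
  (∀ i, ρ (Sum.inl i) = x i) ∧
    ∀ e, ρ (Sum.inr e) = (FreeGroup.lift ρ (w e))⁻¹ * ρ (S.src e) * FreeGroup.lift ρ (w e)

section Alexander

variable {R : Type} [CommRing R] {V : Type} [AddCommGroup V] [Module R V]

/-- Alexander map -/
def alexMap (S : Sk n) (w : S.W) (ρ : S.Arc → (Module.End R V)ˣ) :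
    (S.E → V) →ₗ[R] (S.E → V) :=
  LinearMap.pi fun e =>
    LinearMap.proj e - ((FreeGroup.lift ρ (w e))⁻¹ : (Module.End R V)ˣ).val ∘ₗ
      (LinearMap.proj (S.src e) +
        ((ρ (S.src e) : Module.End R V) - 1) ∘ₗ foxF ρ (w e)) ∘ₗ extend n S.E R V

/-- Alexander determinant -/
noncomputable def alex (S : Sk n) (w : S.W) (ρ : S.Arc → (Module.End R V)ˣ) : R :=
  LinearMap.det (S.alexMap w ρ)

theorem alexMap_apply (S : Sk n) (w : S.W) (ρ : S.Arc → (Module.End R V)ˣ) (v : S.E → V)
    (e : S.E) : S.alexMap w ρ v e = v e - ((FreeGroup.lift ρ (w e))⁻¹ : (Module.End R V)ˣ).val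
      (extend n S.E R V v (S.src e) + ((ρ (S.src e)).val (foxF ρ (w e) (extend n S.E R V v))
        - foxF ρ (w e) (extend n S.E R V v))) := by
  simp [alexMap]

end Alexander

end Sk

/-- moves of word diagrams; `comm` corresponds to surgery -/
inductive WStep {n : ℕ} (m : ℕ) : WD n → WD n → Prop
  | rename (S S' : Sk n) (φ : S.E ≃ S'.E) (h : ∀ e, S'.src (φ e) = Sum.map id φ (S.src e))
      (w : S.W) : WStep m ⟨S, w⟩ ⟨S', Sk.renW φ w⟩
  | mark (S : Sk n) (w : S.W) (a : S.Arc) : WStep m ⟨S, w⟩ ⟨S.mark a, S.markW a w⟩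
  | transfer (S : Sk n) (w : S.W) (e f : S.E) (u : FreeGroup S.Arc)
      (hef : S.src f = Sum.inr e) (hw : ∀ g, S.Unused (Sum.inr e) (w g))
      (hu : S.Unused (Sum.inr e) u) :
      WStep m ⟨S, w⟩ ⟨S, S.upd (S.upd w e (w e * u)) f (u⁻¹ * w f)⟩
  | kinkL (S : Sk n) (w : S.W) (e : S.E) :
      WStep m ⟨S, w⟩ ⟨S, S.upd w e (FreeGroup.of (S.src e) * w e)⟩
  | kinkR (S : Sk n) (w : S.W) (e : S.E) :
      WStep m ⟨S, w⟩ ⟨S, S.upd w e (w e * FreeGroup.of (Sum.inr e))⟩
  | slide (S : Sk n) (w : S.W) (e f : S.E) (hfe : f ≠ e) (g : FreeGroup S.Arc) :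
      WStep m ⟨S, w⟩ ⟨S, S.upd w e (w e * (g⁻¹ * S.rel w f * g))⟩
  | comm (S : Sk n) (w : S.W) (e : S.E) (c : FreeGroup S.Arc) (hc : c ∈ gam (FreeGroup S.Arc) m) :
      WStep m ⟨S, w⟩ ⟨S, S.upd w e (w e * c)⟩

/-- equivalence of word diagrams -/
def Eqv {n : ℕ} (m : ℕ) : WD n → WD n → Prop := EqvGen (WStep m)

theorem Eqv.refl {n m : ℕ} (X : WD n) : Eqv m X X := EqvGen.refl X

theorem Eqv.symm {n m : ℕ} {X Y : WD n} (h : Eqv m X Y) : Eqv m Y X := EqvGen.symm _ _ h

theorem Eqv.trans {n m : ℕ} {X Y Z : WD n} (h : Eqv m X Y) (h' : Eqv m Y Z) : Eqv m X Z :=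
  EqvGen.trans _ _ _ h h'

theorem Eqv.of_step {n m : ℕ} {X Y : WD n} (h : WStep m X Y) : Eqv m X Y := EqvGen.rel _ _ h

/-- the free nilpotent group `F_n / γ_(m+1)` -/
abbrev Ga (n m : ℕ) : Type := FreeGroup (Fin n) ⧸ gam (FreeGroup (Fin n)) m

/-- its generators -/
def xg (n m : ℕ) (i : Fin n) : Ga n m := QuotientGroup.mk (FreeGroup.of i)

/-- the two conditions of the classification, for word diagrams -/
def SameW {n : ℕ} (m : ℕ) (X X' : WD n) : Prop :=
  ∃ (η : X.S.Arc → Ga n m) (η' : X'.S.Arc → Ga n m),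
    X.S.IsCol X.w (xg n m) η ∧ X'.S.IsCol X'.w (xg n m) η' ∧
    (∀ j, ∃ a : ℤ, ∀ u u', X.S.IsLong X.w j u → X'.S.IsLong X'.w j u' →
      FreeGroup.lift η' u' = xg n m j ^ a * FreeGroup.lift η u) ∧
    ∃ a : Fin n → ℤ, ∀ (R : Type) [CommRing R] (t : R), t ^ (m + 1) = 0 → ∀ (r : ℕ)
      (ψ : Ga n m →* (Module.End R (Fin r → R))ˣ),
      (∀ i, ∃ M : Module.End R (Fin r → R), (ψ (xg n m i) : Module.End R (Fin r → R))
        = 1 + t • M) →
      X'.S.alex X'.w (fun a => ψ (η' a)) =
        ((∏ i, detU R (Fin r → R) (ψ (xg n m i)) ^ a i : Rˣ) : R) *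
          X.S.alex X.w (fun a => ψ (η a))

/-- what has to be shown for one move -/
def StepOK {n : ℕ} (m : ℕ) (X X' : WD n) : Prop :=
  ∀ η : X.S.Arc → Ga n m, X.S.IsCol X.w (xg n m) η →
    ∃ η' : X'.S.Arc → Ga n m, X'.S.IsCol X'.w (xg n m) η' ∧
    (∀ j, ∃ a : ℤ, ∀ u u', X.S.IsLong X.w j u → X'.S.IsLong X'.w j u' →
      FreeGroup.lift η' u' = xg n m j ^ a * FreeGroup.lift η u) ∧
    ∃ a : Fin n → ℤ, ∀ (R : Type) [CommRing R] (t : R), t ^ (m + 1) = 0 → ∀ (r : ℕ)
      (ψ : Ga n m →* (Module.End R (Fin r → R))ˣ),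
      (∀ i, ∃ M : Module.End R (Fin r → R), (ψ (xg n m i) : Module.End R (Fin r → R))
        = 1 + t • M) →
      X'.S.alex X'.w (fun a => ψ (η' a)) =
        ((∏ i, detU R (Fin r → R) (ψ (xg n m i)) ^ a i : Rˣ) : R) *
          X.S.alex X.w (fun a => ψ (η a))

/-- induction along the strands -/
theorem Sk.arc_induction {n : ℕ} (S : Sk n) {P : S.Arc → Prop} (h0 : ∀ i, P (Sum.inl i))
    (h1 : ∀ e, P (S.src e) → P (Sum.inr e)) : ∀ a, P a := by
  obtain ⟨r, hr⟩ := S.acyclic
  have key : ∀ k : ℕ, ∀ e, r e < k → P (Sum.inr e) := by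
    intro k
    induction k with
    | zero => intro e he; omega
    | succ k ih =>
      intro e he
      apply h1
      rcases hs : S.src e with i | f
      · exact h0 i
      · exact ih f (by have := hr e f hs; omega)
  intro a
  rcases a with i | e
  · exact h0 i
  · exact key (r e + 1) e (Nat.lt_succ_self _)

/-- recursion along the strands -/
theorem Sk.exists_rec {n : ℕ} (S : Sk n) {T : Type*} (b : Fin n → T) (f : S.E → T → T) :
    ∃ g : S.Arc → T, (∀ i, g (Sum.inl i) = b i) ∧ ∀ e, g (Sum.inr e) = f e (g (S.src e)) := by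
  obtain ⟨r, hr⟩ := S.acyclic
  have key : ∀ k : ℕ, ∃ g : S.Arc → T, (∀ i, g (Sum.inl i) = b i) ∧
      ∀ e, r e < k → g (Sum.inr e) = f e (g (S.src e)) := by
    intro k
    induction k with
    | zero =>
      classical
      by_cases hT : Nonempty T
      · obtain ⟨t⟩ := hT
        exact ⟨Sum.elim b (fun _ => t), fun i => rfl, fun e he => by omega⟩
      · have hE : ∀ e : S.E, False := by
          intro e
          have : ∀ a : S.Arc, False := by
            refine S.arc_induction ?_ ?_
            · intro i; exact hT ⟨b i⟩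
            · intro e h; exact h
          exact this (Sum.inr e)
        exact ⟨fun a => (Sum.elim (fun i => b i) (fun e => (hE e).elim) a), fun i => rfl,
          fun e he => (hE e).elim⟩
    | succ k ih =>
      obtain ⟨g, hg0, hg⟩ := ih
      classical
      refine ⟨fun a => Sum.elim b (fun e => f e (g (S.src e))) a, fun i => rfl, ?_⟩
      intro e he
      simp only [Sum.elim_inr]
      congr 1
      rcases hs : S.src e with i | e'
      · simp [hg0]
      · have h1 : r e' < k := by have := hr e e' hs; omega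
        simp only [Sum.elim_inr]
        exact hg e' h1
  have hfin := S.finite
  obtain ⟨k, hk⟩ : ∃ k, ∀ e, r e < k := by
    obtain ⟨M, hM⟩ := (Set.finite_range r).bddAbove
    exact ⟨M + 1, fun e => Nat.lt_succ_of_le (hM ⟨e, rfl⟩)⟩
  obtain ⟨g, hg0, hg⟩ := key k
  exact ⟨g, hg0, fun e => hg e (hk e)⟩

/-! ## Insertion at the bottom of a strand -/

/-- letters of the free group `FreeGroup (Option (Fin n))` at the run `e`: `some i` is the
bottom arc of the strand `i`, `none` is the arc just after `e` -/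
def letterMap {n : ℕ} (S : Sk n) (e : S.E) : Option (Fin n) → S.Arc
  | none => Sum.inr e
  | some i => Sum.inl i

/-- the old arcs in the skeleton `S.mark (Sum.inl j)`: the bottom arc `j` of `S` becomes
`Sum.inr none` -/
def up {n : ℕ} (S : Sk n) (j : Fin n) : S.Arc → Fin n ⊕ Option S.E
  | Sum.inl i => if i = j then Sum.inr none else Sum.inl i
  | Sum.inr e => Sum.inr (some e)

/-- the words after insertion of a run with word `c` at the bottom of the strand `j` -/
noncomputable def Sk.insW {n : ℕ} (S : Sk n) (j : Fin n) (c : FreeGroup (Option (Fin n))) (w : S.W) :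
    (S.mark (Sum.inl j)).W
  | none => FreeGroup.map (letterMap (S.mark (Sum.inl j)) none) c
  | some e => FreeGroup.map (up S j) (w e)

/-- subgroup generated by the relators of the runs other than `e` and `gam _ m` -/
def Nrel {n : ℕ} (S : Sk n) (w : S.W) (e : S.E) (m : ℕ) : Subgroup (FreeGroup S.Arc) :=
  Subgroup.normalClosure {g : FreeGroup S.Arc | ∃ f, f ≠ e ∧ g = S.rel w f} ⊔
    gam (FreeGroup S.Arc) m

/-- subgroup generated by the relator of the run `e` and `gam _ m` -/
def Nrel1 {n : ℕ} (S : Sk n) (w : S.W) (e : S.E) (m : ℕ) : Subgroup (FreeGroup S.Arc) :=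
  Subgroup.normalClosure {S.rel w e} ⊔ gam (FreeGroup S.Arc) m

/-- insertion of a run with word `c` at the bottom of the strand `j` -/
noncomputable def WD.ins {n : ℕ} (X : WD n) (j : Fin n) (c : FreeGroup (Option (Fin n))) : WD n :=
  ⟨X.S.mark (Sum.inl j), X.S.insW j c X.w⟩

theorem mark_src_some {n : ℕ} (S : Sk n) (j : Fin n) (e : S.E) :
    (S.mark (Sum.inl j)).src (some e) = up S j (S.src e) := by
  change markSrc S.src (Sum.inl j) (some e) = up S j (S.src e)
  rcases hs : S.src e with i | f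
  · simp [markSrc, up, hs]
  · simp [markSrc, up, hs]

theorem mark_src_none {n : ℕ} (S : Sk n) (a : S.Arc) :
    (S.mark a).src none = Sum.map id some a := rfl

/-- right-normed commutator `[z_1, [z_2, ... [z_k, g]...]]` -/
def rn {G : Type*} [Group G] (l : List G) (g : G) : G := l.foldr (fun z u => ⁅z, u⁆) g

/-- substitution `none ↦ some j` in the letters -/
def sub {n : ℕ} (j : Fin n) (o : Option (Fin n)) : Fin n := o.getD j

/-- the tree part of `c` at the strand `j` -/
def tree {n : ℕ} (m : ℕ) (j : Fin n) : FreeGroup (Option (Fin n)) →* Ga n m :=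
  FreeGroup.lift (fun o => xg n m (sub j o))

/-- the endomorphism by which the insertion of `c` at the strand `j` changes the Alexander map -/
noncomputable def kap {n : ℕ} {R : Type} [CommRing R] {V : Type} [AddCommGroup V] [Module R V]
    (j : Fin n) (ρ : Fin n → (Module.End R V)ˣ) (c : FreeGroup (Option (Fin n))) :
    Module.End R V :=
  ((ρ j).val - 1) ∘ₗ foxF (fun o => ρ (sub j o)) c ∘ₗ
    LinearMap.single R (fun _ : Option (Fin n) => V) none

/-- an abelian group acting on the classes of word diagrams that contains the insertions of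
elements of `gam _ m` -/
structure Act (n m : ℕ) where
  β : Type 1
  grp : AddCommGroup β
  act : β → Quot (WStep (n := n) (m + 1)) → Quot (WStep (n := n) (m + 1))
  b : Fin n → FreeGroup (Option (Fin n)) → β
  act_zero : ∀ q, act 0 q = q
  act_add : ∀ x y q, act (x + y) q = act x (act y q)
  faithful : ∀ x y, (∀ q, act x q = act y q) → x = y
  b_mul : ∀ j, ∀ c ∈ gam (FreeGroup (Option (Fin n))) m,
    ∀ c' ∈ gam (FreeGroup (Option (Fin n))) m, b j (c * c') = b j c + b j c'
  b_gam : ∀ j, ∀ c ∈ gam (FreeGroup (Option (Fin n))) (m + 1), b j c = 0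
  act_b : ∀ j, ∀ c ∈ gam (FreeGroup (Option (Fin n))) m, ∀ X : WD n,
    act (b j c) (Quot.mk _ X) = Quot.mk _ (X.ins j c)

attribute [instance] Act.grp

/-- the letters as elements of the free group -/
abbrev yy (n : ℕ) : FreeGroup (Option (Fin n)) := FreeGroup.of none
/-- the letters as elements of the free group -/
abbrev xx {n : ℕ} (i : Fin n) : FreeGroup (Option (Fin n)) := FreeGroup.of (some i)

/-- list of letters as list of elements -/
abbrev ofs {n : ℕ} (z : List (Option (Fin n))) : List (FreeGroup (Option (Fin n))) :=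
  z.map FreeGroup.of

/-- formal sums of words -/
abbrev Fs (n : ℕ) : Type := List (ℤ × List (Fin n))

/-- value of a formal sum -/
def Fs.ev {n : ℕ} {A : Type*} [AddCommGroup A] (f : List (Fin n) → A) (E : Fs n) : A :=
  (E.map fun p => p.1 • f p.2).sum

/-- the Lie polynomial `[l_1, [l_2, ... [l_k, z]...]]` as a formal sum of words -/
def ellF {n : ℕ} (z : Fin n) : List (Fin n) → Fs n
  | [] => [(1, [z])]
  | i :: l => ((ellF z l).map fun p => (p.1, i :: p.2)) ++
      (ellF z l).map fun p => (-p.1, p.2 ++ [i])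

/-- the coefficient of the letter `none` at the right end of the Lie polynomial of
`[l_1, [l_2, ... [l_k, z]...]]`, after the substitution `none ↦ j` -/
def Ee {n : ℕ} (j : Fin n) (z : Option (Fin n)) : List (Option (Fin n)) → Fs n
  | [] => if z = none then [(1, [])] else []
  | o :: l => ((Ee j z l).map fun p => (p.1, sub j o :: p.2)) ++
      (if o = none then (ellF (sub j z) (l.map (sub j))).map fun p => (-p.1, p.2) else [])

/-- the difference between the letters `none` and `some j` at the right end -/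
def wf {n : ℕ} {β : Type*} [AddCommGroup β] (b : Fin n → FreeGroup (Option (Fin n)) → β)
    (j : Fin n) (v : List (Option (Fin n))) : β :=
  b j (rn (ofs v) (yy n)) - b j (rn (ofs v) (xx j))

/-- the algebraic properties of the insertion elements `b j c`, `c ∈ gam _ m` -/
structure BData (n m : ℕ) (β : Type*) [AddCommGroup β]
    (b : Fin n → FreeGroup (Option (Fin n)) → β) : Prop where
  b_mul : ∀ j, ∀ c ∈ gam (FreeGroup (Option (Fin n))) m,
    ∀ c' ∈ gam (FreeGroup (Option (Fin n))) m, b j (c * c') = b j c + b j c'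
  b_gam : ∀ j, ∀ c ∈ gam (FreeGroup (Option (Fin n))) (m + 1), b j c = 0
  t1 : ∀ (i j : Fin n), i ≠ j → ∀ z : List (Option (Fin n)), z.length + 1 = m →
    b j (⁅xx i, rn (ofs (z.map fun o => some (sub i o))) (yy n)⁆ *
      ⁅xx i, rn (ofs (z.map fun o => some (sub i o))) (xx j)⁆⁻¹) =
    b i (rn (ofs z) ⁅xx j, yy n⁆ * (rn (ofs z) ⁅xx j, xx i⁆)⁻¹)
  t2 : ∀ (j : Fin n), ∀ z : List (Option (Fin n)), z.length + 1 = m →
    b j (⁅yy n, rn (ofs (z.map fun o => if o = some j then none else o)) (yy n)⁆ *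
      ⁅yy n, rn (ofs (z.map fun o => if o = some j then none else o)) (xx j)⁆⁻¹) =
    b j (rn (ofs z) ⁅xx j, yy n⁆)
  kink : m = 0 → ∀ j, b j (yy n) = 0 ∧ b j (xx j) = 0

end Pool.Agent.H61.Tu
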